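import Pool.Agent.S11.CntA

/-!
# Project S11: groups which act geometrically on acyclic complexes are countable
-/

set_option autoImplicit false

open Finset Pointwise

namespace Pool.Agent.S11

/-- a group with a proper cocompact action on an acyclic complex is countable -/
theorem countable_of_geom {V G : Type} [DecidableEq V] [Group G] [MulAction G V] {X : Set (Finset V)}
    (hG : IsGeomS G X) (hac : Pool.Agent.H37.TM.Acyc X) : Countable G := by
  obtain ⟨s, hs⟩ := nonempty_X hac
  exact hG.countable hs (countable_X hG hac)

end Pool.Agent.S11
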