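import Pool.Agent.S11.Br

/-!
# Project S11, bridge: the coboundary
-/

set_option autoImplicit false
set_option linter.unusedSectionVars false

open Finset Pointwise
open scoped TensorProduct

noncomputable section

namespace Pool.Agent.S11

open Pool.Agent.H37.TM (Rel IsCob)

variable {Γ U : Type} [Group Γ] [DecidableEq U] [MulAction Γ U] {K B : Set (Finset U)}
  {W : Type} [AddCommGroup W] [Module (ZMod 2) W]

theorem finite_cof (h : SCx Γ K B) {q : ℕ} (s : Sx K B q) : {t : Sx K B (q + 1) | s.1 ⊆ t.1}.Finite := by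
  refine Set.Finite.of_finite_image (f := Subtype.val) ?_ Subtype.val_injective.injOn
  refine (h.locfin s.1 s.2.1).subset ?_
  rintro _ ⟨t, ht, rfl⟩
  exact ⟨t.2.1, ht⟩

/-- the simplices around a simplex -/
def cof (h : SCx Γ K B) {q : ℕ} (s : Sx K B q) : Finset (Sx K B (q + 1)) := (finite_cof h s).toFinset

theorem mem_cof (h : SCx Γ K B) {q : ℕ} {s : Sx K B q} {t : Sx K B (q + 1)} : t ∈ cof h s ↔ s.1 ⊆ t.1 := by
  unfold cof
  rw [Set.Finite.mem_toFinset]
  rfl

/-- the coboundary of the compactly supported cochains -/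
def dC (h : SCx Γ K B) (q : ℕ) : (Sx K B q →₀ ZMod 2) →ₗ[ZMod 2] (Sx K B (q + 1) →₀ ZMod 2) :=
  Finsupp.lsum (ZMod 2) fun s => ∑ t ∈ cof h s, Finsupp.lsingle t

theorem dC_single (h : SCx Γ K B) (q : ℕ) (s : Sx K B q) (a : ZMod 2) :
    dC h q (Finsupp.single s a) = ∑ t ∈ cof h s, Finsupp.single t a := by
  unfold dC
  rw [Finsupp.lsum_single, LinearMap.sum_apply]
  rfl

theorem dC_smul (h : SCx Γ K B) (q : ℕ) (g : Γ) (x : Sx K B q →₀ ZMod 2) :
    dC h q (cRep h q g x) = cRep h (q + 1) g (dC h q x) := by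
  classical
  induction x using Finsupp.induction_linear with
  | zero => simp
  | add f f' hf hf' => rw [map_add, map_add, map_add, map_add, hf, hf']
  | single s a =>
    rw [cRep_single, dC_single, dC_single, map_sum]
    have h1 : cof h (smx h q g s) = (cof h s).image (smx h (q + 1) g) := by
      ext t
      rw [mem_cof, mem_image]
      constructor
      · intro h1
        refine ⟨smx h (q + 1) g⁻¹ t, (mem_cof h).2 ?_, Subtype.ext (smul_inv_smul g t.1)⟩
        show s.1 ⊆ g⁻¹ • t.1
        have h2 : g⁻¹ • (g • s.1) ⊆ g⁻¹ • t.1 := smul_finset_subset_smul_finset h1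
        rwa [inv_smul_smul] at h2
      · rintro ⟨t', h1, rfl⟩
        exact smul_finset_subset_smul_finset ((mem_cof h).1 h1)
    rw [h1, sum_image]
    · exact sum_congr rfl fun t _ => (cRep_single h _ g t a).symm
    · intro a _ b _ hab
      have h2 := congrArg Subtype.val hab
      exact Subtype.ext (smul_left_cancel g h2)

/-- the subsets of a simplex in the orbit of `s` -/
theorem finite_sub (h : SCx Γ K B) {s : Finset U} (hs : s ∈ K) (t : Finset U) : {g : Γ | g • s ⊆ t}.Finite := by
  refine Set.Finite.of_finite_image (f := fun g => g • s) ?_ ?_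
  · refine (t.powerset : Finset (Finset U)).finite_toSet.subset ?_
    rintro _ ⟨g, hg, rfl⟩
    exact mem_coe.2 (mem_powerset.2 hg)
  · intro a _ b _ hab
    have h1 : b⁻¹ * a = 1 := by
      refine h.free _ s hs ?_
      rw [mul_smul]
      have h2 : a • s = b • s := hab
      rw [h2, inv_smul_smul]
    exact (inv_mul_eq_one.1 h1).symm

/-- the coboundary of the elementary equivariant cochain -/
theorem isCb_orb (h : SCx Γ K B) (τ : Representation (ZMod 2) Γ W) {q : ℕ} (s : Sx K B q) (w : W) :
    IsCb K B (orb τ s.1 w) (∑ t ∈ cof h s, orb τ t.1 w) := by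
  classical
  intro t ht ht'
  obtain ⟨F, hF⟩ : ∃ F : Finset Γ, ∀ g, g ∈ F ↔ g • s.1 ⊆ t := ⟨(finite_sub h s.2.1 t).toFinset, fun g => by
    rw [Set.Finite.mem_toFinset]; rfl⟩
  have h1 : ∀ v ∈ t, orb τ s.1 w (t.erase v) = ∑ g ∈ F, if g • s.1 = t.erase v then τ g w else 0 := fun v _ =>
    orb_sum h τ s.2.1 w fun g hg => (hF g).2 (hg ▸ erase_subset v t)
  have h2 : ∀ t' ∈ cof h s, orb τ t'.1 w t = ∑ g ∈ F, if g • t'.1 = t then τ g w else 0 := fun t' ht' =>
    orb_sum h τ t'.2.1 w fun g hg => (hF g).2 (hg ▸ smul_finset_subset_smul_finset ((mem_cof h).1 ht'))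
  have hL : ∑ v ∈ t, orb τ s.1 w (t.erase v) = ∑ g ∈ F, ∑ v ∈ t, if g • s.1 = t.erase v then τ g w else 0 := by
    rw [sum_congr rfl h1, sum_comm]
  have hR : (∑ t' ∈ cof h s, orb τ t'.1 w) t = ∑ g ∈ F, ∑ t' ∈ cof h s, if g • t'.1 = t then τ g w else 0 := by
    rw [Finset.sum_apply, sum_congr rfl h2, sum_comm]
  rw [hL, hR]
  refine sum_congr rfl fun g hg => ?_
  rw [hF] at hg
  rw [← sum_filter, ← sum_filter, sum_const, sum_const]
  congr 1
  by_cases hc : t.card = q + 1
  · have hgc : (g • s.1).card = q := (h.smul_mem g s.2).2.2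
    -- the unique vertex
    obtain ⟨v, hv, hv'⟩ : ∃ v ∈ t, g • s.1 = t.erase v := by
      have h3 : (t \ g • s.1).card = 1 := by
        rw [card_sdiff_of_subset hg, hc, hgc]
        omega
      obtain ⟨v, hv⟩ := card_eq_one.1 h3
      have h4 : v ∈ t \ g • s.1 := by rw [hv]; exact mem_singleton_self v
      rw [mem_sdiff] at h4
      refine ⟨v, h4.1, ?_⟩
      refine eq_of_subset_of_card_le (fun u hu => mem_erase.2 ⟨fun h5 => h4.2 (h5 ▸ hu), hg hu⟩) ?_
      rw [card_erase_of_mem h4.1, hc, hgc]
      omega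
    have h3 : t.filter (fun v => g • s.1 = t.erase v) = {v} := by
      ext u
      rw [mem_filter, mem_singleton]
      constructor
      · rintro ⟨h4, h5⟩
        by_contra h6
        rw [hv'] at h5
        have h7 : u ∈ t.erase v := mem_erase.2 ⟨h6, h4⟩
        rw [h5] at h7
        exact notMem_erase u t h7
      · rintro rfl
        exact ⟨hv, hv'⟩
    have h4 : (cof h s).filter (fun t' => g • t'.1 = t) = {⟨g⁻¹ • t, h.smul_mem g⁻¹ ⟨ht, ht', hc⟩⟩} := by
      ext t'
      rw [mem_filter, mem_singleton, mem_cof]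
      constructor
      · rintro ⟨h4, h5⟩
        refine Subtype.ext ?_
        show t'.1 = g⁻¹ • t
        rw [← h5, inv_smul_smul]
      · rintro rfl
        refine ⟨?_, smul_inv_smul g t⟩
        show s.1 ⊆ g⁻¹ • t
        have h6 : g⁻¹ • (g • s.1) ⊆ g⁻¹ • t := smul_finset_subset_smul_finset hg
        rwa [inv_smul_smul] at h6
    rw [h3, h4, card_singleton, card_singleton]
  · have h3 : t.filter (fun v => g • s.1 = t.erase v) = ∅ := by
      rw [filter_eq_empty_iff]
      intro v hv h4
      have h5 := (h.smul_mem g s.2).2.2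
      rw [h4, card_erase_of_mem hv] at h5
      have := card_pos.2 ⟨v, hv⟩
      omega
    have h4 : (cof h s).filter (fun t' => g • t'.1 = t) = ∅ := by
      rw [filter_eq_empty_iff]
      intro t' _ h4
      have h5 := t'.2.2.2
      rw [← h4, card_smul_finset] at hc
      exact hc h5
    rw [h3, h4]
    rfl

/-- the coboundary of the equivariant cochains -/
theorem isCb_phi (h : SCx Γ K B) (τ : Representation (ZMod 2) Γ W) {q : ℕ} (x : (Sx K B q →₀ ZMod 2) ⊗[ZMod 2] W) :
    IsCb K B (phi K B τ q (TensorProduct.finsuppScalarLeft (ZMod 2) W (Sx K B q) x))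
      (phi K B τ (q + 1) (TensorProduct.finsuppScalarLeft (ZMod 2) W (Sx K B (q + 1)) ((dC h q).rTensor W x))) := by
  induction x using TensorProduct.induction_on with
  | zero =>
    simp only [map_zero]
    intro t _ _
    exact sum_eq_zero fun v _ => rfl
  | add x y hx hy =>
    simp only [map_add]
    exact hx.add hy
  | tmul f w =>
    induction f using Finsupp.induction_linear with
    | zero =>
      simp only [TensorProduct.zero_tmul, map_zero]
      intro t _ _
      exact sum_eq_zero fun v _ => rfl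
    | add f g hf hg =>
      simp only [TensorProduct.add_tmul, map_add]
      exact hf.add hg
    | single s a =>
      rw [LinearMap.rTensor_tmul, dC_single, TensorProduct.sum_tmul, map_sum, map_sum]
      simp only [TensorProduct.finsuppScalarLeft_apply_tmul, Finsupp.sum_single_index, zero_smul, Finsupp.single_zero,
        phi_single]
      exact isCb_orb h τ s (a • w)

/-- extension by zero -/
def ext0 {q : ℕ} (f : Sx K B q → ZMod 2) (s : Finset U) : ZMod 2 := by
  classical
  exact if hs : s ∈ K ∧ s ∉ B ∧ s.card = q then f ⟨s, hs⟩ else 0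

theorem ext0_mem {q : ℕ} (f : Sx K B q → ZMod 2) (s : Sx K B q) : ext0 f s.1 = f s := by
  unfold ext0
  rw [dif_pos s.2]

theorem ext0_supp {q : ℕ} {f : Sx K B q → ZMod 2} {s : Finset U} (h : ext0 f s ≠ 0) : s ∈ K ∧ s ∉ B ∧ s.card = q := by
  unfold ext0 at h
  by_contra h1
  exact h (dif_neg h1)

/-- the coboundary in coordinates -/
theorem dC_apply (h : SCx Γ K B) (q : ℕ) (f : Sx K B q →₀ ZMod 2) (t : Sx K B (q + 1)) :
    dC h q f t = ∑ v ∈ t.1, ext0 f (t.1.erase v) := by
  classical
  induction f using Finsupp.induction_linear with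
  | zero =>
    rw [map_zero]
    symm
    refine sum_eq_zero fun v _ => ?_
    unfold ext0
    split_ifs <;> rfl
  | add f g hf hg =>
    rw [map_add, Finsupp.add_apply, hf, hg, ← sum_add_distrib]
    refine sum_congr rfl fun v _ => ?_
    unfold ext0
    split_ifs <;> simp
  | single s a =>
    rw [dC_single, Finsupp.finsetSum_apply]
    simp only [Finsupp.single_apply]
    rw [← sum_filter, sum_const]
    have h1 : ∀ v ∈ t.1, ext0 (Finsupp.single s a) (t.1.erase v) = if t.1.erase v = s.1 then a else 0 := by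
      intro v _
      unfold ext0
      split_ifs with h1 h2 h2
      · rw [Finsupp.single_apply, if_pos (Subtype.ext h2.symm)]
      · rw [Finsupp.single_apply, if_neg]
        intro h3
        exact h2 (congrArg Subtype.val h3).symm
      · exact absurd (h2 ▸ s.2) h1
      · rfl
    rw [sum_congr rfl h1, ← sum_filter, sum_const]
    congr 1
    by_cases h2 : s.1 ⊆ t.1
    · obtain ⟨v, hv, hv'⟩ : ∃ v ∈ t.1, s.1 = t.1.erase v := by
        have h3 : (t.1 \ s.1).card = 1 := by
          rw [card_sdiff_of_subset h2, t.2.2.2, s.2.2.2]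
          omega
        obtain ⟨v, hv⟩ := card_eq_one.1 h3
        have h4 : v ∈ t.1 \ s.1 := by rw [hv]; exact mem_singleton_self v
        rw [mem_sdiff] at h4
        refine ⟨v, h4.1, ?_⟩
        refine eq_of_subset_of_card_le (fun u hu => mem_erase.2 ⟨fun h5 => h4.2 (h5 ▸ hu), h2 hu⟩) ?_
        rw [card_erase_of_mem h4.1, t.2.2.2, s.2.2.2]
        omega
      have h3 : (cof h s).filter (fun t' => t' = t) = {t} := by
        ext t'
        rw [mem_filter, mem_singleton, mem_cof]
        exact ⟨fun h => h.2, fun h => ⟨h ▸ h2, h⟩⟩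
      have h4 : t.1.filter (fun v => t.1.erase v = s.1) = {v} := by
        ext u
        rw [mem_filter, mem_singleton]
        constructor
        · rintro ⟨h4, h5⟩
          by_contra h6
          have h7 : u ∈ t.1.erase v := mem_erase.2 ⟨h6, h4⟩
          rw [← hv', ← h5] at h7
          exact notMem_erase u _ h7
        · rintro rfl
          exact ⟨hv, hv'.symm⟩
      rw [h3, h4, card_singleton, card_singleton]
    · have h3 : (cof h s).filter (fun t' => t' = t) = ∅ := by
        rw [filter_eq_empty_iff]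
        rintro t' h4 rfl
        exact h2 ((mem_cof h).1 h4)
      have h4 : t.1.filter (fun v => t.1.erase v = s.1) = ∅ := by
        rw [filter_eq_empty_iff]
        intro v _ h4
        exact h2 (h4 ▸ erase_subset v t.1)
      rw [h3, h4]
      rfl

/-- the extension by zero of the coboundary is the coboundary of the extension by zero -/
theorem ext0_dC (h : SCx Γ K B) (q : ℕ) (f : Sx K B q →₀ ZMod 2) {t : Finset U} (ht : t ∈ K) (ht' : t ∉ B) :
    ∑ v ∈ t, ext0 f (t.erase v) = ext0 (dC h q f) t := by
  by_cases hc : t.card = q + 1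
  · have h1 := ext0_mem (dC h q f) ⟨t, ht, ht', hc⟩
    have h2 := dC_apply h q f ⟨t, ht, ht', hc⟩
    exact (h1.trans h2).symm
  · have h1 : ext0 (dC h q f) t = 0 := by
      by_contra h1
      exact hc (ext0_supp h1).2.2
    rw [h1]
    refine sum_eq_zero fun v hv => ?_
    by_contra h2
    have h3 := (ext0_supp h2).2.2
    rw [card_erase_of_mem hv] at h3
    have := card_pos.2 ⟨v, hv⟩
    omega

theorem dC_dC (h : SCx Γ K B) (q : ℕ) (f : Sx K B q →₀ ZMod 2) : dC h (q + 1) (dC h q f) = 0 := by
  ext t
  rw [dC_apply, Finsupp.coe_zero, Pi.zero_apply]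
  have h1 : ∀ v ∈ t.1, ext0 (dC h q f) (t.1.erase v) = ∑ w ∈ t.1.erase v, ext0 f ((t.1.erase v).erase w) := by
    intro v hv
    rcases (t.1.erase v).eq_empty_or_nonempty with h0 | h0
    · rw [h0, sum_empty]
      by_contra h2
      exact absurd (h.ne _ (ext0_supp h2).1) (by simp)
    · have h2 := h.down t.1 t.2.1 _ (erase_subset v t.1) h0
      by_cases h3 : t.1.erase v ∈ B
      · have h4 : ext0 (dC h q f) (t.1.erase v) = 0 := by
          by_contra h4
          exact (ext0_supp h4).2.1 h3
        rw [h4]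
        symm
        refine sum_eq_zero fun w _ => ?_
        by_contra h5
        obtain ⟨h6, h7, -⟩ := ext0_supp h5
        exact h7 (h.bd_down _ h3 _ (erase_subset _ _) (h.ne _ h6))
      · exact (ext0_dC h q f h2 h3).symm
  rw [sum_congr rfl h1, sum_sum_erase]

/-- the compactly supported cochains are exact -/
theorem dC_exact (h : SCx Γ K B) (q : ℕ)
    (hex : ∀ f : Finset U →₀ ZMod 2, Rel K B ∅ (q + 1) f → IsCob K B ∅ f 0 → ∃ g : Finset U →₀ ZMod 2, Rel K B ∅ q g ∧ IsCob K B ∅ g f) :
    Function.Exact (dC h q) (dC h (q + 1)) := by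
  classical
  intro y
  constructor
  · intro hy
    set F : Finset U →₀ ZMod 2 := Finsupp.embDomain ⟨Subtype.val, Subtype.val_injective⟩ y with hF
    have h1 : ∀ s, F s = ext0 y s := by
      intro s
      by_cases hs : s ∈ K ∧ s ∉ B ∧ s.card = q + 1
      · have h2 := ext0_mem y ⟨s, hs⟩
        have h3 := Finsupp.embDomain_apply_self (⟨Subtype.val, Subtype.val_injective⟩ : Sx K B (q + 1) ↪ Finset U) y ⟨s, hs⟩
        exact h3.trans h2.symm
      · have h2 : ext0 y s = 0 := by
          by_contra h2
          exact hs (ext0_supp h2)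
        rw [h2, hF]
        refine Finsupp.embDomain_of_notMem_range _ _ _ ?_
        rintro ⟨s', rfl⟩
        exact hs s'.2
    obtain ⟨g, hg1, hg2⟩ := hex F (fun t ht => by
        rw [h1] at ht
        obtain ⟨h2, h3, h4⟩ := ext0_supp ht
        exact ⟨h2, h3, empty_subset _, h4⟩) (fun t ht ht' _ => by
        rw [sdiff_empty]
        simp only [h1]
        rw [ext0_dC h (q + 1) y ht ht', hy]
        unfold ext0
        split_ifs <;> rfl)
    refine ⟨g.comapDomain Subtype.val Subtype.val_injective.injOn, ?_⟩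
    have h2 : ∀ s, ext0 (g.comapDomain Subtype.val Subtype.val_injective.injOn : Sx K B q →₀ ZMod 2) s = g s := by
      intro s
      by_cases hs : s ∈ K ∧ s ∉ B ∧ s.card = q
      · rw [ext0_mem _ ⟨s, hs⟩]
        rfl
      · have h3 : g s = 0 := by
          by_contra h3
          obtain ⟨h4, h5, -, h6⟩ := hg1 s h3
          exact hs ⟨h4, h5, h6⟩
        rw [h3]
        by_contra h4
        exact hs (ext0_supp h4)
    ext t
    rw [dC_apply]
    simp only [h2]
    have h3 := hg2 t.1 t.2.1 t.2.2.1 (empty_subset _)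
    rw [sdiff_empty] at h3
    rw [h3, h1, ext0_mem]
  · rintro ⟨x, rfl⟩
    exact dC_dC h q x

/-- **Flat representations give exact complexes of equivariant cochains.** -/
theorem exactAt_of_flat (h : SCx Γ K B) {τ : Representation (ZMod 2) Γ W} (hτ : Flat τ) (q : ℕ)
    (hex : ∀ f : Finset U →₀ ZMod 2, Rel K B ∅ (q + 1) f → IsCob K B ∅ f 0 → ∃ g : Finset U →₀ ZMod 2, Rel K B ∅ q g ∧ IsCob K B ∅ g f) :
    ExactAt K B τ q := by
  intro c hc1 hc2
  obtain ⟨x', hx'⟩ := phi_surj h τ hc1
  set x := (TensorProduct.finsuppScalarLeft (ZMod 2) W (Sx K B (q + 1))).symm x' with hx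
  have h1 : TensorProduct.finsuppScalarLeft (ZMod 2) W (Sx K B (q + 1)) x = x' := LinearEquiv.apply_symm_apply _ _
  have h2 : (dC h (q + 1)).rTensor W x ∈ Kr ((cRep h (q + 1 + 1)).tprod τ) ⊤ := by
    refine phi_ker h τ _ ?_
    have h3 := isCb_phi h τ x
    rw [h1, hx'] at h3
    funext t
    by_cases ht : t ∈ K ∧ t ∉ B
    · rw [← h3 t ht.1 ht.2, hc2 t ht.1 ht.2]
    · by_contra h4
      have h5 := (eqC_phi h τ (TensorProduct.finsuppScalarLeft (ZMod 2) W (Sx K B (q + 1 + 1)) ((dC h (q + 1)).rTensor W x))).supp t h4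
      exact ht ⟨h5.1, h5.2.1⟩
  obtain ⟨u, hu⟩ := hτ.exact (ρ := cRep h q) (ρ' := cRep h (q + 1)) (ρ'' := cRep h (q + 1 + 1)) (f := dC h q) (p := dC h (q + 1))
    (fun g x => dC_smul h q g x) (fun g x => dC_smul h (q + 1) g x) (dC_exact h q hex) h2
  have h3 : ∀ y : (Sx K B (q + 1) →₀ ZMod 2) ⊗[ZMod 2] W, y ∈ Kr ((cRep h (q + 1)).tprod τ) ⊤ →
      phi K B τ (q + 1) (TensorProduct.finsuppScalarLeft (ZMod 2) W (Sx K B (q + 1)) y) = 0 := by
    intro y hy
    unfold Kr at hy
    induction hy using Submodule.span_induction with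
    | zero => rw [map_zero, map_zero]
    | add a b _ _ ha hb => rw [map_add, map_add, ha, hb, add_zero]
    | smul a b _ hb => rw [map_smul, map_smul, hb, smul_zero]
    | mem y hy =>
      obtain ⟨g, -, z, rfl⟩ := hy
      rw [map_sub, map_sub, sub_eq_zero]
      induction z using TensorProduct.induction_on with
      | zero => rw [map_zero]
      | add a b ha hb => rw [map_add, map_add, map_add, map_add, map_add, ha, hb]
      | tmul f w =>
        rw [Representation.tprod_apply, TensorProduct.map_tmul]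
        induction f using Finsupp.induction_linear with
        | zero => rw [map_zero, TensorProduct.zero_tmul, TensorProduct.zero_tmul]
        | add f f' hf hf' =>
          rw [map_add, TensorProduct.add_tmul, TensorProduct.add_tmul, map_add, map_add, map_add, map_add, hf, hf']
        | single s a =>
          rw [cRep_single]
          simp only [TensorProduct.finsuppScalarLeft_apply_tmul, Finsupp.sum_single_index, zero_smul, Finsupp.single_zero,
            phi_single]
          rw [← map_smul]
          funext t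
          by_cases h5 : ∃ g' : Γ, g' • s.1 = t
          · obtain ⟨g', rfl⟩ := h5
            rw [orb_of h τ s.2.1]
            have h6 : g' • s.1 = (g' * g⁻¹) • (g • s.1) := by rw [mul_smul, inv_smul_smul]
            rw [h6]
            show orb τ (g • s.1) _ _ = _
            rw [orb_of h τ (h.K_mem g _ s.2.1), ← Module.End.mul_apply, ← map_mul, inv_mul_cancel_right]
          · rw [orb_not τ h5]
            refine orb_not τ (fun ⟨g', hg'⟩ => h5 ⟨g' * g, ?_⟩) _
            rw [mul_smul]
            exact hg'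
  refine ⟨phi K B τ q (TensorProduct.finsuppScalarLeft (ZMod 2) W (Sx K B q) u), eqC_phi h τ _, ?_⟩
  have h4 := isCb_phi h τ u
  have h5 := h3 _ hu
  rw [map_sub, map_sub, sub_eq_zero, h1, hx'] at h5
  rw [h5]
  exact h4

end Pool.Agent.S11
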