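import Pool.Agent.S11.SqDefs
import Pool.Agent.S10.DuMain

/-!
# Project S11, block END: definitions and stubs of the statements

`X` = a simplicial complex on `V` (acyclic over the field of two elements, free action), `(K, B)` = the pair of dimension `n`
on `U`.  `ChMaps` = chain maps `F` (chains of `X` to relative cochains with compact support of `(K, B)`), `G` (back), and a
homotopy `h` from `G F` to the identity.
-/

set_option autoImplicit false
set_option linter.unusedSectionVars false

open Finset Pointwise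

namespace Pool.Agent.S11

open Pool.Agent.H37.TM

section

variable {Γ V U : Type} [Group Γ] [DecidableEq V] [MulAction Γ V] [DecidableEq U] [MulAction Γ U]

/-- chain maps between the chains of `X` and the cochains with compact support of `(K, B)`, and a homotopy.
The empty simplex is not a chain: all equations between chains of `X` are evaluated at nonempty `s'`. -/
structure ChMaps (Γ : Type) [Group Γ] [MulAction Γ V] [MulAction Γ U] (X : Set (Finset V)) (K B : Set (Finset U))
    (n : ℕ) (F : Finset V → (Finset U →₀ ZMod 2)) (G : Finset U → (Finset V →₀ ZMod 2))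
    (h : Finset V → (Finset V →₀ ZMod 2)) : Prop where
  F_smul : ∀ (g : Γ), ∀ s ∈ X, F (g • s) = (F s).mapDomain (g • ·)
  G_smul : ∀ (g : Γ), ∀ t ∈ K, t ∉ B → G (g • t) = (G t).mapDomain (g • ·)
  h_smul : ∀ (g : Γ), ∀ s ∈ X, h (g • s) = (h s).mapDomain (g • ·)
  F_supp : ∀ s ∈ X, ∀ t, F s t ≠ 0 → t ∈ K ∧ t ∉ B ∧ t.card + s.card = n + 2
  G_supp : ∀ t ∈ K, t ∉ B → ∀ s, G t s ≠ 0 → s ∈ X ∧ s.card + t.card = n + 2
  h_supp : ∀ s ∈ X, ∀ s', h s s' ≠ 0 → s' ∈ X ∧ s'.card = s.card + 1
  F_empty : F ∅ = 0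
  h_empty : h ∅ = 0
  /-- `F` is a chain map: the coboundary of `F s` is `F` of the boundary of `s` -/
  F_bd : ∀ s ∈ X, ∀ t ∈ K, t ∉ B → ∑ v ∈ t, F s (t.erase v) = ∑ v ∈ s, F (s.erase v) t
  /-- `G` is a chain map: the boundary of `G f` is `G` of the coboundary `f'` of `f` -/
  G_bd : ∀ (q : ℕ) (f f' : Finset U →₀ ZMod 2), Rel K B ∅ q f → Rel K B ∅ (q + 1) f' → IsCob K B ∅ f f' →
    ∀ s' : Finset V, s'.Nonempty →
      bdS (Finsupp.linearCombination (ZMod 2) G f) s' = Finsupp.linearCombination (ZMod 2) G f' s'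
  /-- `h` is a homotopy from `G F` to the identity -/
  htpy : ∀ s ∈ X, ∀ s' : Finset V, s'.Nonempty →
    Finsupp.linearCombination (ZMod 2) G (F s) s' + Finsupp.single s (1 : ZMod 2) s' =
      bdS (h s) s' + ∑ v ∈ s, h (s.erase v) s'

end

end Pool.Agent.S11
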