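import Pool.Agent.S10.DuDefs
import Pool.Agent.H37.TM.Tot

/-!
# Project S11, block END: homology manifolds are duality pairs

`f` a cocycle with finite support on the simplices with `j + 1` vertices.  For a linear order of the vertices the
chain `z (s, t) = f ({max s} ∪ (t - s))`, `s` an initial segment of `t`, is a cycle of the complex of the pairs; it
is the boundary of a chain `b`, and `g t = ∑ b ({v}, t)` has the coboundary `f`.
-/

set_option autoImplicit false
set_option linter.unusedSectionVars false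

open Finset

namespace Pool.Agent.S11

open Pool.Agent.H37.TM Pool.Agent.S10

variable {U : Type} [DecidableEq U] {K B : Set (Finset U)} {n : ℕ}

section

variable {O : Type} [LinearOrder O] (ht : U → O)

open Classical in
/-- the last vertex of a simplex -/
private noncomputable def mx (s : Finset U) (u0 : U) : U :=
  if h : s.Nonempty then (exists_max_image s ht h).choose else u0

private theorem mx_spec {s : Finset U} (h : s.Nonempty) (u0 : U) :
    mx ht s u0 ∈ s ∧ ∀ u ∈ s, ht u ≤ ht (mx ht s u0) := by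
  unfold mx
  rw [dif_pos h]
  exact (exists_max_image s ht h).choose_spec

private theorem mx_eq (hinj : Function.Injective ht) {s : Finset U} {m : U} (hm : m ∈ s) (h : ∀ u ∈ s, ht u ≤ ht m)
    (u0 : U) : mx ht s u0 = m := by
  obtain ⟨h1, h2⟩ := mx_spec ht ⟨m, hm⟩ u0
  exact hinj (le_antisymm (h _ h1) (h2 _ hm))

open Classical in
/-- the cycle of the pairs -/
private noncomputable def cyc (K : Set (Finset U)) (f : Finset U → ZMod 2) (u0 : U) (p : Finset U × Finset U) :
    ZMod 2 :=
  if p.1.Nonempty ∧ p.1 ⊆ p.2 ∧ p.2 ∈ K ∧ ∀ v ∈ p.2 \ p.1, ht (mx ht p.1 u0) < ht v then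
    f (insert (mx ht p.1 u0) (p.2 \ p.1)) else 0

private theorem cyc_of {f : Finset U → ZMod 2} {u0 : U} {s t : Finset U} (h1 : s.Nonempty) (h2 : s ⊆ t) (h3 : t ∈ K)
    (h4 : ∀ v ∈ t \ s, ht (mx ht s u0) < ht v) : cyc ht K f u0 (s, t) = f (insert (mx ht s u0) (t \ s)) := by
  unfold cyc
  rw [if_pos ⟨h1, h2, h3, h4⟩]

private theorem cyc_not {f : Finset U → ZMod 2} {u0 : U} {s t : Finset U}
    (h4 : ¬ ∀ v ∈ t \ s, ht (mx ht s u0) < ht v) : cyc ht K f u0 (s, t) = 0 := by
  unfold cyc
  rw [if_neg fun h => h4 h.2.2.2]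

private theorem cyc_ne {f : Finset U → ZMod 2} {u0 : U} {p : Finset U × Finset U} (h : cyc ht K f u0 p ≠ 0) :
    (p.1.Nonempty ∧ p.1 ⊆ p.2 ∧ p.2 ∈ K ∧ ∀ v ∈ p.2 \ p.1, ht (mx ht p.1 u0) < ht v) ∧
      f (insert (mx ht p.1 u0) (p.2 \ p.1)) ≠ 0 := by
  unfold cyc at h
  split_ifs at h with h1
  · exact ⟨h1, h⟩
  · exact absurd rfl h

/-- the chain is a cycle of degree `n - j` -/
private theorem cyc_tot (M : TotX.MX U n) {f : Finset U →₀ ZMod 2} {j k : ℕ} (hk : j + k = n)
    (hf : ∀ t, f t ≠ 0 → t ∈ M.faces ∧ t ∉ M.bd ∧ t.card = j + 1) (u0 : U) :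
    M.IsTot k (cyc ht M.faces f u0) := by
  classical
  constructor
  · have h1 : Function.support (cyc ht M.faces f u0) ⊆ ⋃ T ∈ (f.support : Set (Finset U)),
        ⋃ t ∈ {t | t ∈ M.faces ∧ T ⊆ t}, (t.powerset : Set (Finset U)) ×ˢ {t} := by
      rintro ⟨s, t⟩ h
      obtain ⟨⟨h1, h2, h3, h4⟩, h5⟩ := cyc_ne ht h
      simp only at h1 h2 h3 h4 h5
      simp only [Set.mem_iUnion, exists_prop]
      refine ⟨_, Finset.mem_coe.2 (Finsupp.mem_support_iff.2 h5), t, ⟨h3, ?_⟩, ?_, rfl⟩
      · exact insert_subset (h2 (mx_spec ht h1 u0).1) sdiff_subset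
      · exact mem_coe.2 (mem_powerset.2 h2)
    refine Set.Finite.subset ?_ h1
    refine (finite_toSet _).biUnion fun T hT => ?_
    have hT' := hf T (Finsupp.mem_support_iff.1 hT)
    refine Set.Finite.biUnion (M.fin_up (M.ne T hT'.1)) fun t _ => ?_
    exact (finite_toSet _).prod (Set.finite_singleton _)
  · rintro ⟨s, t⟩ h
    obtain ⟨⟨h1, h2, h3, h4⟩, h5⟩ := cyc_ne ht h
    simp only at h1 h2 h3 h4 h5
    obtain ⟨g1, g2, g3⟩ := hf _ h5
    obtain ⟨m1, m2⟩ := mx_spec ht h1 u0
    have h6 : insert (mx ht s u0) (t \ s) ⊆ t := insert_subset (h2 m1) sdiff_subset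
    refine ⟨h1, h2, ⟨h3, fun hb => g2 (M.bd_down t hb _ h6 (insert_nonempty _ _))⟩, ?_⟩
    rw [card_insert_of_notMem (fun h => (mem_sdiff.1 h).2 m1)] at g3
    have h7 := card_sdiff_add_card_eq_card h2
    simp only
    omega

/-- the chain is a cycle -/
private theorem cyc_cycle (M : TotX.MX U n) (hinj : Function.Injective ht) {f : Finset U →₀ ZMod 2}
    (hf : ∀ t, f t ≠ 0 → t ∉ M.bd) (hc : ∀ t ∈ M.faces, t ∉ M.bd → ∑ v ∈ t, f (t.erase v) = 0) (u0 : U) :
    M.D (cyc ht M.faces f u0) = 0 := by
  classical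
  funext p
  obtain ⟨s, t⟩ := p
  by_cases h : s.Nonempty ∧ s ⊆ t ∧ t ∈ M.faces
  swap
  · rw [M.D_of_not h]
    rfl
  obtain ⟨h1, h2, h3⟩ := h
  rw [M.D_of h1 h2 h3]
  obtain ⟨m1, m2⟩ := mx_spec ht h1 u0
  set m := mx ht s u0 with hm
  have hface : ∀ w ∈ t \ s, t.erase w ∈ M.faces := fun w hw =>
    M.down t h3 _ (erase_subset _ _) (h1.mono (subset_erase.2 ⟨h2, (mem_sdiff.1 hw).2⟩))
  have hsub : ∀ w ∈ t \ s, s ⊆ t.erase w := fun w hw => subset_erase.2 ⟨h2, (mem_sdiff.1 hw).2⟩
  have e1 : ∀ w, t \ insert w s = (t \ s).erase w := by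
    intro w
    ext u
    simp only [mem_sdiff, mem_insert, mem_erase]
    tauto
  have e2 : ∀ w, t.erase w \ s = (t \ s).erase w := by
    intro w
    ext u
    simp only [mem_sdiff, mem_erase]
    tauto
  by_cases hQ : ∀ v ∈ t \ s, ht m < ht v
  · -- the initial segments
    have hterm : ∀ w ∈ t \ s, cyc ht M.faces f u0 (insert w s, t) + cyc ht M.faces f u0 (s, t.erase w) =
        (if ∀ v ∈ (t \ s).erase w, ht w < ht v then f (t \ s) else 0) + f ((insert m (t \ s)).erase w) := by
      intro w hw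
      have hw' := mem_sdiff.1 hw
      have hmw : m ≠ w := fun e => hw'.2 (e ▸ m1)
      have hmx : mx ht (insert w s) u0 = w := by
        refine mx_eq ht hinj (mem_insert_self _ _) (fun u hu => ?_) u0
        rcases mem_insert.1 hu with rfl | hu
        · exact le_rfl
        · exact (m2 u hu).trans (hQ w hw).le
      congr 1
      · split_ifs with hw2
        · rw [cyc_of ht (insert_nonempty _ _) (insert_subset hw'.1 h2) h3 (by rw [hmx, e1]; exact hw2), hmx, e1,
            insert_erase hw]
        · exact cyc_not ht (by rw [hmx, e1]; exact hw2)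
      · rw [cyc_of ht h1 (hsub w hw) (hface w hw) (fun v hv => hQ v (by
          rw [e2] at hv
          exact mem_of_mem_erase hv)), e2, ← hm, ← erase_insert_of_ne hmw]
    rw [sum_congr rfl hterm, sum_add_distrib]
    by_cases hne : (t \ s).Nonempty
    · obtain ⟨w0, hw0, hmin⟩ := exists_min_image (t \ s) ht hne
      have h4 : ∑ w ∈ t \ s, (if ∀ v ∈ (t \ s).erase w, ht w < ht v then f (t \ s) else 0) = f (t \ s) := by
        rw [sum_eq_single w0]
        · rw [if_pos]
          intro v hv
          exact lt_of_le_of_ne (hmin v (mem_of_mem_erase hv)) fun e => (ne_of_mem_erase hv) (hinj e).symm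
        · intro w hw hww
          rw [if_neg]
          intro h5
          exact absurd (h5 w0 (mem_erase.2 ⟨hww.symm, hw0⟩)) (not_lt.2 (hmin w hw))
        · intro h5
          exact absurd hw0 h5
      rw [h4]
      have hmn : m ∉ t \ s := fun h5 => (mem_sdiff.1 h5).2 m1
      have hT : insert m (t \ s) ∈ M.faces :=
        M.down t h3 _ (insert_subset (h2 m1) sdiff_subset) (insert_nonempty _ _)
      have h6 : ∑ v ∈ insert m (t \ s), f ((insert m (t \ s)).erase v) = 0 := by
        by_cases hb : insert m (t \ s) ∈ M.bd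
        · refine sum_eq_zero fun v hv => ?_
          by_contra h7
          refine hf _ h7 (M.bd_down _ hb _ (erase_subset _ _) ?_)
          rcases eq_or_ne v m with rfl | hvm
          · rw [erase_insert hmn]
            exact hne
          · exact ⟨m, mem_erase.2 ⟨hvm.symm, mem_insert_self _ _⟩⟩
        · exact hc _ hT hb
      rw [sum_insert hmn, erase_insert hmn] at h6
      rw [h6]
      rfl
    · rw [not_nonempty_iff_eq_empty] at hne
      rw [hne, sum_empty, sum_empty, add_zero]
      rfl
  · refine sum_eq_zero fun w hw => ?_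
    have hw' := mem_sdiff.1 hw
    rcases lt_or_ge (ht m) (ht w) with hlt | hge
    · have hmx : mx ht (insert w s) u0 = w := by
        refine mx_eq ht hinj (mem_insert_self _ _) (fun u hu => ?_) u0
        rcases mem_insert.1 hu with rfl | hu
        · exact le_rfl
        · exact (m2 u hu).trans hlt.le
      have h5 : ¬ ∀ v ∈ (t \ s).erase w, ht m < ht v := by
        intro h5
        apply hQ
        intro v hv
        rcases eq_or_ne v w with rfl | hvw
        · exact hlt
        · exact h5 v (mem_erase.2 ⟨hvw, hv⟩)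
      rw [cyc_not ht, cyc_not ht, add_zero]
      · rw [e2]
        exact h5
      · rw [hmx, e1]
        intro h6
        exact h5 fun v hv => hlt.trans (h6 v hv)
    · have hmx : mx ht (insert w s) u0 = m := by
        refine mx_eq ht hinj (mem_insert_of_mem m1) (fun u hu => ?_) u0
        rcases mem_insert.1 hu with rfl | hu
        · exact hge
        · exact m2 u hu
      by_cases h5 : ∀ v ∈ (t \ s).erase w, ht m < ht v
      · rw [cyc_of ht (insert_nonempty _ _) (insert_subset hw'.1 h2) h3 (by rw [hmx, e1]; exact h5),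
          cyc_of ht h1 (hsub w hw) (hface w hw) (by rw [e2]; exact h5), hmx, e1, e2, ← hm]
        exact TotX.zmod2_add_self _
      · rw [cyc_not ht (by rw [hmx, e1]; exact h5), cyc_not ht (by rw [e2]; exact h5), add_zero]

/-- the augmentation of the chain is `f` -/
private theorem cyc_aug (hinj : Function.Injective ht) {f : Finset U → ZMod 2} (u0 : U) {t : Finset U} (hK : t ∈ K)
    (hne : t.Nonempty) : ∑ v ∈ t, cyc ht K f u0 ({v}, t) = f t := by
  classical
  have hmx : ∀ v, mx ht ({v} : Finset U) u0 = v := fun v =>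
    mx_eq ht hinj (mem_singleton_self v) (fun u hu => by rw [mem_singleton.1 hu]) u0
  obtain ⟨w0, hw0, hmin⟩ := exists_min_image t ht hne
  rw [sum_eq_single w0]
  · rw [cyc_of ht (singleton_nonempty _) (singleton_subset_iff.2 hw0) hK, hmx, sdiff_singleton_eq_erase,
      insert_erase hw0]
    intro v hv
    rw [hmx]
    rw [sdiff_singleton_eq_erase] at hv
    exact lt_of_le_of_ne (hmin v (mem_of_mem_erase hv)) fun e => (ne_of_mem_erase hv) (hinj e).symm
  · intro w hw hww
    apply cyc_not
    intro h5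
    rw [hmx] at h5
    refine absurd (h5 w0 ?_) (not_lt.2 (hmin w hw))
    rw [sdiff_singleton_eq_erase]
    exact mem_erase.2 ⟨hww.symm, hw0⟩
  · intro h5
    exact absurd hw0 h5

end

/-- a cocycle whose cycle of pairs is a boundary is a coboundary -/
private theorem cob_of {M : TotX.MX U n} {f : Finset U → ZMod 2} {z b : Finset U × Finset U → ZMod 2} {j k : ℕ}
    (hk : j + k = n) (hz : ∀ t ∈ M.faces, ∑ v ∈ t, z ({v}, t) = f t) (hb : M.IsTot (k + 1) b) (hbz : M.D b = z) :
    ∃ g : Finset U →₀ ZMod 2, (∀ t, g t ≠ 0 → t ∈ M.faces ∧ t ∉ M.bd ∧ t.card = j) ∧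
      ∀ t ∈ M.faces, ∑ v ∈ t, g (t.erase v) = f t := by
  classical
  have hg0 : ∀ t, ∑ v ∈ t, b ({v}, t) ≠ 0 → ∃ v ∈ t, b ({v}, t) ≠ 0 := fun t h =>
    exists_ne_zero_of_sum_ne_zero h
  have hfin : (Function.support fun t : Finset U => ∑ v ∈ t, b ({v}, t)).Finite := by
    refine (hb.1.image Prod.snd).subset fun t h => ?_
    obtain ⟨v, -, hv⟩ := hg0 t h
    exact ⟨({v}, t), hv, rfl⟩
  refine ⟨Finsupp.ofSupportFinite _ hfin, fun t h => ?_, fun t h3 => ?_⟩
  · obtain ⟨v, -, hv⟩ := hg0 t h
    obtain ⟨-, -, g3, g4⟩ := hb.2 _ hv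
    simp only [card_singleton] at g4
    exact ⟨g3.1, g3.2, by omega⟩
  · rw [← hz t h3, ← hbz]
    have e1 : ∀ v ∈ t, M.D b ({v}, t) = ∑ w ∈ t.erase v, (b (insert w {v}, t) + b ({v}, t.erase w)) := by
      intro v hv
      rw [M.D_of (singleton_nonempty v) (singleton_subset_iff.2 hv) h3, sdiff_singleton_eq_erase]
    rw [sum_congr rfl e1]
    simp only [sum_add_distrib]
    rw [TotX.sum_pairs_symm t (fun v w => b (insert w {v}, t)) (fun v w => by
      show b (insert w {v}, t) = b (insert v {w}, t)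
      rw [pair_comm]), zero_add]
    have e2 : ∑ v ∈ t, ∑ w ∈ t.erase v, b ({v}, t.erase w) = ∑ w ∈ t, ∑ v ∈ t.erase w, b ({v}, t.erase w) := by
      refine sum_comm' fun v w => ?_
      simp only [mem_erase]
      tauto
    rw [e2]
    rfl

/-- homology manifolds are duality pairs -/
theorem dual_of_mfd (hM : Mfd K B n) (hK : AcycLt K (n + 1)) : Dual K B {t | t ∈ K ∧ t ∉ B ∧ t.card = n + 1} n (n + 1) := by
  classical
  obtain ⟨O, hO, ht, hinj⟩ : ∃ (O : Type) (_ : LinearOrder O) (ht : U → O), Function.Injective ht :=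
    ⟨U, linearOrderOfSTO WellOrderingRel, id, Function.injective_id⟩
  set M := toMX hM hK with hMdef
  obtain ⟨s0, hs0⟩ := M.nonempty
  obtain ⟨u0, hu0⟩ := M.ne s0 hs0
  -- the common part of `low` and `top`
  have main : ∀ j ≤ n, ∀ f : Finset U →₀ ZMod 2, Rel K B ∅ (j + 1) f → IsCob K B ∅ f 0 →
      (j = n → ∑ᶠ t ∈ {t | t ∈ K ∧ t ∉ B ∧ t.card = n + 1}, f t = 0) →
      ∃ g : Finset U →₀ ZMod 2, Rel K B ∅ j g ∧ IsCob K B ∅ g f := by
    intro j hj f hf hc hs
    obtain ⟨k, hk⟩ : ∃ k, j + k = n := ⟨n - j, by omega⟩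
    have hf' : ∀ t, f t ≠ 0 → t ∈ M.faces ∧ t ∉ M.bd ∧ t.card = j + 1 := fun t h =>
      ⟨(hf t h).1, (hf t h).2.1, (hf t h).2.2.2⟩
    have hc' : ∀ t ∈ M.faces, t ∉ M.bd → ∑ v ∈ t, f (t.erase v) = 0 := by
      intro t h1 h2
      have h3 := hc t h1 h2 (empty_subset _)
      rw [sdiff_empty] at h3
      exact h3
    have hz := cyc_tot ht M hk hf' u0
    have hD := cyc_cycle ht M hinj (fun t h => (hf' t h).2.1) hc' u0
    have haug : ∀ t ∈ M.faces, ∑ v ∈ t, cyc ht M.faces f u0 ({v}, t) = f t := fun t h =>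
      cyc_aug ht hinj u0 h (M.ne t h)
    obtain ⟨b, hb, hbz⟩ := M.exact k (show k + 1 ≤ n + 1 by omega) hz hD (by
      intro hk0
      have hjn : j = n := by omega
      have h1 : ∑ᶠ p, cyc ht M.faces f u0 p = ∑ t ∈ f.support, ∑ v ∈ t, cyc ht M.faces f u0 ({v}, t) := by
        rw [finsum_eq_sum_of_support_subset (s := f.support.biUnion fun t => t.image fun v => ({v}, t))]
        · rw [sum_biUnion]
          · refine sum_congr rfl fun t _ => ?_
            rw [sum_image]
            intro v _ w _ e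
            exact singleton_injective (Prod.mk.inj e).1
          · intro t _ t' _ hne
            rw [Function.onFun, disjoint_left]
            intro p hp hp'
            obtain ⟨v, -, rfl⟩ := mem_image.1 hp
            obtain ⟨w, -, e⟩ := mem_image.1 hp'
            exact hne (Prod.mk.inj e).2.symm
        · rintro ⟨s, t⟩ h
          have hg := hz.2 _ h
          obtain ⟨⟨g1, g2, g3, g4⟩, g5⟩ := cyc_ne ht h
          simp only at g1 g2 g3 g4 g5
          have h2 := hg.2.2.2
          simp only at h2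
          have h3 := M.card_le t g3
          have h4 := card_pos.2 g1
          have h5 : s.card = 1 := by omega
          obtain ⟨v, rfl⟩ := card_eq_one.1 h5
          have hmx : mx ht ({v} : Finset U) u0 = v :=
            mx_eq ht hinj (mem_singleton_self v) (fun u hu => by rw [mem_singleton.1 hu]) u0
          rw [hmx, sdiff_singleton_eq_erase, insert_erase (singleton_subset_iff.1 g2)] at g5
          rw [mem_coe, mem_biUnion]
          exact ⟨t, Finsupp.mem_support_iff.2 g5, mem_image.2 ⟨v, singleton_subset_iff.1 g2, rfl⟩⟩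
      rw [h1, sum_congr rfl fun t h => haug t (hf' t (Finsupp.mem_support_iff.1 h)).1, ← hs hjn]
      symm
      rw [finsum_mem_eq_sum_of_inter_support_eq]
      ext t
      simp only [Set.mem_inter_iff, Set.mem_ofPred_eq, Function.mem_support, mem_coe, Finsupp.mem_support_iff]
      constructor
      · rintro ⟨-, h⟩
        exact ⟨h, h⟩
      · rintro ⟨h, -⟩
        obtain ⟨g1, g2, g3⟩ := hf' t h
        exact ⟨⟨g1, g2, by rw [g3, hjn]⟩, h⟩)
    obtain ⟨g, hg, hg'⟩ := cob_of hk haug hb hbz
    refine ⟨g, fun t h => ⟨(hg t h).1, (hg t h).2.1, empty_subset _, (hg t h).2.2⟩, fun t h1 _ _ => ?_⟩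
    rw [sdiff_empty]
    exact hg' t h1
  exact
    { ne := hM.ne
      down := hM.down
      bd_sub := hM.bd_sub
      bd_down := hM.bd_down
      locfin := hM.locfin
      mu_sub := fun t h => h
      even := by
        intro s hs hB hc
        have h1 := hM.psm.even s hs hB hc
        have hset : {t | t ∈ {t | t ∈ K ∧ t ∉ B ∧ t.card = n + 1} ∧ s ⊆ t} = {t' | t' ∈ K ∧ s ⊆ t' ∧ t'.card = n + 1} := by
          ext t
          simp only [Set.mem_ofPred_eq]
          constructor
          · rintro ⟨⟨g1, g2, g3⟩, g4⟩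
            exact ⟨g1, g4, g3⟩
          · rintro ⟨g1, g2, g3⟩
            exact ⟨⟨g1, fun h => hB (hM.bd_down t h s g2 (hM.ne s hs)), g3⟩, g2⟩
        have hfin : {t' | t' ∈ K ∧ s ⊆ t' ∧ t'.card = n + 1}.Finite :=
          (hM.locfin s hs).subset fun t ht => ⟨ht.1, ht.2.1⟩
        have h2 : (cofs K s (n + 1)).card = {t' | t' ∈ K ∧ s ⊆ t' ∧ t'.card = n + 1}.ncard := by
          unfold cofs
          rw [dif_pos hfin, Set.ncard_eq_toFinset_card _ hfin]
        rw [hset, ← h2]
        exact (ZMod.natCast_eq_zero_iff_even).1 h1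
      low := fun j hj _ f hf hc => main j hj.le f hf hc (by omega)
      top := fun f hf hc hs => main n le_rfl f hf hc fun _ => hs
      ex := by
        obtain ⟨t0, h1, h2, -, h3⟩ := hM.top_ex s0 hs0
        have hcard : ∀ t ∈ K, ∀ v ∈ t, (t.erase v).card ≠ n + 1 := by
          intro t ht v hv h4
          rw [card_erase_of_mem hv] at h4
          have h5 := hM.card_le t ht
          have h6 := card_pos.2 ⟨v, hv⟩
          omega
        refine ⟨Finsupp.single t0 1, fun t h => ?_, fun t ht _ _ => ?_, ?_⟩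
        · have h4 : t0 = t := by
            by_contra hne
            rw [Finsupp.single_apply, if_neg hne] at h
            exact h rfl
          subst h4
          exact ⟨h1, h2, empty_subset _, h3⟩
        · refine sum_eq_zero fun v hv => ?_
          rw [Finsupp.single_apply, if_neg]
          rintro rfl
          exact hcard t ht v (mem_sdiff.1 hv).1 h3
        · rw [finsum_mem_eq_sum_of_inter_support_eq (t := {t0}), sum_singleton, Finsupp.single_eq_same]
          ext t
          simp only [Set.mem_inter_iff, Set.mem_ofPred_eq, Function.mem_support, coe_singleton,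
            Set.mem_singleton_iff]
          constructor
          · rintro ⟨-, h⟩
            refine ⟨?_, h⟩
            by_contra hne
            rw [Finsupp.single_apply, if_neg fun e => hne e.symm] at h
            exact h rfl
          · rintro ⟨rfl, h⟩
            exact ⟨⟨h1, h2, h3⟩, h⟩ }

end Pool.Agent.S11
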