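import Pool.Agent.S11.EdB
import Pool.Agent.S11.EdMfd
import Pool.Agent.S11.EDefs

/-!
# Project S11, block END: the homotopy from `G F` to the identity, assembly
-/

set_option autoImplicit false
set_option linter.unusedSectionVars false

open Finset Pointwise

namespace Pool.Agent.S11

open Pool.Agent.H37.TM Pool.Agent.S10

section

variable {Γ V U : Type} [Group Γ] [DecidableEq V] [MulAction Γ V] [DecidableEq U] [MulAction Γ U]
  {X : Set (Finset V)} {K B mu : Set (Finset U)} {n : ℕ}

theorem lin_eq_zero {A N : Type} [AddCommGroup N] [Module (ZMod 2) N] {f : A → N} {x : A →₀ ZMod 2}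
    (h : ∀ c, x c ≠ 0 → f c = 0) : lin f x = 0 := by
  unfold lin
  rw [Finsupp.linearCombination_apply, Finsupp.sum]
  refine sum_eq_zero fun c hc => ?_
  rw [h c (Finsupp.mem_support_iff.1 hc), smul_zero]

theorem lin_id {A : Type} (x : A →₀ ZMod 2) : lin (fun c => Finsupp.single c (1 : ZMod 2)) x = x := by
  unfold lin
  rw [Finsupp.linearCombination_apply]
  simp only [Finsupp.smul_single, smul_eq_mul, mul_one]
  exact Finsupp.sum_single x

/-- the image of a boundary -/
theorem bd_linG {G : Finset U → (Finset V →₀ ZMod 2)}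
    (hG : ∀ t ∈ K, t ∉ B → t.card ≤ n → bdS (G t) = lin G (bK K n t)) {f : Finset U →₀ ZMod 2}
    (hf : ∀ t, f t ≠ 0 → t ∈ K ∧ t ∉ B ∧ t.card ≤ n) : bdS (lin G f) = lin G (coF K f) := by
  rw [map_lin, lin_congr (f' := fun t => bdS (G t)) (f := fun t => lin G (bK K n t))
    (fun t ht => hG t (hf t ht).1 (hf t ht).2.1 (hf t ht).2.2), lin_lin]
  congr 1
  unfold coF
  refine lin_congr fun t ht => ?_
  exact if_pos (hf t ht).2.2

/-- **chain maps and a homotopy for a duality pair** -/
theorem exists_chmapsD (hX : SCx Γ X ∅) (hac : Acyc X) (hA : SAct Γ K B) (hD : Dual K B mu n (n + 1))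
    (hmu : ∀ (g : Γ) (s : Finset U), s ∈ mu → g • s ∈ mu) : ∃ F G h, ChMaps Γ X K B n F G h := by
  classical
  obtain ⟨F, hF1, hF2, hF3, hF4, hF5⟩ := exists_F hX hD hA hmu
  obtain ⟨G, hG1, hG2, hG3, hG4, hG5⟩ := exists_G hX hac hA hD hmu
  have hpos : ∀ s ∈ X, 0 < s.card := fun s hs => card_pos.2 (hX.ne s hs)
  obtain ⟨H, h1, h2, h3⟩ := liftX hX (rhoX Γ V) bdS (fun g x => bdS_smul g x) (MX X)
    (fun i g x hx => MX_smul hX g hx)
    (fun i x hx h0 => by
      rw [mem_MX] at hx
      exact MX_exact hac (k := i + 1) (x := x) (fun s hs => ⟨Or.inl (hx s hs).1, (hx s hs).2⟩) h0)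
    (fun s => lin G (F s) + Finsupp.single s 1)
    (fun i a ha => by
      refine Submodule.add_mem _ (lin_mem fun t ht => ?_) (Finsupp.single_mem_supported _ _ ha)
      obtain ⟨h4, h5, h6⟩ := hF2 a ha.1 t ht
      refine mem_MX.2 fun s hs => ?_
      obtain ⟨h7, h8⟩ := hG2 t h4 h5 s hs
      exact ⟨h7, by have := ha.2; omega⟩)
    (fun i g a ha => by
      rw [map_add, rhoX_apply, rhoX_apply, Finsupp.mapDomain_single, hF1 g a ha.1]
      congr 1
      exact lin_smul (rhoX Γ V) g fun t ht => by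
        obtain ⟨h4, h5, -⟩ := hF2 a ha.1 t ht
        exact hG1 g t h4 h5)
    (fun i a ha => by
      rw [map_add]
      rcases i with _ | i
      · -- vertices
        have h4 : bdS (lin G (F a)) = Finsupp.single ∅ 1 := by
          rw [map_lin, lin_congr (f' := fun t => bdS (G t))
            (f := fun t => (LinearMap.toSpanSingleton (ZMod 2) (Finset V →₀ ZMod 2) (Finsupp.single ∅ 1))
              (if t ∈ mu then (1 : ZMod 2) else 0)) (fun t ht => by
                obtain ⟨h4, h5, h6⟩ := hF2 a ha.1 t ht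
                show bdS (G t) = _
                rw [hG4 t h4 h5 (by have := ha.2; omega), LinearMap.toSpanSingleton_apply]
                split_ifs
                · rw [one_smul]
                · rw [zero_smul])]
          rw [← map_lin (LinearMap.toSpanSingleton (ZMod 2) (Finset V →₀ ZMod 2) (Finsupp.single ∅ 1))
            (f := fun t => if t ∈ mu then (1 : ZMod 2) else 0)]
          have h5 : lin (fun t => if t ∈ mu then (1 : ZMod 2) else 0) (F a) = 1 := hF5 a ha.1 ha.2
          rw [h5, LinearMap.toSpanSingleton_apply, one_smul]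
        have h5 : bdS (Finsupp.single a (1 : ZMod 2)) = Finsupp.single ∅ 1 := by
          obtain ⟨v, hv⟩ := card_eq_one.1 ha.2
          rw [bdS_sgl, hv, sum_singleton, erase_singleton]
        rw [h4, h5, bX_zero (by rw [ha.2]), map_zero]
        exact add_self_mod _
      · have hc : 2 ≤ a.card := by have := ha.2; omega
        rw [bd_linG hG3 (fun t ht => by
          obtain ⟨h4, h5, h6⟩ := hF2 a ha.1 t ht
          exact ⟨h4, h5, by omega⟩), hF4 a ha.1, ← bX_bdS hc, lin_add, lin_lin, lin_id])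
  have hc : ∀ s ∈ X, s ∈ cX X (s.card - 1) := fun s hs => ⟨hs, by have := hpos s hs; omega⟩
  obtain ⟨H', hH0, hH⟩ : ∃ H' : Finset V → (Finset V →₀ ZMod 2), H' ∅ = 0 ∧ ∀ s, s.Nonempty → H' s = H s :=
    ⟨fun s => if s = ∅ then 0 else H s, if_pos rfl, fun s hs => if_neg hs.ne_empty⟩
  refine ⟨F, G, H', hF1, hG1, fun g s hs => ?_, hF2, hG2, fun s hs r hr => ?_, hF3,
    hH0, fun s hs t ht ht' => ?_, fun q f f' hf hf' hff s' hs' => ?_, fun s hs s' _ => ?_⟩
  · rw [hH s (hX.ne s hs), hH _ (hX.ne _ (hX.K_mem g s hs)), h2 _ g s (hc s hs), rhoX_apply]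
  · rw [hH s (hX.ne s hs)] at hr
    obtain ⟨h4, h5⟩ := mem_MX.1 (h1 _ s (hc s hs)) r hr
    exact ⟨h4, by have := hpos s hs; omega⟩
  · have h4 := DFunLike.congr_fun (hF4 s hs) t
    rw [coF_apply hD (fun t h => (hF2 s hs t h).1), if_pos ht, lin_bX F hF3, Finsupp.finsetSum_apply] at h4
    exact h4
  · have hcf : coF K f = f' := coF_of_isCob hD (fun t ht => ⟨(hf t ht).1, (hf t ht).2.1⟩)
      (fun t ht => ⟨(hf' t ht).1, (hf' t ht).2.1⟩) hff
    show bdS (lin G f) s' = lin G f' s'
    rcases Nat.lt_or_ge n q with h | h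
    · have h4 : lin G f' = 0 := lin_eq_zero fun t ht => hG5 t (by have := (hf' t ht).2.2.2; omega)
      rw [h4, map_lin]
      by_contra hne
      have h5 : lin (fun t => bdS (G t)) f ∈ Finsupp.supported (ZMod 2) (ZMod 2) ({∅} : Set (Finset V)) := by
        refine lin_mem fun t ht => ?_
        obtain ⟨h6, h7, -, h8⟩ := hf t ht
        rcases Nat.lt_or_ge (n + 1) q with h9 | h9
        · rw [hG5 t (by omega), map_zero]
          exact Submodule.zero_mem _
        · rw [hG4 t h6 h7 (by omega)]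
          split_ifs
          · exact Finsupp.single_mem_supported _ _ rfl
          · exact Submodule.zero_mem _
      have h6 : s' = ∅ := (Finsupp.mem_supported _ _).1 h5 (Finsupp.mem_support_iff.2 hne)
      exact hs'.ne_empty h6
    · rw [bd_linG hG3 (fun t ht => ⟨(hf t ht).1, (hf t ht).2.1, by have := (hf t ht).2.2.2; omega⟩), hcf]
  · have h4 := h3 _ s (hc s hs)
    have h5 : lin G (F s) + Finsupp.single s 1 = bdS (H s) + lin H (bX s) := by
      rw [h4, add_assoc, add_self_mod, add_zero]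
    have h6 := DFunLike.congr_fun h5 s'
    rw [← lin_bX_congr hH s, lin_bX H' hH0, Finsupp.add_apply, Finsupp.add_apply, Finsupp.finsetSum_apply,
      ← hH s (hX.ne s hs)] at h6
    exact h6

/-- **chain maps and a homotopy** -/
theorem exists_chmaps (hX : SCx Γ X ∅) (hac : Acyc X) (hK : SCx Γ K B) (hM : ManOrDual Γ K B n (n + 1))
    (_hA : Pool.Agent.H65.RM.PAct Γ K B) : ∃ F G h, ChMaps Γ X K B n F G h := by
  have hA : SAct Γ K B := ⟨hK.K_mem, hK.B_mem, hK.free⟩
  rcases hM with ⟨h1, h2⟩ | ⟨mu, h1, h2⟩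
  · refine exists_chmapsD hX hac hA (dual_of_mfd h1 h2) ?_
    rintro g s ⟨h3, h4, h5⟩
    exact ⟨hA.K_mem g s h3, fun h => h4 ((smul_memB_iff hA g s).1 h), by rw [Finset.card_smul_finset]; exact h5⟩
  · exact exists_chmapsD hX hac hA h1 h2

end

end Pool.Agent.S11
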