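import Pool.Agent.S11.EdC1
import Pool.Agent.S11.EDefs

/-!
# Project S11, block END: exactness of the chains of `X`, from the chain maps

`exactBd_of_chmaps`: chain maps `F`, `G` between the chains of `X` and the cochains of `(K, B)` with a homotopy from `G F` to the
identity, and exactness of the equivariant cochains of `(K, B)` in the degree `n - i` give exactness of the chains of
`X` in the degree `i`.
-/

set_option autoImplicit false
set_option linter.unusedSectionVars false

open Finset Pointwise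
open scoped TensorProduct

noncomputable section

namespace Pool.Agent.S11

open Pool.Agent.H37.TM (Rel IsCob bdS)

section

variable {V : Type} [DecidableEq V] (X B : Set (Finset V)) (q : ℕ)

/-- restriction to the simplices with `q` vertices -/
def resS : (Finset V →₀ ZMod 2) →ₗ[ZMod 2] (Sx X B q →₀ ZMod 2) :=
  Finsupp.lcomapDomain Subtype.val Subtype.val_injective

/-- extension by zero -/
def incS : (Sx X B q →₀ ZMod 2) →ₗ[ZMod 2] (Finset V →₀ ZMod 2) :=
  Finsupp.lmapDomain (ZMod 2) (ZMod 2) Subtype.val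

variable {X B q}

theorem resS_apply (f : Finset V →₀ ZMod 2) (s : Sx X B q) : resS X B q f s = f s.1 := rfl

theorem incS_single (s : Sx X B q) (a : ZMod 2) : incS X B q (Finsupp.single s a) = Finsupp.single s.1 a :=
  Finsupp.mapDomain_single

theorem incS_mem (x : Sx X B q →₀ ZMod 2) (s : Sx X B q) : incS X B q x s.1 = x s :=
  Finsupp.mapDomain_apply Subtype.val_injective x s

theorem incS_not (x : Sx X B q →₀ ZMod 2) {s : Finset V} (hs : ¬ (s ∈ X ∧ s ∉ B ∧ s.card = q)) : incS X B q x s = 0 := by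
  refine Finsupp.mapDomain_of_notMem_range x s ?_
  rintro ⟨s', rfl⟩
  exact hs s'.2

theorem incS_eq (x : Sx X B q →₀ ZMod 2) (s : Finset V) : incS X B q x s = ext0 x s := by
  by_cases hs : s ∈ X ∧ s ∉ B ∧ s.card = q
  · exact (incS_mem x ⟨s, hs⟩).trans (ext0_mem x ⟨s, hs⟩).symm
  · rw [incS_not x hs]
    by_contra h
    exact hs (ext0_supp (Ne.symm h))

theorem incS_resS {f : Finset V →₀ ZMod 2} (hf : ∀ s, f s ≠ 0 → s ∈ X ∧ s ∉ B ∧ s.card = q) :
    incS X B q (resS X B q f) = f := by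
  ext s
  by_cases hs : s ∈ X ∧ s ∉ B ∧ s.card = q
  · exact incS_mem (resS X B q f) ⟨s, hs⟩
  · rw [incS_not _ hs]
    by_contra h
    exact hs (hf s (Ne.symm h))

end

section

variable {V U : Type} [DecidableEq V] [DecidableEq U] {X A : Set (Finset V)} {K B : Set (Finset U)} {p q : ℕ}

/-- the linear map with the values `Φ s` -/
def mapS (X A : Set (Finset V)) (K B : Set (Finset U)) (p q : ℕ) (Φ : Finset V → (Finset U →₀ ZMod 2)) :
    (Sx X A p →₀ ZMod 2) →ₗ[ZMod 2] (Sx K B q →₀ ZMod 2) :=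
  Finsupp.linearCombination (ZMod 2) fun s => resS K B q (Φ s.1)

theorem mapS_single (Φ : Finset V → (Finset U →₀ ZMod 2)) (s : Sx X A p) :
    mapS X A K B p q Φ (Finsupp.single s 1) = resS K B q (Φ s.1) := by
  unfold mapS
  rw [Finsupp.linearCombination_single, one_smul]

theorem mapS_apply (Φ : Finset V → (Finset U →₀ ZMod 2)) (x : Sx X A p →₀ ZMod 2) (t : Sx K B q) :
    mapS X A K B p q Φ x t = Finsupp.linearCombination (ZMod 2) Φ (incS X A p x) t.1 := by
  induction x using Finsupp.induction_linear with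
  | zero => simp
  | add f g hf hg => rw [map_add, map_add, map_add, Finsupp.add_apply, Finsupp.add_apply, hf, hg]
  | single s a =>
    unfold mapS
    rw [incS_single, Finsupp.linearCombination_single, Finsupp.linearCombination_single]
    rfl

theorem incS_mapS {Φ : Finset V → (Finset U →₀ ZMod 2)}
    (hΦ : ∀ s ∈ X, s ∉ A → s.card = p → ∀ t, Φ s t ≠ 0 → t ∈ K ∧ t ∉ B ∧ t.card = q) (x : Sx X A p →₀ ZMod 2) :
    incS K B q (mapS X A K B p q Φ x) = Finsupp.linearCombination (ZMod 2) Φ (incS X A p x) := by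
  induction x using Finsupp.induction_linear with
  | zero => simp
  | add f g hf hg => rw [map_add, map_add, map_add, map_add, hf, hg]
  | single s a =>
    unfold mapS
    rw [incS_single, Finsupp.linearCombination_single, Finsupp.linearCombination_single, map_smul,
      incS_resS (hΦ s.1 s.2.1 s.2.2.1 s.2.2.2)]

variable {Γ : Type} [Group Γ] [MulAction Γ V] [MulAction Γ U]

theorem mapS_smul (hX : SCx Γ X A) (hK : SCx Γ K B) {Φ : Finset V → (Finset U →₀ ZMod 2)}
    (hΦ : ∀ (g : Γ), ∀ s ∈ X, s ∉ A → Φ (g • s) = (Φ s).mapDomain (g • ·)) (g : Γ) (x : Sx X A p →₀ ZMod 2) :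
    mapS X A K B p q Φ (cRep hX p g x) = cRep hK q g (mapS X A K B p q Φ x) := by
  have key : ∀ s : Sx X A p, resS K B q (Φ (g • s.1)) = cRep hK q g (resS K B q (Φ s.1)) := by
    intro s
    ext t
    rw [hΦ g s.1 s.2.1 s.2.2.1, resS_apply]
    have h1 : t = smx hK q g (smx hK q g⁻¹ t) := Subtype.ext (smul_inv_smul g t.1).symm
    have h2 : cRep hK q g (resS K B q (Φ s.1)) t = resS K B q (Φ s.1) (smx hK q g⁻¹ t) := by
      conv_lhs => rw [h1]
      refine Finsupp.mapDomain_apply (fun a b hab => ?_) _ _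
      exact Subtype.ext (smul_left_cancel g (congrArg Subtype.val hab))
    rw [h2, resS_apply]
    have h3 : t.1 = g • (g⁻¹ • t.1) := (smul_inv_smul g t.1).symm
    conv_lhs => rw [h3]
    exact Finsupp.mapDomain_apply (MulAction.injective g) _ _
  induction x using Finsupp.induction_linear with
  | zero => simp
  | add f f' hf hf' => rw [map_add, map_add, map_add, map_add, hf, hf']
  | single s a =>
    rw [cRep_single]
    unfold mapS
    rw [Finsupp.linearCombination_single, Finsupp.linearCombination_single, map_smul, ← key]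
    rfl

/-- the boundary in the two forms -/
theorem bdX_bdS (x : Sx X (∅ : Set (Finset V)) (p + 1) →₀ ZMod 2) (s : Sx X (∅ : Set (Finset V)) p) :
    bdX X p x s = bdS (incS X ∅ (p + 1) x) s.1 := by
  classical
  induction x using Finsupp.induction_linear with
  | zero => simp
  | add f g hf hg => rw [map_add, map_add, map_add, Finsupp.add_apply, Finsupp.add_apply, hf, hg]
  | single s' a =>
    rw [incS_single, bdX_single, Finsupp.finsetSum_apply]
    unfold bdS
    rw [Finsupp.linearCombination_single, Finset.smul_sum, Finsupp.finsetSum_apply]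
    refine sum_congr rfl fun v _ => ?_
    rw [Finsupp.smul_single, smul_eq_mul, mul_one, Finsupp.single_apply]
    split_ifs with h1 h2 h2
    · rw [Finsupp.single_apply, if_pos (Subtype.ext h2)]
    · rw [Finsupp.single_apply, if_neg]
      intro h3
      exact h2 (congrArg Subtype.val h3)
    · exact absurd (h2 ▸ s.2) h1
    · rfl

/-- the values of `Φ` on the boundary -/
theorem mapS_bdX (hd : ∀ s ∈ X, ∀ t, t ⊆ s → t.Nonempty → t ∈ X) {Φ : Finset V → (Finset U →₀ ZMod 2)} (h0 : Φ ∅ = 0)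
    (s : Sx X (∅ : Set (Finset V)) (p + 1)) (t : Sx K B q) :
    mapS X ∅ K B p q Φ (bdX X p (Finsupp.single s 1)) t = ∑ v ∈ s.1, Φ (s.1.erase v) t.1 := by
  classical
  rw [bdX_single, map_sum, Finsupp.finsetSum_apply]
  refine sum_congr rfl fun v hv => ?_
  split_ifs with h1
  · rw [mapS_single, resS_apply]
  · rw [map_zero]
    have h2 : s.1.erase v = ∅ := by
      by_contra h3
      refine h1 ⟨hd s.1 s.2.1 _ (erase_subset v _) (nonempty_iff_ne_empty.2 h3), fun h => h, ?_⟩
      rw [card_erase_of_mem hv, s.2.2.2]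
      omega
    rw [h2, h0]
    rfl

end

section

variable {H : Type} [Group H] {W : Type} [AddCommGroup W] [Module (ZMod 2) W] (τ : Representation (ZMod 2) H W)
  {C C' C'' : Type} [AddCommGroup C] [Module (ZMod 2) C] [AddCommGroup C'] [Module (ZMod 2) C']
  [AddCommGroup C''] [Module (ZMod 2) C'']
  {ρ' : Representation (ZMod 2) H C'} {ρ'' : Representation (ZMod 2) H C''}

/-- contractible complexes -/
theorem exR_contract {d₁ : C →ₗ[ZMod 2] C'} {d₂ : C' →ₗ[ZMod 2] C''} (k' : C' →ₗ[ZMod 2] C) (k'' : C'' →ₗ[ZMod 2] C')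
    (hk'' : ∀ g x, k'' (ρ'' g x) = ρ' g (k'' x)) (h3 : ∀ x, 0 = x + d₁ (k' x) + k'' (d₂ x)) : ExR τ ρ' ρ'' d₁ d₂ := by
  intro x hx
  have a3 : 0 = x + d₁.rTensor W (k'.rTensor W x) + k''.rTensor W (d₂.rTensor W x) := by
    rw [← LinearMap.comp_apply, ← LinearMap.comp_apply, ← LinearMap.rTensor_comp, ← LinearMap.rTensor_comp]
    have e : (0 : C' →ₗ[ZMod 2] C') = LinearMap.id + d₁ ∘ₗ k' + k'' ∘ₗ d₂ := LinearMap.ext h3
    have e2 := congrArg (fun f => LinearMap.rTensor W f x) e
    simp only [LinearMap.rTensor_add, LinearMap.rTensor_id, LinearMap.rTensor_zero] at e2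
    exact e2
  have b2 := kr_rTensor τ hk'' hx
  refine ⟨-k'.rTensor W x, ?_⟩
  have e : x - d₁.rTensor W (-k'.rTensor W x) = -k''.rTensor W (d₂.rTensor W x) := by
    rw [map_neg, sub_neg_eq_add]
    exact eq_neg_of_add_eq_zero_left a3.symm
  rw [e]
  exact Submodule.neg_mem _ b2

end

section

variable {Γ V U : Type} [Group Γ] [DecidableEq V] [MulAction Γ V] [DecidableEq U] [MulAction Γ U]
  {X : Set (Finset V)} {K B : Set (Finset U)} {n : ℕ} {F : Finset V → (Finset U →₀ ZMod 2)}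
  {G : Finset U → (Finset V →₀ ZMod 2)} {h : Finset V → (Finset V →₀ ZMod 2)}

/-- two linear maps on the chains which agree on the simplices -/
theorem eq_of_single {S M : Type} [AddCommGroup M] [Module (ZMod 2) M] {f g : (S →₀ ZMod 2) →ₗ[ZMod 2] M}
    (hfg : ∀ s, f (Finsupp.single s 1) = g (Finsupp.single s 1)) (x : S →₀ ZMod 2) : f x = g x := by
  have : f = g := Finsupp.lhom_ext' fun s => LinearMap.ext_ring (hfg s)
  rw [this]

theorem chm_F (hX : SCx Γ X (∅ : Set (Finset V))) (hK : SCx Γ K B) (hC : ChMaps Γ X K B n F G h) {i j : ℕ} (hij : i + j = n)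
    (x : Sx X (∅ : Set (Finset V)) (i + 1) →₀ ZMod 2) :
    dC hK (j + 1) (mapS X ∅ K B (i + 1) (j + 1) F x) = mapS X ∅ K B i (j + 1 + 1) F (bdX X i x) := by
  refine eq_of_single (f := (dC hK (j + 1)).comp (mapS X ∅ K B (i + 1) (j + 1) F))
    (g := (mapS X ∅ K B i (j + 1 + 1) F).comp (bdX X i)) (fun s => ?_) x
  rw [LinearMap.comp_apply, LinearMap.comp_apply]
  ext t
  rw [mapS_bdX hX.down hC.F_empty, mapS_single, dC_apply, ← hC.F_bd s.1 s.2.1 t.1 t.2.1 t.2.2.1]
  refine sum_congr rfl fun v _ => ?_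
  rw [← incS_eq, incS_resS]
  intro t' ht'
  have h1 := hC.F_supp s.1 s.2.1 t' ht'
  refine ⟨h1.1, h1.2.1, ?_⟩
  have h2 := h1.2.2
  rw [s.2.2.2] at h2
  omega

theorem chm_G (hX : SCx Γ X (∅ : Set (Finset V))) (hK : SCx Γ K B) (hC : ChMaps Γ X K B n F G h) {i j : ℕ} (hij : i + j = n)
    (y : Sx K B j →₀ ZMod 2) :
    bdX X (i + 1) (mapS K B X ∅ j (i + 1 + 1) G y) = mapS K B X ∅ (j + 1) (i + 1) G (dC hK j y) := by
  ext s
  rw [bdX_bdS, incS_mapS, mapS_apply]
  · refine hC.G_bd j _ _ ?_ ?_ ?_ s.1 (hX.ne s.1 s.2.1)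
    · intro t ht
      by_contra h1
      refine ht (incS_not y fun h2 => h1 ⟨h2.1, h2.2.1, empty_subset t, h2.2.2⟩)
    · intro t ht
      by_contra h1
      refine ht (incS_not _ fun h2 => h1 ⟨h2.1, h2.2.1, empty_subset t, h2.2.2⟩)
    · intro t ht ht' _
      rw [sdiff_empty, incS_eq, ← ext0_dC hK j y ht ht']
      exact sum_congr rfl fun v _ => incS_eq y _
  · intro t ht ht' hc s' hs'
    have h1 := hC.G_supp t ht ht' s' hs'
    refine ⟨h1.1, fun h => h, ?_⟩
    have h2 := h1.2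
    rw [hc] at h2
    omega

theorem chm_h (hX : SCx Γ X (∅ : Set (Finset V))) (hC : ChMaps Γ X K B n F G h) (i : ℕ)
    (s : Sx X (∅ : Set (Finset V)) (i + 1)) (s' : Sx X (∅ : Set (Finset V)) (i + 1)) :
    Finsupp.linearCombination (ZMod 2) G (F s.1) s'.1 =
      (Finsupp.single s (1 : ZMod 2) + bdX X (i + 1) (mapS X ∅ X ∅ (i + 1) (i + 1 + 1) h (Finsupp.single s 1)) +
        mapS X ∅ X ∅ i (i + 1) h (bdX X i (Finsupp.single s 1)) : Sx X (∅ : Set (Finset V)) (i + 1) →₀ ZMod 2) s' := by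
  have h1 := hC.htpy s.1 s.2.1 s'.1 (hX.ne s'.1 s'.2.1)
  rw [Finsupp.add_apply, Finsupp.add_apply, mapS_bdX hX.down hC.h_empty, bdX_bdS, mapS_single, incS_resS]
  · have h2 : (Finsupp.single s (1 : ZMod 2) : Sx X (∅ : Set (Finset V)) (i + 1) →₀ ZMod 2) s' =
        Finsupp.single s.1 (1 : ZMod 2) s'.1 := by
      rw [← incS_mem (Finsupp.single s (1 : ZMod 2)) s', incS_single]
    rw [h2, add_assoc, ← h1, add_comm (Finsupp.linearCombination (ZMod 2) G (F s.1) s'.1), ← add_assoc,
      CharTwo.add_self_eq_zero, zero_add]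
  · intro t ht
    have h2 := hC.h_supp s.1 s.2.1 t ht
    refine ⟨h2.1, fun h => h, ?_⟩
    rw [h2.2, s.2.2.2]

/-- **From the chain maps to the exactness of the chains of `X`.** -/
theorem exactBd_of_chmaps (hX : SCx Γ X (∅ : Set (Finset V))) (hK : SCx Γ K B) (hC : ChMaps Γ X K B n F G h)
    {W : Type} [AddCommGroup W] [Module (ZMod 2) W] (τ : Representation (ZMod 2) Γ W) (i : ℕ)
    (hE : ∀ j, i + j = n → ExactAt K B τ j) : ExactBd X τ (i + 1) := by
  refine exactBd_of_exR hX ?_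
  have hk : ∀ (g : Γ) x, mapS X ∅ X ∅ i (i + 1) h (cRep hX i g x) =
      cRep hX (i + 1) g (mapS X ∅ X ∅ i (i + 1) h x) :=
    fun g x => mapS_smul hX hX (fun g s hs _ => hC.h_smul g s hs) g x
  rcases le_or_gt i n with hin | hin
  · obtain ⟨j, hij⟩ := Nat.exists_eq_add_of_le hin
    have hij' : i + j = n := hij.symm
    refine exR_transport τ (σ' := cRep hK (j + 1)) (σ'' := cRep hK (j + 1 + 1)) (e₁ := dC hK j) (e₂ := dC hK (j + 1))
      (mapS X ∅ K B (i + 1) (j + 1) F) (mapS X ∅ K B i (j + 1 + 1) F) (mapS K B X ∅ j (i + 1 + 1) G)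
      (mapS K B X ∅ (j + 1) (i + 1) G) (mapS X ∅ X ∅ (i + 1) (i + 1 + 1) h) (mapS X ∅ X ∅ i (i + 1) h)
      (fun g x => mapS_smul hX hK (fun g s hs _ => hC.F_smul g s hs) g x)
      (fun g x => mapS_smul hK hX (fun g s hs hs' => hC.G_smul g s hs hs') g x) hk
      (fun x => chm_F hX hK hC hij' x) (fun y => chm_G hX hK hC hij' y) (fun x => ?_)
      (exR_of_exactAt hK (hE j hij'))
    refine eq_of_single (f := (mapS K B X ∅ (j + 1) (i + 1) G).comp (mapS X ∅ K B (i + 1) (j + 1) F))
      (g := LinearMap.id + (bdX X (i + 1)).comp (mapS X ∅ X ∅ (i + 1) (i + 1 + 1) h) +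
        (mapS X ∅ X ∅ i (i + 1) h).comp (bdX X i)) (fun s => ?_) x
    ext s'
    have h1 := chm_h hX hC i s s'
    rw [LinearMap.comp_apply, mapS_apply, mapS_single, incS_resS, h1]
    · rfl
    · intro t ht
      have h2 := hC.F_supp s.1 s.2.1 t ht
      refine ⟨h2.1, h2.2.1, ?_⟩
      have h3 := h2.2.2
      rw [s.2.2.2] at h3
      omega
  · refine exR_contract τ (mapS X ∅ X ∅ (i + 1) (i + 1 + 1) h) (mapS X ∅ X ∅ i (i + 1) h) hk fun x => ?_
    refine eq_of_single (f := (0 : (Sx X (∅ : Set (Finset V)) (i + 1) →₀ ZMod 2) →ₗ[ZMod 2] _))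
      (g := LinearMap.id + (bdX X (i + 1)).comp (mapS X ∅ X ∅ (i + 1) (i + 1 + 1) h) +
        (mapS X ∅ X ∅ i (i + 1) h).comp (bdX X i)) (fun s => ?_) x
    ext s'
    have h1 := chm_h hX hC i s s'
    have h2 : F s.1 = 0 := by
      ext t
      by_contra h3
      have h4 := hC.F_supp s.1 s.2.1 t h3
      have h5 := h4.2.2
      rw [s.2.2.2] at h5
      have h6 := card_pos.2 (hK.ne t h4.1)
      omega
    rw [h2, map_zero] at h1
    exact h1

end

end Pool.Agent.S11
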