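import Pool.Agent.S11.EdMtx

/-!
# Project S11, block END: harmonic chains as functions on the group

PROOF.  `x j g = z (g • R' j)`.  Cycle equation at `g • R l`: the simplices which contain `g • R l` are `(g * h) • R' j`, with
`incR (R l) (h • R' j) = incR (g • R l) ((g * h) • R' j)`.  Cocycle equation at `g • R'' m`: the faces are `(g * h⁻¹) • R' j`.
-/

set_option autoImplicit false
set_option linter.unusedSectionVars false

open Finset Pointwise

namespace Pool.Agent.S11

variable {U H : Type} [DecidableEq U] [Group H] [MulAction H U] {X : Set (Finset U)} {r : U → U → Prop}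

/-- a non-zero incidence number -/
private theorem incR_ne {s t : Finset U} (h : incR r s t ≠ 0) : ∃ v, v ∉ s ∧ t = insert v s := by
  unfold incR at h
  by_cases h1 : s ⊆ t ∧ t.card = s.card + 1
  · have h2 : (t \ s).card = 1 := by
      rw [Finset.card_sdiff_of_subset h1.1, h1.2]
      omega
    obtain ⟨v, hv⟩ := Finset.card_eq_one.1 h2
    refine ⟨v, fun hvs => ?_, ?_⟩
    · have h3 : v ∈ t \ s := by rw [hv]; exact Finset.mem_singleton_self v
      exact (Finset.mem_sdiff.1 h3).2 hvs
    · rw [Finset.insert_eq, ← hv, Finset.sdiff_union_of_subset h1.1]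
  · rw [if_neg h1] at h
    exact absurd rfl h

private theorem sgR_ne (s : Finset U) (v : U) : sgR r s v ≠ 0 := by
  unfold sgR
  exact pow_ne_zero _ (by norm_num)

private theorem insert_inj' {s : Finset U} {v w : U} (hv : v ∉ s) (h : insert v s = insert w s) : v = w := by
  have h1 : v ∈ insert w s := h ▸ Finset.mem_insert_self v s
  rcases Finset.mem_insert.1 h1 with h2 | h2
  · exact h2
  · exact absurd h2 hv

theorem harm_zero (hX : FreeX H X) (hT : Tot X r) (hr : ∀ (g : H) (u v : U), r (g • u) (g • v) ↔ r u v) {k a b c : ℕ}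
    {R : Fin a → Finset U} {R' : Fin b → Finset U} {R'' : Fin c → Finset U} (hR : Rps H X k R) (hR' : Rps H X (k + 1) R')
    (hR'' : Rps H X (k + 2) R'')
    (h0 : ∀ x : Fin b → H → ℝ, (∀ j, Summable fun h => x j h ^ 2) →
      (∀ (l : Fin a) (g : H), ∑ j, ∑ h ∈ (mtx H r R R' l j).coeff.support, ((mtx H r R R' l j).coeff h : ℝ) * x j (g * h) = 0) →
      (∀ (l : Fin c) (g : H), ∑ j, ∑ h ∈ (mtx H r R' R'' j l).coeff.support, ((mtx H r R' R'' j l).coeff h : ℝ) * x j (g * h⁻¹) = 0) →
      ∀ j h, x j h = 0)
    (z : Finset U → ℝ) (hz : IsL2Ch X (k + 1) z) (hz0 : ∀ s ∈ X, bdR r z s = 0) (hz1 : IsCoc X r z) : z = 0 := by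
  classical
  have key : ∀ (j : Fin b) (h : H), z (h • R' j) = 0 := by
    refine h0 (fun j g => z (g • R' j)) (fun j => ?_) (fun l g => ?_) (fun l g => ?_)
    · have hinj : Function.Injective fun h : H => h • R' j := fun h h' hh => (hR'.uniq h h' j j hh).1
      exact hz.l2.comp_injective hinj
    · -- the cycle equation at `g • R l`
      set s : Finset U := g • R l with hs
      have hsX : s ∈ X := hX.mem g _ (hR.mem l)
      have hcs : s.card = k := by rw [hs, Finset.card_smul_finset, hR.card]
      set A := mtx H r R R' with hA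
      have hco : ∀ j h, (A l j).coeff h = incR r s ((g * h) • R' j) := by
        intro j h
        rw [hA, mtx_coeff hX hR.mem hR'.mem, hs, mul_smul, incR_smul hr]
      let P : Finset ((_ : Fin b) × H) := Finset.univ.sigma fun j => (A l j).coeff.support
      let τ : ((_ : Fin b) × H) → Finset U := fun y => (g * y.2) • R' y.1
      have hτ : Function.Injective τ := by
        rintro ⟨j, h⟩ ⟨j', h'⟩ hh
        obtain ⟨h1, h2⟩ := hR'.uniq _ _ _ _ hh
        have h3 : h = h' := mul_left_cancel h1
        subst h2
        subst h3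
        rfl
      have hVf : {v | v ∉ s ∧ insert v s ∈ X}.Finite := by
        refine Set.Finite.of_finite_image (f := fun v => insert v s)
          ((cofaces_finite hX hsX).subset ?_) ?_
        · rintro _ ⟨v, hv, rfl⟩
          exact ⟨hv.2, Finset.subset_insert _ _⟩
        · intro v hv w hw h
          exact insert_inj' hv.1 h
      let Vs : Finset U := hVf.toFinset
      have hVs : ∀ v, v ∈ Vs ↔ v ∉ s ∧ insert v s ∈ X := fun v => by
        simp [Vs]
      have himg : P.image τ = Vs.image fun v => insert v s := by
        ext t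
        constructor
        · intro ht
          obtain ⟨⟨j, h⟩, hy, rfl⟩ := Finset.mem_image.1 ht
          have h1 : (A l j).coeff h ≠ 0 := Finsupp.mem_support_iff.1 (Finset.mem_sigma.1 hy).2
          rw [hco] at h1
          obtain ⟨v, hv1, hv2⟩ := incR_ne h1
          refine Finset.mem_image.2 ⟨v, (hVs v).2 ⟨hv1, ?_⟩, hv2.symm⟩
          rw [← hv2]
          exact hX.mem _ _ (hR'.mem j)
        · intro ht
          obtain ⟨v, hv, rfl⟩ := Finset.mem_image.1 ht
          obtain ⟨hv1, hv2⟩ := (hVs v).1 hv
          obtain ⟨g', j, hg'⟩ := hR'.ex _ hv2 (by rw [Finset.card_insert_of_notMem hv1, hcs])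
          refine Finset.mem_image.2 ⟨⟨j, g⁻¹ * g'⟩, Finset.mem_sigma.2 ⟨Finset.mem_univ _, ?_⟩, ?_⟩
          · refine Finsupp.mem_support_iff.2 ?_
            rw [hco, mul_inv_cancel_left, ← hg', incR_insert hv1]
            exact sgR_ne _ _
          · change (g * (g⁻¹ * g')) • R' j = insert v s
            rw [mul_inv_cancel_left, hg']
      have h1 : ∑ j, ∑ h ∈ (A l j).coeff.support, ((A l j).coeff h : ℝ) * z ((g * h) • R' j) =
          ∑ t ∈ P.image τ, (incR r s t : ℝ) * z t := by
        rw [Finset.sum_image fun x _ y _ hxy => hτ hxy, Finset.sum_sigma]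
        refine Finset.sum_congr rfl fun j _ => Finset.sum_congr rfl fun h _ => ?_
        rw [hco]
      have h2 : bdR r z s = ∑ t ∈ Vs.image (fun v => insert v s), (incR r s t : ℝ) * z t := by
        rw [Finset.sum_image fun v hv w hw hvw => insert_inj' ((hVs v).1 hv).1 hvw]
        unfold bdR
        rw [finsum_mem_eq_sum_of_inter_support_eq _ (t := Vs.filter fun v => (sgR r s v : ℝ) * z (insert v s) ≠ 0) ?_]
        · rw [Finset.sum_filter_ne_zero]
          refine Finset.sum_congr rfl fun v hv => ?_
          rw [incR_insert ((hVs v).1 hv).1]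
        · ext v
          simp only [Set.mem_inter_iff, Set.mem_ofPred_eq, Function.mem_support, Finset.coe_filter, hVs]
          constructor
          · rintro ⟨h3, h4⟩
            exact ⟨⟨⟨h3, (hz.supp _ (right_ne_zero_of_mul h4)).1⟩, h4⟩, h4⟩
          · rintro ⟨⟨⟨h3, h4⟩, h5⟩, h6⟩
            exact ⟨h3, h5⟩
      change ∑ j, ∑ h ∈ (A l j).coeff.support, ((A l j).coeff h : ℝ) * z ((g * h) • R' j) = 0
      rw [h1, himg, ← h2]
      exact hz0 s hsX
    · -- the cocycle equation at `g • R'' l`
      set t : Finset U := g • R'' l with ht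
      have htX : t ∈ X := hX.mem g _ (hR''.mem l)
      have hct : t.card = k + 2 := by rw [ht, Finset.card_smul_finset, hR''.card]
      set A := mtx H r R' R'' with hA
      have hco : ∀ j h, (A j l).coeff h = incR r ((g * h⁻¹) • R' j) t := by
        intro j h
        rw [hA, mtx_coeff hX hR'.mem hR''.mem, ht]
        have h1 : g • R'' l = (g * h⁻¹) • (h • R'' l) := by rw [← mul_smul, inv_mul_cancel_right]
        rw [h1, incR_smul hr]
      let P : Finset ((_ : Fin b) × H) := Finset.univ.sigma fun j => (A j l).coeff.support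
      let τ : ((_ : Fin b) × H) → Finset U := fun y => (g * y.2⁻¹) • R' y.1
      have hτ : Function.Injective τ := by
        rintro ⟨j, h⟩ ⟨j', h'⟩ hh
        obtain ⟨h1, h2⟩ := hR'.uniq _ _ _ _ hh
        have h3 : h = h' := inv_injective (mul_left_cancel h1)
        subst h2
        subst h3
        rfl
      have himg : P.image τ = t.image fun v => t.erase v := by
        ext s
        constructor
        · intro hs
          obtain ⟨⟨j, h⟩, hy, rfl⟩ := Finset.mem_image.1 hs
          have h1 : (A j l).coeff h ≠ 0 := Finsupp.mem_support_iff.1 (Finset.mem_sigma.1 hy).2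
          rw [hco] at h1
          obtain ⟨v, hv1, hv2⟩ := incR_ne h1
          refine Finset.mem_image.2 ⟨v, ?_, ?_⟩
          · rw [hv2]
            exact Finset.mem_insert_self _ _
          · change t.erase v = (g * h⁻¹) • R' j
            rw [hv2, Finset.erase_insert hv1]
        · intro hs
          obtain ⟨v, hv, rfl⟩ := Finset.mem_image.1 hs
          have h1 : (t.erase v).card = k + 1 := by
            rw [Finset.card_erase_of_mem hv, hct]
            rfl
          have h2 : t.erase v ∈ X := hX.down t htX _ (Finset.erase_subset _ _) (Finset.card_pos.1 (by omega))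
          obtain ⟨g', j, hg'⟩ := hR'.ex _ h2 h1
          refine Finset.mem_image.2 ⟨⟨j, g'⁻¹ * g⟩, Finset.mem_sigma.2 ⟨Finset.mem_univ _, ?_⟩, ?_⟩
          · refine Finsupp.mem_support_iff.2 ?_
            rw [hco]
            have h3 : g * (g'⁻¹ * g)⁻¹ = g' := by group
            rw [h3, ← hg']
            have h4 : incR r (t.erase v) t = sgR r (t.erase v) v := by
              conv_lhs => rw [← Finset.insert_erase hv]
              rw [Finset.erase_insert (Finset.notMem_erase v t), incR_insert (Finset.notMem_erase v t)]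
            rw [h4]
            exact sgR_ne _ _
          · change (g * (g'⁻¹ * g)⁻¹) • R' j = t.erase v
            have h3 : g * (g'⁻¹ * g)⁻¹ = g' := by group
            rw [h3, hg']
      have h1 : ∑ j, ∑ h ∈ (A j l).coeff.support, ((A j l).coeff h : ℝ) * z ((g * h⁻¹) • R' j) =
          ∑ s ∈ P.image τ, (incR r s t : ℝ) * z s := by
        rw [Finset.sum_image fun x _ y _ hxy => hτ hxy, Finset.sum_sigma]
        refine Finset.sum_congr rfl fun j _ => Finset.sum_congr rfl fun h _ => ?_
        rw [hco]
      have h2 : ∑ s ∈ t.image (fun v => t.erase v), (incR r s t : ℝ) * z s =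
          ∑ v ∈ t, (sgR r (t.erase v) v : ℝ) * z (t.erase v) := by
        rw [Finset.sum_image ?_]
        · refine Finset.sum_congr rfl fun v hv => ?_
          congr 2
          conv_lhs => rw [← Finset.insert_erase hv]
          rw [Finset.erase_insert (Finset.notMem_erase v t), incR_insert (Finset.notMem_erase v t)]
        · intro v hv w hw hvw
          by_contra hne
          have h3 : w ∈ t.erase v := Finset.mem_erase.2 ⟨fun h => hne h.symm, hw⟩
          have h4 : t.erase v = t.erase w := hvw
          rw [h4] at h3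
          exact Finset.notMem_erase w t h3
      change ∑ j, ∑ h ∈ (A j l).coeff.support, ((A j l).coeff h : ℝ) * z ((g * h⁻¹) • R' j) = 0
      rw [h1, himg, h2]
      exact hz1 t htX
  funext s
  by_contra hne
  obtain ⟨h1, h2⟩ := hz.supp s hne
  obtain ⟨g, j, rfl⟩ := hR'.ex s h1 h2
  exact hne (key j g)

end Pool.Agent.S11
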