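import Pool.Agent.S11.EdDefs

/-!
# Project S11, block END: Hilbert space argument

PROOF.  In `ℓ²` project the cycle `z` to the closure of the boundaries of the finite chains with `i + 2` vertices: `z = m + w`.  `w` is
orthogonal to the boundaries of the single simplices `t`: `IsCoc`; `w = z - m` is a cycle because the conditions `bdR r w s = 0` are
continuous (finite sums, `hlf`).  So `w = 0`.  (Finite chains have finite boundaries, so the difference is square summable.)
-/

set_option autoImplicit false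
set_option linter.unusedSectionVars false

open Finset

namespace Pool.Agent.S11

variable {U : Type} [DecidableEq U] {X : Set (Finset U)}

/-- the boundary of a chain on the subsets of a finite set is a finite sum -/
private theorem hil_bdR_eq (r : U → U → Prop) {y : Finset U → ℝ} (V : Finset U) (hV : ∀ t, y t ≠ 0 → t ⊆ V)
    (s : Finset U) : bdR r y s = ∑ v ∈ V.filter (fun v => v ∉ s), (sgR r s v : ℝ) * y (insert v s) := by
  unfold bdR
  rw [finsum_mem_eq_sum_of_inter_support_eq]
  ext v
  constructor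
  · rintro ⟨h1, h2⟩
    refine ⟨?_, h2⟩
    rw [Finset.mem_coe, Finset.mem_filter]
    exact ⟨hV _ (right_ne_zero_of_mul h2) (Finset.mem_insert_self v s), h1⟩
  · rintro ⟨h1, h2⟩
    rw [Finset.mem_coe, Finset.mem_filter] at h1
    exact ⟨h1.2, h2⟩

/-- the indicator of a simplex -/
private def hil_dl (t : Finset U) (s : Finset U) : ℝ := if s = t then 1 else 0

private theorem hil_dl_ne {t s : Finset U} (h : hil_dl t s ≠ 0) : s = t := by
  by_contra hne
  exact h (if_neg hne)

private theorem hil_b_ne (r : U → U → Prop) {t s : Finset U} (h : bdR r (hil_dl t) s ≠ 0) :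
    ∃ v ∈ t, s = t.erase v := by
  rw [hil_bdR_eq r t (fun t' ht' => (hil_dl_ne ht').le)] at h
  obtain ⟨v, hv, hne⟩ := Finset.exists_ne_zero_of_sum_ne_zero h
  rw [Finset.mem_filter] at hv
  have h1 := hil_dl_ne (right_ne_zero_of_mul hne)
  refine ⟨v, hv.1, ?_⟩
  rw [← h1, Finset.erase_insert hv.2]

private theorem hil_b_erase (r : U → U → Prop) {t : Finset U} {v : U} (hv : v ∈ t) :
    bdR r (hil_dl t) (t.erase v) = (sgR r (t.erase v) v : ℝ) := by
  rw [hil_bdR_eq r t (fun t' ht' => (hil_dl_ne ht').le)]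
  have h1 : t.filter (fun u => u ∉ t.erase v) = {v} := by
    ext u
    rw [Finset.mem_filter, Finset.mem_singleton, Finset.mem_erase]
    constructor
    · rintro ⟨h1, h2⟩
      by_contra h3
      exact h2 ⟨h3, h1⟩
    · rintro rfl
      exact ⟨hv, fun h => h.1 rfl⟩
  rw [h1, Finset.sum_singleton, Finset.insert_erase hv]
  show (sgR r (t.erase v) v : ℝ) * (if t = t then 1 else 0) = _
  rw [if_pos rfl, mul_one]

private theorem hil_sg (r : U → U → Prop) {s : Finset U} {a b : U} (ha : a ∉ s) (h : r a b) :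
    sgR r (insert a s) b = - sgR r s b := by
  classical
  unfold sgR
  rw [Finset.filter_insert, if_pos h, Finset.card_insert_of_notMem, pow_succ, mul_neg, mul_one]
  exact fun h1 => ha (Finset.mem_filter.1 h1).1

private theorem hil_sg' (r : U → U → Prop) {s : Finset U} {a b : U} (h : ¬ r a b) :
    sgR r (insert a s) b = sgR r s b := by
  classical
  unfold sgR
  rw [Finset.filter_insert, if_neg h]

/-- the boundary of the boundary -/
private theorem hil_bb (hdown : ∀ s ∈ X, ∀ t, t ⊆ s → t.Nonempty → t ∈ X) {r : U → U → Prop} (hT : Tot X r)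
    {t s : Finset U} (ht : t ∈ X) (W : Finset U) (hW : ∀ v, v ∈ W ↔ v ∉ s ∧ insert v s ∈ X) :
    ∑ v ∈ W, (sgR r s v : ℝ) * bdR r (hil_dl t) (insert v s) = 0 := by
  by_cases h0 : ∃ a b, a ∉ s ∧ b ∉ s ∧ a ≠ b ∧ insert b (insert a s) = t
  · obtain ⟨a, b, ha, hb, hab, rfl⟩ := h0
    have hva : insert a s ∈ X := hdown _ ht _ (Finset.subset_insert _ _) (Finset.insert_nonempty _ _)
    have hvb : insert b s ∈ X := hdown _ ht _
      (Finset.insert_subset_insert _ (Finset.subset_insert _ _)) (Finset.insert_nonempty _ _)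
    have hsub : ({a, b} : Finset U) ⊆ W := by
      intro v hv
      rw [Finset.mem_insert, Finset.mem_singleton] at hv
      rcases hv with rfl | rfl
      · exact (hW _).2 ⟨ha, hva⟩
      · exact (hW _).2 ⟨hb, hvb⟩
    rw [← Finset.sum_subset hsub, Finset.sum_pair hab]
    · have e1 : insert a s = (insert b (insert a s)).erase b := by
        rw [Finset.erase_insert]
        rw [Finset.mem_insert]
        rintro (h | h)
        · exact hab h.symm
        · exact hb h
      have e2 : insert b s = (insert b (insert a s)).erase a := by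
        rw [Finset.insert_comm, Finset.erase_insert]
        rw [Finset.mem_insert]
        rintro (h | h)
        · exact hab h
        · exact ha h
      have f1 : bdR r (hil_dl (insert b (insert a s))) (insert a s) = (sgR r (insert a s) b : ℝ) := by
        have := hil_b_erase r (Finset.mem_insert_self b (insert a s))
        rwa [← e1] at this
      have f2 : bdR r (hil_dl (insert b (insert a s))) (insert b s) = (sgR r (insert b s) a : ℝ) := by
        have := hil_b_erase r (Finset.mem_insert_of_mem (a := a) (b := b) (Finset.mem_insert_self a s))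
        rwa [← e2] at this
      rw [f1, f2]
      have hab' := (hT _ ht a (Finset.mem_insert_of_mem (Finset.mem_insert_self a s)) b
        (Finset.mem_insert_self b _) hab).1
      rcases hab' with ⟨h1, h2⟩ | ⟨h1, h2⟩
      · rw [hil_sg r ha h1, hil_sg' r h2]
        push_cast
        ring
      · rw [hil_sg r hb h1, hil_sg' r h2]
        push_cast
        ring
    · intro v hv hv'
      rw [hW] at hv
      by_contra hne
      obtain ⟨c, hc, hcc⟩ := hil_b_ne r (right_ne_zero_of_mul hne)
      have h1 : v ∈ (insert b (insert a s)).erase c := by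
        rw [← hcc]
        exact Finset.mem_insert_self _ _
      have h2 := Finset.mem_of_mem_erase h1
      rw [Finset.mem_insert, Finset.mem_insert] at h2
      rw [Finset.mem_insert, Finset.mem_singleton] at hv'
      push Not at hv'
      rcases h2 with h2 | h2 | h2
      · exact hv'.2 h2
      · exact hv'.1 h2
      · exact hv.1 h2
  · refine Finset.sum_eq_zero fun v hv => ?_
    rw [hW] at hv
    by_contra hne
    obtain ⟨c, hc, hcc⟩ := hil_b_ne r (right_ne_zero_of_mul hne)
    apply h0
    have hcn : c ∉ insert v s := by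
      rw [hcc]
      exact Finset.notMem_erase c t
    rw [Finset.mem_insert] at hcn
    push Not at hcn
    exact ⟨v, c, hv.1, hcn.2, fun h => hcn.1 h.symm, by rw [hcc, Finset.insert_erase hc]⟩

private theorem hil_mem {z : Finset U → ℝ} (h : Summable fun s => z s ^ 2) : Memℓp z 2 := by
  rw [memℓp_gen_iff (by norm_num)]
  simpa using h

private theorem hil_norm_sq (f : lp (fun _ : Finset U => ℝ) 2) : ‖f‖ ^ 2 = ∑' s, (f s) ^ 2 := by
  rw [← real_inner_self_eq_norm_sq, lp.inner_eq_tsum]
  refine tsum_congr fun s => ?_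
  rw [real_inner_self_eq_norm_sq, Real.norm_eq_abs, sq_abs]

private theorem hil_summable (f : lp (fun _ : Finset U => ℝ) 2) : Summable fun s => (f s) ^ 2 := by
  have h := lp.summable_inner (𝕜 := ℝ) f f
  refine h.congr fun s => ?_
  rw [real_inner_self_eq_norm_sq, Real.norm_eq_abs, sq_abs]

private theorem hil_fin {y : Finset U → ℝ} (h : (Function.support y).Finite) :
    Summable fun s => y s ^ 2 := by
  refine summable_of_hasFiniteSupport (h.subset ?_)
  intro s hs
  rw [Function.mem_support] at hs ⊢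
  exact fun h0 => hs (by rw [h0]; norm_num)

private theorem hil_b_fin (r : U → U → Prop) (t : Finset U) : (Function.support (bdR r (hil_dl t))).Finite := by
  refine (t.image t.erase).finite_toSet.subset ?_
  intro s hs
  obtain ⟨v, hv, rfl⟩ := hil_b_ne r hs
  rw [Finset.mem_coe]
  exact Finset.mem_image_of_mem _ hv

/-- the boundary of a simplex, as an element of the Hilbert space -/
private noncomputable def hil_b (r : U → U → Prop) (t : Finset U) : lp (fun _ : Finset U => ℝ) 2 :=
  ⟨bdR r (hil_dl t), hil_mem (hil_fin (hil_b_fin r t))⟩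

/-- finite chains -/
private def hil_Fin (X : Set (Finset U)) (r : U → U → Prop) (i : ℕ) (f : lp (fun _ : Finset U => ℝ) 2) : Prop :=
  ∃ (V : Finset U) (y : Finset U → ℝ), (∀ s, y s ≠ 0 → s ∈ X ∧ s.card = i + 2 ∧ s ⊆ V) ∧ ∀ s, f s = bdR r y s

private theorem hil_span (X : Set (Finset U)) (r : U → U → Prop) (i : ℕ) (f : lp (fun _ : Finset U => ℝ) 2)
    (hf : f ∈ Submodule.span ℝ (hil_b r '' {t | t ∈ X ∧ t.card = i + 2})) : hil_Fin X r i f := by
  induction hf using Submodule.span_induction with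
  | mem x hx =>
    obtain ⟨t, ht, rfl⟩ := hx
    refine ⟨t, hil_dl t, fun s hs => ?_, fun s => rfl⟩
    rw [hil_dl_ne hs]
    exact ⟨ht.1, ht.2, subset_rfl⟩
  | zero =>
    refine ⟨∅, 0, fun s hs => absurd rfl hs, fun s => ?_⟩
    have h1 := hil_bdR_eq r (y := (0 : Finset U → ℝ)) ∅ (fun t ht => absurd rfl ht) s
    rw [h1]
    simp
  | add x x' _ _ hx hx' =>
    obtain ⟨V, y, hy, hyx⟩ := hx
    obtain ⟨V', y', hy', hyx'⟩ := hx'
    have h1 : ∀ s, y s ≠ 0 → s ⊆ V ∪ V' := fun s hs => (hy s hs).2.2.trans Finset.subset_union_left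
    have h2 : ∀ s, y' s ≠ 0 → s ⊆ V ∪ V' := fun s hs => (hy' s hs).2.2.trans Finset.subset_union_right
    have h3 : ∀ s, (y + y') s ≠ 0 → s ∈ X ∧ s.card = i + 2 ∧ s ⊆ V ∪ V' := by
      intro s hs
      by_cases h0 : y s = 0
      · have h0' : y' s ≠ 0 := by
          intro h0'
          exact hs (by rw [Pi.add_apply, h0, h0', add_zero])
        exact ⟨(hy' s h0').1, (hy' s h0').2.1, h2 s h0'⟩
      · exact ⟨(hy s h0).1, (hy s h0).2.1, h1 s h0⟩
    refine ⟨V ∪ V', y + y', h3, fun s => ?_⟩
    have e : (x + x') s = x s + x' s := rfl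
    rw [e, hyx, hyx', hil_bdR_eq r (V ∪ V') h1, hil_bdR_eq r (V ∪ V') h2,
      hil_bdR_eq r (V ∪ V') fun s hs => (h3 s hs).2.2, ← Finset.sum_add_distrib]
    refine Finset.sum_congr rfl fun v _ => ?_
    rw [Pi.add_apply, mul_add]
  | smul c x _ hx =>
    obtain ⟨V, y, hy, hyx⟩ := hx
    have h3 : ∀ s, (c • y) s ≠ 0 → s ∈ X ∧ s.card = i + 2 ∧ s ⊆ V := by
      intro s hs
      refine hy s fun h0 => hs ?_
      rw [Pi.smul_apply, h0, smul_zero]
    refine ⟨V, c • y, h3, fun s => ?_⟩
    have e : (c • x) s = c * x s := rfl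
    rw [e, hyx, hil_bdR_eq r V fun s hs => (hy s hs).2.2, hil_bdR_eq r V fun s hs => (h3 s hs).2.2,
      Finset.mul_sum]
    refine Finset.sum_congr rfl fun v _ => ?_
    rw [Pi.smul_apply, smul_eq_mul]
    ring

theorem l2_hil (hne : ∀ s ∈ X, s.Nonempty) (hdown : ∀ s ∈ X, ∀ t, t ⊆ s → t.Nonempty → t ∈ X)
    (hlf : ∀ s ∈ X, {t | t ∈ X ∧ s ⊆ t}.Finite) {r : U → U → Prop} (hT : Tot X r) (i : ℕ)
    (h : ∀ z, IsL2Ch X (i + 1) z → (∀ s ∈ X, bdR r z s = 0) → IsCoc X r z → z = 0)
    (z : Finset U → ℝ) (hz : IsL2Ch X (i + 1) z) (hz0 : ∀ s ∈ X, bdR r z s = 0) (ε : ℝ) (hε : 0 < ε) :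
    ∃ y, IsL2Ch X (i + 2) y ∧ (Summable fun s => (z s - bdR r y s) ^ 2) ∧ ∑' s, (z s - bdR r y s) ^ 2 < ε := by
  classical
  let K : Submodule ℝ (lp (fun _ : Finset U => ℝ) 2) := Submodule.span ℝ (hil_b r '' {t | t ∈ X ∧ t.card = i + 2})
  let Kc := K.topologicalClosure
  have : CompleteSpace Kc := K.isClosed_topologicalClosure.completeSpace_coe
  let Z : lp (fun _ : Finset U => ℝ) 2 := ⟨z, hil_mem hz.l2⟩
  let m : lp (fun _ : Finset U => ℝ) 2 := Kc.starProjection Z
  have hm : m ∈ Kc := Kc.starProjection_apply_mem Z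
  let w : lp (fun _ : Finset U => ℝ) 2 := Z - m
  have hw : w ∈ Kcᗮ := Kc.sub_starProjection_mem_orthogonal Z
  -- closed conditions
  have hcl : ∀ φ : lp (fun _ : Finset U => ℝ) 2 →L[ℝ] ℝ, (∀ f ∈ K, φ f = 0) → ∀ f ∈ Kc, φ f = 0 := by
    intro φ hφ f hf
    have h1 : IsClosed {f : lp (fun _ : Finset U => ℝ) 2 | φ f = 0} := isClosed_singleton.preimage φ.continuous
    exact (closure_minimal (fun f hf => hφ f hf) h1) hf
  have hcl' : ∀ φ : lp (fun _ : Finset U => ℝ) 2 →L[ℝ] ℝ,
      (∀ t ∈ X, t.card = i + 2 → φ (hil_b r t) = 0) → ∀ f ∈ Kc, φ f = 0 := by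
    intro φ hφ
    refine hcl φ fun f hf => ?_
    have h1 : K ≤ LinearMap.ker φ.toLinearMap := by
      refine Submodule.span_le.2 ?_
      rintro _ ⟨t, ht, rfl⟩
      exact hφ t ht.1 ht.2
    exact h1 hf
  -- the support
  have hms : ∀ s, ¬ (s ∈ X ∧ s.card = i + 1) → m s = 0 := by
    intro s hs
    refine hcl' (lp.evalCLM ℝ (fun _ : Finset U => ℝ) 2 s) (fun t ht htc => ?_) m hm
    show bdR r (hil_dl t) s = 0
    by_contra h0
    obtain ⟨v, hv, rfl⟩ := hil_b_ne r h0
    have hc : (t.erase v).card = i + 1 := by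
      rw [Finset.card_erase_of_mem hv, htc]
      rfl
    exact hs ⟨hdown t ht _ (Finset.erase_subset _ _) (Finset.card_pos.1 (by omega)), hc⟩
  have hws : ∀ s, w s ≠ 0 → s ∈ X ∧ s.card = i + 1 := by
    intro s hs
    by_contra h0
    have h1 : z s = 0 := by
      by_contra h2
      exact h0 (hz.supp s h2)
    apply hs
    show z s - m s = 0
    rw [h1, hms s h0, sub_zero]
  have hwl : IsL2Ch X (i + 1) (fun s => w s) := ⟨hws, hil_summable w⟩
  -- cycles
  have hW : ∀ s ∈ X, ∃ W : Finset U, ∀ v, v ∈ W ↔ v ∉ s ∧ insert v s ∈ X := by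
    intro s hs
    have h1 : {v | v ∉ s ∧ insert v s ∈ X}.Finite := by
      have h2 : ((fun v => insert v s) '' {v | v ∉ s ∧ insert v s ∈ X}).Finite := by
        refine (hlf s hs).subset ?_
        rintro _ ⟨v, hv, rfl⟩
        exact ⟨hv.2, Finset.subset_insert _ _⟩
      refine Set.Finite.of_finite_image h2 ?_
      intro v hv v' hv' hvv
      have h3 : v ∈ insert v' s := by
        rw [← (show insert v s = insert v' s from hvv)]
        exact Finset.mem_insert_self _ _
      rw [Finset.mem_insert] at h3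
      exact h3.resolve_right hv.1
    exact ⟨h1.toFinset, fun v => by rw [Set.Finite.mem_toFinset]; rfl⟩
  have hbd : ∀ s ∈ X, ∀ W : Finset U, (∀ v, v ∈ W ↔ v ∉ s ∧ insert v s ∈ X) → ∀ y : Finset U → ℝ,
      (∀ t, y t ≠ 0 → t ∈ X) → bdR r y s = ∑ v ∈ W, (sgR r s v : ℝ) * y (insert v s) := by
    intro s hs W hWs y hy
    unfold bdR
    rw [finsum_mem_eq_sum_of_inter_support_eq]
    ext v
    constructor
    · rintro ⟨h1, h2⟩
      refine ⟨?_, h2⟩
      rw [Finset.mem_coe, hWs]
      exact ⟨h1, hy _ (right_ne_zero_of_mul h2)⟩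
    · rintro ⟨h1, h2⟩
      rw [Finset.mem_coe, hWs] at h1
      exact ⟨h1.1, h2⟩
  have hw0 : ∀ s ∈ X, bdR r (fun s => w s) s = 0 := by
    intro s hs
    obtain ⟨W, hWs⟩ := hW s hs
    rw [hbd s hs W hWs _ fun t ht => (hws t ht).1]
    have h1 := hz0 s hs
    rw [hbd s hs W hWs _ fun t ht => (hz.supp t ht).1] at h1
    have h2 : ∑ v ∈ W, (sgR r s v : ℝ) * m (insert v s) = 0 := by
      have h3 := hcl' (∑ v ∈ W, (sgR r s v : ℝ) • lp.evalCLM ℝ (fun _ : Finset U => ℝ) 2 (insert v s))
        (fun t ht htc => ?_) m hm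
      · rw [_root_.sum_apply] at h3
        exact h3
      · rw [_root_.sum_apply]
        exact hil_bb hdown hT ht W hWs
    have h4 : ∑ v ∈ W, (sgR r s v : ℝ) * w (insert v s) =
        ∑ v ∈ W, (sgR r s v : ℝ) * z (insert v s) - ∑ v ∈ W, (sgR r s v : ℝ) * m (insert v s) := by
      rw [← Finset.sum_sub_distrib]
      refine Finset.sum_congr rfl fun v _ => ?_
      rw [← mul_sub]
      rfl
    rw [h4, h1, h2, sub_zero]
  have hwc : IsCoc X r (fun s => w s) := by
    intro t ht
    by_cases htc : t.card = i + 2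
    · have h1 : inner ℝ (hil_b r t) w = 0 := by
        refine (Submodule.mem_orthogonal _ _).1 hw _ ?_
        exact K.le_topologicalClosure (Submodule.subset_span ⟨t, ⟨ht, htc⟩, rfl⟩)
      rw [lp.inner_eq_tsum, tsum_eq_sum (s := t.image t.erase), Finset.sum_image] at h1
      · rw [← h1]
        refine Finset.sum_congr rfl fun v hv => ?_
        have h2 : (hil_b r t) (t.erase v) = (sgR r (t.erase v) v : ℝ) := hil_b_erase r hv
        rw [h2]
        show _ = inner ℝ (sgR r (t.erase v) v : ℝ) (w (t.erase v))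
        simp [mul_comm]
      · intro a ha b hb hab
        by_contra hne
        have h2 : b ∈ t.erase a := Finset.mem_erase.2 ⟨fun h => hne h.symm, hb⟩
        rw [show t.erase a = t.erase b from hab] at h2
        exact Finset.notMem_erase b t h2
      · intro s hs
        have h2 : (hil_b r t) s = 0 := by
          show bdR r (hil_dl t) s = 0
          by_contra h0
          obtain ⟨v, hv, rfl⟩ := hil_b_ne r h0
          exact hs (Finset.mem_image_of_mem _ hv)
        rw [h2, inner_zero_left]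
    · refine Finset.sum_eq_zero fun v hv => ?_
      have h2 : w (t.erase v) = 0 := by
        by_contra h0
        have h3 := (hws _ h0).2
        rw [Finset.card_erase_of_mem hv] at h3
        have h4 : 0 < t.card := Finset.card_pos.2 ⟨v, hv⟩
        omega
      show (sgR r (t.erase v) v : ℝ) * w (t.erase v) = 0
      rw [h2, mul_zero]
  have hw00 := h (fun s => w s) hwl hw0 hwc
  have hZm : Z = m := by
    have h1 : w = 0 := by
      apply lp.ext
      funext s
      exact congrFun hw00 s
    exact sub_eq_zero.1 h1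
  have hZK : Z ∈ closure (K : Set (lp (fun _ : Finset U => ℝ) 2)) := by
    rw [hZm]
    exact hm
  obtain ⟨k, hkK, hk⟩ := Metric.mem_closure_iff.1 hZK (Real.sqrt ε) (Real.sqrt_pos.2 hε)
  obtain ⟨V, y, hy, hyk⟩ := hil_span X r i k hkK
  have hfin : (Function.support y).Finite := by
    refine V.powerset.finite_toSet.subset fun s hs => ?_
    rw [Finset.mem_coe, Finset.mem_powerset]
    exact (hy s hs).2.2
  have e : ∀ s, (Z - k) s = z s - bdR r y s := by
    intro s
    rw [← hyk]
    rfl
  refine ⟨y, ⟨fun s hs => ⟨(hy s hs).1, (hy s hs).2.1⟩, hil_fin hfin⟩, ?_, ?_⟩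
  · exact (hil_summable (Z - k)).congr fun s => by rw [e]
  · have h1 : ‖Z - k‖ ^ 2 < ε := by
      rw [← dist_eq_norm]
      calc dist Z k ^ 2 < Real.sqrt ε ^ 2 := by
            exact pow_lt_pow_left₀ hk dist_nonneg (by norm_num)
        _ = ε := Real.sq_sqrt hε.le
    rw [hil_norm_sq] at h1
    calc ∑' s, (z s - bdR r y s) ^ 2 = ∑' s, ((Z - k) s) ^ 2 := tsum_congr fun s => by rw [e]
      _ < ε := h1

end Pool.Agent.S11
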