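import Pool.Agent.S11.EdDefs

/-!
# Project S11, block END: change of the order of the vertices

`eps s = ∏ over the pairs u, w in s (each pair once) of ±1`, `-1` if `r` and `r'` order them differently; then
`sgR r' s v = eps s * eps (insert v s) * sgR r s v` for `insert v s ∈ X`.  A chain `z` goes to `eps * z`.
-/

set_option autoImplicit false
set_option linter.unusedSectionVars false
set_option linter.unusedVariables false

open Finset

namespace Pool.Agent.S11

variable {U : Type} [DecidableEq U] {X : Set (Finset U)}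

open Classical in
/-- the pairs of elements of `s` which are ordered differently -/
private noncomputable def edInv (r r' : U → U → Prop) (s : Finset U) : Finset (U × U) :=
  (s ×ˢ s).filter fun p => p.1 ≠ p.2 ∧ r p.1 p.2 ∧ r' p.2 p.1

private noncomputable def edEps (r r' : U → U → Prop) (s : Finset U) : ℤ := (-1) ^ (edInv r r' s).card

open Classical in
private theorem edInv_insert (r r' : U → U → Prop) {s : Finset U} {v : U} (hv : v ∉ s) :
    (edInv r r' (insert v s)).card = (edInv r r' s).card + (s.filter fun u => r u v ∧ r' v u).card +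
      (s.filter fun u => r v u ∧ r' u v).card := by
  have h : edInv r r' (insert v s) = (edInv r r' s ∪ (s.filter fun u => r u v ∧ r' v u).image fun u => (u, v)) ∪
      (s.filter fun u => r v u ∧ r' u v).image fun u => (v, u) := by
    ext ⟨a, b⟩
    simp only [edInv, mem_filter, mem_product, mem_insert, mem_union, mem_image, Prod.mk.injEq]
    constructor
    · rintro ⟨⟨ha, hb⟩, hab, h1, h2⟩
      rcases ha with rfl | ha
      · rcases hb with rfl | hb
        · exact absurd rfl hab
        · exact Or.inr ⟨b, ⟨hb, h1, h2⟩, rfl, rfl⟩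
      · rcases hb with rfl | hb
        · exact Or.inl (Or.inr ⟨a, ⟨ha, h1, h2⟩, rfl, rfl⟩)
        · exact Or.inl (Or.inl ⟨⟨ha, hb⟩, hab, h1, h2⟩)
    · rintro ((⟨⟨ha, hb⟩, hab, h1, h2⟩ | ⟨u, ⟨hu, h1, h2⟩, rfl, rfl⟩) | ⟨u, ⟨hu, h1, h2⟩, rfl, rfl⟩)
      · exact ⟨⟨Or.inr ha, Or.inr hb⟩, hab, h1, h2⟩
      · exact ⟨⟨Or.inr hu, Or.inl rfl⟩, fun e => hv (e ▸ hu), h1, h2⟩
      · exact ⟨⟨Or.inl rfl, Or.inr hu⟩, fun e => hv (e ▸ hu), h1, h2⟩
  rw [h, card_union_of_disjoint, card_union_of_disjoint, card_image_of_injective, card_image_of_injective]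
  · intro x y hxy
    exact (Prod.mk.inj hxy).2
  · intro x y hxy
    exact (Prod.mk.inj hxy).1
  · rw [disjoint_left]
    rintro ⟨a, b⟩ h1 h2
    simp only [edInv, mem_filter, mem_product] at h1
    simp only [mem_image, mem_filter, Prod.mk.injEq] at h2
    obtain ⟨u, -, rfl, rfl⟩ := h2
    exact hv h1.1.2
  · rw [disjoint_left]
    rintro ⟨a, b⟩ h1 h2
    simp only [edInv, mem_union, mem_filter, mem_product, mem_image, Prod.mk.injEq] at h1
    simp only [mem_image, mem_filter, Prod.mk.injEq] at h2
    obtain ⟨u, hu, rfl, rfl⟩ := h2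
    rcases h1 with h1 | ⟨w, hw, rfl, rfl⟩
    · exact hv h1.1.1
    · exact hv hw.1

open Classical in
private theorem edCard (P Q P' Q' : U → Prop) (s : Finset U) (hP : ∀ u ∈ s, P u ↔ ¬ P' u) (hQ : ∀ u ∈ s, Q u ↔ ¬ Q' u) :
    (s.filter P).card + (s.filter Q).card = (s.filter fun u => P u ∧ Q' u).card + (s.filter fun u => P' u ∧ Q u).card +
      2 * (s.filter fun u => P u ∧ Q u).card := by
  have h1 : (s.filter P).card = (s.filter fun u => P u ∧ Q u).card + (s.filter fun u => P u ∧ Q' u).card := by
    rw [← card_filter_add_card_filter_not (s := s.filter P) Q, filter_filter, filter_filter]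
    congr 1
    refine congrArg card (filter_congr fun u hu => ?_)
    have := hQ u hu
    tauto
  have h2 : (s.filter Q).card = (s.filter fun u => P u ∧ Q u).card + (s.filter fun u => P' u ∧ Q u).card := by
    rw [← card_filter_add_card_filter_not (s := s.filter Q) P, filter_filter, filter_filter]
    congr 1
    · refine congrArg card (filter_congr fun u hu => ?_)
      tauto
    · refine congrArg card (filter_congr fun u hu => ?_)
      have := hP u hu
      tauto
  omega

theorem exists_eps (hdown : ∀ s ∈ X, ∀ t, t ⊆ s → t.Nonempty → t ∈ X) {r r' : U → U → Prop} (hT : Tot X r) (hT' : Tot X r') :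
    ∃ eps : Finset U → ℤ, (∀ s, eps s = 1 ∨ eps s = -1) ∧
      ∀ s v, v ∉ s → insert v s ∈ X → sgR r' s v = eps s * eps (insert v s) * sgR r s v := by
  classical
  refine ⟨edEps r r', fun s => neg_one_pow_eq_or ℤ _, fun s v hv hX => ?_⟩
  have h1 : ∀ u ∈ s, (r u v ↔ ¬ r v u) ∧ (r' u v ↔ ¬ r' v u) := by
    intro u hu
    have hne : u ≠ v := fun e => hv (e ▸ hu)
    have a1 := (hT _ hX u (mem_insert_of_mem hu) v (mem_insert_self _ _) hne).1
    have a2 := (hT' _ hX u (mem_insert_of_mem hu) v (mem_insert_self _ _) hne).1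
    constructor <;> tauto
  have h2 := edCard (fun u => r u v) (fun u => r' u v) (fun u => r v u) (fun u => r' v u) s (fun u hu => (h1 u hu).1)
    (fun u hu => (h1 u hu).2)
  have h3 := edInv_insert r r' hv
  have h4 : (-1 : ℤ) ^ (s.filter fun u => r' u v).card * (-1) ^ (s.filter fun u => r u v).card =
      (-1) ^ (edInv r r' s).card * (-1) ^ (edInv r r' (insert v s)).card := by
    rw [← pow_add, ← pow_add, h3, add_comm (s.filter fun u => r' u v).card, h2]
    rw [show (edInv r r' s).card + ((edInv r r' s).card + (s.filter fun u => r u v ∧ r' v u).card +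
      (s.filter fun u => r v u ∧ r' u v).card) = ((s.filter fun u => r u v ∧ r' v u).card +
      (s.filter fun u => r v u ∧ r' u v).card) + 2 * (edInv r r' s).card by ring, pow_add _ _ (2 * _), pow_add _ _ (2 * _),
      pow_mul, pow_mul]
    norm_num
  have h5 : (-1 : ℤ) ^ (s.filter fun u => r u v).card * (-1) ^ (s.filter fun u => r u v).card = 1 := by
    rw [← pow_add, ← two_mul, pow_mul]
    norm_num
  unfold sgR edEps
  rw [← h4, mul_assoc, h5, mul_one]

theorem tot_of_order {r : U → U → Prop} (hr : IsStrictTotalOrder U r) : Tot X r := by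
  intro s _ u _ v _ huv
  have hirr : ∀ a, ¬ r a a := fun a => irrefl_of r a
  have htr : ∀ a b c, r a b → r b c → r a c := fun a b c h1 h2 => trans_of r h1 h2
  refine ⟨?_, fun w _ h1 h2 => htr _ _ _ h1 h2⟩
  rcases trichotomous_of r u v with h | h | h
  · exact Or.inl ⟨h, fun h' => hirr _ (htr _ _ _ h h')⟩
  · exact absurd h huv
  · exact Or.inr ⟨h, fun h' => hirr _ (htr _ _ _ h h')⟩

/-- if harmonic chains vanish for one order then for every order -/
theorem harm_order (hdown : ∀ s ∈ X, ∀ t, t ⊆ s → t.Nonempty → t ∈ X) {r r' : U → U → Prop} (hT : Tot X r) (hT' : Tot X r') (k : ℕ)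
    (h : ∀ z, IsL2Ch X k z → (∀ s ∈ X, bdR r z s = 0) → IsCoc X r z → z = 0) :
    ∀ z, IsL2Ch X k z → (∀ s ∈ X, bdR r' z s = 0) → IsCoc X r' z → z = 0 := by
  classical
  obtain ⟨eps, he, hs⟩ := exists_eps hdown hT hT'
  have he2 : ∀ s, eps s * eps s = 1 := by
    intro s
    rcases he s with h | h <;> rw [h] <;> norm_num
  have he2' : ∀ s, (eps s : ℝ) * eps s = 1 := by
    intro s
    exact_mod_cast he2 s
  -- the formula in the other direction
  have hs' : ∀ s v, v ∉ s → insert v s ∈ X → (sgR r s v : ℝ) * eps (insert v s) = eps s * sgR r' s v := by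
    intro s v hv hX
    have h1 : sgR r s v * eps (insert v s) = eps s * sgR r' s v := by
      rw [hs s v hv hX, ← mul_assoc, ← mul_assoc, he2, one_mul, mul_comm]
    exact_mod_cast h1
  intro z hz hb hc
  have key : (fun s => (eps s : ℝ) * z s) = 0 := by
    refine h _ ⟨fun s hs => hz.supp s fun h0 => hs (by simp [h0]), ?_⟩ ?_ ?_
    · refine hz.l2.congr fun s => ?_
      show z s ^ 2 = ((eps s : ℝ) * z s) ^ 2
      have h2 := he2' s
      calc z s ^ 2 = ((eps s : ℝ) * eps s) * z s ^ 2 := by rw [h2, one_mul]
        _ = ((eps s : ℝ) * z s) ^ 2 := by ring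
    · intro s hsX
      have h1 : bdR r (fun s => (eps s : ℝ) * z s) s = (eps s : ℝ) • bdR r' z s := by
        unfold bdR
        rw [smul_finsum]
        refine finsum_congr fun v => ?_
        rw [smul_finsum]
        refine finsum_congr fun hv => ?_
        by_cases h0 : z (insert v s) = 0
        · simp [h0]
        · have h2 := hs' s v hv (hz.supp _ h0).1
          rw [smul_eq_mul, ← mul_assoc, h2, mul_assoc]
      rw [h1, hb s hsX, smul_zero]
    · intro t ht
      have h1 : ∑ v ∈ t, (sgR r (t.erase v) v : ℝ) * ((eps (t.erase v) : ℝ) * z (t.erase v)) =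
          (eps t : ℝ) * ∑ v ∈ t, (sgR r' (t.erase v) v : ℝ) * z (t.erase v) := by
        rw [mul_sum]
        refine sum_congr rfl fun v hv => ?_
        have h2 := hs' (t.erase v) v (notMem_erase v t) (by rwa [insert_erase hv])
        rw [insert_erase hv] at h2
        have h3 : (sgR r (t.erase v) v : ℝ) * eps (t.erase v) = eps t * sgR r' (t.erase v) v := by
          have e1 : (sgR r (t.erase v) v : ℝ) * eps t * eps t * eps (t.erase v) =
              eps (t.erase v) * sgR r' (t.erase v) v * eps t * eps (t.erase v) := by rw [h2]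
          have e2 := he2' t
          have e3 := he2' (t.erase v)
          calc (sgR r (t.erase v) v : ℝ) * eps (t.erase v) = (sgR r (t.erase v) v : ℝ) * (eps t * eps t) * eps (t.erase v) := by
                rw [e2, mul_one]
            _ = eps (t.erase v) * sgR r' (t.erase v) v * eps t * eps (t.erase v) := by rw [← e1]; ring
            _ = (eps (t.erase v) * eps (t.erase v)) * (eps t * sgR r' (t.erase v) v) := by ring
            _ = eps t * sgR r' (t.erase v) v := by rw [e3, one_mul]
        rw [← mul_assoc, h3, mul_assoc]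
      rw [h1, hc t ht, mul_zero]
  funext s
  have h1 := congrFun key s
  simp only [Pi.zero_apply] at h1
  rcases he s with h2 | h2
  · rw [h2] at h1
    simpa using h1
  · rw [h2] at h1
    simpa using h1

end Pool.Agent.S11
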