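import Pool.Agent.S11.Ord
import Pool.Agent.H20.GR.Growth

/-!
# Project S11: definitions (interfaces between the blocks)

`Chain` = chains of convex normal subgroups with free quotients; `Appr` = approximations by ordered groups;
`FBox` (H20/GR) = a group with boxes; `Res2` = residually a finite two-group.
-/

set_option autoImplicit false
set_option linter.unusedSectionVars false

namespace Pool.Agent.S11

/-- `N` is convex -/
def Cvx {H : Type} [Group H] [BO H] (N : Subgroup H) : Prop := ∀ x ∈ N, ∀ y, 1 ≤ y → y ≤ x → y ∈ N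

/-- a chain of convex normal subgroups with free quotients -/
structure Chain (H : Type) [Group H] [BO H] (r : ℕ) (N : ℕ → Subgroup H) : Prop where
  zero : N 0 = ⊤
  last : N r = ⊥
  anti : Antitone N
  normal : ∀ s, (N s).Normal
  cvx : ∀ s, Cvx (N s)
  free : ∀ s < r, IsFreeGroup (N s ⧸ (N (s + 1)).subgroupOf (N s))


/-- Approximations of a group with a chain by ordered groups. -/
structure Appr (H : Type) [Group H] [BO H] (N : ℕ → Subgroup H) where
  /-- the groups -/
  Γ : ℕ → ℕ → Type
  /-- they are groups -/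
  grp : ∀ j s, Group (Γ j s)
  /-- they are ordered -/
  bo : ∀ j s, BO (Γ j s)
  /-- the homomorphisms -/
  q : ∀ j s, H →* Γ j s
  ker : ∀ j s x, x ∈ N s → q j s x = 1
  dec : ∀ s x j j', j ≤ j' → q j' s x = 1 → q j s x = 1
  sep : ∀ s x, x ∉ N s → ∃ j, q j s x ≠ 1
  lex : ∀ j s x, 1 < q j s x → 1 < q j (s + 1) x
  pos : ∀ j s x, x ∈ N s → 1 < x → 1 ≤ q j (s + 1) x

attribute [instance] Appr.grp Appr.bo

/-- the index is a power of two -/
def TwoPow {G : Type} [Group G] (W : Subgroup G) : Prop := ∃ k : ℕ, W.index = 2 ^ k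

/-- `H` is residually a finite two-group -/
def Res2 (H : Type) [Group H] : Prop := ∀ x : H, x ≠ 1 → ∃ W : Subgroup H, W.Normal ∧ TwoPow W ∧ x ∉ W

export Pool.Agent.H20.GR (FBox)

end Pool.Agent.S11
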