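import Pool.Agent.S11.Flat
import Pool.Agent.S11.Defs

/-!
# Project S11: the interface between the algebra and the topology

`lft ι` = the left multiplication on `D`; `Grow ι` = the growth property; `DPack H` = a division ring of characteristic two
with a homomorphism from the group algebra such that `D ⊗ D` with the diagonal action is flat, and with the growth
property.
-/

set_option autoImplicit false
set_option linter.unusedSectionVars false

open TensorProduct

namespace Pool.Agent.S11

section

variable {H : Type} [Group H] {D : Type} [DivisionRing D] [Algebra (ZMod 2) D]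

/-- the left multiplication -/
noncomputable def lft (ι : MonoidAlgebra (ZMod 2) H →+* D) : Representation (ZMod 2) H D where
  toFun g := LinearMap.mulLeft (ZMod 2) (ι (MonoidAlgebra.single g 1))
  map_one' := by
    refine LinearMap.ext fun d => ?_
    rw [LinearMap.mulLeft_apply, ← MonoidAlgebra.one_def, map_one, one_mul]
    rfl
  map_mul' g h := by
    refine LinearMap.ext fun d => ?_
    rw [Module.End.mul_apply, LinearMap.mulLeft_apply, LinearMap.mulLeft_apply, LinearMap.mulLeft_apply,
      ← mul_assoc, ← map_mul, MonoidAlgebra.single_mul_single, mul_one]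

theorem lft_apply (ι : MonoidAlgebra (ZMod 2) H →+* D) (g : H) (d : D) :
    lft ι g d = ι (MonoidAlgebra.single g 1) * d := rfl

open Pool.Agent.H4.Atiyah in
/-- **The growth property**: a matrix which has `r` rows which are independent over `D` has a large rank over the group
algebras of suitable finite two-groups. -/
def Grow (ι : MonoidAlgebra (ZMod 2) H →+* D) : Prop :=
  ∀ (a c r : ℕ) (A : Matrix (Fin a) (Fin c) (MonoidAlgebra (ZMod 2) H)) (rows : Fin r → Fin a),
    (∀ v : Fin r → D, Matrix.vecMul v ((A.submatrix rows id).map ι) = 0 → v = 0) → ∀ ε : ℝ, 0 < ε →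
    ∃ (P : Type) (_ : Group P) (_ : Fintype P), IsPGroup 2 P ∧ ∃ π : H →* P,
      ∀ (P' : Type) [Group P'] [Fintype P'], IsPGroup 2 P' → ∀ π' : H →* P',
        ((r : ℝ) - ε) * Fintype.card (P × P') ≤
          ((op (A.map (MonoidAlgebra.mapDomainRingHom (ZMod 2) (π.prod π')))).rank : ℝ)

end

/-- the division ring -/
structure DPack (H : Type) [Group H] where
  /-- the division ring -/
  D : Type
  /-- it is a division ring -/
  div : DivisionRing D
  /-- of characteristic two -/
  alg : Algebra (ZMod 2) D
  /-- the homomorphism from the group algebra -/
  ι : MonoidAlgebra (ZMod 2) H →+* D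
  flat : Flat ((lft ι).tprod (lft ι))
  grow : Grow ι

attribute [instance] DPack.div DPack.alg

end Pool.Agent.S11
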