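import Pool.Agent.S11.EdDefs
import Pool.Agent.S11.Pack
import Pool.Agent.S10.DuMain

/-!
# Project S11: finite index bookkeeping

`IsGeomS G X`: a proper cocompact simplicial action on the simplicial complex `X`.
-/

set_option autoImplicit false
set_option linter.unusedSectionVars false

open Finset Pointwise

namespace Pool.Agent.S11

open Pool.Agent.H37.TM Pool.Agent.H65.RM Pool.Agent.S10

/-- The group `G` acts properly and cocompactly by simplicial automorphisms on the simplicial complex `X` (a set of
nonempty finite sets of vertices): the stabilizers of the simplices are finite and there are finitely many orbits of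
simplices. -/
structure IsGeomS (G : Type) [Group G] {V : Type} [DecidableEq V] [MulAction G V] (X : Set (Finset V)) : Prop where
  ne : ∀ s ∈ X, s.Nonempty
  down : ∀ s ∈ X, ∀ t, t ⊆ s → t.Nonempty → t ∈ X
  mem : ∀ (g : G), ∀ s ∈ X, g • s ∈ X
  proper : ∀ s ∈ X, {g : G | g • s = s}.Finite
  cocompact : ∃ F : Finset (Finset V), ∀ s ∈ X, ∃ g : G, g • s ∈ F

section

variable {V U G : Type} [DecidableEq V] [DecidableEq U] [Group G] [MulAction G V] {X : Set (Finset V)}

theorem IsGeomS.sub (hG : IsGeomS G X) (P : Subgroup G) [hP : P.FiniteIndex] : IsGeomS P X where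
  ne := hG.ne
  down := hG.down
  mem g s hs := hG.mem (g : G) s hs
  proper s hs := by
    refine Set.Finite.of_finite_image ((hG.proper s hs).subset ?_) (f := fun g : P => (g : G)) Subtype.val_injective.injOn
    rintro _ ⟨g, hg, rfl⟩
    exact hg
  cocompact := by
    classical
    obtain ⟨F, hF⟩ := hG.cocompact
    have hfin : Finite (G ⧸ P) := inferInstance
    let _ : Fintype (G ⧸ P) := Fintype.ofFinite _
    -- representatives of the left cosets
    refine ⟨(univ : Finset (G ⧸ P)).biUnion fun c => F.image fun t => (c.out : G)⁻¹ • t, fun s hs => ?_⟩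
    obtain ⟨g, hg⟩ := hF s hs
    -- `g = o * p` with `o = out (g P)`
    set o : G := (QuotientGroup.mk g : G ⧸ P).out with ho
    have hp : o⁻¹ * g ∈ P := by
      rw [← QuotientGroup.eq]
      exact Quotient.out_eq' _
    refine ⟨⟨o⁻¹ * g, hp⟩, ?_⟩
    rw [mem_biUnion]
    refine ⟨QuotientGroup.mk g, mem_univ _, mem_image.2 ⟨g • s, hg, ?_⟩⟩
    change o⁻¹ • (g • s) = (o⁻¹ * g) • s
    rw [mul_smul]

/-- ordered groups are torsion free -/
theorem BO.tf {H : Type} [Group H] [BO H] {g : H} {k : ℕ} (hk : 0 < k) (h : g ^ k = 1) : g = 1 := by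
  have key : ∀ x : H, 1 < x → ∀ m : ℕ, 0 < m → 1 < x ^ m := by
    intro x hx m hm
    induction m with
    | zero => exact absurd hm (lt_irrefl _)
    | succ m ih =>
      rcases Nat.eq_zero_or_pos m with h0 | h0
      · subst h0
        rwa [zero_add, pow_one]
      · rw [pow_succ]
        exact one_lt_mul_bo (ih h0) hx
  rcases lt_trichotomy g 1 with h1 | h1 | h1
  · have h2 : 1 < g⁻¹ := by
      have := inv_lt_inv_bo h1
      rwa [inv_one] at this
    have h3 := key _ h2 k hk
    rw [inv_pow, h, inv_one] at h3
    exact absurd h3 (lt_irrefl _)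
  · exact h1
  · have h3 := key _ h1 k hk
    rw [h] at h3
    exact absurd h3 (lt_irrefl _)

/-- an element with finitely many powers is trivial -/
theorem eq_one_of_finite {H : Type} [Group H] (tf : ∀ (g : H) (k : ℕ), 0 < k → g ^ k = 1 → g = 1) {g : H} {S : Set H}
    (hS : S.Finite) (h : ∀ k : ℕ, g ^ k ∈ S) : g = 1 := by
  obtain ⟨a, -, b, -, hab, heq⟩ := Set.infinite_univ.exists_ne_map_eq_of_mapsTo (fun k _ => h k) hS
  wlog hlt : a < b generalizing a b
  · exact this b a hab.symm heq.symm (lt_of_le_of_ne (not_lt.1 hlt) hab.symm)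
  refine tf g (b - a) (by omega) ?_
  have h1 : g ^ b = g ^ a * g ^ (b - a) := by rw [← pow_add]; congr 1; omega
  rw [h1] at heq
  exact (mul_eq_left.1 heq.symm)

/-- torsion free groups act freely -/
theorem IsGeomS.freeX (hG : IsGeomS G X) (tf : ∀ (g : G) (k : ℕ), 0 < k → g ^ k = 1 → g = 1) : FreeX G X where
  ne := hG.ne
  down := hG.down
  mem := hG.mem
  free g s hs h := by
    refine eq_one_of_finite tf (hG.proper s hs) (g := g) fun k => ?_
    induction k with
    | zero => exact (by rw [pow_zero]; exact one_smul G s)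
    | succ k ih =>
      change g ^ (k + 1) • s = s
      rw [pow_succ, mul_smul, h]
      exact ih
  fin := hG.cocompact

variable [MulAction G U] {K B : Set (Finset U)} {n d : ℕ}

theorem scx_of (tf : ∀ (g : G) (k : ℕ), 0 < k → g ^ k = 1 → g = 1) (hM : ManOrDual G K B n d) (hA : PAct G K B) :
    SCx G K B where
  ne := hM.ne
  down := hM.down
  bd_sub := by
    rcases hM with h | ⟨mu, h, -⟩
    · exact h.1.bd_sub
    · exact h.bd_sub
  bd_down := by
    rcases hM with h | ⟨mu, h, -⟩
    · exact h.1.bd_down
    · exact h.bd_down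
  locfin := by
    rcases hM with h | ⟨mu, h, -⟩
    · exact h.1.locfin
    · exact h.locfin
  K_mem := hA.K_mem
  B_mem := hA.B_mem
  free g s hs h := by
    obtain ⟨u, hu⟩ := hM.ne s hs
    have hu' : {u} ∈ K := hM.down s hs _ (singleton_subset_iff.2 hu) (singleton_nonempty u)
    have hfin : (⋃ w ∈ s, {g : G | g • u = w}).Finite := s.finite_toSet.biUnion fun w _ => hA.proper u w hu'
    have hk : ∀ k : ℕ, g ^ k • s = s := by
      intro k
      induction k with
      | zero => rw [pow_zero, one_smul]
      | succ k ih => rw [pow_succ, mul_smul, h, ih]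
    refine eq_one_of_finite tf hfin (g := g) fun k => ?_
    simp only [Set.mem_iUnion, Set.mem_setOf_eq]
    refine ⟨g ^ k • u, ?_, rfl⟩
    rw [← hk k]
    exact smul_mem_smul_finset hu

end

end Pool.Agent.S11
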