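import Pool.Agent.S11.BrB

/-!
# Project S11, block END: transport of the exactness

`ExR τ d₁ d₂` = exactness in the middle of `(C ⊗ W)_H → (C' ⊗ W)_H → (C'' ⊗ W)_H`.  `exR_transport`: it passes along
equivariant chain maps and homotopies.  `exR_of_exactAt`: from the equivariant cochains to the coinvariants.
`bdX X q` = the boundary modulo two of the chains of `X` on the simplices with `q + 1` vertices.
-/

set_option autoImplicit false
set_option linter.unusedSectionVars false

open Finset Pointwise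
open scoped TensorProduct

noncomputable section

namespace Pool.Agent.S11

/-- exactness in the middle of the coinvariants of the tensor products with `τ` -/
def ExR {H : Type} [Group H] {W : Type} [AddCommGroup W] [Module (ZMod 2) W] (τ : Representation (ZMod 2) H W)
    {C C' C'' : Type} [AddCommGroup C] [Module (ZMod 2) C] [AddCommGroup C'] [Module (ZMod 2) C']
    [AddCommGroup C''] [Module (ZMod 2) C''] (ρ' : Representation (ZMod 2) H C') (ρ'' : Representation (ZMod 2) H C'')
    (d₁ : C →ₗ[ZMod 2] C') (d₂ : C' →ₗ[ZMod 2] C'') : Prop :=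
  ∀ x : C' ⊗[ZMod 2] W, d₂.rTensor W x ∈ Kr (ρ''.tprod τ) ⊤ →
    ∃ y : C ⊗[ZMod 2] W, x - d₁.rTensor W y ∈ Kr (ρ'.tprod τ) ⊤

section

variable {H : Type} [Group H] {W : Type} [AddCommGroup W] [Module (ZMod 2) W] (τ : Representation (ZMod 2) H W)
  {C C' C'' E E' E'' : Type} [AddCommGroup C] [Module (ZMod 2) C] [AddCommGroup C'] [Module (ZMod 2) C']
  [AddCommGroup C''] [Module (ZMod 2) C''] [AddCommGroup E] [Module (ZMod 2) E] [AddCommGroup E'] [Module (ZMod 2) E']
  [AddCommGroup E''] [Module (ZMod 2) E'']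
  {ρ' : Representation (ZMod 2) H C'} {ρ'' : Representation (ZMod 2) H C''}
  {σ' : Representation (ZMod 2) H E'} {σ'' : Representation (ZMod 2) H E''}

theorem kr_rTensor {f : C' →ₗ[ZMod 2] C''} (hf : ∀ g x, f (ρ' g x) = ρ'' g (f x)) {x : C' ⊗[ZMod 2] W}
    (hx : x ∈ Kr (ρ'.tprod τ) ⊤) : f.rTensor W x ∈ Kr (ρ''.tprod τ) ⊤ :=
  Kr_map (τ := ρ'.tprod τ) (ρ := ρ''.tprod τ) (fun g _ t => rTensor_tprod τ hf g t) hx

/-- **Transport of exactness.** `E → E' → E''` is exact after taking coinvariants, `F` maps `C' → C''` to `E' → E''`,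
`G` maps `E → E'` to `C → C'`, and `G F = 1 + d₁ h + h' d₂` on `C'`. -/
theorem exR_transport {d₁ : C →ₗ[ZMod 2] C'} {d₂ : C' →ₗ[ZMod 2] C''} {e₁ : E →ₗ[ZMod 2] E'} {e₂ : E' →ₗ[ZMod 2] E''}
    (F' : C' →ₗ[ZMod 2] E') (F'' : C'' →ₗ[ZMod 2] E'') (G : E →ₗ[ZMod 2] C) (G' : E' →ₗ[ZMod 2] C')
    (k' : C' →ₗ[ZMod 2] C) (k'' : C'' →ₗ[ZMod 2] C')
    (hF'' : ∀ g x, F'' (ρ'' g x) = σ'' g (F'' x)) (hG' : ∀ g x, G' (σ' g x) = ρ' g (G' x))
    (hk'' : ∀ g x, k'' (ρ'' g x) = ρ' g (k'' x))
    (h1 : ∀ x, e₂ (F' x) = F'' (d₂ x)) (h2 : ∀ y, d₁ (G y) = G' (e₁ y))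
    (h3 : ∀ x, G' (F' x) = x + d₁ (k' x) + k'' (d₂ x))
    (hE : ExR τ σ' σ'' e₁ e₂) : ExR τ ρ' ρ'' d₁ d₂ := by
  intro x hx
  have a1 : e₂.rTensor W (F'.rTensor W x) = F''.rTensor W (d₂.rTensor W x) := by
    rw [← LinearMap.comp_apply, ← LinearMap.comp_apply, ← LinearMap.rTensor_comp, ← LinearMap.rTensor_comp]
    rw [show e₂ ∘ₗ F' = F'' ∘ₗ d₂ from LinearMap.ext h1]
  have a2 : ∀ y : E ⊗[ZMod 2] W, d₁.rTensor W (G.rTensor W y) = G'.rTensor W (e₁.rTensor W y) := by
    intro y
    rw [← LinearMap.comp_apply, ← LinearMap.comp_apply, ← LinearMap.rTensor_comp, ← LinearMap.rTensor_comp]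
    rw [show d₁ ∘ₗ G = G' ∘ₗ e₁ from LinearMap.ext h2]
  have a3 : G'.rTensor W (F'.rTensor W x) =
      x + d₁.rTensor W (k'.rTensor W x) + k''.rTensor W (d₂.rTensor W x) := by
    rw [← LinearMap.comp_apply, ← LinearMap.comp_apply, ← LinearMap.comp_apply, ← LinearMap.rTensor_comp,
      ← LinearMap.rTensor_comp, ← LinearMap.rTensor_comp]
    rw [show G' ∘ₗ F' = LinearMap.id + d₁ ∘ₗ k' + k'' ∘ₗ d₂ from LinearMap.ext h3, LinearMap.rTensor_add,
      LinearMap.rTensor_add, LinearMap.rTensor_id]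
    rfl
  obtain ⟨y, hy⟩ := hE (F'.rTensor W x) (by
    rw [a1]
    exact kr_rTensor τ hF'' hx)
  refine ⟨G.rTensor W y - k'.rTensor W x, ?_⟩
  have b1 := kr_rTensor τ hG' hy
  have b2 := kr_rTensor τ hk'' hx
  rw [map_sub, a3, ← a2] at b1
  have b3 := Submodule.sub_mem _ b1 b2
  have e : x - d₁.rTensor W (G.rTensor W y - k'.rTensor W x) =
      x + d₁.rTensor W (k'.rTensor W x) + k''.rTensor W (d₂.rTensor W x) - d₁.rTensor W (G.rTensor W y) -
        k''.rTensor W (d₂.rTensor W x) := by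
    rw [map_sub]
    abel
  rw [e]
  exact b3

end

section

open Pool.Agent.H37.TM (Rel IsCob)

variable {Γ U : Type} [Group Γ] [DecidableEq U] [MulAction Γ U] {K B : Set (Finset U)}
  {W : Type} [AddCommGroup W] [Module (ZMod 2) W]

/-- `phi` is zero on the kernel of the coinvariants -/
theorem phi_Kr (h : SCx Γ K B) (τ : Representation (ZMod 2) Γ W) (q : ℕ) {y : (Sx K B q →₀ ZMod 2) ⊗[ZMod 2] W}
    (hy : y ∈ Kr ((cRep h q).tprod τ) ⊤) :
    phi K B τ q (TensorProduct.finsuppScalarLeft (ZMod 2) W (Sx K B q) y) = 0 := by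
  unfold Kr at hy
  induction hy using Submodule.span_induction with
  | zero => rw [map_zero, map_zero]
  | add a b _ _ ha hb => rw [map_add, map_add, ha, hb, add_zero]
  | smul a b _ hb => rw [map_smul, map_smul, hb, smul_zero]
  | mem y hy =>
    obtain ⟨g, -, z, rfl⟩ := hy
    rw [map_sub, map_sub, sub_eq_zero]
    induction z using TensorProduct.induction_on with
    | zero => rw [map_zero]
    | add a b ha hb => rw [map_add, map_add, map_add, map_add, map_add, ha, hb]
    | tmul f w =>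
      rw [Representation.tprod_apply, TensorProduct.map_tmul]
      induction f using Finsupp.induction_linear with
      | zero => rw [map_zero, TensorProduct.zero_tmul, TensorProduct.zero_tmul]
      | add f f' hf hf' =>
        rw [map_add, TensorProduct.add_tmul, TensorProduct.add_tmul, map_add, map_add, map_add, map_add, hf, hf']
      | single s a =>
        rw [cRep_single]
        simp only [TensorProduct.finsuppScalarLeft_apply_tmul, Finsupp.sum_single_index, zero_smul, Finsupp.single_zero,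
          phi_single]
        rw [← map_smul]
        funext t
        by_cases h5 : ∃ g' : Γ, g' • s.1 = t
        · obtain ⟨g', rfl⟩ := h5
          rw [orb_of h τ s.2.1]
          have h6 : g' • s.1 = (g' * g⁻¹) • (g • s.1) := by rw [mul_smul, inv_smul_smul]
          rw [h6]
          show orb τ (g • s.1) _ _ = _
          rw [orb_of h τ (h.K_mem g _ s.2.1), ← Module.End.mul_apply, ← map_mul, inv_mul_cancel_right]
        · rw [orb_not τ h5]
          refine orb_not τ (fun ⟨g', hg'⟩ => h5 ⟨g' * g, ?_⟩) _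
          rw [mul_smul]
          exact hg'

/-- **From equivariant cochains to coinvariants.** -/
theorem exR_of_exactAt (h : SCx Γ K B) {τ : Representation (ZMod 2) Γ W} {q : ℕ} (hex : ExactAt K B τ q) :
    ExR τ (cRep h (q + 1)) (cRep h (q + 1 + 1)) (dC h q) (dC h (q + 1)) := by
  intro x hx
  have h1 := eqC_phi h τ (TensorProduct.finsuppScalarLeft (ZMod 2) W (Sx K B (q + 1)) x)
  have h2 := isCb_phi h τ x
  rw [phi_Kr h τ (q + 1 + 1) hx] at h2
  obtain ⟨b, hb1, hb2⟩ := hex _ h1 h2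
  obtain ⟨y', rfl⟩ := phi_surj h τ hb1
  set y := (TensorProduct.finsuppScalarLeft (ZMod 2) W (Sx K B q)).symm y' with hy
  have h3 : TensorProduct.finsuppScalarLeft (ZMod 2) W (Sx K B q) y = y' := LinearEquiv.apply_symm_apply _ _
  refine ⟨y, phi_ker h τ _ ?_⟩
  have h4 := isCb_phi h τ y
  rw [h3] at h4
  rw [map_sub, map_sub, sub_eq_zero]
  funext t
  by_cases ht : t ∈ K ∧ t ∉ B
  · rw [← h4 t ht.1 ht.2, hb2 t ht.1 ht.2]
  · have h5 := eqC_phi h τ (TensorProduct.finsuppScalarLeft (ZMod 2) W (Sx K B (q + 1)) ((dC h q).rTensor W y))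
    have h6 : phi K B τ (q + 1) (TensorProduct.finsuppScalarLeft (ZMod 2) W (Sx K B (q + 1)) x) t = 0 := by
      by_contra h7
      have h8 := h1.supp t h7
      exact ht ⟨h8.1, h8.2.1⟩
    have h7 : phi K B τ (q + 1) (TensorProduct.finsuppScalarLeft (ZMod 2) W (Sx K B (q + 1))
        ((dC h q).rTensor W y)) t = 0 := by
      by_contra h7
      have h8 := h5.supp t h7
      exact ht ⟨h8.1, h8.2.1⟩
    rw [h6, h7]

end

section

variable {V : Type} [DecidableEq V]

open Classical in
/-- the boundary modulo two of the simplicial chains: the simplices with `q + 1` vertices -/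
def bdX (X : Set (Finset V)) (q : ℕ) : (Sx X (∅ : Set (Finset V)) (q + 1) →₀ ZMod 2) →ₗ[ZMod 2] (Sx X (∅ : Set (Finset V)) q →₀ ZMod 2) :=
  Finsupp.lsum (ZMod 2) fun s => ∑ v ∈ s.1,
    if h : s.1.erase v ∈ X ∧ s.1.erase v ∉ (∅ : Set (Finset V)) ∧ (s.1.erase v).card = q then
      Finsupp.lsingle (⟨s.1.erase v, h⟩ : Sx X (∅ : Set (Finset V)) q) else 0

open Classical in
theorem bdX_single (X : Set (Finset V)) (q : ℕ) (s : Sx X (∅ : Set (Finset V)) (q + 1)) (a : ZMod 2) :
    bdX X q (Finsupp.single s a) = ∑ v ∈ s.1,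
      if h : s.1.erase v ∈ X ∧ s.1.erase v ∉ (∅ : Set (Finset V)) ∧ (s.1.erase v).card = q then
        Finsupp.single (⟨s.1.erase v, h⟩ : Sx X (∅ : Set (Finset V)) q) a else 0 := by
  unfold bdX
  rw [Finsupp.lsum_single, LinearMap.sum_apply]
  refine sum_congr rfl fun v _ => ?_
  split_ifs
  · rfl
  · rfl

/-- the boundary in coordinates -/
theorem bdX_single_apply (X : Set (Finset V)) (q : ℕ) (s : Sx X (∅ : Set (Finset V)) (q + 1))
    (t : Sx X (∅ : Set (Finset V)) q) :
    bdX X q (Finsupp.single s 1) t = if t.1 ⊆ s.1 then 1 else 0 := by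
  classical
  rw [bdX_single, Finsupp.finsetSum_apply]
  have h1 : ∀ v ∈ s.1, (if h : s.1.erase v ∈ X ∧ s.1.erase v ∉ (∅ : Set (Finset V)) ∧ (s.1.erase v).card = q then
        Finsupp.single (⟨s.1.erase v, h⟩ : Sx X (∅ : Set (Finset V)) q) (1 : ZMod 2) else 0) t =
      if s.1.erase v = t.1 then 1 else 0 := by
    intro v _
    split_ifs with h1 h2 h2
    · rw [Finsupp.single_apply, if_pos (Subtype.ext h2)]
    · rw [Finsupp.single_apply, if_neg]
      intro h3
      exact h2 (congrArg Subtype.val h3)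
    · exact absurd (h2 ▸ t.2) h1
    · rfl
  rw [sum_congr rfl h1]
  by_cases h2 : t.1 ⊆ s.1
  · rw [if_pos h2]
    obtain ⟨v, hv, hv'⟩ : ∃ v ∈ s.1, t.1 = s.1.erase v := by
      have h3 : (s.1 \ t.1).card = 1 := by
        rw [card_sdiff_of_subset h2, s.2.2.2, t.2.2.2]
        omega
      obtain ⟨v, hv⟩ := card_eq_one.1 h3
      have h4 : v ∈ s.1 \ t.1 := by rw [hv]; exact mem_singleton_self v
      rw [mem_sdiff] at h4
      refine ⟨v, h4.1, ?_⟩
      refine eq_of_subset_of_card_le (fun u hu => mem_erase.2 ⟨fun h5 => h4.2 (h5 ▸ hu), h2 hu⟩) ?_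
      rw [card_erase_of_mem h4.1, s.2.2.2, t.2.2.2]
      omega
    rw [sum_eq_single v]
    · rw [if_pos hv'.symm]
    · intro u hu huv
      refine if_neg fun h4 => huv ?_
      by_contra h6
      have h7 : u ∈ s.1.erase v := mem_erase.2 ⟨h6, hu⟩
      rw [← hv', ← h4] at h7
      exact notMem_erase u _ h7
    · intro h3
      exact absurd hv h3
  · rw [if_neg h2]
    refine sum_eq_zero fun v _ => if_neg fun h3 => h2 ?_
    rw [← h3]
    exact erase_subset v s.1

variable {H : Type} [Group H] [MulAction H V] {X : Set (Finset V)}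

/-- the boundary commutes with the group -/
theorem bdX_smul (hX : SCx H X (∅ : Set (Finset V))) (q : ℕ) (g : H) (x : Sx X (∅ : Set (Finset V)) (q + 1) →₀ ZMod 2) :
    bdX X q (cRep hX (q + 1) g x) = cRep hX q g (bdX X q x) := by
  classical
  induction x using Finsupp.induction_linear with
  | zero => simp
  | add f f' hf hf' => rw [map_add, map_add, map_add, map_add, hf, hf']
  | single s a =>
    rw [cRep_single, bdX_single, bdX_single, map_sum]
    have h1 : (smx hX (q + 1) g s).1 = s.1.image fun v => g • v := rfl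
    rw [h1, sum_image fun a _ b _ hab => smul_left_cancel g hab]
    refine sum_congr rfl fun v _ => ?_
    have h2 : (s.1.image fun v => g • v).erase (g • v) = g • s.1.erase v := by
      rw [← image_erase (MulAction.injective g)]
      rfl
    have h3 : (s.1.image fun v => g • v).erase (g • v) ∈ X ∧ (s.1.image fun v => g • v).erase (g • v) ∉
        (∅ : Set (Finset V)) ∧ ((s.1.image fun v => g • v).erase (g • v)).card = q ↔
        s.1.erase v ∈ X ∧ s.1.erase v ∉ (∅ : Set (Finset V)) ∧ (s.1.erase v).card = q := by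
      rw [h2]
      constructor
      · intro h4
        have h5 := hX.smul_mem g⁻¹ h4
        rwa [inv_smul_smul] at h5
      · intro h4
        exact hX.smul_mem g h4
    by_cases h4 : s.1.erase v ∈ X ∧ s.1.erase v ∉ (∅ : Set (Finset V)) ∧ (s.1.erase v).card = q
    · rw [dif_pos h4, dif_pos (h3.2 h4), cRep_single]
      congr 1
      exact Subtype.ext h2
    · rw [dif_neg h4, dif_neg fun h5 => h4 (h3.1 h5), map_zero]

end

end Pool.Agent.S11
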