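import Pool.Agent.S11.SqB
import Pool.Agent.S10.DuPsi

/-!
# Project S11, block END: chain maps, generalities

The cells of `X`, the cells of `(K, B)`; the boundary of the chains of `X`, the coboundary of the finite cochains.
-/

set_option autoImplicit false
set_option linter.unusedSectionVars false

open Finset Pointwise

namespace Pool.Agent.S11

open Pool.Agent.H37.TM Pool.Agent.S10

section Chains

variable {Γ V : Type} [Group Γ] [DecidableEq V] [MulAction Γ V] {X : Set (Finset V)}

theorem bdS_sgl (s : Finset V) : bdS (Finsupp.single s (1 : ZMod 2)) = ∑ v ∈ s, Finsupp.single (s.erase v) 1 := by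
  rw [bdS, Finsupp.linearCombination_single, one_smul]

/-- the graded parts -/
theorem bdS_part (f : Finset V →₀ ZMod 2) (k : ℕ) :
    bdS (f.filter fun t => t.card = k + 1) = (bdS f).filter fun t => t.card = k := by
  induction f using Finsupp.induction_linear with
  | zero => rw [Finsupp.filter_zero, map_zero, Finsupp.filter_zero]
  | add f g hf hg => rw [map_add, Finsupp.filter_add, Finsupp.filter_add, map_add, hf, hg]
  | single t a =>
    have h0 : ∀ v ∈ t, (t.erase v).card + 1 = t.card := fun v hv => card_erase_add_one hv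
    have h3 : ∀ a : ZMod 2, bdS (Finsupp.single t a) = a • ∑ v ∈ t, Finsupp.single (t.erase v) 1 := fun a => by
      rw [bdS, Finsupp.linearCombination_single]
    rw [h3]
    ext r
    rw [Finsupp.filter_apply]
    by_cases h1 : t.card = k + 1
    · rw [Finsupp.filter_single_of_pos (fun t : Finset V => t.card = k + 1) h1, h3]
      by_cases h2 : r.card = k
      · rw [if_pos h2]
      · rw [if_neg h2, Finsupp.smul_apply, Finsupp.finsetSum_apply, sum_eq_zero, smul_zero]
        intro v hv
        refine Finsupp.single_eq_of_ne ?_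
        rintro rfl
        have h3 := h0 v hv
        omega
    · rw [Finsupp.filter_single_of_neg (fun t : Finset V => t.card = k + 1) h1, map_zero, Finsupp.zero_apply]
      by_cases h2 : r.card = k
      · rw [if_pos h2, Finsupp.smul_apply, Finsupp.finsetSum_apply, sum_eq_zero, smul_zero]
        intro v hv
        refine Finsupp.single_eq_of_ne ?_
        rintro rfl
        have h3 := h0 v hv
        omega
      · rw [if_neg h2]

theorem erase_smulV (g : Γ) (s : Finset V) (v : V) : (g • s).erase (g • v) = g • s.erase v := erase_smul g s v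

theorem sum_smulV {M : Type} [AddCommMonoid M] (g : Γ) (s : Finset V) (f : V → M) :
    ∑ v ∈ g • s, f v = ∑ v ∈ s, f (g • v) := sum_smul_set g s f

theorem bdS_smul (g : Γ) (x : Finset V →₀ ZMod 2) : bdS (x.mapDomain (g • ·)) = (bdS x).mapDomain (g • ·) := by
  have h1 : ∀ s : Finset V, (∑ v ∈ g • s, Finsupp.single ((g • s).erase v) (1 : ZMod 2)) =
      (∑ v ∈ s, Finsupp.single (s.erase v) (1 : ZMod 2)).mapDomain (g • ·) := by
    intro s
    rw [sum_smulV, Finsupp.mapDomain_finsetSum]
    refine sum_congr rfl fun v _ => ?_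
    rw [Finsupp.mapDomain_single, erase_smulV]
  have h2 : ∀ x : Finset V →₀ ZMod 2, bdS x = lin (fun s => ∑ v ∈ s, Finsupp.single (s.erase v) 1) x := fun x => rfl
  rw [h2, h2, lin_mapDomain, mapDomain_lin]
  exact lin_congr fun s _ => h1 s

/-- the simplices with `i + 1` vertices -/
def cX (X : Set (Finset V)) (i : ℕ) : Set (Finset V) := {s | s ∈ X ∧ s.card = i + 1}

/-- the boundary which is not augmented -/
noncomputable def bX (s : Finset V) : Finset V →₀ ZMod 2 :=
  if 2 ≤ s.card then ∑ v ∈ s, Finsupp.single (s.erase v) 1 else 0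

theorem bX_of {s : Finset V} (h : 2 ≤ s.card) : bX s = ∑ v ∈ s, Finsupp.single (s.erase v) 1 := if_pos h

theorem bX_zero {s : Finset V} (h : s.card ≤ 1) : bX s = 0 := if_neg (by omega)

theorem bX_bdS {s : Finset V} (h : 2 ≤ s.card) : bX s = bdS (Finsupp.single s 1) := by rw [bX_of h, bdS_sgl]

/-- linear extensions at the boundary -/
theorem lin_bX {N : Type} [AddCommGroup N] [Module (ZMod 2) N] (H : Finset V → N) (h0 : H ∅ = 0) {s : Finset V} :
    lin H (bX s) = ∑ v ∈ s, H (s.erase v) := by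
  rcases Nat.lt_or_ge s.card 2 with h | h
  · rw [bX_zero (by omega), map_zero]
    symm
    refine sum_eq_zero fun v hv => ?_
    have h1 : s.erase v = ∅ := by
      rw [← card_eq_zero, card_erase_of_mem hv]
      omega
    rw [h1, h0]
  · rw [bX_of h, map_sum]
    exact sum_congr rfl fun v _ => lin_single _ _

theorem lin_bX_congr {N : Type} [AddCommGroup N] [Module (ZMod 2) N] {H H' : Finset V → N}
    (h : ∀ s, s.Nonempty → H s = H' s) (s : Finset V) : lin H (bX s) = lin H' (bX s) := by
  refine lin_congr fun c hc => (h c ?_)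
  rcases Nat.lt_or_ge s.card 2 with h2 | h2
  · rw [bX_zero (by omega)] at hc
    exact absurd rfl hc
  · rw [bX_of h2, Finsupp.finsetSum_apply] at hc
    obtain ⟨v, hv, h3⟩ := exists_ne_zero_of_sum_ne_zero hc
    have h4 : c = s.erase v := by
      by_contra h5
      exact h3 (Finsupp.single_eq_of_ne h5)
    rw [h4, ← card_pos, card_erase_of_mem hv]
    omega

theorem mem_bX (hX : SCx Γ X ∅) {i : ℕ} {a : Finset V} (ha : a ∈ cX X (i + 1)) {b : Finset V} (hb : bX a b ≠ 0) :
    b ∈ cX X i := by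
  have h2 : 2 ≤ a.card := by rw [ha.2]; omega
  rw [bX_of h2, Finsupp.finsetSum_apply] at hb
  obtain ⟨v, hv, h3⟩ := exists_ne_zero_of_sum_ne_zero hb
  have h4 : b = a.erase v := by
    by_contra h5
    exact h3 (Finsupp.single_eq_of_ne h5)
  have h5 : (a.erase v).card = i + 1 := by
    rw [card_erase_of_mem hv, ha.2]
    omega
  rw [h4]
  exact ⟨hX.down a ha.1 _ (erase_subset _ _) (card_pos.1 (by omega)), h5⟩

theorem bX_smul (g : Γ) (s : Finset V) : bX (g • s) = (bX s).mapDomain (g • ·) := by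
  unfold bX
  rw [Finset.card_smul_finset]
  split_ifs with h
  · rw [sum_smulV, Finsupp.mapDomain_finsetSum]
    refine sum_congr rfl fun v _ => ?_
    rw [Finsupp.mapDomain_single, erase_smulV]
  · rw [Finsupp.mapDomain_zero]

theorem bX_bX (s : Finset V) : lin bX (bX s) = 0 := by
  rw [lin_bX bX (bX_zero (by rw [card_empty]; omega))]
  rcases Nat.lt_or_ge s.card 3 with h | h
  · refine sum_eq_zero fun v hv => bX_zero ?_
    rw [card_erase_of_mem hv]
    omega
  · have h1 : ∀ v ∈ s, bX (s.erase v) = ∑ w ∈ s.erase v, Finsupp.single ((s.erase v).erase w) 1 := fun v hv =>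
      bX_of (by rw [card_erase_of_mem hv]; omega)
    rw [sum_congr rfl h1]
    exact sum_sum_erase (fun t => Finsupp.single t (1 : ZMod 2)) s

/-- lifting of maps from the chains of `X` -/
theorem liftX {N : Type} [AddCommGroup N] [Module (ZMod 2) N] (hX : SCx Γ X ∅) (ρ : Γ →* (N →ₗ[ZMod 2] N))
    (d : N →ₗ[ZMod 2] N) (hd : ∀ g x, d (ρ g x) = ρ g (d x)) (M : ℕ → Submodule (ZMod 2) N)
    (hM : ∀ i g, ∀ x ∈ M i, ρ g x ∈ M i) (hex : ∀ i, ∀ x ∈ M i, d x = 0 → ∃ y ∈ M (i + 1), d y = x)
    (F : Finset V → N) (hF : ∀ i, ∀ a ∈ cX X i, F a ∈ M i) (hFg : ∀ i, ∀ g : Γ, ∀ a ∈ cX X i, F (g • a) = ρ g (F a))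
    (hFd : ∀ i, ∀ a ∈ cX X i, d (F a) = lin F (bX a)) :
    ∃ H : Finset V → N, (∀ i, ∀ a ∈ cX X i, H a ∈ M (i + 1)) ∧
      (∀ i, ∀ g : Γ, ∀ a ∈ cX X i, H (g • a) = ρ g (H a)) ∧
      ∀ i, ∀ a ∈ cX X i, d (H a) = F a + lin H (bX a) :=
  lift_free (cX X) (fun i g a ha => ⟨hX.K_mem g a ha.1, by rw [Finset.card_smul_finset]; exact ha.2⟩)
    (fun i j a hi hj => by have := hi.2; have := hj.2; omega) (fun i a ha g h => hX.free g a ha.1 h) bX
    (fun i a ha b hb => mem_bX hX ha hb) (fun a ha => bX_zero (by rw [ha.2])) (fun i g a _ => bX_smul g a)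
    (fun i a _ => bX_bX a) ρ d hd M hM (fun i _ => hex i) F hF hFg hFd

/-- the chains of `X` -/
noncomputable def MX (X : Set (Finset V)) (i : ℕ) : Submodule (ZMod 2) (Finset V →₀ ZMod 2) :=
  Finsupp.supported (ZMod 2) (ZMod 2) (cX X i)

theorem mem_MX {i : ℕ} {x : Finset V →₀ ZMod 2} : x ∈ MX X i ↔ ∀ s, x s ≠ 0 → s ∈ X ∧ s.card = i + 1 := by
  constructor
  · intro h s hs
    exact (Finsupp.mem_supported _ _).1 h (Finsupp.mem_support_iff.2 hs)
  · intro h
    exact (Finsupp.mem_supported _ _).2 fun s hs => h s (Finsupp.mem_support_iff.1 hs)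

theorem mapDomain_smul_apply {A : Type} [MulAction Γ A] (g : Γ) (x : A →₀ ZMod 2) (a : A) :
    x.mapDomain (g • ·) a = x (g⁻¹ • a) := by
  have h := Finsupp.mapDomain_apply (MulAction.injective g) x (g⁻¹ • a)
  rwa [smul_inv_smul] at h

theorem MX_smul (hX : SCx Γ X ∅) {i : ℕ} (g : Γ) {x : Finset V →₀ ZMod 2} (hx : x ∈ MX X i) :
    x.mapDomain (g • ·) ∈ MX X i := by
  rw [mem_MX] at hx ⊢
  intro s hs
  rw [mapDomain_smul_apply] at hs
  obtain ⟨h1, h2⟩ := hx _ hs
  refine ⟨?_, by rw [Finset.card_smul_finset] at h2; exact h2⟩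
  have h3 := hX.K_mem g _ h1
  rwa [smul_inv_smul] at h3

/-- `X` is acyclic -/
theorem MX_exact (hac : Acyc X) {k : ℕ} {x : Finset V →₀ ZMod 2} (hx : ∀ s, x s ≠ 0 → (s ∈ X ∨ s = ∅) ∧ s.card = k)
    (h0 : bdS x = 0) : ∃ y ∈ MX X k, bdS y = x := by
  obtain ⟨y, hy, hyx⟩ := hac x (fun s hs => (hx s hs).1) h0
  refine ⟨y.filter fun t => t.card = k + 1, mem_MX.2 fun s hs => ?_, ?_⟩
  · rw [Finsupp.filter_apply] at hs
    split_ifs at hs with h
    · exact ⟨hy s hs, h⟩
    · exact absurd rfl hs
  · rw [bdS_part, hyx]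
    ext s
    rw [Finsupp.filter_apply]
    split_ifs with h
    · rfl
    · by_contra h1
      exact h (hx s (Ne.symm h1)).2

/-- the action on the chains -/
noncomputable def rhoX (Γ V : Type) [Group Γ] [DecidableEq V] [MulAction Γ V] :
    Γ →* ((Finset V →₀ ZMod 2) →ₗ[ZMod 2] (Finset V →₀ ZMod 2)) :=
  rhoM Γ (Finset V) (fun g e => g • e) (funext fun e => one_smul Γ e) (fun g h => funext fun e => mul_smul g h e)

theorem rhoX_apply (g : Γ) (x : Finset V →₀ ZMod 2) : rhoX Γ V g x = x.mapDomain (g • ·) := rfl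

end Chains

section Cochains

variable {Γ U : Type} [Group Γ] [DecidableEq U] [MulAction Γ U] {K B mu : Set (Finset U)} {n d : ℕ}

/-- the simplices of `K` which are not in `B`, with `n + 1 - i` vertices -/
def cK (K B : Set (Finset U)) (n i : ℕ) : Set (Finset U) := {t | t ∈ K ∧ t ∉ B ∧ t.card + i = n + 1}

theorem cofs_cK (hD : Dual K B mu n d) {i : ℕ} {t t' : Finset U} (ht : t ∈ cK K B n (i + 1))
    (h : t' ∈ cofs K t (t.card + 1)) : t' ∈ cK K B n i := by
  obtain ⟨h1, h2, h3⟩ := (mem_cofsD hD ht.1).1 h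
  exact ⟨h1, fun h4 => ht.2.1 (hD.bd_down t' h4 t h2 (hD.ne t ht.1)), by have := ht.2.2; omega⟩

theorem coF_single (t : Finset U) : coF K (Finsupp.single t 1) = ∑ t' ∈ cofs K t (t.card + 1), Finsupp.single t' 1 :=
  lin_single _ _

/-- the square of the coboundary -/
theorem coF_coF (hD : Dual K B mu n d) {f : Finset U →₀ ZMod 2} (hf : ∀ t, f t ≠ 0 → t ∈ K) : coF K (coF K f) = 0 := by
  classical
  have h1 : ∀ t, coF K f t ≠ 0 → t ∈ K := by
    intro t ht
    rw [coF_apply hD hf] at ht
    by_contra h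
    exact ht (if_neg h)
  ext t
  rw [coF_apply hD h1]
  split_ifs with ht
  · have h2 : ∀ v ∈ t, coF K f (t.erase v) = ∑ w ∈ t.erase v, f ((t.erase v).erase w) := by
      intro v _
      rw [coF_apply hD hf]
      split_ifs with h3
      · rfl
      · have h4 : t.erase v = ∅ := by
          by_contra h5
          exact h3 (hD.down t ht _ (erase_subset _ _) (nonempty_iff_ne_empty.2 h5))
        rw [h4, sum_empty]
    rw [sum_congr rfl h2]
    exact sum_sum_erase (fun t => f t) t
  · rfl

/-- the coboundary in the degrees less than `n` -/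
noncomputable def bK (K : Set (Finset U)) (n : ℕ) (t : Finset U) : Finset U →₀ ZMod 2 :=
  if t.card ≤ n then ∑ t' ∈ cofs K t (t.card + 1), Finsupp.single t' 1 else 0

theorem bK_of {t : Finset U} (h : t.card ≤ n) : bK K n t = coF K (Finsupp.single t 1) := by
  rw [coF_single]
  exact if_pos h

theorem bK_zero {t : Finset U} (h : n < t.card) : bK K n t = 0 := if_neg (by omega)

theorem mem_bK (hD : Dual K B mu n d) {i : ℕ} {a : Finset U} (ha : a ∈ cK K B n (i + 1)) {b : Finset U}
    (hb : bK K n a b ≠ 0) : b ∈ cK K B n i := by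
  rw [bK, if_pos (by have := ha.2.2; omega), Finsupp.finsetSum_apply] at hb
  obtain ⟨t', h1, h2⟩ := exists_ne_zero_of_sum_ne_zero hb
  have h3 : b = t' := by
    by_contra h5
    exact h2 (Finsupp.single_eq_of_ne h5)
  rw [h3]
  exact cofs_cK hD ha h1

theorem bK_bK (hD : Dual K B mu n d) {i : ℕ} {a : Finset U} (ha : a ∈ cK K B n i) : lin (bK K n) (bK K n a) = 0 := by
  rcases i with _ | _ | i
  · rw [bK_zero (by have := ha.2.2; omega), map_zero]
  · have h1 : ∀ b, bK K n a b ≠ 0 → bK K n b = (fun _ => 0) b := by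
      intro b hb
      have h2 := mem_bK hD ha hb
      exact bK_zero (by have := h2.2.2; omega)
    rw [lin_congr (f' := bK K n) (f := fun _ => 0) h1]
    unfold lin
    simp [Finsupp.linearCombination_apply]
  · have h1 : ∀ b, bK K n a b ≠ 0 → bK K n b = (fun b => ∑ t' ∈ cofs K b (b.card + 1), Finsupp.single t' 1) b := by
      intro b hb
      have h2 := mem_bK hD ha hb
      exact if_pos (by have := h2.2.2; omega)
    rw [lin_congr (f' := bK K n) h1]
    rw [bK_of (by have := ha.2.2; omega)]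
    refine coF_coF hD fun t ht => ?_
    have h3 : t = a := by
      by_contra h5
      exact ht (Finsupp.single_eq_of_ne h5)
    rw [h3]
    exact ha.1

theorem cofs_smul_sum (hA : SAct Γ K B) (g : Γ) (t : Finset U) :
    ∑ t' ∈ cofs K (g • t) ((g • t).card + 1), Finsupp.single t' (1 : ZMod 2) =
      (∑ t' ∈ cofs K t (t.card + 1), Finsupp.single t' (1 : ZMod 2)).mapDomain (g • ·) := by
  rw [Finset.card_smul_finset, cofs_smul hA, Finset.sum_map, Finsupp.mapDomain_finsetSum]
  refine sum_congr rfl fun t _ => ?_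
  rw [Finsupp.mapDomain_single]
  rfl

theorem coF_smulS (hA : SAct Γ K B) (g : Γ) (f : Finset U →₀ ZMod 2) :
    coF K (f.mapDomain (g • ·)) = (coF K f).mapDomain (g • ·) := by
  unfold coF
  rw [lin_mapDomain, mapDomain_lin]
  exact lin_congr fun t _ => cofs_smul_sum hA g t

theorem bK_smul (hA : SAct Γ K B) (g : Γ) (t : Finset U) : bK K n (g • t) = (bK K n t).mapDomain (g • ·) := by
  have h1 := cofs_smul_sum hA g t
  unfold bK
  rw [h1, Finset.card_smul_finset]
  split_ifs
  · rfl
  · rw [Finsupp.mapDomain_zero]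

open Classical in
/-- the evaluation at `mu` -/
noncomputable def ev (mu : Set (Finset U)) : (Finset U →₀ ZMod 2) →ₗ[ZMod 2] ZMod 2 :=
  lin fun t => if t ∈ mu then 1 else 0

theorem ev_eq (f : Finset U →₀ ZMod 2) : ev mu f = ∑ᶠ t ∈ mu, f t := by
  classical
  have h1 : ev mu f = ∑ t ∈ f.support, if t ∈ mu then f t else 0 := by
    unfold ev lin
    rw [Finsupp.linearCombination_apply, Finsupp.sum]
    refine sum_congr rfl fun t _ => ?_
    rw [smul_eq_mul, mul_ite, mul_one, mul_zero]
  rw [h1, ← sum_filter]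
  symm
  refine finsum_mem_eq_sum_of_inter_support_eq _ ?_
  ext t
  simp only [Set.mem_inter_iff, Function.mem_support, Finset.mem_coe, mem_filter, Finsupp.mem_support_iff]
  tauto

theorem ev_smul (hmu : ∀ (g : Γ) (s : Finset U), s ∈ mu → g • s ∈ mu) (g : Γ) (f : Finset U →₀ ZMod 2) :
    ev mu (f.mapDomain (g • ·)) = ev mu f := by
  classical
  unfold ev
  rw [lin_mapDomain]
  refine lin_congr fun t _ => ?_
  have h1 : g • t ∈ mu ↔ t ∈ mu := by
    refine ⟨fun h => ?_, hmu g t⟩
    have h2 := hmu g⁻¹ _ h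
    rwa [inv_smul_smul] at h2
  simp only [h1]

/-- cochains of too small degree have evaluation zero -/
theorem ev_zero (hD : Dual K B mu n d) {f : Finset U →₀ ZMod 2} (hf : ∀ t, f t ≠ 0 → t.card ≤ n) : ev mu f = 0 := by
  classical
  unfold ev
  have h1 : ∀ c, f c ≠ 0 → (if c ∈ mu then (1 : ZMod 2) else 0) = (fun _ => 0) c := by
    intro c hc
    refine if_neg fun h => ?_
    have h2 := (hD.mu_sub c h).2.2
    have h3 := hf c hc
    omega
  rw [lin_congr (f' := fun t => if t ∈ mu then (1 : ZMod 2) else 0) (f := fun _ => 0) h1]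
  unfold lin
  simp [Finsupp.linearCombination_apply]

end Cochains

end Pool.Agent.S11
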