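import Pool.Agent.S11.SqC

/-!
# Project S11: the square lemma
-/

set_option autoImplicit false
set_option linter.unusedSectionVars false

open Finset Pointwise
open scoped TensorProduct

noncomputable section

namespace Pool.Agent.S11

variable {Γ U : Type} [Group Γ] [DecidableEq U] [MulAction Γ U] {K B : Set (Finset U)} {r : U → U → Prop}
  {V : Type} [AddCommGroup V] [Module (ZMod 2) V] {ρ : Γ →* Module.End (ZMod 2) V}

theorem eq_of_add {W : Type} [AddCommGroup W] [Module (ZMod 2) W] {x y : W} (h : x + y = 0) : y = x := by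
  calc y = (x + x) + y := by rw [add_self_tt, zero_add]
    _ = x + (x + y) := add_assoc _ _ _
    _ = x := by rw [h, add_zero]

theorem tp_alt (g : Γ) {x : V ⊗[ZMod 2] V} (hx : x ∈ (Alt : Submodule (ZMod 2) (V ⊗[ZMod 2] V))) :
    tp ρ g x ∈ (Alt : Submodule (ZMod 2) (V ⊗[ZMod 2] V)) := by
  obtain ⟨y, rfl⟩ := mem_Alt.1 hx
  exact mem_Alt.2 ⟨tp ρ g y, by rw [tp_sw, map_add]⟩

/-- the map `1 + T` -/
def onePlus : V ⊗[ZMod 2] V →ₗ[ZMod 2] V ⊗[ZMod 2] V := LinearMap.id + sw

theorem onePlus_apply (x : V ⊗[ZMod 2] V) : onePlus x = x + sw x := rfl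

theorem onePlus_tp (g : Γ) (x : V ⊗[ZMod 2] V) : onePlus (tp ρ g x) = tp ρ g (onePlus x) := by
  rw [onePlus_apply, onePlus_apply, tp_sw, map_add]

theorem onePlus_onePlus (x : V ⊗[ZMod 2] V) : onePlus (onePlus x) = 0 := by
  rw [onePlus_apply, onePlus_apply, map_add, sw_sw]
  have := add_self_tt (x + sw x)
  rw [add_comm (sw x) x]
  exact this

theorem EqC.onePlus {q : ℕ} {x : Finset U → V ⊗[ZMod 2] V} (hx : EqC K B (tp ρ) q x) :
    EqC K B (tp ρ) q (fun s => Pool.Agent.S11.onePlus (x s)) := hx.map _ (map_zero _) fun g s => onePlus_tp g (x s)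

theorem IsCb.onePlus {x z : Finset U → V ⊗[ZMod 2] V} (h : IsCb K B x z) :
    IsCb K B (fun s => Pool.Agent.S11.onePlus (x s)) (fun s => Pool.Agent.S11.onePlus (z s)) := h.map _

section

variable (h : SPair Γ K B r) (δ : V ⊗[ZMod 2] V →ₗ[ZMod 2] V) (hδ1 : ∀ v, δ (v ⊗ₜ[ZMod 2] v) = v)
  (hδ2 : ∀ x ∈ (Alt : Submodule (ZMod 2) (V ⊗[ZMod 2] V)), δ x = 0)
  (hδ3 : ∀ x, sw x = x → x + δ x ⊗ₜ[ZMod 2] δ x ∈ (Alt : Submodule (ZMod 2) (V ⊗[ZMod 2] V)))

include hδ1 hδ2 hδ3 in
/-- the diagonal part is equivariant on symmetric tensors -/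
theorem diag_tp (g : Γ) {x : V ⊗[ZMod 2] V} (hx : sw x = x) : δ (tp ρ g x) = ρ g (δ x) := by
  have h1 := hδ2 _ (tp_alt (ρ := ρ) g (hδ3 x hx))
  rw [map_add, tp_tmul, map_add, hδ1] at h1
  exact (eq_of_add h1).symm

include h hδ1 hδ2 hδ3

/-- symmetric cocycles of degree at most `j` are coboundaries of symmetric cochains -/
theorem sym_exact {j : ℕ} (H : ∀ q ≤ j, ExactAt K B (tp ρ) q) (hV : ∀ q < j, ExactAt K B ρ q) :
    ∀ d ≤ j, ∀ z : Finset U → V ⊗[ZMod 2] V, EqC K B (tp ρ) (d + 1) z → (∀ s, sw (z s) = z s) → IsCb K B z 0 →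
      ∃ x, EqC K B (tp ρ) d x ∧ (∀ s, sw (x s) = x s) ∧ IsCb K B x z := by
  intro d
  induction d with
  | zero =>
    intro _ z hz1 _ hz3
    obtain ⟨x, hx1, hx2⟩ := H 0 (by omega) z hz1 hz3
    refine ⟨x, hx1, fun s => ?_, hx2⟩
    rw [hx1.eq_zero h.ne s, map_zero]
  | succ e ih =>
    intro hd z hz1 hz2 hz3
    obtain ⟨x, hx1, hx2⟩ := H (e + 1) hd z hz1 hz3
    -- `w = (1 + T) x`
    have hw1 : EqC K B (tp ρ) (e + 1) (fun s => onePlus (x s)) := hx1.onePlus
    have hw2 : IsCb K B (fun s => onePlus (x s)) 0 := by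
      intro t h1 h2
      rw [hx2.onePlus t h1 h2]
      show onePlus (z t) = 0
      rw [onePlus_apply, hz2, add_self_tt]
    have hw3 : ∀ s, sw (onePlus (x s)) = onePlus (x s) := fun s => alt_sym ⟨x s, rfl⟩
    obtain ⟨x₁, h1, h2, h3⟩ := ih (by omega) _ hw1 hw3 hw2
    -- it is enough to find `y`
    suffices hy : ∃ y : Finset U → V ⊗[ZMod 2] V, EqC K B (tp ρ) e y ∧ IsCb K B (fun s => onePlus (y s)) fun s => onePlus (x s) by
      obtain ⟨y, hy1, hy2⟩ := hy
      have hy3 := hy1.cb h.toSCx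
      refine ⟨x + cbK K B y, hx1.add hy3, fun s => ?_, ?_⟩
      · by_cases hs : s ∈ K ∧ s ∉ B
        · have h4 := hy2 s hs.1 hs.2
          have h5 : onePlus (cbK K B y s) = onePlus (x s) := by
            rw [cbK_eq hs.1 hs.2, map_sum]
            exact h4
          have h6 : onePlus (x s + cbK K B y s) = 0 := by
            rw [map_add, h5, add_self_tt]
          exact eq_of_add h6
        · have h4 : x s = 0 := by
            by_contra h4
            exact hs ⟨(hx1.supp s h4).1, (hx1.supp s h4).2.1⟩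
          have h5 : cbK K B y s = 0 := if_neg hs
          rw [Pi.add_apply, h4, h5, add_zero, map_zero]
      · have h4 := hx2.add (cb_cb h.toSCx hy1 hy3 (isCb_cbK y))
        rwa [add_zero] at h4
    rcases e with _ | f
    · -- `x₁ = 0`
      refine ⟨x₁, h1, fun t h4 h5 => ?_⟩
      rw [← h3 t h4 h5]
      refine sum_congr rfl fun v _ => ?_
      show onePlus (x₁ (t.erase v)) = x₁ (t.erase v)
      rw [h1.eq_zero h.ne, map_zero]
    · -- the diagonal part of `x₁`
      have h4 : EqC K B ρ (f + 1) (fun s => δ (x₁ s)) := h1.map _ (map_zero _) fun g s => diag_tp δ hδ1 hδ2 hδ3 g (h2 s)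
      have h5 : IsCb K B (fun s => δ (x₁ s)) 0 := by
        intro t h6 h7
        rw [h3.map δ t h6 h7]
        exact hδ2 _ ⟨x t, rfl⟩
      obtain ⟨e', h6, h7⟩ := hV f (by omega) _ h4 h5
      have h8 : EqC K B (tp ρ) f (fun s => e' s ⊗ₜ[ZMod 2] e' s) :=
        h6.map (fun v => v ⊗ₜ[ZMod 2] v) (TensorProduct.zero_tmul _ _) fun g s => (tp_tmul g _ _).symm
      have h9 := h8.cb h.toSCx
      have h10 : ∀ s, sw (cbK K B (fun s => e' s ⊗ₜ[ZMod 2] e' s) s) = cbK K B (fun s => e' s ⊗ₜ[ZMod 2] e' s) s := by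
        intro s
        unfold cbK
        split_ifs
        · rw [map_sum]
          exact sum_congr rfl fun v _ => rfl
        · exact map_zero _
      have hr : ∀ s, (x₁ + cbK K B (fun s => e' s ⊗ₜ[ZMod 2] e' s)) s ∈ LinearMap.range (onePlus (V := V)) := by
        intro s
        by_cases hs : s ∈ K ∧ s ∉ B
        · have h11 : δ (cbK K B (fun s => e' s ⊗ₜ[ZMod 2] e' s) s) = δ (x₁ s) := by
            rw [cbK_eq hs.1 hs.2, map_sum]
            refine Eq.trans ?_ (h7 s hs.1 hs.2)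
            exact sum_congr rfl fun v _ => hδ1 _
          have h12 := hδ3 ((x₁ + cbK K B (fun s => e' s ⊗ₜ[ZMod 2] e' s)) s) (by
            rw [Pi.add_apply, map_add, h2, h10])
          rw [Pi.add_apply, map_add, h11, add_self_tt, TensorProduct.zero_tmul, add_zero] at h12
          exact h12
        · have h11 : x₁ s = 0 := by
            by_contra h11
            exact hs ⟨(h1.supp s h11).1, (h1.supp s h11).2.1⟩
          have h12 : cbK K B (fun s => e' s ⊗ₜ[ZMod 2] e' s) s = 0 := if_neg hs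
          rw [Pi.add_apply, h11, h12, add_zero]
          exact Submodule.zero_mem _
      obtain ⟨y, hy1, hy2⟩ := (h1.add h9).lift h.toSCx (onePlus (V := V)) (fun g x => onePlus_tp g x) hr
      refine ⟨y, hy1, fun t h11 h12 => ?_⟩
      have h13 := (h3.add (cb_cb h.toSCx h8 h9 (isCb_cbK _))) t h11 h12
      rw [add_zero] at h13
      refine Eq.trans ?_ h13
      exact sum_congr rfl fun v _ => hy2 _

end

/-- **The square lemma.** -/
theorem square (h : SPair Γ K B r) (ρ : Γ →* Module.End (ZMod 2) V) (j : ℕ)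
    (H : ∀ q ≤ 2 * j, ExactAt K B (tp ρ) q) : ExactAt K B ρ j := by
  obtain ⟨δ, hδ1, hδ2, hδ3⟩ := exists_diag V
  induction j using Nat.strong_induction_on with
  | _ j ih =>
  have hV : ∀ q < j, ExactAt K B ρ q := fun q hq => ih q hq fun q' hq' => H q' (by omega)
  intro a ha1 ha2
  -- the tower
  have key : ∀ s ≤ j, ∃ x x' : Finset U → V ⊗[ZMod 2] V, EqC K B (tp ρ) (2 * j - s) x ∧ EqC K B (tp ρ) (2 * j + 1 - s) x' ∧
      IsCb K B x (cupR K B r (s + 1) a + fun t => onePlus (x' t)) := by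
    intro s
    induction s with
    | zero =>
      intro _
      have h1 : EqC K B (tp ρ) (2 * j + 1) (cupR K B r 1 a) := ha1.cupR h (by omega)
      have h2 : IsCb K B (cupR K B r 1 a) 0 := by
        intro t h3 h4
        rw [isCb_cupR h ha1 ha2 0 t h3 h4, Pi.add_apply, cupR_eq h3 h4, cupL_zero _ _ _ _ (ha1.empty h.ne), map_zero, add_zero]
        rfl
      obtain ⟨x, hx1, hx2⟩ := H (2 * j) le_rfl _ h1 h2
      refine ⟨x, 0, hx1, EqC.zero _, ?_⟩
      have h3 : (cupR K B r 1 a + fun t => onePlus ((0 : Finset U → V ⊗[ZMod 2] V) t)) = cupR K B r 1 a := by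
        funext t
        rw [Pi.add_apply, Pi.zero_apply, map_zero, add_zero]
      rw [h3]
      exact hx2
    | succ s ihs =>
      intro hs
      obtain ⟨x, x', hx1, hx2, hx3⟩ := ihs (by omega)
      have e1 : 2 * j + 1 - (s + 1) = 2 * j - s := by omega
      have e2 : 2 * j - s = 2 * j - (s + 1) + 1 := by omega
      have h1 : EqC K B (tp ρ) (2 * j - (s + 1) + 1) (cupR K B r (s + 1 + 1) a + fun t => onePlus (x t)) := by
        refine EqC.add (ha1.cupR h (by omega)) ?_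
        rw [← e2]
        exact hx1.onePlus
      have h2 : IsCb K B (cupR K B r (s + 1 + 1) a + fun t => onePlus (x t)) 0 := by
        intro t h3 h4
        rw [((isCb_cupR h ha1 ha2 (s + 1)).add hx3.onePlus) t h3 h4]
        show cupR K B r (s + 1) a t + sw (cupR K B r (s + 1) a t) + onePlus (cupR K B r (s + 1) a t + onePlus (x' t)) = 0
        rw [map_add, onePlus_onePlus, add_zero, onePlus_apply, add_self_tt]
      obtain ⟨y, hy1, hy2⟩ := H (2 * j - (s + 1)) (by omega) _ h1 h2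
      exact ⟨y, x, hy1, by rw [e1]; exact hx1, hy2⟩
  obtain ⟨x, x', hx1, hx2, hx3⟩ := key j le_rfl
  have e1 : 2 * j - j = j := by omega
  have e2 : 2 * j + 1 - j = j + 1 := by omega
  rw [e1] at hx1
  rw [e2] at hx2
  have hz1 : EqC K B (tp ρ) (j + 1) (cupR K B r (j + 1) a + fun t => onePlus (x' t)) :=
    EqC.add (ha1.cupR h (by omega)) hx2.onePlus
  have hcup : ∀ s, cupR K B r (j + 1) a s = a s ⊗ₜ[ZMod 2] a s := by
    intro s
    by_cases h0 : a s = 0
    · rw [h0, TensorProduct.zero_tmul]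
      by_contra h1
      obtain ⟨h2, h3, h4⟩ := (ha1.cupR (r := r) (m := j + 1) (l := j + 1) h (by omega)).supp s h1
      apply h1
      rw [cupR_eq h2 h3, ← h4, cupL_self, h0, TensorProduct.zero_tmul]
    · obtain ⟨h2, h3, h4⟩ := ha1.supp s h0
      rw [cupR_eq h2 h3, ← h4, cupL_self]
  have hz2 : ∀ s, sw ((cupR K B r (j + 1) a + fun t => onePlus (x' t)) s) = (cupR K B r (j + 1) a + fun t => onePlus (x' t)) s := by
    intro s
    rw [Pi.add_apply, map_add, hcup, sw_tmul]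
    congr 1
    exact alt_sym ⟨x' s, rfl⟩
  have hz3 := cb_cb h.toSCx hx1 hz1 hx3
  obtain ⟨y, hy1, hy2, hy3⟩ := sym_exact h δ hδ1 hδ2 hδ3 (fun q hq => H q (by omega)) hV j le_rfl _ hz1 hz2 hz3
  refine ⟨fun s => δ (y s), hy1.map _ (map_zero _) fun g s => diag_tp δ hδ1 hδ2 hδ3 g (hy2 s), fun t h1 h2 => ?_⟩
  rw [hy3.map δ t h1 h2]
  show δ (cupR K B r (j + 1) a t + onePlus (x' t)) = a t
  have h3 : δ (onePlus (x' t)) = 0 := hδ2 _ ⟨x' t, rfl⟩
  rw [hcup, map_add, hδ1, h3, add_zero]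

end Pool.Agent.S11
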