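import Mathlib

/-!
# Project S11: flatness of representations, kernels of the coinvariants

`Kr τ J` = kernel of the coinvariants of the subgroup `J`.

PROOFS.  `Kr` is `Submodule.span` of `τ j t - t`; the statements are formal.  `Kr_sup`: `J'` generated by `J` and the `y k`,
`J` normal: the submodule `Kr τ J + span {τ (y k) t - t}` contains `τ j t - t` for all `j ∈ J'` (`Subgroup.closure_induction`).
`Kr_exact`: let `f, p` be exact at `X'`, `p` surjective; if `p w ∈ Kr` then `w ∈ Kr + f(T)` (lift the generators; for the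
tensor products use `rTensor_exact`).  `Flat.of_retract`: apply `(lTensor)` of the two maps.
-/

set_option autoImplicit false
set_option linter.unusedSectionVars false

open TensorProduct

namespace Pool.Agent.S11

section

variable {H : Type} [Group H] {M : Type} [AddCommGroup M] [Module (ZMod 2) M]
  {X : Type} [AddCommGroup X] [Module (ZMod 2) X] {X' : Type} [AddCommGroup X'] [Module (ZMod 2) X']
  {X'' : Type} [AddCommGroup X''] [Module (ZMod 2) X'']

/-- the kernel of the coinvariants of the subgroup `J` -/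
def Kr (τ : Representation (ZMod 2) H M) (J : Subgroup H) : Submodule (ZMod 2) M :=
  Submodule.span (ZMod 2) {m | ∃ j ∈ J, ∃ t, m = τ j t - t}

theorem sub_mem_Kr (τ : Representation (ZMod 2) H M) {J : Subgroup H} {j : H} (hj : j ∈ J) (t : M) :
    τ j t - t ∈ Kr τ J := Submodule.subset_span ⟨j, hj, t, rfl⟩

theorem Kr_mono (τ : Representation (ZMod 2) H M) {J J' : Subgroup H} (h : J ≤ J') : Kr τ J ≤ Kr τ J' :=
  Submodule.span_mono (by rintro _ ⟨j, hj, t, rfl⟩; exact ⟨j, h hj, t, rfl⟩)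

theorem Kr_le {τ : Representation (ZMod 2) H M} {J : Subgroup H} {L : Submodule (ZMod 2) M}
    (h : ∀ j ∈ J, ∀ t, τ j t - t ∈ L) : Kr τ J ≤ L :=
  Submodule.span_le.2 (by rintro _ ⟨j, hj, t, rfl⟩; exact h j hj t)

theorem Kr_bot (τ : Representation (ZMod 2) H M) : Kr τ ⊥ = ⊥ := by
  rw [eq_bot_iff]
  refine Kr_le fun j hj t => ?_
  rw [Subgroup.mem_bot] at hj
  subst hj
  simp

/-- linear maps which commute with the subgroup -/
theorem Kr_map {τ : Representation (ZMod 2) H M} {ρ : Representation (ZMod 2) H X} {J : Subgroup H}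
    {f : M →ₗ[ZMod 2] X} (hf : ∀ j ∈ J, ∀ t, f (τ j t) = ρ j (f t)) {t : M} (ht : t ∈ Kr τ J) :
    f t ∈ Kr ρ J := by
  have : Kr τ J ≤ (Kr ρ J).comap f := Kr_le fun j hj t => by
    rw [Submodule.mem_comap, map_sub, hf j hj]
    exact sub_mem_Kr ρ hj _
  exact this ht

/-- the elements of the group preserve the kernel of a normal subgroup -/
theorem Kr_smul (τ : Representation (ZMod 2) H M) {J : Subgroup H} [J.Normal] (h : H) {t : M}
    (ht : t ∈ Kr τ J) : τ h t ∈ Kr τ J := by
  have : Kr τ J ≤ (Kr τ J).comap (τ h) := Kr_le fun j hj t => by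
    rw [Submodule.mem_comap, map_sub]
    have e : τ h (τ j t) = τ (h * j * h⁻¹) (τ h t) := by
      rw [← Module.End.mul_apply, ← Module.End.mul_apply, ← map_mul, ← map_mul]
      congr 2
      group
    rw [e]
    exact sub_mem_Kr τ (Subgroup.Normal.conj_mem inferInstance j hj h) _
  exact this ht

/-- generators -/
theorem Kr_sup (τ : Representation (ZMod 2) H M) {J J' : Subgroup H} [J.Normal] {ι : Type} (y : ι → H)
    (hy : J' = J ⊔ Subgroup.closure (Set.range y)) :
    Kr τ J' = Kr τ J ⊔ Submodule.span (ZMod 2) {m | ∃ k t, m = τ (y k) t - t} := by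
  apply le_antisymm
  · set L : Submodule (ZMod 2) M :=
      Kr τ J ⊔ Submodule.span (ZMod 2) {m | ∃ k t, m = τ (y k) t - t} with hL
    let S : Subgroup H :=
      { carrier := {j | ∀ t, τ j t - t ∈ L}
        mul_mem' := fun {a b} ha hb t => by
          have e : τ (a * b) t - t = (τ a (τ b t) - τ b t) + (τ b t - t) := by
            rw [map_mul, Module.End.mul_apply]; abel
          rw [e]
          exact L.add_mem (ha _) (hb _)
        one_mem' := fun t => by simp
        inv_mem' := fun {a} ha t => by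
          have e : τ a⁻¹ t - t = -(τ a (τ a⁻¹ t) - τ a⁻¹ t) := by
            rw [← Module.End.mul_apply (τ a), ← map_mul, mul_inv_cancel, map_one,
              Module.End.one_apply]
            abel
          rw [e]
          exact L.neg_mem (ha _) }
    have hJ : J ≤ S := fun j hj t => (le_sup_left : Kr τ J ≤ L) (sub_mem_Kr τ hj t)
    have hY : Subgroup.closure (Set.range y) ≤ S := by
      rw [Subgroup.closure_le]
      rintro _ ⟨k, rfl⟩ t
      exact (le_sup_right : _ ≤ L) (Submodule.subset_span ⟨k, t, rfl⟩)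
    refine Kr_le fun j hj t => ?_
    have : j ∈ S := (sup_le hJ hY) (hy ▸ hj)
    exact this t
  · refine sup_le (Kr_mono τ (hy ▸ le_sup_left)) (Submodule.span_le.2 ?_)
    rintro _ ⟨k, t, rfl⟩
    refine sub_mem_Kr τ ?_ t
    rw [hy]
    exact (le_sup_right : _ ≤ J ⊔ Subgroup.closure (Set.range y))
      (Subgroup.subset_closure ⟨k, rfl⟩)

/-- a sum over the generators -/
theorem Kr_sup_sum (τ : Representation (ZMod 2) H M) {J J' : Subgroup H} [J.Normal] {ι : Type} (y : ι → H)
    (hy : J' = J ⊔ Subgroup.closure (Set.range y)) {t : M} (ht : t ∈ Kr τ J') :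
    ∃ (κ : M) (w : ι →₀ M), κ ∈ Kr τ J ∧ t = κ + w.sum fun k m => τ (y k) m - m := by
  rw [Kr_sup τ y hy, Submodule.mem_sup] at ht
  obtain ⟨κ, hκ, z, hz, rfl⟩ := ht
  let Λ : (ι →₀ M) →ₗ[ZMod 2] M :=
    Finsupp.lsum (ZMod 2) fun k => (τ (y k) - LinearMap.id : M →ₗ[ZMod 2] M)
  have hle : Submodule.span (ZMod 2) {m | ∃ k t, m = τ (y k) t - t} ≤ LinearMap.range Λ := by
    refine Submodule.span_le.2 ?_
    rintro _ ⟨k, t, rfl⟩
    refine ⟨Finsupp.single k t, ?_⟩
    simp only [Λ, Finsupp.lsum_single, LinearMap.sub_apply, LinearMap.id_apply]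
  obtain ⟨w, hw⟩ := hle hz
  refine ⟨κ, w, hκ, ?_⟩
  rw [← hw]
  rfl

theorem rTensor_tprod (τ : Representation (ZMod 2) H M) {ρ' : Representation (ZMod 2) H X'}
    {ρ'' : Representation (ZMod 2) H X''} {p : X' →ₗ[ZMod 2] X''}
    (hp : ∀ h x, p (ρ' h x) = ρ'' h (p x)) (h : H) (t : X' ⊗[ZMod 2] M) :
    p.rTensor M ((ρ'.tprod τ) h t) = (ρ''.tprod τ) h (p.rTensor M t) := by
  induction t with
  | zero => simp
  | add a b ha hb => simp only [map_add, ha, hb]
  | tmul x m => simp [Representation.tprod_apply, hp]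

/-- right exactness -/
theorem Kr_exact (τ : Representation (ZMod 2) H M) {ρ : Representation (ZMod 2) H X}
    {ρ' : Representation (ZMod 2) H X'} {ρ'' : Representation (ZMod 2) H X''} {J : Subgroup H}
    {f : X →ₗ[ZMod 2] X'} {p : X' →ₗ[ZMod 2] X''}
    (hp : ∀ h x, p (ρ' h x) = ρ'' h (p x)) (hex : Function.Exact f p) (hsur : Function.Surjective p)
    {w : X' ⊗[ZMod 2] M} (hw : p.rTensor M w ∈ Kr (ρ''.tprod τ) J) :
    ∃ u : X ⊗[ZMod 2] M, w - f.rTensor M u ∈ Kr (ρ'.tprod τ) J := by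
  have hle : Kr (ρ''.tprod τ) J ≤ (Kr (ρ'.tprod τ) J).map (p.rTensor M) := by
    refine Kr_le fun j hj t => ?_
    obtain ⟨t', rfl⟩ := LinearMap.rTensor_surjective M hsur t
    refine ⟨(ρ'.tprod τ) j t' - t', sub_mem_Kr _ hj _, ?_⟩
    rw [map_sub, rTensor_tprod τ hp]
  obtain ⟨κ, hκ, hκw⟩ := hle hw
  have h0 : p.rTensor M (w - κ) = 0 := by rw [map_sub, hκw, sub_self]
  obtain ⟨u, hu⟩ := (rTensor_exact M hex hsur (w - κ)).1 h0
  refine ⟨u, ?_⟩
  have e : w - f.rTensor M u = κ := by rw [hu]; abel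
  rw [e]
  exact hκ

/-- `M` is flat over the group algebra of `J` -/
def FlatJ (J : Subgroup H) (τ : Representation (ZMod 2) H M) : Prop :=
  ∀ (X X' : Type) [AddCommGroup X] [Module (ZMod 2) X] [AddCommGroup X'] [Module (ZMod 2) X']
    (ρ : Representation (ZMod 2) J X) (ρ' : Representation (ZMod 2) J X') (f : X →ₗ[ZMod 2] X'),
    (∀ g x, f (ρ g x) = ρ' g (f x)) → Function.Injective f → ∀ t : X ⊗[ZMod 2] M,
    f.rTensor M t ∈ Kr (ρ'.tprod (τ.comp J.subtype)) ⊤ → t ∈ Kr (ρ.tprod (τ.comp J.subtype)) ⊤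

/-- `M` is flat over the group algebra of `H` -/
def Flat (τ : Representation (ZMod 2) H M) : Prop :=
  ∀ (X X' : Type) [AddCommGroup X] [Module (ZMod 2) X] [AddCommGroup X'] [Module (ZMod 2) X']
    (ρ : Representation (ZMod 2) H X) (ρ' : Representation (ZMod 2) H X') (f : X →ₗ[ZMod 2] X'),
    (∀ g x, f (ρ g x) = ρ' g (f x)) → Function.Injective f → ∀ t : X ⊗[ZMod 2] M,
    f.rTensor M t ∈ Kr (ρ'.tprod τ) ⊤ → t ∈ Kr (ρ.tprod τ) ⊤

theorem flatJ_bot (τ : Representation (ZMod 2) H M) : FlatJ ⊥ τ := by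
  intro X X' _ _ _ _ ρ ρ' f _ hinj t ht
  have h0 : f.rTensor M t = 0 := by
    have hle : Kr (ρ'.tprod (τ.comp (⊥ : Subgroup H).subtype)) ⊤ ≤ ⊥ := by
      refine Kr_le fun j _ t => ?_
      have hj : j = 1 := Subsingleton.elim _ _
      subst hj
      rw [map_one]
      simp
    exact (Submodule.mem_bot _).1 (hle ht)
  have hi := Module.Flat.rTensor_preserves_injective_linearMap (M := M) f hinj
  have : t = 0 := hi (by rw [h0, map_zero])
  rw [this]
  exact Submodule.zero_mem _

theorem flat_of_top {τ : Representation (ZMod 2) H M} (h : FlatJ ⊤ τ) : Flat τ := by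
  intro X X' _ _ _ _ ρ ρ' f hf hinj t ht
  have hcmp : ∀ {Z : Type} [AddCommGroup Z] [Module (ZMod 2) Z] (σ : Representation (ZMod 2) H Z),
      Kr (Representation.tprod (σ.comp (⊤ : Subgroup H).subtype)
        (τ.comp (⊤ : Subgroup H).subtype)) ⊤ = Kr (σ.tprod τ) ⊤ := by
    intro Z _ _ σ
    apply le_antisymm
    · exact Kr_le fun j _ t => sub_mem_Kr (σ.tprod τ) (Subgroup.mem_top (j : H)) t
    · refine Kr_le fun j _ t => ?_
      exact sub_mem_Kr (Representation.tprod (σ.comp (⊤ : Subgroup H).subtype)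
        (τ.comp (⊤ : Subgroup H).subtype))
        (Subgroup.mem_top (⟨j, Subgroup.mem_top j⟩ : (⊤ : Subgroup H))) t
  have h2 := h X X' (ρ.comp (⊤ : Subgroup H).subtype) (ρ'.comp (⊤ : Subgroup H).subtype) f
    (fun g x => hf _ _) hinj t
  rw [hcmp, hcmp] at h2
  exact h2 ht

/-- retracts of flat representations -/
theorem Flat.of_retract {M' : Type} [AddCommGroup M'] [Module (ZMod 2) M'] {τ : Representation (ZMod 2) H M}
    {τ' : Representation (ZMod 2) H M'} (h : Flat τ) (i : M' →ₗ[ZMod 2] M) (p : M →ₗ[ZMod 2] M')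
    (hi : ∀ g m, i (τ' g m) = τ g (i m)) (hp : ∀ g m, p (τ g m) = τ' g (p m)) (hpi : ∀ m, p (i m) = m) :
    Flat τ' := by
  intro X X' _ _ _ _ ρ ρ' f hf hinj t ht
  have hL : ∀ {Z : Type} [AddCommGroup Z] [Module (ZMod 2) Z] {A B : Type} [AddCommGroup A]
      [Module (ZMod 2) A] [AddCommGroup B] [Module (ZMod 2) B]
      (σ : Representation (ZMod 2) H Z) (α : Representation (ZMod 2) H A)
      (β : Representation (ZMod 2) H B) (q : A →ₗ[ZMod 2] B) (_ : ∀ g m, q (α g m) = β g (q m))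
      (t : Z ⊗[ZMod 2] A), t ∈ Kr (σ.tprod α) ⊤ → q.lTensor Z t ∈ Kr (σ.tprod β) ⊤ := by
    intro Z _ _ A B _ _ _ _ σ α β q hq t ht
    refine Kr_map (τ := σ.tprod α) (ρ := σ.tprod β) (fun j _ t => ?_) ht
    induction t with
    | zero => simp
    | add a b ha hb => simp only [map_add, ha, hb]
    | tmul x m => simp [Representation.tprod_apply, hq]
  have h1 : f.rTensor M (i.lTensor X t) ∈ Kr (ρ'.tprod τ) ⊤ := by
    have e : f.rTensor M (i.lTensor X t) = i.lTensor X' (f.rTensor M' t) := by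
      rw [← LinearMap.comp_apply, ← LinearMap.comp_apply, LinearMap.rTensor_comp_lTensor,
        LinearMap.lTensor_comp_rTensor]
    rw [e]
    exact hL ρ' τ' τ i hi _ ht
  have h2 := h X X' ρ ρ' f hf hinj _ h1
  have h3 := hL ρ τ τ' p hp _ h2
  have e : p.lTensor X (i.lTensor X t) = t := by
    rw [← LinearMap.comp_apply, ← LinearMap.lTensor_comp]
    have : p ∘ₗ i = LinearMap.id := LinearMap.ext hpi
    rw [this, LinearMap.lTensor_id]
    rfl
  rwa [e] at h3

/-- **Exact sequences stay exact** -/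
theorem Flat.exact {τ : Representation (ZMod 2) H M} (h : Flat τ) {ρ : Representation (ZMod 2) H X}
    {ρ' : Representation (ZMod 2) H X'} {ρ'' : Representation (ZMod 2) H X''}
    {f : X →ₗ[ZMod 2] X'} {p : X' →ₗ[ZMod 2] X''} (hf : ∀ h x, f (ρ h x) = ρ' h (f x))
    (hp : ∀ h x, p (ρ' h x) = ρ'' h (p x)) (hex : Function.Exact f p) {w : X' ⊗[ZMod 2] M}
    (hw : p.rTensor M w ∈ Kr (ρ''.tprod τ) ⊤) :
    ∃ u : X ⊗[ZMod 2] M, w - f.rTensor M u ∈ Kr (ρ'.tprod τ) ⊤ := by
  have hst : ∀ g, ∀ z ∈ LinearMap.range p, ρ'' g z ∈ LinearMap.range p := by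
    rintro g _ ⟨x, rfl⟩
    exact ⟨ρ' g x, hp g x⟩
  let ρZ : Representation (ZMod 2) H (LinearMap.range p) :=
    { toFun := fun g => (ρ'' g).restrict (hst g)
      map_one' := by
        ext z
        simp
      map_mul' := fun a b => by
        ext z
        simp [LinearMap.restrict_apply] }
  have h1 : ∀ g z, ((LinearMap.range p).subtype (ρZ g z)) = ρ'' g ((LinearMap.range p).subtype z) :=
    fun g z => rfl
  have h2 : p.rTensor M w = (LinearMap.range p).subtype.rTensor M (p.rangeRestrict.rTensor M w) := by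
    rw [← LinearMap.comp_apply, ← LinearMap.rTensor_comp]
    rfl
  rw [h2] at hw
  have h3 := h _ _ ρZ ρ'' (LinearMap.range p).subtype h1 (Submodule.injective_subtype _) _ hw
  refine Kr_exact τ (ρ := ρ) (ρ' := ρ') (ρ'' := ρZ) (f := f) (p := p.rangeRestrict)
    (fun g x => Subtype.ext (hp g x)) ?_ p.surjective_rangeRestrict h3
  intro x
  rw [← hex x]
  constructor
  · intro hx
    exact congrArg Subtype.val hx
  · intro hx
    exact Subtype.ext hx

end

end Pool.Agent.S11
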