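import Mathlib

/-!
# Project S11, square lemma: the square map of a vector space over the field of two elements

`Sym / Alt` of `V ⊗ V` is `V`: `δ` is the diagonal part with respect to a basis; on the symmetric tensors it does not
depend on the basis.
-/

set_option autoImplicit false
set_option linter.unusedSectionVars false

open scoped TensorProduct

noncomputable section

namespace Pool.Agent.S11

variable {V : Type} [AddCommGroup V] [Module (ZMod 2) V]

/-- the exchange of the two factors -/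
def sw : V ⊗[ZMod 2] V →ₗ[ZMod 2] V ⊗[ZMod 2] V := (TensorProduct.comm (ZMod 2) V V).toLinearMap

@[simp] theorem sw_tmul (u v : V) : sw (u ⊗ₜ[ZMod 2] v) = v ⊗ₜ[ZMod 2] u := rfl

theorem sw_sw (x : V ⊗[ZMod 2] V) : sw (sw x) = x := by
  induction x using TensorProduct.induction_on with
  | zero => simp
  | tmul u v => rfl
  | add a b ha hb => rw [map_add, map_add, ha, hb]

theorem add_self_tt {W : Type} [AddCommGroup W] [Module (ZMod 2) W] (x : W) : x + x = 0 := by
  have h : (1 + 1 : ZMod 2) = 0 := rfl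
  calc x + x = (1 + 1 : ZMod 2) • x := by rw [add_smul, one_smul]
    _ = 0 := by rw [h, zero_smul]

/-- the image of `1 + T` -/
def Alt : Submodule (ZMod 2) (V ⊗[ZMod 2] V) := LinearMap.range (LinearMap.id + sw)

theorem mem_Alt {x : V ⊗[ZMod 2] V} : x ∈ (Alt : Submodule (ZMod 2) (V ⊗[ZMod 2] V)) ↔ ∃ y, y + sw y = x := Iff.rfl

theorem alt_sym {x : V ⊗[ZMod 2] V} (h : x ∈ (Alt : Submodule (ZMod 2) (V ⊗[ZMod 2] V))) : sw x = x := by
  obtain ⟨y, rfl⟩ := mem_Alt.1 h
  rw [map_add, sw_sw, add_comm]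

theorem exists_diag (V : Type) [AddCommGroup V] [Module (ZMod 2) V] :
    ∃ δ : V ⊗[ZMod 2] V →ₗ[ZMod 2] V, (∀ v, δ (v ⊗ₜ[ZMod 2] v) = v) ∧ (∀ x ∈ (Alt : Submodule (ZMod 2) (V ⊗[ZMod 2] V)), δ x = 0) ∧
      ∀ x, sw x = x → x + δ x ⊗ₜ[ZMod 2] δ x ∈ (Alt : Submodule (ZMod 2) (V ⊗[ZMod 2] V)) := by
  classical
  obtain ⟨ι, b⟩ := Module.Free.exists_basis (R := ZMod 2) (M := V)
  obtain ⟨i⟩ : Nonempty (LinearOrder ι) := ⟨linearOrderOfSTO (WellOrderingRel)⟩
  let _ := i
  set B := b.tensorProduct b with hB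
  set δ : V ⊗[ZMod 2] V →ₗ[ZMod 2] V := B.constr (ZMod 2) (fun p : ι × ι => if p.1 = p.2 then b p.1 else 0) with hδ
  have h1 : ∀ (x : V ⊗[ZMod 2] V) (i : ι), b.repr (δ x) i = B.repr x (i, i) := by
    intro x i
    have h2 : (b.coord i) ∘ₗ δ = B.coord (i, i) := by
      refine B.ext fun p => ?_
      obtain ⟨k, l⟩ := p
      rw [LinearMap.comp_apply, hδ, Module.Basis.constr_basis, Module.Basis.coord_apply, Module.Basis.coord_apply,
        Module.Basis.repr_self]
      by_cases hkl : k = l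
      · subst hkl
        simp [Finsupp.single_apply]
      · simp only [hkl, if_false, map_zero, Finsupp.coe_zero, Pi.zero_apply, Finsupp.single_apply, Prod.mk.injEq]
        rw [if_neg]
        rintro ⟨rfl, rfl⟩
        exact hkl rfl
    exact LinearMap.congr_fun h2 x
  have h2 : ∀ (u v : V) (i j : ι), B.repr (u ⊗ₜ[ZMod 2] v) (i, j) = b.repr u i * b.repr v j := by
    intro u v i j
    rw [hB, Module.Basis.tensorProduct_repr_tmul_apply, smul_eq_mul, mul_comm]
  have h3 : ∀ (x : V ⊗[ZMod 2] V) (i j : ι), B.repr (sw x) (i, j) = B.repr x (j, i) := by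
    intro x i j
    induction x using TensorProduct.induction_on with
    | zero => simp
    | tmul u v => rw [sw_tmul, h2, h2, mul_comm]
    | add a b ha hb => rw [map_add, map_add, map_add, Finsupp.add_apply, Finsupp.add_apply, ha, hb]
  have hsq : ∀ c : ZMod 2, c * c = c := by decide
  have hch : ∀ c : ZMod 2, c + c = 0 := by decide
  -- the diagonal part
  have h4 : ∀ x : V ⊗[ZMod 2] V, sw x = x → ∃ y, ∀ i j, B.repr (x + (y + sw y)) (i, j) = if i = j then B.repr x (i, i) else 0 := by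
    intro x hx
    refine ⟨B.repr.symm ((B.repr x).filter fun p => p.1 < p.2), fun i j => ?_⟩
    rw [map_add, map_add, Finsupp.add_apply, Finsupp.add_apply, h3, LinearEquiv.apply_symm_apply, Finsupp.filter_apply,
      Finsupp.filter_apply]
    have h5 : B.repr x (j, i) = B.repr x (i, j) := by
      conv_lhs => rw [← hx]
      rw [h3]
    rcases lt_trichotomy i j with h | h | h
    · simp only [h, if_true, not_lt.2 h.le, if_false, add_zero, h.ne]
      exact hch _
    · subst h
      simp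
    · simp only [h, if_true, not_lt.2 h.le, if_false, zero_add, h.ne']
      rw [h5]
      exact hch _
  refine ⟨δ, fun v => ?_, fun x hx => ?_, fun x hx => ?_⟩
  · refine b.ext_elem fun i => ?_
    rw [h1, h2, hsq]
  · obtain ⟨y, rfl⟩ := mem_Alt.1 hx
    refine b.ext_elem fun i => ?_
    rw [h1, map_add, Finsupp.add_apply, h3, hch, map_zero, Finsupp.coe_zero, Pi.zero_apply]
  · obtain ⟨y, hy⟩ := h4 x hx
    obtain ⟨y', hy'⟩ := h4 (δ x ⊗ₜ[ZMod 2] δ x) (by rw [sw_tmul])
    refine mem_Alt.2 ⟨y + y', ?_⟩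
    have h5 : x + (y + sw y) = δ x ⊗ₜ[ZMod 2] δ x + (y' + sw y') := by
      refine B.ext_elem fun p => ?_
      obtain ⟨i, j⟩ := p
      rw [hy, hy', h2, hsq, h1]
    have h6 : x + δ x ⊗ₜ[ZMod 2] δ x = (x + (y + sw y)) + (y + sw y) + δ x ⊗ₜ[ZMod 2] δ x := by
      rw [add_assoc x, add_self_tt, add_zero]
    rw [h6, h5, map_add]
    have h7 := add_self_tt (δ x ⊗ₜ[ZMod 2] δ x)
    calc y + y' + (sw y + sw y') = (y' + sw y') + (y + sw y) + 0 := by abel
      _ = (y' + sw y') + (y + sw y) + (δ x ⊗ₜ[ZMod 2] δ x + δ x ⊗ₜ[ZMod 2] δ x) := by rw [h7]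
      _ = _ := by abel

end Pool.Agent.S11
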