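import Pool.Agent.S11.SqDefs
import Pool.Agent.S11.SqA

/-!
# Project S11, square lemma: operations on equivariant cochains
-/

set_option autoImplicit false
set_option linter.unusedSectionVars false

open Finset Pointwise
open scoped TensorProduct

noncomputable section

namespace Pool.Agent.S11

variable {Γ U : Type} [Group Γ] [DecidableEq U] [MulAction Γ U] {K B : Set (Finset U)}
  {W W' : Type} [AddCommGroup W] [Module (ZMod 2) W] [AddCommGroup W'] [Module (ZMod 2) W']
  {ρ : Γ →* Module.End (ZMod 2) W} {ρ' : Γ →* Module.End (ZMod 2) W'}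

namespace EqC

theorem zero (q : ℕ) : EqC K B ρ q (0 : Finset U → W) where
  supp := fun s h => absurd rfl h
  eqv := fun g s => by simp
  fin := ⟨∅, fun s h => absurd rfl h⟩

theorem add {q : ℕ} {c d : Finset U → W} (hc : EqC K B ρ q c) (hd : EqC K B ρ q d) :
    EqC K B ρ q (c + d) where
  supp := by
    intro s h
    by_cases h0 : c s = 0
    · refine hd.supp s fun h1 => h ?_
      rw [Pi.add_apply, h0, h1, add_zero]
    · exact hc.supp s h0
  eqv := fun g s => by rw [Pi.add_apply, Pi.add_apply, hc.eqv, hd.eqv, map_add]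
  fin := by
    obtain ⟨F, hF⟩ := hc.fin
    obtain ⟨F', hF'⟩ := hd.fin
    refine ⟨F ∪ F', fun s h => ?_⟩
    by_cases h0 : c s = 0
    · obtain ⟨g, hg⟩ := hF' s fun h1 => h (by rw [Pi.add_apply, h0, h1, add_zero])
      exact ⟨g, mem_union_right _ hg⟩
    · obtain ⟨g, hg⟩ := hF s h0
      exact ⟨g, mem_union_left _ hg⟩

/-- the image under a map which is additive and equivariant on the values -/
theorem map {q : ℕ} {c : Finset U → W} (hc : EqC K B ρ q c) (L : W → W') (h0 : L 0 = 0)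
    (hL : ∀ g s, L (ρ g (c s)) = ρ' g (L (c s))) : EqC K B ρ' q (fun s => L (c s)) where
  supp := fun s h => hc.supp s fun h1 => h (by rw [h1, h0])
  eqv := fun g s => by rw [hc.eqv, hL]
  fin := by
    obtain ⟨F, hF⟩ := hc.fin
    exact ⟨F, fun s h => hF s fun h1 => h (by rw [h1, h0])⟩

theorem empty {q : ℕ} {c : Finset U → W} (hne : ∀ s ∈ K, s.Nonempty) (hc : EqC K B ρ q c) : c ∅ = 0 := by
  by_contra h
  exact absurd (hne _ (hc.supp _ h).1) (by simp)

theorem eq_zero {c : Finset U → W} (hne : ∀ s ∈ K, s.Nonempty) (hc : EqC K B ρ 0 c) (s : Finset U) : c s = 0 := by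
  by_contra h
  obtain ⟨h1, -, h2⟩ := hc.supp s h
  exact absurd (hne s h1) (by simp [card_eq_zero.1 h2])

theorem eq_zero_of_mem {q : ℕ} {c : Finset U → W} (hc : EqC K B ρ q c) {s : Finset U} (hs : s ∈ B) : c s = 0 := by
  by_contra h
  exact (hc.supp s h).2.1 hs

end EqC

open Classical in
/-- the coboundary -/
def cbK (K B : Set (Finset U)) (c : Finset U → W) (t : Finset U) : W :=
  if t ∈ K ∧ t ∉ B then ∑ v ∈ t, c (t.erase v) else 0

theorem cbK_eq {c : Finset U → W} {t : Finset U} (h : t ∈ K) (h' : t ∉ B) : cbK K B c t = ∑ v ∈ t, c (t.erase v) := if_pos ⟨h, h'⟩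

theorem isCb_cbK (c : Finset U → W) : IsCb K B c (cbK K B c) := fun _ h h' => (cbK_eq h h').symm

theorem IsCb.add {c d f e : Finset U → W} (h1 : IsCb K B c f) (h2 : IsCb K B d e) : IsCb K B (c + d) (f + e) := by
  intro t h h'
  rw [Pi.add_apply, ← h1 t h h', ← h2 t h h', ← sum_add_distrib]
  rfl

theorem IsCb.map {c f : Finset U → W} (h1 : IsCb K B c f) (L : W →ₗ[ZMod 2] W') :
    IsCb K B (fun s => L (c s)) (fun s => L (f s)) := by
  intro t h h'
  show ∑ v ∈ t, L (c (t.erase v)) = L (f t)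
  rw [← h1 t h h', map_sum]

theorem erase_smul (g : Γ) (s : Finset U) (v : U) : (g • s).erase (g • v) = g • s.erase v := by
  ext u
  rw [mem_erase, ← inv_smul_mem_iff, ← inv_smul_mem_iff, mem_erase]
  refine and_congr_left fun _ => not_congr ?_
  rw [inv_smul_eq_iff]

theorem sum_smul_set {M : Type} [AddCommMonoid M] (g : Γ) (s : Finset U) (f : U → M) : ∑ v ∈ g • s, f v = ∑ v ∈ s, f (g • v) := by
  show ∑ v ∈ s.image (g • ·), f v = _
  rw [sum_image]
  intro a _ b _ h
  exact smul_left_cancel g h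

variable (h : SCx Γ K B)

include h

theorem mem_iff_smul (g : Γ) (s : Finset U) : g • s ∈ K ↔ s ∈ K :=
  ⟨fun h1 => by simpa using h.K_mem g⁻¹ _ h1, h.K_mem g s⟩

theorem memB_iff_smul (g : Γ) (s : Finset U) : g • s ∈ B ↔ s ∈ B :=
  ⟨fun h1 => by simpa using h.B_mem g⁻¹ _ h1, h.B_mem g s⟩

/-- the coboundary of an equivariant cochain -/
theorem EqC.cb {q : ℕ} {c : Finset U → W} (hc : EqC K B ρ q c) : EqC K B ρ (q + 1) (cbK K B c) where
  supp := by
    intro s hs
    unfold cbK at hs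
    split_ifs at hs with h1
    · obtain ⟨v, hv, hv'⟩ := exists_ne_zero_of_sum_ne_zero hs
      obtain ⟨-, -, h4⟩ := hc.supp _ hv'
      rw [card_erase_of_mem hv] at h4
      have := card_pos.2 ⟨v, hv⟩
      exact ⟨h1.1, h1.2, by omega⟩
    · exact absurd rfl hs
  eqv := by
    intro g s
    by_cases h1 : s ∈ K ∧ s ∉ B
    · rw [cbK_eq h1.1 h1.2, cbK_eq ((mem_iff_smul h g s).2 h1.1) (fun h2 => h1.2 ((memB_iff_smul h g s).1 h2)), sum_smul_set,
        map_sum]
      exact sum_congr rfl fun v _ => by rw [erase_smul, hc.eqv]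
    · have h2 : ¬ (g • s ∈ K ∧ g • s ∉ B) := by
        rwa [mem_iff_smul h, memB_iff_smul h]
      unfold cbK
      rw [if_neg h1, if_neg h2, map_zero]
  fin := by
    classical
    obtain ⟨F, hF⟩ := hc.fin
    refine ⟨(F.filter (· ∈ K)).attach.biUnion fun t => (h.locfin t.1 (mem_filter.1 t.2).2).toFinset, fun s hs => ?_⟩
    unfold cbK at hs
    split_ifs at hs with h1
    · obtain ⟨v, hv, hv'⟩ := exists_ne_zero_of_sum_ne_zero hs
      obtain ⟨g, hg⟩ := hF _ hv'
      have h2 : g • s.erase v ∈ K := h.K_mem g _ (hc.supp _ hv').1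
      refine ⟨g, mem_biUnion.2 ⟨⟨g • s.erase v, mem_filter.2 ⟨hg, h2⟩⟩, mem_attach _ _, ?_⟩⟩
      rw [Set.Finite.mem_toFinset]
      exact ⟨h.K_mem g s h1.1, smul_finset_subset_smul_finset (erase_subset _ _)⟩
    · exact absurd rfl hs

omit h in
theorem sum_sum_erase (c : Finset U → W) (t : Finset U) : ∑ v ∈ t, ∑ w ∈ t.erase v, c ((t.erase v).erase w) = 0 := by
  rw [sum_sigma']
  refine sum_involution (fun p _ => ⟨p.2, p.1⟩) ?_ ?_ ?_ ?_
  · rintro ⟨u, v⟩ _
    show c ((t.erase u).erase v) + c ((t.erase v).erase u) = 0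
    rw [erase_right_comm]
    exact add_self_tt _
  · rintro ⟨u, v⟩ h _ he
    rw [mem_sigma] at h
    have h1 : v = u := congrArg Sigma.fst he
    exact ne_of_mem_erase h.2 h1
  · rintro ⟨u, v⟩ h
    rw [mem_sigma] at h ⊢
    have h2 : v ∈ t.erase u := h.2
    have h1 : u ∈ t := h.1
    exact ⟨mem_of_mem_erase h2, mem_erase.2 ⟨(ne_of_mem_erase h2).symm, h1⟩⟩
  · rintro ⟨u, v⟩ _
    rfl

/-- the sum over the faces of a simplex of `B` -/
theorem sum_of_mem_B {q : ℕ} {c : Finset U → W} (hc : EqC K B ρ q c) {t : Finset U} (ht' : t ∈ B) :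
    ∑ v ∈ t, c (t.erase v) = 0 := by
  refine sum_eq_zero fun v hv => ?_
  by_contra h1
  obtain ⟨h2, h3, -⟩ := hc.supp _ h1
  exact h3 (h.bd_down t ht' _ (erase_subset _ _) (h.ne _ h2))

/-- the coboundary of a coboundary -/
theorem cb_cb {q : ℕ} {c f : Finset U → W} (hc : EqC K B ρ q c) (hf : EqC K B ρ (q + 1) f) (hcf : IsCb K B c f) : IsCb K B f 0 := by
  intro t ht1 ht2
  have h1 : ∀ v ∈ t, f (t.erase v) = ∑ w ∈ t.erase v, c ((t.erase v).erase w) := by
    intro v hv
    rcases (t.erase v).eq_empty_or_nonempty with h0 | h0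
    · rw [h0, sum_empty]
      exact hf.empty h.ne
    · have h2 := h.down t ht1 _ (erase_subset v t) h0
      by_cases h3 : t.erase v ∈ B
      · rw [sum_of_mem_B h hc h3, hf.eq_zero_of_mem h3]
      · exact (hcf _ h2 h3).symm
  rw [sum_congr rfl h1, sum_sum_erase]
  rfl

/-- equivariant lifts of cochains -/
theorem EqC.lift (L : W →ₗ[ZMod 2] W') (hL : ∀ g x, L (ρ g x) = ρ' g (L x)) {q : ℕ} {c : Finset U → W'}
    (hc : EqC K B ρ' q c) (hr : ∀ s, c s ∈ LinearMap.range L) : ∃ b, EqC K B ρ q b ∧ ∀ s, L (b s) = c s := by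
  classical
  choose y hy using fun s => LinearMap.mem_range.1 (hr s)
  -- representatives
  let R : Finset U → Finset U := fun s => (Quotient.out (s := MulAction.orbitRel Γ (Finset U)) ⟦s⟧)
  have hr1 : ∀ s, ∃ g : Γ, g • R s = s := by
    intro s
    have h1 : (MulAction.orbitRel Γ (Finset U)).r (R s) s := Quotient.exact (Quotient.out_eq _)
    obtain ⟨g, hg⟩ := MulAction.orbitRel_apply.1 ((MulAction.orbitRel Γ (Finset U)).symm h1)
    exact ⟨g, hg⟩
  have hr2 : ∀ (g : Γ) s, R (g • s) = R s := by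
    intro g s
    show Quotient.out _ = Quotient.out _
    congr 1
    exact Quotient.sound (MulAction.orbitRel_apply.2 ⟨g, rfl⟩)
  choose γ hγ using hr1
  have hr3 : ∀ s ∈ K, R s ∈ K := fun s hs => by
    have h1 : γ s • R s ∈ K := by rw [hγ]; exact hs
    exact (mem_iff_smul h _ _).1 h1
  have hr4 : ∀ (g : Γ) s, s ∈ K → γ (g • s) = g * γ s := by
    intro g s hs
    have h1 : (γ (g • s))⁻¹ * (g * γ s) = 1 := by
      refine h.free _ (R s) (hr3 s hs) ?_
      rw [mul_smul, mul_smul, hγ, inv_smul_eq_iff]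
      have h2 := hγ (g • s)
      rw [hr2] at h2
      exact h2.symm
    exact (inv_mul_eq_one.1 h1)
  refine ⟨fun s => if c s = 0 then 0 else ρ (γ s) (y (R s)), ⟨fun s hs => ?_, fun g s => ?_, ?_⟩, fun s => ?_⟩
  · refine hc.supp s fun h0 => hs ?_
    rw [if_pos h0]
  · have h1 : c (g • s) = 0 ↔ c s = 0 := by
      rw [hc.eqv]
      constructor
      · intro h0
        have h2 := congrArg (ρ' g⁻¹) h0
        rw [map_zero, ← Module.End.mul_apply, ← map_mul, inv_mul_cancel, map_one] at h2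
        exact h2
      · intro h0
        rw [h0, map_zero]
    show (if c (g • s) = 0 then 0 else _) = ρ g (if c s = 0 then 0 else _)
    by_cases h0 : c s = 0
    · rw [if_pos h0, if_pos (h1.2 h0), map_zero]
    · rw [if_neg h0, if_neg (fun h3 => h0 (h1.1 h3)), hr2, hr4 g s (hc.supp s h0).1, map_mul]
      rfl
  · obtain ⟨F, hF⟩ := hc.fin
    exact ⟨F, fun s hs => hF s fun h0 => hs (if_pos h0)⟩
  · show L (if c s = 0 then 0 else _) = c s
    by_cases h0 : c s = 0
    · rw [if_pos h0, map_zero, h0]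
    · rw [if_neg h0, hL, hy, ← hc.eqv, hγ]

end Pool.Agent.S11
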