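import Pool.Agent.S11.SqB
import Pool.Agent.S11.Flat

/-!
# Project S11, bridge: flat representations give exact complexes of equivariant cochains

`Sx K B q` = the simplices with `q` vertices; the compactly supported cochains are `Sx K B q →₀ ZMod 2`; `phi` maps
`(Sx K B q →₀ ZMod 2) ⊗ W` onto the equivariant cochains with finite support modulo the group, and its kernel is the
kernel of the coinvariants.
-/

set_option autoImplicit false
set_option linter.unusedSectionVars false

open Finset Pointwise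
open scoped TensorProduct

noncomputable section

namespace Pool.Agent.S11

open Pool.Agent.H37.TM (Rel IsCob)

variable {Γ U : Type} [Group Γ] [DecidableEq U] [MulAction Γ U] {K B : Set (Finset U)}
  {W : Type} [AddCommGroup W] [Module (ZMod 2) W]

/-- the simplices with `q` vertices -/
abbrev Sx (K B : Set (Finset U)) (q : ℕ) : Type := {s : Finset U // s ∈ K ∧ s ∉ B ∧ s.card = q}

theorem SCx.smul_mem (h : SCx Γ K B) (g : Γ) {q : ℕ} {s : Finset U} (hs : s ∈ K ∧ s ∉ B ∧ s.card = q) :
    g • s ∈ K ∧ g • s ∉ B ∧ (g • s).card = q :=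
  ⟨h.K_mem g s hs.1, fun h1 => hs.2.1 ((memB_iff_smul h g s).1 h1), by rw [card_smul_finset]; exact hs.2.2⟩

/-- the action on the simplices -/
def smx (h : SCx Γ K B) (q : ℕ) (g : Γ) (s : Sx K B q) : Sx K B q := ⟨g • s.1, h.smul_mem g s.2⟩

/-- the compactly supported cochains as a representation -/
def cRep (h : SCx Γ K B) (q : ℕ) : Representation (ZMod 2) Γ (Sx K B q →₀ ZMod 2) where
  toFun g := Finsupp.lmapDomain (ZMod 2) (ZMod 2) (smx h q g)
  map_one' := by
    have h1 : smx h q (1 : Γ) = id := funext fun s => Subtype.ext (one_smul Γ s.1)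
    rw [h1]
    exact Finsupp.lmapDomain_id _ _
  map_mul' g g' := by
    have h1 : smx h q (g * g') = smx h q g ∘ smx h q g' := funext fun s => Subtype.ext (mul_smul g g' s.1)
    rw [h1]
    exact Finsupp.lmapDomain_comp _ _ _ _

theorem cRep_single (h : SCx Γ K B) (q : ℕ) (g : Γ) (s : Sx K B q) (a : ZMod 2) :
    cRep h q g (Finsupp.single s a) = Finsupp.single (smx h q g s) a := Finsupp.mapDomain_single

open Classical in
/-- the equivariant cochain with the value `w` at `s` -/
def orb (τ : Representation (ZMod 2) Γ W) (s : Finset U) : W →ₗ[ZMod 2] (Finset U → W) where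
  toFun w t := if h : ∃ g : Γ, g • s = t then τ h.choose w else 0
  map_add' u w := by
    funext t
    rw [Pi.add_apply]
    split_ifs
    · exact map_add _ _ _
    · exact (add_zero _).symm
  map_smul' a w := by
    funext t
    rw [Pi.smul_apply]
    split_ifs
    · exact map_smul _ _ _
    · exact (smul_zero _).symm

theorem orb_of (h : SCx Γ K B) (τ : Representation (ZMod 2) Γ W) {s : Finset U} (hs : s ∈ K) (g : Γ) (w : W) :
    orb τ s w (g • s) = τ g w := by
  have h1 : ∃ g' : Γ, g' • s = g • s := ⟨g, rfl⟩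
  simp only [orb, LinearMap.coe_mk, AddHom.coe_mk]
  rw [dif_pos h1]
  have h2 := h1.choose_spec
  have h3 : g⁻¹ * h1.choose = 1 := by
    refine h.free _ s hs ?_
    rw [mul_smul, h2, inv_smul_smul]
  rw [← inv_mul_eq_one.1 h3]

theorem orb_not (τ : Representation (ZMod 2) Γ W) {s t : Finset U} (hn : ¬ ∃ g : Γ, g • s = t) (w : W) :
    orb τ s w t = 0 := by
  simp only [orb, LinearMap.coe_mk, AddHom.coe_mk]
  rw [dif_neg hn]

open Classical in
theorem orb_sum (h : SCx Γ K B) (τ : Representation (ZMod 2) Γ W) {s : Finset U} (hs : s ∈ K) (w : W) {t : Finset U}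
    {F : Finset Γ} (hF : ∀ g : Γ, g • s = t → g ∈ F) : orb τ s w t = ∑ g ∈ F, if g • s = t then τ g w else 0 := by
  by_cases h1 : ∃ g : Γ, g • s = t
  · obtain ⟨g, rfl⟩ := h1
    rw [orb_of h τ hs, sum_eq_single g]
    · rw [if_pos rfl]
    · intro g' _ hg'
      rw [if_neg]
      intro h2
      apply hg'
      have h3 : g⁻¹ * g' = 1 := by
        refine h.free _ s hs ?_
        rw [mul_smul, h2, inv_smul_smul]
      exact (inv_mul_eq_one.1 h3).symm
    · intro h2
      exact absurd (hF g rfl) h2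
  · rw [orb_not τ h1]
    symm
    refine sum_eq_zero fun g _ => if_neg fun h2 => h1 ⟨g, h2⟩

theorem eqC_orb (h : SCx Γ K B) (τ : Representation (ZMod 2) Γ W) {q : ℕ} (s : Sx K B q) (w : W) :
    EqC K B τ q (orb τ s.1 w) where
  supp := by
    intro t ht
    by_cases h1 : ∃ g : Γ, g • s.1 = t
    · obtain ⟨g, rfl⟩ := h1
      exact h.smul_mem g s.2
    · exact absurd (orb_not τ h1 w) ht
  eqv := by
    intro k t
    by_cases h1 : ∃ g : Γ, g • s.1 = t
    · obtain ⟨g, rfl⟩ := h1
      rw [← mul_smul, orb_of h τ s.2.1, orb_of h τ s.2.1, map_mul]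
      rfl
    · rw [orb_not τ h1, map_zero]
      refine orb_not τ (fun ⟨g, hg⟩ => h1 ⟨k⁻¹ * g, ?_⟩) w
      rw [mul_smul, hg, inv_smul_smul]
  fin := by
    refine ⟨{s.1}, fun t ht => ?_⟩
    by_cases h1 : ∃ g : Γ, g • s.1 = t
    · obtain ⟨g, rfl⟩ := h1
      exact ⟨g⁻¹, mem_singleton.2 (inv_smul_smul g s.1)⟩
    · exact absurd (orb_not τ h1 w) ht

/-- the map to the equivariant cochains -/
def phi (K B : Set (Finset U)) (τ : Representation (ZMod 2) Γ W) (q : ℕ) : (Sx K B q →₀ W) →ₗ[ZMod 2] (Finset U → W) :=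
  Finsupp.lsum (ZMod 2) fun s => orb τ s.1

theorem phi_single (τ : Representation (ZMod 2) Γ W) {q : ℕ} (s : Sx K B q) (w : W) :
    phi K B τ q (Finsupp.single s w) = orb τ s.1 w := by
  unfold phi
  rw [Finsupp.lsum_single]

theorem eqC_phi (h : SCx Γ K B) (τ : Representation (ZMod 2) Γ W) {q : ℕ} (x : Sx K B q →₀ W) :
    EqC K B τ q (phi K B τ q x) := by
  induction x using Finsupp.induction_linear with
  | zero => rw [map_zero]; exact EqC.zero q
  | add f g hf hg => rw [map_add]; exact hf.add hg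
  | single s w => rw [phi_single]; exact eqC_orb h τ s w

/-- representatives of the orbits -/
theorem exists_rep (Γ U : Type) [Group Γ] [DecidableEq U] [MulAction Γ U] :
    ∃ (R : Finset U → Finset U) (γ : Finset U → Γ), (∀ s, γ s • R s = s) ∧ (∀ (g : Γ) s, R (g • s) = R s) ∧ ∀ s, R (R s) = R s := by
  classical
  let R : Finset U → Finset U := fun s => (Quotient.out (s := MulAction.orbitRel Γ (Finset U)) ⟦s⟧)
  have hr1 : ∀ s, ∃ g : Γ, g • R s = s := by
    intro s
    have h1 : (MulAction.orbitRel Γ (Finset U)).r (R s) s := Quotient.exact (Quotient.out_eq _)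
    obtain ⟨g, hg⟩ := MulAction.orbitRel_apply.1 ((MulAction.orbitRel Γ (Finset U)).symm h1)
    exact ⟨g, hg⟩
  have hr2 : ∀ (g : Γ) s, R (g • s) = R s := by
    intro g s
    show Quotient.out _ = Quotient.out _
    congr 1
    exact Quotient.sound (MulAction.orbitRel_apply.2 ⟨g, rfl⟩)
  choose γ hγ using hr1
  refine ⟨R, γ, hγ, hr2, fun s => ?_⟩
  conv_rhs => rw [← hγ s]
  rw [hr2]

/-- every equivariant cochain is in the image -/
theorem phi_surj (h : SCx Γ K B) (τ : Representation (ZMod 2) Γ W) {q : ℕ} {c : Finset U → W} (hc : EqC K B τ q c) :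
    ∃ x, phi K B τ q x = c := by
  classical
  obtain ⟨R, γ, h1, h2, h3⟩ := exists_rep Γ U
  obtain ⟨F, hF⟩ := hc.fin
  refine ⟨∑ r ∈ ((F.image R).filter fun r => c r ≠ 0).attach,
    Finsupp.single ⟨r.1, hc.supp r.1 (mem_filter.1 r.2).2⟩ (c r.1), ?_⟩
  funext t
  rw [map_sum]
  simp only [phi_single]
  rw [Finset.sum_apply, sum_attach (s := (F.image R).filter fun r => c r ≠ 0) (f := fun r => orb τ r (c r) t)]
  by_cases h0 : c t = 0
  · rw [h0]
    refine sum_eq_zero fun r hr => ?_
    by_cases h4 : ∃ g : Γ, g • r = t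
    · obtain ⟨g, rfl⟩ := h4
      rw [orb_of h τ (hc.supp r (mem_filter.1 hr).2).1, ← hc.eqv, h0]
    · exact orb_not τ h4 _
  · obtain ⟨g, hg⟩ := hF t h0
    have h4 : c (R t) ≠ 0 := by
      intro h5
      apply h0
      rw [← h1 t, hc.eqv, h5, map_zero]
    have h5 : R t ∈ (F.image R).filter fun r => c r ≠ 0 := by
      refine mem_filter.2 ⟨mem_image.2 ⟨g • t, hg, h2 g t⟩, h4⟩
    rw [sum_eq_single (R t)]
    · conv_lhs => rw [← h1 t, h2, h3]
      rw [orb_of h τ (hc.supp _ h4).1, ← hc.eqv, h1]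
    · intro r hr hrt
      refine orb_not τ (fun ⟨g', hg'⟩ => hrt ?_) _
      obtain ⟨t', -, ht'⟩ := mem_image.1 (mem_filter.1 hr).1
      rw [← hg', h2, ← ht', h3]
    · intro h6
      exact absurd h5 h6

/-- the kernel of `phi` -/
theorem phi_ker (h : SCx Γ K B) (τ : Representation (ZMod 2) Γ W) {q : ℕ} (x : (Sx K B q →₀ ZMod 2) ⊗[ZMod 2] W)
    (hx : phi K B τ q (TensorProduct.finsuppScalarLeft (ZMod 2) W (Sx K B q) x) = 0) : x ∈ Kr ((cRep h q).tprod τ) ⊤ := by
  classical
  obtain ⟨R, γ, h1, h2, h3⟩ := exists_rep Γ U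
  have hR : ∀ s : Sx K B q, R s.1 ∈ K ∧ R s.1 ∉ B ∧ (R s.1).card = q := by
    intro s
    have h4 := h.smul_mem (γ s.1)⁻¹ s.2
    have h5 : (γ s.1)⁻¹ • s.1 = R s.1 := by rw [inv_smul_eq_iff, h1]
    rwa [h5] at h4
  set e := TensorProduct.finsuppScalarLeft (ZMod 2) W (Sx K B q) with he
  -- the canonical form
  let N : (Sx K B q →₀ W) →ₗ[ZMod 2] (Sx K B q →₀ W) :=
    Finsupp.lsum (ZMod 2) fun s => (Finsupp.lsingle (⟨R s.1, hR s⟩ : Sx K B q)).comp (τ (γ s.1)⁻¹)
  have hN : ∀ s w, N (Finsupp.single s w) = Finsupp.single (⟨R s.1, hR s⟩ : Sx K B q) (τ (γ s.1)⁻¹ w) := by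
    intro s w
    show Finsupp.lsum (ZMod 2) _ (Finsupp.single s w) = _
    rw [Finsupp.lsum_single]
    rfl
  have hτ : ∀ g w, τ g (τ g⁻¹ w) = w := by
    intro g w
    rw [← Module.End.mul_apply, ← map_mul, mul_inv_cancel, map_one]
    rfl
  have h4 : ∀ y, phi K B τ q (N y) = phi K B τ q y := by
    intro y
    induction y using Finsupp.induction_linear with
    | zero => rw [map_zero]
    | add f g hf hg => rw [map_add, map_add, map_add, hf, hg]
    | single s w =>
      rw [hN, phi_single, phi_single]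
      funext t
      by_cases h5 : ∃ g : Γ, g • s.1 = t
      · obtain ⟨g, rfl⟩ := h5
        have h6 : g • s.1 = (g * γ s.1) • R s.1 := by rw [mul_smul, h1]
        rw [orb_of h τ s.2.1, h6]
        show orb τ (R s.1) _ _ = _
        rw [orb_of h τ (hR s).1, map_mul]
        show τ g (τ (γ s.1) (τ (γ s.1)⁻¹ w)) = _
        rw [hτ]
      · rw [orb_not τ h5]
        refine orb_not τ (fun ⟨g, hg⟩ => h5 ⟨g * (γ s.1)⁻¹, ?_⟩) _
        rw [mul_smul, ← hg, inv_smul_eq_iff.2 (h1 s.1).symm]
  have h5 : ∀ (y : Sx K B q →₀ W) (s : Sx K B q), R s.1 = s.1 → phi K B τ q (N y) s.1 = N y s := by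
    intro y s hs
    induction y using Finsupp.induction_linear with
    | zero => rw [map_zero, map_zero]; rfl
    | add f g hf hg => rw [map_add, map_add, Pi.add_apply, hf, hg, Finsupp.add_apply]
    | single s' w =>
      rw [hN, phi_single, Finsupp.single_apply]
      split_ifs with h6
      · have h7 : R s'.1 = s.1 := congrArg Subtype.val h6
        show orb τ (R s'.1) _ s.1 = _
        have h8 := orb_of h τ (s := R s'.1) (hR s').1 1 (τ (γ s'.1)⁻¹ w)
        rw [one_smul, map_one] at h8
        rw [← h7]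
        exact h8
      · refine orb_not τ (fun ⟨g, hg⟩ => h6 (Subtype.ext ?_)) _
        show R s'.1 = s.1
        rw [← hs, ← hg, h2]
        exact (h3 _).symm
  have h6 : ∀ (y : Sx K B q →₀ W) (s : Sx K B q), R s.1 ≠ s.1 → N y s = 0 := by
    intro y s hs
    induction y using Finsupp.induction_linear with
    | zero => rw [map_zero]; rfl
    | add f g hf hg => rw [map_add, Finsupp.add_apply, hf, hg, add_zero]
    | single s' w =>
      rw [hN, Finsupp.single_apply, if_neg]
      intro h7
      have h8 : R s'.1 = s.1 := congrArg Subtype.val h7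
      exact hs (by rw [← h8, h3])
  have h7 : N (e x) = 0 := by
    ext s
    by_cases hs : R s.1 = s.1
    · rw [← h5 _ s hs, h4, hx]
      rfl
    · exact h6 _ s hs
  -- the difference is in the kernel of the coinvariants
  have h8 : ∀ y, e.symm y - e.symm (N y) ∈ Kr ((cRep h q).tprod τ) ⊤ := by
    intro y
    induction y using Finsupp.induction_linear with
    | zero =>
      have h9 : e.symm (0 : Sx K B q →₀ W) - e.symm (N 0) = 0 := by
        rw [map_zero N]
        exact sub_self _
      rw [h9]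
      exact Submodule.zero_mem _
    | add f g hf hg =>
      rw [map_add, map_add, map_add]
      have := Submodule.add_mem _ hf hg
      convert this using 1
      abel
    | single s w =>
      rw [hN, he, TensorProduct.finsuppScalarLeft_symm_apply_single, TensorProduct.finsuppScalarLeft_symm_apply_single]
      have h9 := sub_mem_Kr ((cRep h q).tprod τ) (J := ⊤) (Subgroup.mem_top (γ s.1))
        ((Finsupp.single (⟨R s.1, hR s⟩ : Sx K B q) (1 : ZMod 2)) ⊗ₜ[ZMod 2] (τ (γ s.1)⁻¹ w))
      rw [Representation.tprod_apply, TensorProduct.map_tmul, cRep_single, hτ] at h9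
      have h10 : smx h q (γ s.1) ⟨R s.1, hR s⟩ = s := Subtype.ext (h1 s.1)
      rw [h10] at h9
      exact h9
  have h9 := h8 (e x)
  have h10 : e.symm (N (e x)) = 0 := by rw [h7, map_zero]
  have h11 : e.symm (e x) - e.symm (N (e x)) = x := by
    rw [h10, LinearEquiv.symm_apply_apply]
    exact sub_zero x
  rwa [h11] at h9

end Pool.Agent.S11
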