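import Pool.Agent.S11.Fin

/-!
# Project S11: geometric actions on simplicial complexes, finite fibres and local finiteness
-/

set_option autoImplicit false
set_option linter.unusedSectionVars false

open Finset Pointwise

namespace Pool.Agent.S11

section

variable {V G : Type} [DecidableEq V] [Group G] [MulAction G V] {X : Set (Finset V)}

/-- the elements which map a simplex to a given simplex -/
theorem IsGeomS.fin_fib (hG : IsGeomS G X) {s : Finset V} (hs : s ∈ X) (t : Finset V) :
    {g : G | g • s = t}.Finite := by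
  by_cases h : ∃ g0 : G, g0 • s = t
  · obtain ⟨g0, h0⟩ := h
    refine ((hG.proper s hs).image fun g => g0 * g).subset ?_
    intro g hg
    refine ⟨g0⁻¹ * g, ?_, mul_inv_cancel_left g0 g⟩
    change (g0⁻¹ * g) • s = s
    rw [mul_smul, show g • s = t from hg, ← h0, inv_smul_smul]
  · refine Set.finite_empty.subset ?_
    intro g hg
    exact h ⟨g, hg⟩

/-- **Local finiteness.** -/
theorem IsGeomS.locfin (hG : IsGeomS G X) {s : Finset V} (hs : s ∈ X) : {t | t ∈ X ∧ s ⊆ t}.Finite := by
  obtain ⟨F, hF⟩ := hG.cocompact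
  have h1 : (⋃ f ∈ F, ⋃ u ∈ f.powerset, {g : G | g • s = u}).Finite :=
    F.finite_toSet.biUnion fun f _ => f.powerset.finite_toSet.biUnion fun u _ => hG.fin_fib hs u
  refine ((h1.prod F.finite_toSet).image fun p : G × Finset V => p.1⁻¹ • p.2).subset ?_
  rintro t ⟨ht, hst⟩
  obtain ⟨g, hg⟩ := hF t ht
  refine ⟨(g, g • t), ⟨?_, hg⟩, inv_smul_smul g t⟩
  simp only [Set.mem_iUnion]
  exact ⟨g • t, hg, g • s, mem_powerset.2 (smul_finset_subset_smul_finset hst), rfl⟩

/-- a group with a geometric action on a countable complex is countable -/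
theorem IsGeomS.countable (hG : IsGeomS G X) {s : Finset V} (hs : s ∈ X) (hX : X.Countable) : Countable G := by
  rw [← Set.countable_univ_iff]
  refine (hX.biUnion (t := fun t _ => {g : G | g • s = t}) fun t _ => (hG.fin_fib hs t).countable).mono ?_
  intro g _
  simp only [Set.mem_iUnion]
  exact ⟨g • s, hG.mem g s hs, rfl⟩

end

end Pool.Agent.S11
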