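import Pool.Agent.S11.Cnt0

/-!
# Project S11: acyclic complexes with a proper cocompact action are countable

`nonempty_X`; `countable_X`: the complex is connected and locally finite, therefore countable.
-/

set_option autoImplicit false
set_option linter.unusedSectionVars false

open Finset Pointwise

namespace Pool.Agent.S11

open Pool.Agent.H37.TM

variable {V G : Type} [DecidableEq V] [Group G] [MulAction G V] {X : Set (Finset V)}

/-- a locally finite relation has countable components -/
theorem countable_comp {A : Type} (r : A → A → Prop) (hr : ∀ a, {b | r a b}.Finite) (a : A) :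
    {b | Relation.ReflTransGen r a b}.Countable := by
  -- the balls
  let B : ℕ → Set A := fun n => Nat.rec {a} (fun _ S => ⋃ x ∈ S, {b | r x b}) n
  have hB : ∀ n, (B n).Countable := by
    intro n
    induction n with
    | zero => exact Set.countable_singleton a
    | succ n ih => exact ih.biUnion fun x _ => (hr x).countable
  refine (Set.countable_iUnion hB).mono ?_
  intro b hb
  have hb' : Relation.ReflTransGen r a b := hb
  induction hb' with
  | refl => exact Set.mem_iUnion.2 ⟨0, rfl⟩
  | tail h1 h2 ih =>
    obtain ⟨n, hn⟩ := Set.mem_iUnion.1 (ih h1)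
    refine Set.mem_iUnion.2 ⟨n + 1, ?_⟩
    exact Set.mem_biUnion hn h2

theorem conn_X (hac : Acyc X) {u v : V} (hu : {u} ∈ X) (hv : {v} ∈ X) :
    Relation.ReflTransGen (fun a b : V => ({a, b} : Finset V) ∈ X) u v := by
  classical
  by_contra hcon
  let C : Set V := {b | Relation.ReflTransGen (fun a b : V => ({a, b} : Finset V) ∈ X) u b}
  let c : Finset V → ZMod 2 := fun s => if ∃ w ∈ C, s = {w} then 1 else 0
  have hc1 : ∀ w, c {w} = if w ∈ C then 1 else 0 := by
    intro w
    by_cases hw : w ∈ C
    · rw [if_pos hw]; exact if_pos ⟨w, hw, rfl⟩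
    · rw [if_neg hw]
      refine if_neg ?_
      rintro ⟨w', hw', e⟩
      rw [Finset.singleton_inj] at e
      exact hw (e ▸ hw')
  have hc0 : ∀ s : Finset V, s.card ≠ 1 → c s = 0 := by
    intro s hs
    refine if_neg ?_
    rintro ⟨w, _, rfl⟩
    exact hs (Finset.card_singleton w)
  have hCadj : ∀ a b : V, ({a, b} : Finset V) ∈ X → (a ∈ C ↔ b ∈ C) := by
    intro a b hab
    constructor
    · intro ha
      exact Relation.ReflTransGen.tail ha hab
    · intro hb
      refine Relation.ReflTransGen.tail hb ?_
      show ({b, a} : Finset V) ∈ X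
      rwa [Finset.pair_comm]
  let φ : (Finset V →₀ ZMod 2) →ₗ[ZMod 2] ZMod 2 := Finsupp.linearCombination (ZMod 2) c
  have hφ : ∀ s : Finset V, φ (Finsupp.single s 1) = c s := by
    intro s
    show Finsupp.linearCombination (ZMod 2) c (Finsupp.single s 1) = c s
    rw [Finsupp.linearCombination_single, one_smul]
  have hbd : ∀ s : Finset V, bdS (Finsupp.single s 1) = ∑ w ∈ s, Finsupp.single (s.erase w) (1 : ZMod 2) := by
    intro s
    rw [bdS, Finsupp.linearCombination_single, one_smul]
  -- the boundaries
  have h1 : ∀ s ∈ X, φ (bdS (Finsupp.single s 1)) = 0 := by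
    intro s hs
    rw [hbd, map_sum]
    simp only [hφ]
    by_cases h2 : s.card = 2
    · obtain ⟨a, b, hab, rfl⟩ := Finset.card_eq_two.1 h2
      have e1 : ({a, b} : Finset V).erase a = {b} := by
        rw [Finset.erase_insert]
        rw [Finset.mem_singleton]; exact hab
      have e2 : ({a, b} : Finset V).erase b = {a} := by
        rw [Finset.pair_comm, Finset.erase_insert]
        rw [Finset.mem_singleton]; exact hab.symm
      rw [Finset.sum_pair hab, e1, e2, hc1, hc1]
      have := hCadj a b hs
      by_cases ha : a ∈ C
      · rw [if_pos ha, if_pos (this.1 ha)]; rfl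
      · rw [if_neg ha, if_neg (fun h => ha (this.2 h))]; rfl
    · refine Finset.sum_eq_zero fun w hw => hc0 _ ?_
      rw [Finset.card_erase_of_mem hw]
      have : 0 < s.card := Finset.card_pos.2 ⟨w, hw⟩
      omega
  have h2 : ∀ g : Finset V →₀ ZMod 2, (∀ s, g s ≠ 0 → s ∈ X) → φ (bdS g) = 0 := by
    intro g hg
    have e : g = ∑ s ∈ g.support, g s • Finsupp.single s (1 : ZMod 2) := by
      conv_lhs => rw [← Finsupp.sum_single g]
      rw [Finsupp.sum]
      refine Finset.sum_congr rfl fun s _ => ?_
      rw [Finsupp.smul_single, smul_eq_mul, mul_one]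
    rw [e, map_sum, map_sum]
    refine Finset.sum_eq_zero fun s hs => ?_
    rw [map_smul, map_smul, h1 s (hg s (Finsupp.mem_support_iff.1 hs)), smul_zero]
  -- the chain `u + v`
  obtain ⟨g, hg1, hg2⟩ := hac (Finsupp.single {u} 1 + Finsupp.single {v} 1) (by
    intro s hs
    left
    rw [Finsupp.add_apply, Finsupp.single_apply, Finsupp.single_apply] at hs
    by_cases e1 : ({u} : Finset V) = s
    · rw [← e1]; exact hu
    · by_cases e2 : ({v} : Finset V) = s
      · rw [← e2]; exact hv
      · rw [if_neg e1, if_neg e2, add_zero] at hs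
        exact absurd rfl hs) (by
    rw [map_add, hbd, hbd, Finset.sum_singleton, Finset.sum_singleton, Finset.erase_singleton,
      Finset.erase_singleton, ← Finsupp.single_add]
    have : (1 : ZMod 2) + 1 = 0 := rfl
    rw [this, Finsupp.single_zero])
  have h3 := h2 g hg1
  rw [hg2, map_add, hφ, hφ, hc1, hc1, if_pos (show u ∈ C from Relation.ReflTransGen.refl), if_neg (show v ∉ C from hcon)] at h3
  exact absurd h3 (by decide)

/-- acyclic complexes are nonempty -/
theorem nonempty_X (hac : Acyc X) : ∃ s, s ∈ X := by
  classical
  by_contra hcon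
  push Not at hcon
  obtain ⟨g, hg1, hg2⟩ := hac (Finsupp.single ∅ 1) (by
    intro s hs
    right
    rw [Finsupp.single_apply] at hs
    by_contra hne
    rw [if_neg (fun h => hne h.symm)] at hs
    exact hs rfl) (by
    rw [bdS, Finsupp.linearCombination_single, Finset.sum_empty, smul_zero])
  have hg0 : g = 0 := by
    ext s
    by_contra h
    exact hcon s (hg1 s h)
  rw [hg0, map_zero] at hg2
  have := DFunLike.congr_fun hg2 ∅
  rw [Finsupp.single_eq_same, Finsupp.zero_apply] at this
  exact absurd this (by decide)

/-- acyclic complexes with a proper cocompact action are countable -/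
theorem countable_X (hG : IsGeomS G X) (hac : Acyc X) : X.Countable := by
  classical
  rcases Set.eq_empty_or_nonempty X with h | ⟨s0, hs0⟩
  · rw [h]; exact Set.countable_empty
  · obtain ⟨u, hu⟩ := hG.ne s0 hs0
    have hu' : {u} ∈ X := hG.down s0 hs0 _ (Finset.singleton_subset_iff.2 hu) (Finset.singleton_nonempty u)
    have hloc : ∀ a : V, {b | ({a, b} : Finset V) ∈ X}.Finite := by
      intro a
      by_cases ha : {a} ∈ X
      · refine ((hG.locfin ha).biUnion fun t _ => t.finite_toSet).subset ?_
        intro b hb
        refine Set.mem_biUnion (x := ({a, b} : Finset V)) ⟨hb, ?_⟩ ?_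
        · exact Finset.singleton_subset_iff.2 (Finset.mem_insert_self a {b})
        · exact Finset.mem_coe.2 (Finset.mem_insert_of_mem (Finset.mem_singleton_self b))
      · have : {b | ({a, b} : Finset V) ∈ X} = ∅ := by
          ext b
          refine iff_of_false (fun hb => ha ?_) (Set.notMem_empty b)
          exact hG.down _ hb _ (Finset.singleton_subset_iff.2 (Finset.mem_insert_self a {b})) (Finset.singleton_nonempty a)
        rw [this]; exact Set.finite_empty
    have hC := countable_comp (fun a b : V => ({a, b} : Finset V) ∈ X) hloc u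
    have hC2 := Set.countable_ofPred_finite_subset hC
    refine (hC2.preimage_of_injOn (f := fun s : Finset V => (s : Set V)) Finset.coe_injective.injOn).mono ?_
    intro s hs
    refine ⟨s.finite_toSet, fun v hv => ?_⟩
    exact conn_X hac hu' (hG.down s hs _ (Finset.singleton_subset_iff.2 hv) (Finset.singleton_nonempty v))

end Pool.Agent.S11
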