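import Pool.Agent.S11.MN

/-!
# Project S11: the Malcev-Neumann series are a division ring

PROOFS.  By transport from `H58/MN/Div.lean`.
-/

set_option autoImplicit false
set_option linter.unusedSectionVars false

open Pointwise

namespace Pool.Agent.S11

section

variable {G : Type} [Group G] [BO G]

namespace MN

open Pool.Agent.H58.MN (Ser)

private theorem eq_one_of_ne_zero {k : ZMod 2} (h : k ≠ 0) : k = 1 := by
  revert h
  revert k
  decide

/-- the least element of the support -/
theorem exists_min {f : MN G} (hf : f ≠ 0) : ∃ x₀, f.c x₀ = 1 ∧ ∀ x, f.c x ≠ 0 → x₀ ≤ x := by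
  have h : f.toSer ≠ 0 := fun h => hf (toSer_injective (by rw [h, toSer_zero]))
  exact ⟨f.toSer.lead h, eq_one_of_ne_zero (f.toSer.lead_mem h), fun x hx => f.toSer.lead_le h hx⟩

/-- right inverses, with a bound for the support -/
theorem exists_right (f : MN G) (x₀ : G) (h0 : f.c x₀ = 1) (h1 : ∀ x, f.c x ≠ 0 → x₀ ≤ x) :
    ∃ r : MN G, f * r = 1 ∧ ∀ x, r.c x ≠ 0 →
      x * x₀ ∈ Submonoid.closure {y | y ≠ 1 ∧ f.c (x₀ * y) ≠ 0} := by
  have h : f.toSer ≠ 0 := by
    intro h
    have h2 : f.toSer x₀ = 0 := by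
      rw [h]
      rfl
    rw [toSer_apply, h0] at h2
    exact one_ne_zero h2
  have h3 : f.toSer.lead h = x₀ := by
    refine le_antisymm (f.toSer.lead_le h ?_) (h1 _ (f.toSer.lead_mem h))
    rw [toSer_apply, h0]
    exact one_ne_zero
  refine ⟨ofSer (Ser.invFun f.toSer h), ?_, ?_⟩
  · apply toSer_injective
    rw [toSer_mul, toSer_ofSer, Ser.mul_invFun, toSer_one]
  · intro x hx
    obtain ⟨y, hy, hyx⟩ := Ser.support_invFun f.toSer h hx
    have h4 : x * x₀ = y := by
      rw [← hyx]
      show y * (f.toSer.lead h)⁻¹ * x₀ = y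
      rw [h3]
      group
    rw [h4]
    refine Submonoid.closure_mono ?_ hy
    intro z hz
    have h5 := Ser.mem_support_tail.1 hz
    rw [h3] at h5
    exact h5

theorem zero_ne_one' : (0 : MN G) ≠ 1 := by
  intro h
  have h1 : (0 : MN G).c 1 = (1 : MN G).c 1 := by rw [h]
  rw [c_zero, c_one_self] at h1
  exact zero_ne_one h1

theorem exists_inv {f : MN G} (hf : f ≠ 0) : ∃ r : MN G, f * r = 1 ∧ r * f = 1 := by
  have h : f.toSer ≠ 0 := fun h => hf (toSer_injective (by rw [h, toSer_zero]))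
  refine ⟨ofSer (Ser.invFun f.toSer h), ?_, ?_⟩
  · apply toSer_injective
    rw [toSer_mul, toSer_ofSer, Ser.mul_invFun, toSer_one]
  · apply toSer_injective
    rw [toSer_mul, toSer_ofSer, Ser.invFun_mul, toSer_one]

open Classical in
noncomputable instance instDiv : DivisionRing (MN G) :=
  { instRing with
    inv := fun f => if hf : f = 0 then 0 else (exists_inv hf).choose
    exists_pair_ne := ⟨0, 1, zero_ne_one'⟩
    mul_inv_cancel := fun f hf => by
      show f * (if hf : f = 0 then 0 else (exists_inv hf).choose) = 1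
      rw [dif_neg hf]
      exact (exists_inv hf).choose_spec.1
    inv_zero := dif_pos rfl
    nnqsmul := _
    nnqsmul_def := fun _ _ => rfl
    qsmul := _
    qsmul_def := fun _ _ => rfl }

/-- the support of the inverse -/
theorem inv_supp {f : MN G} {x₀ : G} (h0 : f.c x₀ = 1) (h1 : ∀ x, f.c x ≠ 0 → x₀ ≤ x) (x : G)
    (hx : (f⁻¹).c x ≠ 0) : x * x₀ ∈ Submonoid.closure {y | y ≠ 1 ∧ f.c (x₀ * y) ≠ 0} := by
  obtain ⟨r, h2, h3⟩ := exists_right f x₀ h0 h1
  have hf : f ≠ 0 := by
    intro h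
    rw [h, c_zero] at h0
    exact zero_ne_one h0
  have h4 : f⁻¹ = r := by
    calc f⁻¹ = f⁻¹ * (f * r) := by rw [h2, mul_one]
      _ = r := by rw [← mul_assoc, inv_mul_cancel₀ hf, one_mul]
  rw [h4] at hx
  exact h3 x hx

end MN

end

end Pool.Agent.S11
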