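import Pool.Agent.S11.CstA
import Pool.Agent.S11.MNInv

/-!
# Project S11: the series with support in a normal subgroup

`DN N` = the division ring of the series with support in `N`; the component `pr N α` of a series is a multiple of an element
of `DN N`, and `pr N α` is linear over `DN N` on both sides.
-/

set_option autoImplicit false
set_option linter.unusedSectionVars false

namespace Pool.Agent.S11

section

variable {H : Type} [Group H] [BO H]

variable (N : Subgroup H) [N.Normal]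

/-- the series with support in `N` -/
noncomputable def DN : Subfield (MN H) where
  carrier := {f | ∀ x, f.c x ≠ 0 → x ∈ N}
  mul_mem' := by
    intro f g hf hg x hx
    obtain ⟨a, ha, b, hb, hab⟩ := MN.supp_mul f g hx
    have h1 := N.mul_mem (hf a ha) (hg b hb)
    exact hab ▸ h1
  one_mem' := by
    intro x hx
    by_cases h : x = 1
    · rw [h]; exact N.one_mem
    · exact absurd (MN.c_one_ne h) hx
  add_mem' := by
    intro f g hf hg x hx
    rcases MN.supp_add f g hx with h | h
    · exact hf x h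
    · exact hg x h
  zero_mem' := fun x hx => absurd (MN.c_zero x) hx
  neg_mem' := by
    intro f hf x hx
    refine hf x fun h => hx ?_
    rw [MN.c_neg, h, neg_zero]
  inv_mem' := by
    intro f hf x hx
    by_cases h0 : f = 0
    · rw [h0, inv_zero] at hx
      exact absurd (MN.c_zero x) hx
    · obtain ⟨x₀, h1, h2⟩ := MN.exists_min h0
      have hx₀ : x₀ ∈ N := hf x₀ (by rw [h1]; exact one_ne_zero)
      have h3 := MN.inv_supp h1 h2 x hx
      have h4 : Submonoid.closure {y | y ≠ 1 ∧ f.c (x₀ * y) ≠ 0} ≤ N.toSubmonoid := by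
        rw [Submonoid.closure_le]
        intro y hy
        exact (N.mul_mem_cancel_left hx₀).1 (hf _ hy.2)
      exact (N.mul_mem_cancel_right hx₀).1 (h4 h3)

theorem mem_DN {f : MN H} : f ∈ DN N ↔ ∀ x, f.c x ≠ 0 → x ∈ N := Iff.rfl

/-- the series with support in one coset -/
theorem pr_eq_g_mul (u : H) (f : MN H) : ∃ d ∈ DN N, pr N (u : H ⧸ N) f = MN.g u * d := by
  refine ⟨MN.g u⁻¹ * pr N (u : H ⧸ N) f, ?_, ?_⟩
  · rw [mem_DN]
    intro x hx
    rw [MN.c_g_mul, inv_inv] at hx
    by_contra hN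
    refine hx (pr_c_ne N _ _ _ fun h => hN ?_)
    rw [QuotientGroup.mk_mul, mul_eq_left, QuotientGroup.eq_one_iff] at h
    exact h
  · rw [← mul_assoc, ← MN.g_mul, mul_inv_cancel, MN.g_one, one_mul]

theorem pr_eq_mul_g (u : H) (f : MN H) : ∃ d ∈ DN N, pr N (u : H ⧸ N) f = d * MN.g u := by
  refine ⟨pr N (u : H ⧸ N) f * MN.g u⁻¹, ?_, ?_⟩
  · rw [mem_DN]
    intro x hx
    rw [MN.c_mul_g, inv_inv] at hx
    by_contra hN
    refine hx (pr_c_ne N _ _ _ fun h => hN ?_)
    rw [QuotientGroup.mk_mul, mul_eq_right, QuotientGroup.eq_one_iff] at h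
    exact h
  · rw [mul_assoc, ← MN.g_mul, inv_mul_cancel, MN.g_one, mul_one]

theorem pr_mul_d (α : H ⧸ N) (f : MN H) {d : MN H} (hd : d ∈ DN N) : pr N α (f * d) = pr N α f * d := by
  refine MN.ext (funext fun x => ?_)
  have key : ∀ a : H, d.c (a⁻¹ * x) ≠ 0 → (a : H ⧸ N) = (x : H ⧸ N) := by
    intro a ha
    rw [QuotientGroup.eq]
    exact hd _ ha
  rw [MN.c_mul]
  by_cases hx : (x : H ⧸ N) = α
  · rw [pr_c N _ _ _ hx, MN.c_mul]
    refine finsum_congr fun a => ?_
    by_cases ha : d.c (a⁻¹ * x) = 0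
    · rw [ha, mul_zero, mul_zero]
    · rw [pr_c N _ _ _ ((key a ha).trans hx)]
  · rw [pr_c_ne N _ _ _ hx]
    symm
    refine finsum_eq_zero_of_forall_eq_zero fun a => ?_
    by_cases ha : d.c (a⁻¹ * x) = 0
    · rw [ha, mul_zero]
    · rw [pr_c_ne N _ _ _ fun h => hx ((key a ha).symm.trans h), zero_mul]

theorem pr_d_mul (α : H ⧸ N) (f : MN H) {d : MN H} (hd : d ∈ DN N) : pr N α (d * f) = d * pr N α f := by
  refine MN.ext (funext fun x => ?_)
  have key : ∀ a : H, d.c a ≠ 0 → ((a⁻¹ * x : H) : H ⧸ N) = (x : H ⧸ N) := by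
    intro a ha
    rw [QuotientGroup.mk_mul, mul_eq_right, QuotientGroup.eq_one_iff]
    exact N.inv_mem (hd _ ha)
  rw [MN.c_mul]
  by_cases hx : (x : H ⧸ N) = α
  · rw [pr_c N _ _ _ hx, MN.c_mul]
    refine finsum_congr fun a => ?_
    by_cases ha : d.c a = 0
    · rw [ha, zero_mul, zero_mul]
    · rw [pr_c N _ _ _ ((key a ha).trans hx)]
  · rw [pr_c_ne N _ _ _ hx]
    symm
    refine finsum_eq_zero_of_forall_eq_zero fun a => ?_
    by_cases ha : d.c a = 0
    · rw [ha, zero_mul]
    · rw [pr_c_ne N _ _ _ fun h => hx ((key a ha).symm.trans h), mul_zero]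

end

end Pool.Agent.S11
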