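import Pool.Agent.S11.Ord
import Pool.Agent.S11.Defs

/-!
# Project S11: finiteness of the components of a product

`fin_cosets`: otherwise `a_k ∈ S` in distinct cosets, strictly increasing (subsequence), `b_k ∈ T` with `a_k b_k ∈ γ`; as `N`
is convex the `b_k` are strictly decreasing: a contradiction.
-/

set_option autoImplicit false
set_option linter.unusedSectionVars false

namespace Pool.Agent.S11

section

variable {H : Type} [Group H] [BO H] (N : Subgroup H) [N.Normal]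

/-- the finiteness -/
theorem fin_cosets (hN : Cvx N) {S T : Set H} (hS : S.IsPWO) (hT : T.IsPWO) (γ : H ⧸ N) :
    {α : H ⧸ N | (∃ a ∈ S, (a : H ⧸ N) = α) ∧ ∃ b ∈ T, (b : H ⧸ N) = α⁻¹ * γ}.Finite := by
  by_contra hinf
  have hinf : {α : H ⧸ N | (∃ a ∈ S, (a : H ⧸ N) = α) ∧ ∃ b ∈ T, (b : H ⧸ N) = α⁻¹ * γ}.Infinite := hinf
  set α : ℕ → H ⧸ N := fun k => (hinf.natEmbedding _ k : H ⧸ N) with hα
  have hinj : Function.Injective α := fun k l h => (hinf.natEmbedding _).injective (Subtype.ext h)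
  have hmem : ∀ k, (∃ a ∈ S, (a : H ⧸ N) = α k) ∧ ∃ b ∈ T, (b : H ⧸ N) = (α k)⁻¹ * γ :=
    fun k => (hinf.natEmbedding _ k).2
  choose a haS haα using fun k => (hmem k).1
  choose b hbT hbα using fun k => (hmem k).2
  obtain ⟨φ, hφ⟩ := hS.exists_monotone_subseq haS
  obtain ⟨ψ, hψ⟩ := hT.exists_monotone_subseq (f := fun k => b (φ k)) (fun k => hbT _)
  -- two elements of the double subsequence
  set k := φ (ψ 0) with hk
  set l := φ (ψ 1) with hl
  have h01 : ψ 0 < ψ 1 := ψ.strictMono zero_lt_one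
  have hkl : k ≠ l := fun h => (φ.strictMono h01).ne h
  have ha : a k ≤ a l := hφ h01.le
  have hb : b k ≤ b l := hψ zero_le_one
  -- `1 ≤ a l * (a k)⁻¹`
  have h1 : 1 ≤ a l * (a k)⁻¹ := by
    rcases ha.lt_or_eq with h | h
    · have h2 := BO.lt_r (a k) (a l) (a k)⁻¹ h
      rw [mul_inv_cancel] at h2
      exact h2.le
    · rw [← h, mul_inv_cancel]
  -- `a l * (a k)⁻¹ ≤ n` with `n ∈ N`
  have h2 : a l * (a k)⁻¹ ≤ a l * b l * (a k * b k)⁻¹ := by
    rcases hb.lt_or_eq with h | h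
    · have h3 := BO.lt_r (b k) (b l) (b k)⁻¹ h
      rw [mul_inv_cancel] at h3
      have h4 := BO.lt_l _ _ (a l) h3
      rw [mul_one] at h4
      have h5 := BO.lt_r _ _ (a k)⁻¹ h4
      have h6 : a l * (b l * (b k)⁻¹) * (a k)⁻¹ = a l * b l * (a k * b k)⁻¹ := by group
      rw [h6] at h5
      exact h5.le
    · rw [← h]
      have h6 : a l * b k * (a k * b k)⁻¹ = a l * (a k)⁻¹ := by group
      rw [h6]
  have h3 : a l * b l * (a k * b k)⁻¹ ∈ N := by
    have e1 : ∀ i, ((a i * b i : H) : H ⧸ N) = γ := by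
      intro i
      rw [QuotientGroup.mk_mul, haα, hbα, mul_inv_cancel_left]
    have e2 : ((a l * b l * (a k * b k)⁻¹ : H) : H ⧸ N) = 1 := by
      rw [QuotientGroup.mk_mul, QuotientGroup.mk_inv, e1, e1, mul_inv_cancel]
    exact (QuotientGroup.eq_one_iff _).mp e2
  have h4 : a l * (a k)⁻¹ ∈ N := hN _ h3 _ h1 h2
  have h5 : ((a l * (a k)⁻¹ : H) : H ⧸ N) = 1 := (QuotientGroup.eq_one_iff _).mpr h4
  rw [QuotientGroup.mk_mul, QuotientGroup.mk_inv, haα, haα, mul_inv_eq_one] at h5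
  exact hkl (hinj h5).symm

end

end Pool.Agent.S11
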