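import Pool.Agent.S11.CstA
import Pool.Agent.S11.CstB
import Pool.Agent.S11.CstC
import Pool.Agent.S11.Flat

/-!
# Project S11: the components of the series with respect to a convex normal subgroup
-/
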