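import Pool.Agent.S11.MN

/-!
# Project S11: the components of the series with respect to a normal subgroup

`ρL, ρR` = the left multiplication and the right multiplication by the inverse; `pr N α` = the part of a series with
support in the coset `α` of `N`.
-/

set_option autoImplicit false
set_option linter.unusedSectionVars false

namespace Pool.Agent.S11

section

variable {H : Type} [Group H] [BO H]

variable (H) in
/-- the left multiplication -/
noncomputable def ρL : Representation (ZMod 2) H (MN H) where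
  toFun g :=
    { toFun := fun f => MN.g g * f
      map_add' := fun a b => mul_add _ a b
      map_smul' := fun k a => MN.mul_smul'' k _ a }
  map_one' := by
    refine LinearMap.ext fun f => ?_
    change MN.g (1 : H) * f = f
    rw [MN.g_one, one_mul]
  map_mul' g h := by
    refine LinearMap.ext fun f => ?_
    change MN.g (g * h) * f = MN.g g * (MN.g h * f)
    rw [MN.g_mul, mul_assoc]

variable (H) in
/-- the right multiplication by the inverse -/
noncomputable def ρR : Representation (ZMod 2) H (MN H) where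
  toFun g :=
    { toFun := fun f => f * MN.g g⁻¹
      map_add' := fun a b => add_mul a b _
      map_smul' := fun k a => MN.smul_mul' k a _ }
  map_one' := by
    refine LinearMap.ext fun f => ?_
    change f * MN.g (1 : H)⁻¹ = f
    rw [inv_one, MN.g_one, mul_one]
  map_mul' g h := by
    refine LinearMap.ext fun f => ?_
    change f * MN.g (g * h)⁻¹ = f * MN.g h⁻¹ * MN.g g⁻¹
    rw [mul_inv_rev, MN.g_mul, mul_assoc]

theorem ρL_apply (g : H) (f : MN H) : ρL H g f = MN.g g * f := rfl
theorem ρR_apply (g : H) (f : MN H) : ρR H g f = f * MN.g g⁻¹ := rfl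

variable (N : Subgroup H) [N.Normal]

open Classical in
/-- the part of a series with support in a coset -/
noncomputable def pr (α : H ⧸ N) : MN H →ₗ[ZMod 2] MN H where
  toFun f := ⟨fun x => if (x : H ⧸ N) = α then f.c x else 0, f.pwo.mono fun x hx => by
    rw [Function.mem_support] at hx ⊢
    intro h
    apply hx
    rw [h, ite_self]⟩
  map_add' f g := by
    refine MN.ext (funext fun x => ?_)
    change (if (x : H ⧸ N) = α then (f + g).c x else 0) =
      (if (x : H ⧸ N) = α then f.c x else 0) + (if (x : H ⧸ N) = α then g.c x else 0)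
    rw [MN.c_add]
    split_ifs
    · rfl
    · rw [add_zero]
  map_smul' k f := by
    refine MN.ext (funext fun x => ?_)
    change (if (x : H ⧸ N) = α then (k • f).c x else 0) =
      k * (if (x : H ⧸ N) = α then f.c x else 0)
    rw [MN.c_smul]
    split_ifs
    · rfl
    · rw [mul_zero]

theorem pr_c (α : H ⧸ N) (f : MN H) (x : H) (hx : (x : H ⧸ N) = α) : (pr N α f).c x = f.c x := by
  classical
  exact if_pos hx

theorem pr_c_ne (α : H ⧸ N) (f : MN H) (x : H) (hx : (x : H ⧸ N) ≠ α) : (pr N α f).c x = 0 := by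
  classical
  exact if_neg hx

theorem pr_g_mul (α : H ⧸ N) (h : H) (f : MN H) :
    MN.g h * pr N α f = pr N ((h : H ⧸ N) * α) (MN.g h * f) := by
  refine MN.ext (funext fun x => ?_)
  rw [MN.c_g_mul]
  have e : ((h⁻¹ * x : H) : H ⧸ N) = α ↔ (x : H ⧸ N) = (h : H ⧸ N) * α := by
    rw [QuotientGroup.mk_mul, QuotientGroup.mk_inv, inv_mul_eq_iff_eq_mul]
  by_cases hx : (x : H ⧸ N) = (h : H ⧸ N) * α
  · rw [pr_c N _ _ _ (e.2 hx), pr_c N _ _ _ hx, MN.c_g_mul]
  · rw [pr_c_ne N _ _ _ (mt e.1 hx), pr_c_ne N _ _ _ hx]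

theorem pr_mul_g (α : H ⧸ N) (h : H) (f : MN H) :
    pr N α f * MN.g h⁻¹ = pr N (α * (h : H ⧸ N)⁻¹) (f * MN.g h⁻¹) := by
  refine MN.ext (funext fun x => ?_)
  rw [MN.c_mul_g, inv_inv]
  have e : ((x * h : H) : H ⧸ N) = α ↔ (x : H ⧸ N) = α * (h : H ⧸ N)⁻¹ := by
    rw [QuotientGroup.mk_mul, eq_mul_inv_iff_mul_eq]
  by_cases hx : (x : H ⧸ N) = α * (h : H ⧸ N)⁻¹
  · rw [pr_c N _ _ _ (e.2 hx), pr_c N _ _ _ hx, MN.c_mul_g, inv_inv]
  · rw [pr_c_ne N _ _ _ (mt e.1 hx), pr_c_ne N _ _ _ hx]

open Classical in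
theorem pr_pr (α β : H ⧸ N) (f : MN H) : pr N α (pr N β f) = if α = β then pr N α f else 0 := by
  refine MN.ext (funext fun x => ?_)
  by_cases hx : (x : H ⧸ N) = α
  · rw [pr_c N _ _ _ hx]
    by_cases h : α = β
    · rw [if_pos h, pr_c N _ _ _ hx, pr_c N _ _ _ (hx.trans h)]
    · rw [if_neg h, pr_c_ne N _ _ _ fun h' => h (hx.symm.trans h')]
      rfl
  · rw [pr_c_ne N _ _ _ hx]
    split_ifs
    · rw [pr_c_ne N _ _ _ hx]
    · rfl

theorem eq_zero_of_pr {f : MN H} (h : ∀ α, pr N α f = 0) : f = 0 := by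
  refine MN.ext (funext fun x => ?_)
  have h1 := congrArg (fun f : MN H => f.c x) (h (x : H ⧸ N))
  rw [pr_c N _ _ _ rfl] at h1
  exact h1

end

end Pool.Agent.S11
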