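import Pool.Agent.S11.Defs

/-!
# Project S11, class (U): the order of a group with a well-ordered family of homomorphisms to ordered groups

`famBO ψ hψ` = the order by the first coordinate which is not trivial.
-/

set_option autoImplicit false
set_option linter.unusedSectionVars false

namespace Pool.Agent.S11.Cu

section

variable {ι : Type} [LinearOrder ι] [WellFoundedLT ι] {G : Type} [Group G] {Q : ι → Type}
  [∀ p, Group (Q p)] [∀ p, BO (Q p)] (ψ : ∀ p, G →* Q p) (hψ : ∀ x, (∀ p, ψ p x = 1) → x = 1)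

include hψ in
omit [LinearOrder ι] [WellFoundedLT ι] [∀ p, BO (Q p)] in
theorem fam_ext {x y : G} (h : ∀ p, ψ p x = ψ p y) : x = y := by
  have : x * y⁻¹ = 1 := hψ _ fun p => by rw [map_mul, map_inv, h p, mul_inv_cancel]
  exact mul_inv_eq_one.1 this

include hψ in
omit [WellFoundedLT ι] in
theorem fam_injective : Function.Injective (fun x : G => (toLex (fun p => ψ p x) : Lex (∀ p, Q p))) := by
  intro x y h
  exact fam_ext ψ hψ fun p => congrFun (toLex.injective h) p

/-- the order -/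
noncomputable abbrev famLin : LinearOrder G :=
  LinearOrder.lift' (fun x : G => (toLex (fun p => ψ p x) : Lex (∀ p, Q p))) (fam_injective ψ hψ)

theorem fam_lt_iff {x y : G} :
    (famLin ψ hψ).lt x y ↔ ∃ p, (∀ p' < p, ψ p' x = ψ p' y) ∧ ψ p x < ψ p y := Iff.rfl

/-- **The order by the first coordinate.** -/
@[reducible] noncomputable def famBO : BO G :=
  { famLin ψ hψ with
    lt_l := fun x y g h => by
      obtain ⟨p, h1, h2⟩ := (fam_lt_iff ψ hψ).1 h
      refine (fam_lt_iff ψ hψ).2 ⟨p, fun p' hp' => ?_, ?_⟩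
      · rw [map_mul, map_mul, h1 p' hp']
      · rw [map_mul, map_mul]
        exact BO.lt_l _ _ _ h2
    lt_r := fun x y g h => by
      obtain ⟨p, h1, h2⟩ := (fam_lt_iff ψ hψ).1 h
      refine (fam_lt_iff ψ hψ).2 ⟨p, fun p' hp' => ?_, ?_⟩
      · rw [map_mul, map_mul, h1 p' hp']
      · rw [map_mul, map_mul]
        exact BO.lt_r _ _ _ h2 }

theorem famBO_one_lt {x : G} :
    (famBO ψ hψ).toLinearOrder.lt 1 x ↔ ∃ p, (∀ p' < p, ψ p' x = 1) ∧ 1 < ψ p x := by
  constructor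
  · intro h
    obtain ⟨p, h1, h2⟩ := (fam_lt_iff ψ hψ).1 h
    refine ⟨p, fun p' hp' => ?_, ?_⟩
    · rw [← h1 p' hp', map_one]
    · rw [map_one] at h2
      exact h2
  · rintro ⟨p, h1, h2⟩
    refine (fam_lt_iff ψ hψ).2 ⟨p, fun p' hp' => ?_, ?_⟩
    · rw [h1 p' hp', map_one]
    · rw [map_one]
      exact h2

theorem famBO_lt_one {x : G} :
    (famBO ψ hψ).toLinearOrder.lt x 1 ↔ ∃ p, (∀ p' < p, ψ p' x = 1) ∧ ψ p x < 1 := by
  constructor
  · intro h
    obtain ⟨p, h1, h2⟩ := (fam_lt_iff ψ hψ).1 h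
    refine ⟨p, fun p' hp' => ?_, ?_⟩
    · rw [h1 p' hp', map_one]
    · rw [map_one] at h2
      exact h2
  · rintro ⟨p, h1, h2⟩
    refine (fam_lt_iff ψ hψ).2 ⟨p, fun p' hp' => ?_, ?_⟩
    · rw [h1 p' hp', map_one]
    · rw [map_one]
      exact h2

theorem famBO_lt {x y : G} :
    (famBO ψ hψ).toLinearOrder.lt x y ↔ ∃ p, (∀ p' < p, ψ p' x = ψ p' y) ∧ ψ p x < ψ p y := Iff.rfl

end

end Pool.Agent.S11.Cu
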