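import Pool.Agent.S11.Defs

/-!
# Project S11, class (U): the groups of unitriangular matrices

`UT R n` = the unitriangular `n × n` matrices over `R`; coordinates `J n` = pairs `i < k` with the weight `k - i`; the
order of `UT ℤ n` by the first coordinate which is not zero.
-/

set_option autoImplicit false
set_option linter.unusedSectionVars false

open Finset

namespace Pool.Agent.S11.Cu

section

variable {R : Type} [CommRing R] {n : ℕ}

/-- unitriangular matrices -/
def IsUT (M : Matrix (Fin n) (Fin n) R) : Prop := (∀ i, M i i = 1) ∧ ∀ i k, k < i → M i k = 0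

theorem isUT_one : IsUT (1 : Matrix (Fin n) (Fin n) R) :=
  ⟨fun i => Matrix.one_apply_eq i, fun _ _ h => Matrix.one_apply_ne h.ne'⟩

theorem isUT_mul {M M' : Matrix (Fin n) (Fin n) R} (h : IsUT M) (h' : IsUT M') : IsUT (M * M') := by
  constructor
  · intro i
    rw [Matrix.mul_apply, Finset.sum_eq_single i, h.1, h'.1, mul_one]
    · intro l _ hl
      rcases lt_or_gt_of_ne hl with hl | hl
      · rw [h.2 i l hl, zero_mul]
      · rw [h'.2 l i hl, mul_zero]
    · intro hi
      exact absurd (Finset.mem_univ i) hi
  · intro i k hk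
    rw [Matrix.mul_apply]
    refine Finset.sum_eq_zero fun l _ => ?_
    rcases lt_or_ge l i with hl | hl
    · rw [h.2 i l hl, zero_mul]
    · rw [h'.2 l k (hk.trans_le hl), mul_zero]

theorem isUT_det {M : Matrix (Fin n) (Fin n) R} (h : IsUT M) : M.det = 1 := by
  rw [Matrix.det_of_isUpperTriangular]
  · exact Finset.prod_eq_one fun i _ => h.1 i
  · intro i k hk
    exact h.2 i k hk

theorem isUT_isUnit {M : Matrix (Fin n) (Fin n) R} (h : IsUT M) : IsUnit M := by
  rw [Matrix.isUnit_iff_isUnit_det, isUT_det h]
  exact isUnit_one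

theorem isUT_inv {M M' : Matrix (Fin n) (Fin n) R} (h : IsUT M) (hM : M * M' = 1) : IsUT M' := by
  have hM' : M⁻¹ = M' := Matrix.inv_eq_right_inv hM
  have htri : ∀ i k, k < i → M' i k = 0 := by
    intro i k hk
    have : Invertible M := (isUT_isUnit h).invertible
    have h1 : M.BlockTriangular id := fun a b hab => h.2 a b hab
    have h2 := Matrix.blockTriangular_inv_of_blockTriangular h1
    rw [hM'] at h2
    exact h2 hk
  refine ⟨fun i => ?_, htri⟩
  have h3 : (M * M') i i = 1 := by rw [hM, Matrix.one_apply_eq]
  rw [Matrix.mul_apply, Finset.sum_eq_single i, h.1, one_mul] at h3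
  · exact h3
  · intro l _ hl
    rcases lt_or_gt_of_ne hl with hl | hl
    · rw [h.2 i l hl, zero_mul]
    · rw [htri l i hl, mul_zero]
  · intro hi
    exact absurd (Finset.mem_univ i) hi

variable (R n) in
/-- the group of unitriangular matrices -/
def UT : Subgroup (Matrix (Fin n) (Fin n) R)ˣ where
  carrier := {u | IsUT (u : Matrix (Fin n) (Fin n) R)}
  one_mem' := isUT_one
  mul_mem' := fun h h' => isUT_mul h h'
  inv_mem' := fun {u} h => isUT_inv h (Units.mul_inv u)

/-- the entries -/
def ent (u : UT R n) (i k : Fin n) : R := ((u : (Matrix (Fin n) (Fin n) R)ˣ) : Matrix (Fin n) (Fin n) R) i k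

theorem ent_self (u : UT R n) (i : Fin n) : ent u i i = 1 := u.2.1 i

theorem ent_low (u : UT R n) {i k : Fin n} (h : k < i) : ent u i k = 0 := u.2.2 i k h

theorem ent_mul (u v : UT R n) (i k : Fin n) : ent (u * v) i k = ∑ l, ent u i l * ent v l k :=
  Matrix.mul_apply

theorem ent_one_ne {i k : Fin n} (h : i ≠ k) : ent (1 : UT R n) i k = 0 := Matrix.one_apply_ne h

theorem ent_ext {u v : UT R n} (h : ∀ i k, i < k → ent u i k = ent v i k) : u = v := by
  apply Subtype.ext
  apply Units.ext
  ext i k
  change ent u i k = ent v i k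
  rcases lt_trichotomy i k with hik | rfl | hik
  · exact h i k hik
  · rw [ent_self, ent_self]
  · rw [ent_low u hik, ent_low v hik]

/-- the element with a given matrix -/
noncomputable def mkUT (M : Matrix (Fin n) (Fin n) R) (h : IsUT M) : UT R n :=
  ⟨(isUT_isUnit h).unit, h⟩

theorem ent_mkUT (M : Matrix (Fin n) (Fin n) R) (h : IsUT M) (i k : Fin n) : ent (mkUT M h) i k = M i k := rfl

/-- homomorphisms to matrices with unitriangular values -/
noncomputable def toUT {H : Type} [Group H] (φ : H →* Matrix (Fin n) (Fin n) R) (h : ∀ x, IsUT (φ x)) :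
    H →* UT R n where
  toFun x := mkUT (φ x) (h x)
  map_one' := ent_ext fun i k _ => by rw [ent_mkUT, map_one]; rfl
  map_mul' x y := ent_ext fun i k _ => by rw [ent_mkUT, map_mul, ent_mul]; rfl

theorem toUT_eq_one {H : Type} [Group H] (φ : H →* Matrix (Fin n) (Fin n) R) (h : ∀ x, IsUT (φ x)) (x : H) :
    toUT φ h x = 1 ↔ φ x = 1 := by
  constructor
  · intro h1
    ext i k
    have h2 : ent (toUT φ h x) i k = ent 1 i k := by rw [h1]
    exact h2
  · intro h1
    refine ent_ext fun i k _ => ?_
    change φ x i k = _
    rw [h1]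
    rfl

/-! ## Coordinates -/

variable (n) in
/-- the coordinates -/
def J : Type := {p : Fin n × Fin n // p.1 < p.2}

instance : Fintype (J n) := inferInstanceAs (Fintype {p : Fin n × Fin n // p.1 < p.2})
instance : DecidableEq (J n) := inferInstanceAs (DecidableEq {p : Fin n × Fin n // p.1 < p.2})

/-- a coordinate -/
def J.mk {i k : Fin n} (h : i < k) : J n := ⟨(i, k), h⟩

/-- the weight -/
def J.w (m : J n) : ℕ := (m.1.2 : ℕ) - m.1.1

theorem J.w_pos (m : J n) : 0 < m.w := by
  have h : (m.1.1 : ℕ) < m.1.2 := m.2
  unfold J.w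
  omega

theorem J.w_lt (m : J n) : m.w < n := by
  have h : (m.1.2 : ℕ) < n := m.1.2.2
  unfold J.w
  omega

/-- the value of a coordinate -/
def co (u : UT R n) (m : J n) : R := ent u m.1.1 m.1.2

theorem co_ext {u v : UT R n} (h : ∀ m, co u m = co v m) : u = v :=
  ent_ext fun _ _ hik => h (J.mk hik)

theorem co_one (m : J n) : co (1 : UT R n) m = 0 := ent_one_ne m.2.ne

/-- the matrix with given coordinates -/
def matOf (a : J n → R) : Matrix (Fin n) (Fin n) R :=
  fun i k => if h : i < k then a (J.mk h) else if i = k then 1 else 0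

theorem isUT_matOf (a : J n → R) : IsUT (matOf a) := by
  constructor
  · intro i
    unfold matOf
    rw [dif_neg (lt_irrefl i), if_pos rfl]
  · intro i k h
    unfold matOf
    rw [dif_neg (not_lt.2 h.le), if_neg h.ne']

/-- the element with given coordinates -/
noncomputable def ofCo (a : J n → R) : UT R n := mkUT (matOf a) (isUT_matOf a)

theorem co_ofCo (a : J n → R) (m : J n) : co (ofCo a) m = a m := by
  change matOf a m.1.1 m.1.2 = a m
  unfold matOf
  rw [dif_pos m.2]
  rfl

variable (R n) in
/-- the coordinates determine the element -/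
noncomputable def coEquiv : UT R n ≃ (J n → R) where
  toFun := co
  invFun := ofCo
  left_inv _ := co_ext fun m => co_ofCo _ m
  right_inv a := funext fun m => co_ofCo a m

/-- the key of the order of the coordinates -/
def J.key (m : J n) : ℕ ×ₗ ℕ := toLex (m.w, (m.1.1 : ℕ))

theorem J.key_injective : Function.Injective (J.key : J n → ℕ ×ₗ ℕ) := by
  intro m m' h
  have h1 := toLex.injective h
  have h2 : m.w = m'.w := congrArg Prod.fst h1
  have h3 : (m.1.1 : ℕ) = m'.1.1 := congrArg Prod.snd h1
  have h4 : (m.1.1 : ℕ) < m.1.2 := m.2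
  have h5 : (m'.1.1 : ℕ) < m'.1.2 := m'.2
  unfold J.w at h2
  apply Subtype.ext
  apply Prod.ext
  · exact Fin.ext h3
  · apply Fin.ext
    omega

instance : LinearOrder (J n) := LinearOrder.lift' J.key J.key_injective

theorem J.lt_of_w {m m' : J n} (h : m.w < m'.w) : m < m' := by
  change J.key m < J.key m'
  unfold J.key
  rw [Prod.Lex.toLex_lt_toLex]
  exact Or.inl h

/-- the left multiplication changes the first difference only by smaller coordinates -/
theorem co_mul_left (g x y : UT R n) (m : J n) (h : ∀ m', m'.w < m.w → co x m' = co y m') :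
    co (g * x) m - co (g * y) m = co x m - co y m := by
  obtain ⟨⟨i, k⟩, hik⟩ := m
  change ent (g * x) i k - ent (g * y) i k = ent x i k - ent y i k
  change i < k at hik
  rw [ent_mul, ent_mul, ← Finset.sum_sub_distrib, Finset.sum_eq_single i, ent_self]
  · ring
  · intro l _ hl
    rcases lt_or_gt_of_ne hl with hl | hl
    · rw [ent_low g hl, zero_mul, zero_mul, sub_zero]
    · have : ent x l k = ent y l k := by
        rcases lt_trichotomy l k with hlk | rfl | hlk
        · apply h (J.mk hlk)
          change (k : ℕ) - l < (k : ℕ) - i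
          have h1 : (l : ℕ) < k := hlk
          have h2 : (i : ℕ) < l := hl
          omega
        · rw [ent_self, ent_self]
        · rw [ent_low x hlk, ent_low y hlk]
      rw [this, sub_self]
  · intro hi
    exact absurd (Finset.mem_univ i) hi

theorem co_mul_right (g x y : UT R n) (m : J n) (h : ∀ m', m'.w < m.w → co x m' = co y m') :
    co (x * g) m - co (y * g) m = co x m - co y m := by
  obtain ⟨⟨i, k⟩, hik⟩ := m
  change ent (x * g) i k - ent (y * g) i k = ent x i k - ent y i k
  change i < k at hik
  rw [ent_mul, ent_mul, ← Finset.sum_sub_distrib, Finset.sum_eq_single k, ent_self]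
  · ring
  · intro l _ hl
    rcases lt_or_gt_of_ne hl with hl | hl
    · have : ent x i l = ent y i l := by
        rcases lt_trichotomy i l with hlk | rfl | hlk
        · apply h (J.mk hlk)
          change (l : ℕ) - i < (k : ℕ) - i
          have h1 : (i : ℕ) < l := hlk
          have h2 : (l : ℕ) < k := hl
          omega
        · rw [ent_self, ent_self]
        · rw [ent_low x hlk, ent_low y hlk]
      rw [this, sub_self]
    · rw [ent_low g hl, mul_zero, mul_zero, sub_zero]
  · intro hi
    exact absurd (Finset.mem_univ k) hi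

end

/-! ## The order -/

section

variable {n : ℕ}

theorem toLex_co_injective : Function.Injective (fun u : UT ℤ n => toLex (co u)) := by
  intro u v h
  exact co_ext fun m => congrFun (toLex.injective h) m

noncomputable instance instLOUT : LinearOrder (UT ℤ n) :=
  LinearOrder.lift' (fun u : UT ℤ n => toLex (co u)) toLex_co_injective

theorem ut_lt_iff {x y : UT ℤ n} : x < y ↔ ∃ m : J n, (∀ m' < m, co x m' = co y m') ∧ co x m < co y m := Iff.rfl

noncomputable instance instBOUT : BO (UT ℤ n) :=
  { instLOUT with
    lt_l := fun x y g h => by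
      obtain ⟨m, h1, h2⟩ := ut_lt_iff.1 h
      refine ut_lt_iff.2 ⟨m, fun m' hm' => ?_, ?_⟩
      · have h3 := co_mul_left g x y m' fun m'' h'' => h1 m'' ((J.lt_of_w h'').trans hm')
        rw [h1 m' hm', sub_self, sub_eq_zero] at h3
        exact h3
      · have h3 := co_mul_left g x y m fun m'' h'' => h1 m'' (J.lt_of_w h'')
        linarith
    lt_r := fun x y g h => by
      obtain ⟨m, h1, h2⟩ := ut_lt_iff.1 h
      refine ut_lt_iff.2 ⟨m, fun m' hm' => ?_, ?_⟩
      · have h3 := co_mul_right g x y m' fun m'' h'' => h1 m'' ((J.lt_of_w h'').trans hm')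
        rw [h1 m' hm', sub_self, sub_eq_zero] at h3
        exact h3
      · have h3 := co_mul_right g x y m fun m'' h'' => h1 m'' (J.lt_of_w h'')
        linarith }

end

end Pool.Agent.S11.Cu
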