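import Pool.Agent.S11.CuB

/-!
# Project S11, class (U): boxes in the groups of unitriangular integer matrices
-/

set_option autoImplicit false
set_option linter.unusedSectionVars false

open Finset

namespace Pool.Agent.S11.Cu

/-! ## Reduction -/

section

variable {R S : Type} [CommRing R] [CommRing S] {n : ℕ}

/-- reduction -/
noncomputable def redUT (f : R →+* S) : UT R n →* UT S n :=
  toUT ((f.mapMatrix : Matrix (Fin n) (Fin n) R →+* Matrix (Fin n) (Fin n) S).toMonoidHom.comp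
    ((Units.coeHom (Matrix (Fin n) (Fin n) R)).comp (UT R n).subtype)) (by
      intro u
      constructor
      · intro i
        change f (ent u i i) = 1
        rw [ent_self, map_one]
      · intro i k h
        change f (ent u i k) = 0
        rw [ent_low u h, map_zero])

theorem co_red (f : R →+* S) (u : UT R n) (m : J n) : co (redUT f u) m = f (co u m) := rfl

instance [Finite R] : Finite (UT R n) := Finite.of_equiv _ (coEquiv R n).symm

theorem card_UT : Nat.card (UT R n) = Nat.card R ^ Fintype.card (J n) := by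
  rw [Nat.card_congr (coEquiv R n), Nat.card_fun, Nat.card_eq_fintype_card (α := J n)]

theorem isPGroup_UT (e : ℕ) : IsPGroup 2 (UT (ZMod (2 ^ e)) n) := by
  apply IsPGroup.of_card (n := e * Fintype.card (J n))
  rw [card_UT, Nat.card_zmod, pow_mul]

end

section

variable {n : ℕ}

/-- the congruence subgroup -/
noncomputable def Wt (n e : ℕ) : Subgroup (UT ℤ n) := (redUT (Int.castRingHom (ZMod (2 ^ e)))).ker

instance (e : ℕ) : (Wt n e).Normal := by
  unfold Wt
  infer_instance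

theorem mem_Wt {e : ℕ} {u : UT ℤ n} : u ∈ Wt n e ↔ ∀ m, ((2 ^ e : ℕ) : ℤ) ∣ co u m := by
  unfold Wt
  rw [MonoidHom.mem_ker]
  constructor
  · intro h m
    have h1 := co_red (Int.castRingHom (ZMod (2 ^ e))) u m
    rw [h, co_one] at h1
    exact (ZMod.intCast_zmod_eq_zero_iff_dvd _ _).1 h1.symm
  · intro h
    refine co_ext fun m => ?_
    rw [co_red, co_one]
    exact (ZMod.intCast_zmod_eq_zero_iff_dvd _ _).2 (h m)

instance (e : ℕ) : Finite (UT ℤ n ⧸ Wt n e) := by
  unfold Wt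
  have : NeZero (2 ^ e) := ⟨by positivity⟩
  exact Finite.of_equiv _ (QuotientGroup.quotientKerEquivRange (redUT (Int.castRingHom (ZMod (2 ^ e))))).symm.toEquiv

theorem isPGroup_Wt (e : ℕ) : IsPGroup 2 (UT ℤ n ⧸ Wt n e) :=
  IsPGroup.of_injective (isPGroup_UT (n := n) e) (QuotientGroup.kerLift (redUT (Int.castRingHom (ZMod (2 ^ e)))))
    (QuotientGroup.kerLift_injective _)

theorem twoPow_Wt (e : ℕ) : TwoPow (Wt n e) := by
  obtain ⟨k, hk⟩ := IsPGroup.iff_card.1 (isPGroup_Wt (n := n) e)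
  exact ⟨k, hk⟩

/-- **Residually finite two-groups.** -/
theorem res2_UT : Res2 (UT ℤ n) := by
  intro u hu
  obtain ⟨m, hm⟩ : ∃ m : J n, co u m ≠ 0 := by
    by_contra hcon
    push Not at hcon
    exact hu (co_ext fun m => by rw [hcon m, co_one])
  refine ⟨Wt n (co u m).natAbs, inferInstance, twoPow_Wt _, fun hW => ?_⟩
  have h2 := mem_Wt.1 hW m
  have h3 : (2 ^ (co u m).natAbs : ℕ) ∣ (co u m).natAbs := Int.natCast_dvd.1 h2
  have h4 := Nat.le_of_dvd (Int.natAbs_pos.2 hm) h3
  exact absurd h4 (not_le.2 Nat.lt_two_pow_self)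

/-! ## The subgroup `B` -/

theorem dvd_mul_ent {t : ℕ} {u v : UT ℤ n} (hu : ∀ i k : Fin n, (2 : ℤ) ^ (t * ((k : ℕ) - i)) ∣ ent u i k)
    (hv : ∀ i k : Fin n, (2 : ℤ) ^ (t * ((k : ℕ) - i)) ∣ ent v i k) (i l k : Fin n) :
    (2 : ℤ) ^ (t * ((k : ℕ) - i)) ∣ ent u i l * ent v l k := by
  rcases lt_or_ge l i with h | h
  · rw [ent_low u h, zero_mul]
    exact dvd_zero _
  · rcases lt_or_ge k l with h' | h'
    · rw [ent_low v h', mul_zero]
      exact dvd_zero _
    · have h1 : (i : ℕ) ≤ l := h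
      have h2 : (l : ℕ) ≤ k := h'
      have h3 : (k : ℕ) - i = ((l : ℕ) - i) + ((k : ℕ) - l) := by omega
      rw [h3, mul_add, pow_add]
      exact mul_dvd_mul (hu i l) (hv l k)

theorem inv_dvd {t : ℕ} {u : UT ℤ n} (hu : ∀ i k : Fin n, (2 : ℤ) ^ (t * ((k : ℕ) - i)) ∣ ent u i k) :
    ∀ (d : ℕ) (i k : Fin n), (k : ℕ) - i ≤ d → (2 : ℤ) ^ (t * ((k : ℕ) - i)) ∣ ent u⁻¹ i k := by
  intro d
  induction d with
  | zero =>
    intro i k h
    have : (k : ℕ) - i = 0 := by omega
    rw [this, mul_zero, pow_zero]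
    exact one_dvd _
  | succ d ih =>
    intro i k h
    rcases Nat.lt_or_ge ((k : ℕ) - i) (d + 1) with h1 | h1
    · exact ih i k (by omega)
    · have hik : i < k := by
        have : (i : ℕ) < k := by omega
        exact this
      have h2 : ent (u * u⁻¹) i k = 0 := by
        rw [mul_inv_cancel]
        exact ent_one_ne hik.ne
      rw [ent_mul, ← Finset.add_sum_erase _ _ (Finset.mem_univ i), ent_self, one_mul] at h2
      have h3 : ent u⁻¹ i k = -∑ l ∈ Finset.univ.erase i, ent u i l * ent u⁻¹ l k := by linarith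
      rw [h3, dvd_neg]
      refine Finset.dvd_sum fun l hl => ?_
      rcases lt_or_ge l i with h | h
      · rw [ent_low u h, zero_mul]
        exact dvd_zero _
      · rcases lt_or_ge k l with h' | h'
        · rw [ent_low _ h', mul_zero]
          exact dvd_zero _
        · have h1 : (i : ℕ) ≤ l := h
          have h2 : (l : ℕ) ≤ k := h'
          have h4 : (l : ℕ) ≠ i := fun h5 => (Finset.mem_erase.1 hl).1 (Fin.ext h5)
          have h3 : (k : ℕ) - i = ((l : ℕ) - i) + ((k : ℕ) - l) := by omega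
          rw [h3, mul_add, pow_add]
          exact mul_dvd_mul (hu i l) (ih l k (by omega))

/-- the subgroup of the boxes -/
def Bt (n t : ℕ) : Subgroup (UT ℤ n) where
  carrier := {u | ∀ i k : Fin n, (2 : ℤ) ^ (t * ((k : ℕ) - i)) ∣ ent u i k}
  one_mem' := by
    intro i k
    rcases lt_or_ge i k with h | h
    · rw [ent_one_ne h.ne]
      exact dvd_zero _
    · have : (k : ℕ) - i = 0 := Nat.sub_eq_zero_of_le h
      rw [this, mul_zero, pow_zero]
      exact one_dvd _
  mul_mem' := by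
    intro u v hu hv i k
    rw [ent_mul]
    exact Finset.dvd_sum fun l _ => dvd_mul_ent hu hv i l k
  inv_mem' := by
    intro u hu i k
    exact inv_dvd hu _ i k le_rfl

theorem mem_Bt {t : ℕ} {u : UT ℤ n} : u ∈ Bt n t ↔ ∀ m : J n, (2 : ℤ) ^ (t * m.w) ∣ co u m := by
  constructor
  · intro h m
    exact h m.1.1 m.1.2
  · intro h i k
    rcases lt_or_ge i k with hik | hik
    · exact h (J.mk hik)
    · have : (k : ℕ) - i = 0 := Nat.sub_eq_zero_of_le hik
      rw [this, mul_zero, pow_zero]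
      exact one_dvd _

theorem Wt_le_Bt (t : ℕ) : Wt n (t * n) ≤ Bt n t := by
  intro u hu
  rw [mem_Wt] at hu
  rw [mem_Bt]
  intro m
  refine dvd_trans ?_ (hu m)
  push_cast
  exact pow_dvd_pow 2 (Nat.mul_le_mul_left _ m.w_lt.le)

/-! ## The boxes -/

/-- the box with given bounds -/
noncomputable def bx (lo hi : J n → ℤ) : Finset (UT ℤ n) :=
  (Fintype.piFinset fun m => Finset.Ico (lo m) (hi m)).map (coEquiv ℤ n).symm.toEmbedding

theorem mem_bx {lo hi : J n → ℤ} {u : UT ℤ n} : u ∈ bx lo hi ↔ ∀ m, lo m ≤ co u m ∧ co u m < hi m := by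
  unfold bx
  rw [Finset.mem_map_equiv]
  change (coEquiv ℤ n) u ∈ _ ↔ _
  rw [Fintype.mem_piFinset]
  exact forall_congr' fun m => Finset.mem_Ico

theorem card_bx (lo hi : J n → ℤ) : (bx lo hi).card = ∏ m, (hi m - lo m).toNat := by
  unfold bx
  rw [Finset.card_map, Fintype.card_piFinset]
  exact Finset.prod_congr rfl fun m _ => Int.card_Ico _ _

/-- the fundamental domain -/
noncomputable def Et (n t : ℕ) : Finset (UT ℤ n) := bx (fun _ => 0) (fun m => 2 ^ (t * m.w))

theorem mem_Et {t : ℕ} {u : UT ℤ n} : u ∈ Et n t ↔ ∀ m : J n, 0 ≤ co u m ∧ co u m < 2 ^ (t * m.w) := mem_bx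

theorem box_exists (t : ℕ) (x : UT ℤ n) : ∃ b ∈ Bt n t, b * x ∈ Et n t := by
  have key : ∀ d : ℕ, ∃ b ∈ Bt n t, ∀ m : J n, m.w < d → 0 ≤ co (b * x) m ∧ co (b * x) m < 2 ^ (t * m.w) := by
    intro d
    induction d with
    | zero => exact ⟨1, one_mem _, fun m hm => absurd hm (Nat.not_lt_zero _)⟩
    | succ d ih =>
      obtain ⟨b, hb, h⟩ := ih
      let a : J n → ℤ := fun m => if m.w = d then -(2 ^ (t * m.w) * (co (b * x) m / 2 ^ (t * m.w))) else 0
      have ha : ∀ m, co (ofCo a) m = a m := co_ofCo a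
      have hc : ofCo a ∈ Bt n t := by
        rw [mem_Bt]
        intro m
        rw [ha]
        change _ ∣ ite _ _ _
        split_ifs
        · rw [dvd_neg]
          exact dvd_mul_right _ _
        · exact dvd_zero _
      refine ⟨ofCo a * b, mul_mem hc hb, fun m hm => ?_⟩
      have h1 : ∀ m', m'.w < m.w → co (ofCo a) m' = co 1 m' := by
        intro m' hm'
        rw [ha, co_one]
        exact if_neg (by omega)
      have h2 := co_mul_right (b * x) (ofCo a) 1 m h1
      rw [one_mul, co_one, sub_zero, ha, ← mul_assoc] at h2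
      have h3 : co (ofCo a * b * x) m = co (b * x) m + a m := by linarith
      rw [h3]
      rcases Nat.lt_or_ge m.w d with h4 | h4
      · have : a m = 0 := if_neg (by omega)
        rw [this, add_zero]
        exact h m h4
      · have : a m = -(2 ^ (t * m.w) * (co (b * x) m / 2 ^ (t * m.w))) := if_pos (by omega)
        rw [this]
        have h5 : (0 : ℤ) < 2 ^ (t * m.w) := by positivity
        have h6 := Int.emod_add_mul_ediv (co (b * x) m) (2 ^ (t * m.w))
        have h7 := Int.emod_nonneg (co (b * x) m) h5.ne'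
        have h8 := Int.emod_lt_of_pos (co (b * x) m) h5
        constructor <;> linarith
  obtain ⟨b, hb, h⟩ := key n
  exact ⟨b, hb, mem_Et.2 fun m => h m m.w_lt⟩

theorem box_unique {t : ℕ} {b e e' : UT ℤ n} (hb : b ∈ Bt n t) (he : e ∈ Et n t) (he' : e' ∈ Et n t)
    (h : b * e = e') : b = 1 := by
  have key : ∀ d : ℕ, ∀ m : J n, m.w < d → co b m = 0 := by
    intro d
    induction d with
    | zero => exact fun m hm => absurd hm (Nat.not_lt_zero _)
    | succ d ih =>
      intro m hm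
      have h1 : ∀ m', m'.w < m.w → co b m' = co 1 m' := by
        intro m' hm'
        rw [ih m' (by omega), co_one]
      have h2 := co_mul_right e b 1 m h1
      rw [one_mul, co_one, sub_zero, h] at h2
      have h3 := mem_Bt.1 hb m
      rw [← h2] at h3
      have h4 := mem_Et.1 he m
      have h5 := mem_Et.1 he' m
      have h6 : co e' m - co e m = 0 := by
        apply Int.eq_zero_of_abs_lt_dvd h3
        rw [abs_lt]
        constructor <;> linarith [h4.1, h4.2, h5.1, h5.2]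
      rw [← h2, h6]
  exact co_ext fun m => by rw [key n m m.w_lt, co_one]

theorem box_bij (t : ℕ) : Function.Bijective (fun x : Bt n t × Et n t => (x.1 : UT ℤ n) * x.2) := by
  constructor
  · rintro ⟨⟨b, hb⟩, ⟨e, he⟩⟩ ⟨⟨b', hb'⟩, ⟨e', he'⟩⟩ h
    change b * e = b' * e' at h
    have h1 : b'⁻¹ * b * e = e' := by rw [mul_assoc, h, inv_mul_cancel_left]
    have h2 := box_unique (mul_mem (inv_mem hb') hb) he he' h1
    rw [h2, one_mul] at h1
    have h3 : b = b' := (inv_mul_eq_one.1 h2).symm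
    subst h1
    subst h3
    rfl
  · intro x
    obtain ⟨b, hb, h⟩ := box_exists t x
    exact ⟨⟨⟨b⁻¹, inv_mem hb⟩, ⟨b * x, h⟩⟩, inv_mul_cancel_left b x⟩

/-! ## Almost invariance -/

/-- the inner box -/
noncomputable def Et' (n t C : ℕ) : Finset (UT ℤ n) :=
  bx (fun m => C * 2 ^ (t * (m.w - 1))) (fun m => 2 ^ (t * m.w) - C * 2 ^ (t * (m.w - 1)))

theorem Et'_mul {t : ℕ} {C : ℕ} {s : UT ℤ n} (hs : ∀ i k, |ent s i k| * n ≤ C) {e : UT ℤ n}
    (he : e ∈ Et' n t C) : e * s ∈ Et n t := by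
  rw [mem_Et]
  intro m
  have he1 : ∀ m : J n, C * 2 ^ (t * (m.w - 1)) ≤ co e m ∧ co e m < 2 ^ (t * m.w) - C * 2 ^ (t * (m.w - 1)) :=
    mem_bx.1 he
  obtain ⟨⟨i, k⟩, hik⟩ := m
  have hik' : (i : ℕ) < k := hik
  have hm := he1 (J.mk (i := i) (k := k) hik)
  change C * 2 ^ (t * (((k : ℕ) - i) - 1)) ≤ ent e i k ∧
    ent e i k < 2 ^ (t * ((k : ℕ) - i)) - C * 2 ^ (t * (((k : ℕ) - i) - 1)) at hm
  change 0 ≤ ent (e * s) i k ∧ ent (e * s) i k < 2 ^ (t * ((k : ℕ) - i))
  have hb : ∀ l ∈ Finset.univ.erase k, |ent e i l * ent s l k| * n ≤ C * 2 ^ (t * (((k : ℕ) - i) - 1)) := by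
    intro l hl
    have hl1 : l ≠ k := (Finset.mem_erase.1 hl).1
    rcases lt_or_gt_of_ne hl1 with h | h
    · have h' : (l : ℕ) < k := h
      have h2 : |ent e i l| ≤ 2 ^ (t * (((k : ℕ) - i) - 1)) := by
        rcases lt_trichotomy i l with h3 | rfl | h3
        · have h3' : (i : ℕ) < l := h3
          have h4 := he1 (J.mk h3)
          change C * 2 ^ (t * (((l : ℕ) - i) - 1)) ≤ ent e i l ∧
            ent e i l < 2 ^ (t * ((l : ℕ) - i)) - C * 2 ^ (t * (((l : ℕ) - i) - 1)) at h4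
          have h5 : (0 : ℤ) ≤ C * 2 ^ (t * (((l : ℕ) - i) - 1)) := by positivity
          have h6 : (2 : ℤ) ^ (t * ((l : ℕ) - i)) ≤ 2 ^ (t * (((k : ℕ) - i) - 1)) :=
            pow_le_pow_right₀ (by norm_num) (Nat.mul_le_mul_left _ (by omega))
          rw [abs_le]
          constructor <;> linarith [h4.1, h4.2]
        · rw [ent_self, abs_one]
          exact one_le_pow₀ (by norm_num)
        · rw [ent_low e h3, abs_zero]
          positivity
      rw [abs_mul, mul_assoc, mul_comm (C : ℤ)]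
      exact mul_le_mul h2 (hs l k) (by positivity) (by positivity)
    · rw [ent_low s h, mul_zero, abs_zero, zero_mul]
      positivity
  have hsum : |∑ l ∈ Finset.univ.erase k, ent e i l * ent s l k| ≤ C * 2 ^ (t * (((k : ℕ) - i) - 1)) := by
    have hn : 0 < n := Fin.pos k
    have h1 : |∑ l ∈ Finset.univ.erase k, ent e i l * ent s l k| * n ≤
        n * (C * 2 ^ (t * (((k : ℕ) - i) - 1))) := by
      calc _ ≤ (∑ l ∈ Finset.univ.erase k, |ent e i l * ent s l k|) * n :=
            mul_le_mul_of_nonneg_right (Finset.abs_sum_le_sum_abs _ _) (by positivity)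
        _ = ∑ l ∈ Finset.univ.erase k, |ent e i l * ent s l k| * n := by rw [Finset.sum_mul]
        _ ≤ ∑ l ∈ Finset.univ.erase k, (C * 2 ^ (t * (((k : ℕ) - i) - 1)) : ℤ) := Finset.sum_le_sum hb
        _ = ((Finset.univ.erase k).card : ℤ) * (C * 2 ^ (t * (((k : ℕ) - i) - 1))) := by
            rw [Finset.sum_const, nsmul_eq_mul]
        _ ≤ _ := by
            refine mul_le_mul_of_nonneg_right ?_ (by positivity)
            rw [Finset.card_erase_of_mem (Finset.mem_univ k), Finset.card_univ, Fintype.card_fin]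
            omega
    have h2 : (0 : ℤ) < n := by exact_mod_cast hn
    rw [mul_comm (n : ℤ)] at h1
    exact le_of_mul_le_mul_right h1 h2
  rw [ent_mul, ← Finset.add_sum_erase _ _ (Finset.mem_univ k), ent_self, mul_one]
  rw [abs_le] at hsum
  constructor <;> linarith [hm.1, hm.2, hsum.1, hsum.2]

theorem Et'_sub (t C : ℕ) : Et' n t C ⊆ Et n t := by
  intro e he
  rw [mem_Et]
  intro m
  have h := mem_bx.1 he m
  have h5 : (0 : ℤ) ≤ C * 2 ^ (t * (m.w - 1)) := by positivity
  constructor <;> linarith [h.1, h.2]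

theorem card_Et (t : ℕ) : ((Et n t).card : ℝ) = ∏ m : J n, (2 : ℝ) ^ (t * m.w) := by
  unfold Et
  rw [card_bx]
  push_cast
  refine Finset.prod_congr rfl fun m _ => ?_
  rw [sub_zero]
  have : ((2 : ℤ) ^ (t * m.w)).toNat = 2 ^ (t * m.w) := by
    have h : ((2 : ℤ) ^ (t * m.w)) = ((2 ^ (t * m.w) : ℕ) : ℤ) := by push_cast; rfl
    rw [h, Int.toNat_natCast]
  rw [this]
  push_cast
  rfl

theorem card_Et' {t C : ℕ} (h : 2 * C ≤ 2 ^ t) :
    ((Et' n t C).card : ℝ) = ∏ m : J n, ((2 : ℝ) ^ (t * m.w) * (1 - 2 * C / 2 ^ t)) := by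
  unfold Et'
  rw [card_bx]
  push_cast
  refine Finset.prod_congr rfl fun m _ => ?_
  have hw : t * m.w = t * (m.w - 1) + t := by
    have := m.w_pos
    obtain ⟨a, ha⟩ : ∃ a, m.w = a + 1 := ⟨m.w - 1, by omega⟩
    rw [ha, Nat.add_sub_cancel, mul_add, mul_one]
  have h1 : ((2 : ℤ) ^ (t * m.w) - C * 2 ^ (t * (m.w - 1)) - C * 2 ^ (t * (m.w - 1))) =
      ((2 ^ (t * (m.w - 1)) * (2 ^ t - 2 * C) : ℕ) : ℤ) := by
    rw [hw, pow_add]
    push_cast [Nat.cast_sub h]
    ring
  rw [h1, Int.toNat_natCast, hw, pow_add]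
  push_cast [Nat.cast_sub h]
  have h2 : (2 : ℝ) ^ t ≠ 0 := by positivity
  field_simp

theorem fbox_UT : FBox (UT ℤ n) := by
  classical
  intro S ε hε
  let C : ℕ := ∑ s ∈ S, ∑ i, ∑ k, (ent s i k).natAbs * n
  have hC : ∀ s ∈ S, ∀ i k, |ent s i k| * n ≤ C := by
    intro s hs i k
    have h1 : (ent s i k).natAbs * n ≤ C := by
      calc _ ≤ ∑ k, (ent s i k).natAbs * n :=
            Finset.single_le_sum (f := fun k => (ent s i k).natAbs * n) (fun _ _ => Nat.zero_le _) (Finset.mem_univ k)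
        _ ≤ ∑ i, ∑ k, (ent s i k).natAbs * n :=
            Finset.single_le_sum (f := fun i => ∑ k, (ent s i k).natAbs * n) (fun _ _ => Nat.zero_le _)
              (Finset.mem_univ i)
        _ ≤ C := Finset.single_le_sum (f := fun s => ∑ i, ∑ k, (ent s i k).natAbs * n) (fun _ _ => Nat.zero_le _) hs
    rw [Int.abs_eq_natAbs]
    exact_mod_cast h1
  obtain ⟨t, ht⟩ : ∃ t : ℕ, (2 * C : ℝ) + 2 * C * Fintype.card (J n) / ε < 2 ^ t :=
    pow_unbounded_of_one_lt _ (by norm_num)
  have h0 : (0 : ℝ) ≤ 2 * C * Fintype.card (J n) / ε := by positivity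
  have hC0 : (0 : ℝ) ≤ 2 * C := by positivity
  have ht1 : 2 * C ≤ 2 ^ t := by
    have : (2 * C : ℝ) ≤ 2 ^ t := by linarith
    exact_mod_cast this
  have ht2 : 2 * C * Fintype.card (J n) / ε ≤ 2 ^ t := by linarith
  have h5 : (0 : ℝ) < 2 ^ t := by positivity
  refine ⟨Wt n (t * n), Bt n t, inferInstance, Et n t, Et' n t C, Wt_le_Bt t, inferInstance, isPGroup_Wt _,
    box_bij t, Et'_sub t C, fun e he s hs => Et'_mul (hC s hs) he, ?_⟩
  rw [card_Et, card_Et' ht1, Finset.prod_mul_distrib, Finset.prod_const, Finset.card_univ, mul_comm]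
  refine mul_le_mul_of_nonneg_left ?_ (Finset.prod_nonneg fun _ _ => by positivity)
  have h6 : (-2 : ℝ) ≤ -(2 * C / 2 ^ t) := by
    have : (2 * C : ℝ) / 2 ^ t ≤ 1 := by
      rw [div_le_one h5]
      linarith
    linarith
  have h7 := one_add_mul_le_pow h6 (Fintype.card (J n))
  have h8 : (Fintype.card (J n) : ℝ) * -(2 * C / 2 ^ t) ≥ -ε := by
    have : (Fintype.card (J n) : ℝ) * (2 * C / 2 ^ t) ≤ ε := by
      rw [mul_div_assoc', div_le_iff₀ h5]
      rw [div_le_iff₀ hε] at ht2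
      linarith
    linarith
  calc 1 - ε ≤ 1 + (Fintype.card (J n) : ℝ) * -(2 * C / 2 ^ t) := by linarith
    _ ≤ _ := h7
    _ = _ := by rw [← sub_eq_add_neg]

end

end Pool.Agent.S11.Cu
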