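import Pool.Agent.S11.CuA

/-!
# Project S11, class (U): the chain and the approximations from a family of homomorphisms to ordered groups

Data: subgroups `N s` of `H` and homomorphisms `φ s i : H →* Q s i` to ordered groups, trivial on `N s` and separating
the elements outside `N s` from `1`.  The order of `H` is by the first nontrivial coordinate.
-/

set_option autoImplicit false
set_option linter.unusedSectionVars false

namespace Pool.Agent.S11.Cu

/-- The data. -/
structure Dat (H : Type) [Group H] (r : ℕ) (N : ℕ → Subgroup H) where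
  /-- the groups -/
  Q : ℕ → ℕ → Type
  /-- they are groups -/
  grp : ∀ s i, Group (Q s i)
  /-- they are ordered -/
  bo : ∀ s i, BO (Q s i)
  /-- the homomorphisms -/
  φ : ∀ s i, H →* Q s i
  triv : ∀ s i x, x ∈ N s → φ s i x = 1
  sepa : ∀ s x, x ∉ N s → ∃ i, φ s i x ≠ 1

attribute [instance] Dat.grp Dat.bo

namespace Dat

section

variable {H : Type} [Group H] {r : ℕ} {N : ℕ → Subgroup H} (D : Dat H r N)

/-- the coordinates of `H` -/
noncomputable def ψ (p : Fin (r + 1) ×ₗ ℕ) : H →* D.Q (ofLex p).1 (ofLex p).2 := D.φ (ofLex p).1 (ofLex p).2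

theorem hψ (hlast : N r = ⊥) (x : H) (h : ∀ p, D.ψ p x = 1) : x = 1 := by
  by_contra hx
  obtain ⟨i, hi⟩ := D.sepa r x (by rw [hlast]; exact hx)
  exact hi (h (toLex (⟨r, Nat.lt_succ_self r⟩, i)))

/-- the order of `H` -/
@[reducible] noncomputable def ord (hlast : N r = ⊥) : BO H := famBO D.ψ (D.hψ hlast)

/-- the product -/
abbrev Gm (j _s : ℕ) : Type := ∀ p : Fin (r + 1) ×ₗ Fin (j + 1), D.Q (ofLex p).1 (ofLex p).2

/-- the order of the product -/
@[reducible] noncomputable def ordG (j s : ℕ) : BO (D.Gm j s) :=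
  famBO (fun p => Pi.evalMonoidHom (fun p : Fin (r + 1) ×ₗ Fin (j + 1) => D.Q (ofLex p).1 (ofLex p).2) p)
    (fun _ h => funext h)

/-- the homomorphisms to the products -/
noncomputable def q (j s : ℕ) : H →* D.Gm j s :=
  MonoidHom.pi fun p => if ((ofLex p).1 : ℕ) ≤ s then D.φ (ofLex p).1 (ofLex p).2 else 1

theorem q_apply_le (j s : ℕ) (x : H) (p : Fin (r + 1) ×ₗ Fin (j + 1)) (h : ((ofLex p).1 : ℕ) ≤ s) :
    D.q j s x p = D.φ (ofLex p).1 (ofLex p).2 x := by
  change (if ((ofLex p).1 : ℕ) ≤ s then D.φ (ofLex p).1 (ofLex p).2 else 1) x = _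
  rw [if_pos h]

theorem q_apply_gt (j s : ℕ) (x : H) (p : Fin (r + 1) ×ₗ Fin (j + 1)) (h : s < ((ofLex p).1 : ℕ)) :
    D.q j s x p = 1 := by
  change (if ((ofLex p).1 : ℕ) ≤ s then D.φ (ofLex p).1 (ofLex p).2 else 1) x = _
  rw [if_neg h.not_ge]
  rfl

theorem eq_bot (hlast : N r = ⊥) (hanti : Antitone N) {s : ℕ} (h : r ≤ s) : N s = ⊥ :=
  le_bot_iff.1 (hlast ▸ hanti h)

theorem cvx (hlast : N r = ⊥) (hanti : Antitone N) (s : ℕ) : @Cvx H _ (D.ord hlast) (N s) := by
  let _ := D.ord hlast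
  intro x hx y h1 h2
  by_contra hy
  have hx' : ∀ p : Fin (r + 1) ×ₗ ℕ, ((ofLex p).1 : ℕ) ≤ s → D.ψ p x = 1 := fun p hp =>
    D.triv _ _ _ (hanti hp hx)
  have h3 : (1 : H) < y := lt_of_le_of_ne h1 fun h => hy (h ▸ (N s).one_mem)
  obtain ⟨p, h4, h5⟩ := (famBO_one_lt D.ψ (D.hψ hlast)).1 h3
  have h6 : ((ofLex p).1 : ℕ) ≤ s := by
    by_contra h6
    have hsr : s ≤ r := by
      have := (ofLex p).1.2
      omega
    obtain ⟨i, hi⟩ := D.sepa s y hy
    refine hi (h4 (toLex (⟨s, Nat.lt_succ_of_le hsr⟩, i)) ?_)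
    rw [Prod.Lex.lt_iff]
    left
    exact Fin.lt_def.2 (not_le.1 h6)
  have h7 : x < y := (famBO_lt D.ψ (D.hψ hlast)).2 ⟨p, fun p' hp' => by
    rw [h4 p' hp', hx' p']
    have := Prod.Lex.monotone_fst _ _ hp'.le
    exact (Fin.le_def.1 this).trans h6, by
    rw [hx' p h6]
    exact h5⟩
  exact absurd h2 h7.not_ge

/-- the chain -/
theorem chain (hzero : N 0 = ⊤) (hlast : N r = ⊥) (hanti : Antitone N) (hnormal : ∀ s, (N s).Normal)
    (hfree : ∀ s < r, IsFreeGroup (N s ⧸ (N (s + 1)).subgroupOf (N s))) : @Chain H _ (D.ord hlast) r N :=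
  @Chain.mk H _ (D.ord hlast) r N hzero hlast hanti hnormal (D.cvx hlast hanti) hfree

/-- the approximations -/
noncomputable def appr (hlast : N r = ⊥) (hanti : Antitone N) : @Appr H _ (D.ord hlast) N :=
  @Appr.mk H _ (D.ord hlast) N (fun j s => D.Gm j s) (fun _ _ => Pi.group) (fun j s => D.ordG j s) (fun j s => D.q j s)
    (fun j s x hx => by
      funext p
      rcases le_or_gt ((ofLex p).1 : ℕ) s with h | h
      · rw [D.q_apply_le j s x p h]
        exact D.triv _ _ _ (hanti h hx)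
      · rw [D.q_apply_gt j s x p h]
        rfl)
    (fun s x j j' hj h => by
      funext p
      rcases le_or_gt ((ofLex p).1 : ℕ) s with h1 | h1
      · rw [D.q_apply_le j s x p h1]
        have h2 := congrFun h (toLex ((ofLex p).1, ⟨(ofLex p).2, lt_of_lt_of_le (ofLex p).2.2 (Nat.succ_le_succ hj)⟩))
        rw [D.q_apply_le j' s x _ h1] at h2
        exact h2
      · rw [D.q_apply_gt j s x p h1]
        rfl)
    (fun s x hx => by
      rcases le_or_gt s r with h | h
      · obtain ⟨i, hi⟩ := D.sepa s x hx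
        refine ⟨i, fun h1 => hi ?_⟩
        have h2 := congrFun h1 (toLex (⟨s, Nat.lt_succ_of_le h⟩, ⟨i, Nat.lt_succ_self i⟩))
        rw [D.q_apply_le i s x _ le_rfl] at h2
        exact h2
      · rw [eq_bot hlast hanti h.le, ← hlast] at hx
        obtain ⟨i, hi⟩ := D.sepa r x hx
        refine ⟨i, fun h1 => hi ?_⟩
        have h2 := congrFun h1 (toLex (⟨r, Nat.lt_succ_self r⟩, ⟨i, Nat.lt_succ_self i⟩))
        rw [D.q_apply_le i s x (toLex (⟨r, Nat.lt_succ_self r⟩, ⟨i, Nat.lt_succ_self i⟩)) h.le] at h2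
        exact h2)
    (fun j s x hx => by
      obtain ⟨p, h1, h2⟩ := (famBO_one_lt _ _).1 hx
      have h3 : ((ofLex p).1 : ℕ) ≤ s := by
        by_contra h3
        have h4 : D.q j s x p = 1 := D.q_apply_gt j s x p (not_le.1 h3)
        change 1 < D.q j s x p at h2
        rw [h4] at h2
        exact lt_irrefl _ h2
      refine (famBO_one_lt _ _).2 ⟨p, fun p' hp' => ?_, ?_⟩
      · have h4 : ((ofLex p').1 : ℕ) ≤ s := (Fin.le_def.1 (Prod.Lex.monotone_fst _ _ hp'.le)).trans h3
        change D.q j (s + 1) x p' = 1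
        have h5 : D.q j s x p' = 1 := h1 p' hp'
        rw [D.q_apply_le j (s + 1) x p' (h4.trans (Nat.le_succ s)), ← h5, D.q_apply_le j s x p' h4]
      · change 1 < D.q j (s + 1) x p
        rw [D.q_apply_le j (s + 1) x p (h3.trans (Nat.le_succ s)), ← D.q_apply_le j s x p h3]
        exact h2)
    (fun j s x hx h1 => by
      let _ := D.ord hlast
      let _ := D.ordG j (s + 1)
      by_contra hcon
      obtain ⟨p, h2, h3⟩ := (famBO_lt_one _ _).1 (not_le.1 hcon)
      change D.q j (s + 1) x p < 1 at h3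
      have h4 : ((ofLex p).1 : ℕ) ≤ s + 1 := by
        by_contra h4
        rw [D.q_apply_gt j (s + 1) x p (not_le.1 h4)] at h3
        exact lt_irrefl _ h3
      rw [D.q_apply_le j (s + 1) x p h4] at h3
      have h5 : x < 1 := by
        refine (famBO_lt_one D.ψ (D.hψ hlast)).2 ⟨toLex ((ofLex p).1, ((ofLex p).2 : ℕ)), fun p' hp' => ?_, h3⟩
        by_cases h6 : ((ofLex p').1 : ℕ) ≤ s
        · exact D.triv _ _ _ (hanti h6 hx)
        · rw [Prod.Lex.lt_iff] at hp'
          have h7 : (ofLex p').1 = (ofLex p).1 ∧ (ofLex p').2 < ((ofLex p).2 : ℕ) := by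
            rcases hp' with h7 | h7
            · exfalso
              have h8 : ((ofLex p').1 : ℕ) < (ofLex p).1 := h7
              omega
            · exact h7
          have h8 := h2 (toLex ((ofLex p').1, ⟨(ofLex p').2, h7.2.trans (ofLex p).2.2⟩)) (by
            rw [Prod.Lex.lt_iff]
            right
            exact h7)
          change D.q j (s + 1) x _ = 1 at h8
          rw [D.q_apply_le j (s + 1) x _ (by
            change ((ofLex p').1 : ℕ) ≤ s + 1
            rw [h7.1]
            exact h4)] at h8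
          exact h8
      exact absurd h1 h5.not_gt)

theorem appr_Γ (hlast : N r = ⊥) (hanti : Antitone N) (j s : ℕ) :
    (@Appr.Γ H _ (D.ord hlast) N (D.appr hlast hanti) j s) = D.Gm j s := rfl

end

end Dat

end Pool.Agent.S11.Cu
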