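import Pool.Agent.H37.RG.Free
import Pool.Agent.S11.Defs

/-!
# Project S11, block RAAG: the kernels of the retractions to the first letters, free quotients

For an injective homomorphism `f : H →* Raag G`, `G` a graph on `Fin r`, the subgroups `NR G f s` = the kernels of
`H → Raag G → Raag G`, the retraction to the first `s` letters; successive quotients are free.
-/

set_option autoImplicit false

namespace Pool.Agent.S11.Ra

open Pool.Agent.H37.RG Pool.Agent.H68.Amp

variable {r : ℕ} (G : SimpleGraph (Fin r)) {H : Type} [Group H] (f : H →* Raag G)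

/-- the kernel of the retraction to the first `s` letters -/
noncomputable def NR (s : ℕ) : Subgroup H := ((ret G {v : Fin r | (v : ℕ) < s}).comp f).ker

theorem mem_NR {s : ℕ} {x : H} : x ∈ NR G f s ↔ ret G {v : Fin r | (v : ℕ) < s} (f x) = 1 := Iff.rfl

instance NR_normal (s : ℕ) : (NR G f s).Normal := MonoidHom.normal_ker _

theorem NR_zero : NR G f 0 = ⊤ := by
  rw [eq_top_iff]
  intro x _
  rw [mem_NR]
  have h : ret G {v : Fin r | (v : ℕ) < 0} = 1 := by
    apply raag_hom_ext
    intro v
    rw [ret_gen_not G (by simp)]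
    rfl
  rw [h]
  rfl

theorem NR_last (hf : Function.Injective f) : NR G f r = ⊥ := by
  rw [eq_bot_iff]
  intro x hx
  rw [mem_NR] at hx
  have h : ret G {v : Fin r | (v : ℕ) < r} = MonoidHom.id _ := by
    apply raag_hom_ext
    intro v
    rw [ret_gen_mem G (show v ∈ {v : Fin r | (v : ℕ) < r} from v.2)]
    rfl
  rw [h, MonoidHom.id_apply] at hx
  rw [Subgroup.mem_bot]
  exact hf (by rw [hx, map_one])

theorem ret_ret {S S' : Set (Fin r)} (h : S ⊆ S') (g : Raag G) : ret G S (ret G S' g) = ret G S g := by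
  have h1 : (ret G S).comp (ret G S') = ret G S := by
    apply raag_hom_ext
    intro v
    rw [MonoidHom.comp_apply]
    by_cases hv : v ∈ S'
    · rw [ret_gen_mem G hv]
    · rw [ret_gen_not G hv, map_one, ret_gen_not G (fun h' => hv (h h'))]
  exact DFunLike.congr_fun h1 g

theorem NR_anti : Antitone (NR G f) := by
  intro s s' hs x hx
  rw [mem_NR] at hx ⊢
  have h : ({v : Fin r | (v : ℕ) < s} : Set (Fin r)) ⊆ {v : Fin r | (v : ℕ) < s'} := fun v hv => lt_of_lt_of_le hv hs
  rw [← ret_ret G h, hx, map_one]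

theorem insert_letters {s : ℕ} (hs : s < r) :
    insert (⟨s, hs⟩ : Fin r) {v : Fin r | (v : ℕ) < s} = {v : Fin r | (v : ℕ) < s + 1} := by
  ext v
  simp only [Set.mem_insert_iff, Set.mem_ofPred_eq, Fin.ext_iff]
  omega

theorem not_mem_letters {s : ℕ} (hs : s < r) : (⟨s, hs⟩ : Fin r) ∉ {v : Fin r | (v : ℕ) < s} := by
  simp

/-- the homomorphism to the free group -/
noncomputable def thetaN (s : ℕ) (hs : s < r) :
    NR G f s →* FreeGroup (Raag G ⧸ lkS G {v : Fin r | (v : ℕ) < s} ⟨s, hs⟩) :=
  (theta G {v : Fin r | (v : ℕ) < s} ⟨s, hs⟩).comp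
    ((f.comp (NR G f s).subtype).codRestrict (ret G {v : Fin r | (v : ℕ) < s}).ker fun x => x.2)

theorem thetaN_eq_one {s : ℕ} (hs : s < r) (x : NR G f s) :
    thetaN G f s hs x = 1 ↔ x ∈ (NR G f (s + 1)).subgroupOf (NR G f s) := by
  rw [Subgroup.mem_subgroupOf, mem_NR, ← insert_letters hs]
  exact theta_eq_one G {v : Fin r | (v : ℕ) < s} (not_mem_letters hs) ⟨f x.1, x.2⟩

/-- the quotients are free -/
theorem NR_free {s : ℕ} (hs : s < r) : IsFreeGroup (NR G f s ⧸ (NR G f (s + 1)).subgroupOf (NR G f s)) := by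
  refine isFree_of_injective (QuotientGroup.lift _ (thetaN G f s hs) fun x hx => (thetaN_eq_one G f hs x).2 hx) ?_
  rw [injective_iff_map_eq_one]
  intro a
  induction a using QuotientGroup.induction_on with
  | H x =>
    intro hx
    rw [QuotientGroup.lift_mk] at hx
    exact (QuotientGroup.eq_one_iff x).2 ((thetaN_eq_one G f hs x).1 hx)

end Pool.Agent.S11.Ra
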