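import Pool.Agent.H72.UJ.Grp
import Pool.Agent.S11.Defs

/-!
# Project S11, block RAAG: coherent families of homomorphisms into groups of one-units

`T` a graded monoid with a well-order, levels `lvl`; `Fam A T` = a coherent, jointly injective family of
homomorphisms `μ j : A →* Un T j`.  It gives a bi-invariant order on `A`, the chain `N s`, and `Appr`.
-/

set_option autoImplicit false
set_option linter.unusedSectionVars false

open Finset

namespace Pool.Agent.S11

open Pool.Agent.H72.UJ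

/-- A level function on an ordered graded monoid. -/
class Lev (T : Type) [Monoid T] [Gr T] [LinearOrder T] where
  /-- the level -/
  lvl : T → ℕ
  lvl_one : lvl 1 = 0
  lvl_pos : ∀ m, m ≠ 1 → 0 < lvl m
  lvl_mul : ∀ a b, lvl (a * b) = max (lvl a) (lvl b)
  lvl_mono : ∀ m m', m < m' → lvl m ≤ lvl m'
  len_lt : ∀ m m', lvl m = lvl m' → len m < len m' → m < m'

export Lev (lvl)

/-- A coherent, jointly injective family. -/
structure Fam (A T : Type) [Group A] [Monoid T] [Gr T] where
  /-- the homomorphisms -/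
  μ : ∀ j : ℕ, A →* Un T j
  coh : ∀ j j' g (m : T), j ≤ j' → len m ≤ j → c (μ j g) m = c (μ j' g) m
  inj : ∀ g, (∀ j, μ j g = 1) → g = 1

section

variable {T : Type} [Monoid T] [Gr T] [LinearOrder T] [Mo T]

noncomputable instance instBOUn (j : ℕ) : BO (Un T j) :=
  { (inferInstance : LinearOrder (Un T j)) with
    lt_l := fun _ _ c h => mul_lt_left c h
    lt_r := fun _ _ c h => mul_lt_right c h }

variable [Lev T]

omit [Mo T] in
theorem lvl_fst {p : T × T} {m : T} (h : p ∈ fac m) : lvl p.1 ≤ lvl m := by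
  rw [mem_fac] at h
  rw [← h, Lev.lvl_mul]
  exact le_max_left _ _

omit [Mo T] in
theorem lvl_snd {p : T × T} {m : T} (h : p ∈ fac m) : lvl p.2 ≤ lvl m := by
  rw [mem_fac] at h
  rw [← h, Lev.lvl_mul]
  exact le_max_right _ _

omit [Mo T] in
theorem lvl_mono' {m m' : T} (h : m ≤ m') : lvl m ≤ lvl m' := by
  rcases h.lt_or_eq with h | h
  · exact Lev.lvl_mono _ _ h
  · rw [h]

open Classical in
/-- the element with the coordinates of level at most `s` -/
noncomputable def rho0 {j : ℕ} (s : ℕ) (u : Un T j) : Un T j :=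
  ofCoord j (fun m => if lvl m ≤ s then c u m else 0)

omit [Mo T] in
open Classical in
theorem c_rho0 {j : ℕ} (s : ℕ) (u : Un T j) {m : T} (hm : len m ≤ j) :
    c (rho0 s u) m = if lvl m ≤ s then c u m else 0 := by
  by_cases h1 : m = 1
  · subst h1
    rw [if_pos (by rw [Lev.lvl_one]; exact Nat.zero_le _), c_at_one, c_at_one]
  · exact c_ofCoord _ h1 hm

/-- the retraction of the group of one-units -/
noncomputable def rho (j s : ℕ) : Un T j →* Un T j :=
  MonoidHom.mk' (rho0 s) (by
    intro u v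
    refine c_ext fun m _ hm => ?_
    classical
    rw [c_rho0 s _ hm, c_mul_fac _ _ hm, c_mul_fac _ _ hm]
    split_ifs with h
    · refine sum_congr rfl fun p hp => ?_
      have hl := (mem_fac.1 hp) ▸ len_mul p.1 p.2
      rw [c_rho0 s _ (by omega), c_rho0 s _ (by omega), if_pos ((lvl_fst hp).trans h),
        if_pos ((lvl_snd hp).trans h)]
    · symm
      refine sum_eq_zero fun p hp => ?_
      have hl := (mem_fac.1 hp) ▸ len_mul p.1 p.2
      have hmul := Lev.lvl_mul p.1 p.2
      rw [mem_fac.1 hp] at hmul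
      rw [c_rho0 s _ (by omega), c_rho0 s _ (by omega)]
      by_cases ha : lvl p.1 ≤ s
      · have hb : ¬ lvl p.2 ≤ s := fun hb => h (by rw [hmul]; exact max_le ha hb)
        rw [if_neg hb, mul_zero]
      · rw [if_neg ha, zero_mul])

omit [Mo T] in
open Classical in
theorem c_rho (j s : ℕ) (u : Un T j) {m : T} (hm : len m ≤ j) :
    c (rho j s u) m = if lvl m ≤ s then c u m else 0 := c_rho0 s u hm

namespace Fam

variable {A : Type} [Group A] (F : Fam A T)

/-- composition with an injective homomorphism -/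
noncomputable def comp {H : Type} [Group H] (f : H →* A) (hf : Function.Injective f) : Fam H T where
  μ j := (F.μ j).comp f
  coh j j' g m h1 h2 := F.coh j j' (f g) m h1 h2
  inj g hg := hf (by rw [map_one]; exact F.inj (f g) hg)

/-- the coefficients -/
noncomputable def M (g : A) (m : T) : ℤ := c (F.μ (len m) g) m

theorem c_eq (g : A) {m : T} {j : ℕ} (h : len m ≤ j) : c (F.μ j g) m = F.M g m :=
  (F.coh _ _ g m h le_rfl).symm

theorem M_at_one (g : A) : F.M g 1 = 1 := c_at_one _

theorem M_one {m : T} (hm : m ≠ 1) : F.M 1 m = 0 := by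
  rw [M, map_one]
  exact c_one hm le_rfl

theorem M_mul_fac (g h : A) (m : T) : F.M (g * h) m = ∑ p ∈ fac m, F.M g p.1 * F.M h p.2 := by
  rw [M, map_mul, c_mul_fac _ _ le_rfl]
  refine sum_congr rfl fun p hp => ?_
  have hl := (mem_fac.1 hp) ▸ len_mul p.1 p.2
  rw [F.c_eq g (by omega), F.c_eq h (by omega)]

theorem M_mul (g h : A) {m : T} (h1 : m ≠ 1) :
    F.M (g * h) m = F.M g m + F.M h m + ∑ p ∈ pfac m, F.M g p.1 * F.M h p.2 := by
  rw [M_mul_fac, sum_fac h1, M_at_one, M_at_one, mul_one, one_mul]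

theorem M_ext {g h : A} (H : ∀ m, F.M g m = F.M h m) : g = h := by
  have : g * h⁻¹ = 1 := by
    refine F.inj _ fun j => ?_
    rw [map_mul, map_inv, mul_inv_eq_one]
    refine c_ext fun m _ hm => ?_
    rw [F.c_eq g hm, F.c_eq h hm, H]
  exact mul_inv_eq_one.1 this

theorem M_injective : Function.Injective (fun g => toLex (F.M g) : A → Lex (T → ℤ)) := by
  intro g h hgh
  exact F.M_ext fun m => congrFun (toLex.injective hgh) m

variable [WellFoundedLT T]

/-- the order -/
noncomputable abbrev lin : LinearOrder A := LinearOrder.lift' (fun g => toLex (F.M g)) F.M_injective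

theorem lt_iff {x y : A} :
    F.lin.lt x y ↔ ∃ m : T, (∀ m' < m, F.M x m' = F.M y m') ∧ F.M x m < F.M y m := Iff.rfl

theorem mul_lt_left' (g : A) {x y : A} (h : F.lin.lt x y) : F.lin.lt (g * x) (g * y) := by
  obtain ⟨m, h1, h2⟩ := F.lt_iff.1 h
  have hm1 : m ≠ 1 := by
    rintro rfl
    simp [M_at_one] at h2
  have key : ∀ b : T, (b = 1 ∨ b < m) → F.M x b = F.M y b := by
    rintro b (rfl | hb)
    · rw [M_at_one, M_at_one]
    · exact h1 b hb
  refine F.lt_iff.2 ⟨m, fun m' hm' => ?_, ?_⟩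
  · rw [M_mul_fac, M_mul_fac]
    refine sum_congr rfl fun p hp => ?_
    rw [mem_fac] at hp
    rw [key p.2 _]
    by_cases hpm : p.2 = m'
    · right; rw [hpm]; exact hm'
    · rcases snd_lt hp hpm with h | h
      · exact Or.inl h
      · exact Or.inr (h.trans hm')
  · rw [M_mul _ _ _ hm1, M_mul _ _ _ hm1]
    have : ∑ p ∈ pfac m, F.M g p.1 * F.M x p.2 = ∑ p ∈ pfac m, F.M g p.1 * F.M y p.2 := by
      refine sum_congr rfl fun p hp => ?_
      rw [mem_pfac] at hp
      rw [key p.2 (Or.inr _)]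
      rw [← hp.1]
      exact (Mo.fac_lt _ _ hp.2.1 hp.2.2).2
    rw [this]
    omega

theorem mul_lt_right' (g : A) {x y : A} (h : F.lin.lt x y) : F.lin.lt (x * g) (y * g) := by
  obtain ⟨m, h1, h2⟩ := F.lt_iff.1 h
  have hm1 : m ≠ 1 := by
    rintro rfl
    simp [M_at_one] at h2
  have key : ∀ b : T, (b = 1 ∨ b < m) → F.M x b = F.M y b := by
    rintro b (rfl | hb)
    · rw [M_at_one, M_at_one]
    · exact h1 b hb
  refine F.lt_iff.2 ⟨m, fun m' hm' => ?_, ?_⟩
  · rw [M_mul_fac, M_mul_fac]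
    refine sum_congr rfl fun p hp => ?_
    rw [mem_fac] at hp
    rw [key p.1 _]
    by_cases hpm : p.1 = m'
    · right; rw [hpm]; exact hm'
    · rcases fst_lt hp hpm with h | h
      · exact Or.inl h
      · exact Or.inr (h.trans hm')
  · rw [M_mul _ _ _ hm1, M_mul _ _ _ hm1]
    have : ∑ p ∈ pfac m, F.M x p.1 * F.M g p.2 = ∑ p ∈ pfac m, F.M y p.1 * F.M g p.2 := by
      refine sum_congr rfl fun p hp => ?_
      rw [mem_pfac] at hp
      rw [key p.1 (Or.inr _)]
      rw [← hp.1]
      exact (Mo.fac_lt _ _ hp.2.1 hp.2.2).1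
    rw [this]
    omega

/-- **The bi-invariant order.** -/
@[reducible] noncomputable def bo : BO A :=
  { F.lin with
    lt_l := fun _ _ c h => F.mul_lt_left' c h
    lt_r := fun _ _ c h => F.mul_lt_right' c h }

theorem one_lt_iff' {x : A} :
    F.lin.lt 1 x ↔ ∃ m : T, m ≠ 1 ∧ (∀ m' < m, m' ≠ 1 → F.M x m' = 0) ∧ 0 < F.M x m := by
  rw [lt_iff]
  constructor
  · rintro ⟨m, h1, h2⟩
    have hm1 : m ≠ 1 := by
      rintro rfl
      simp [M_at_one] at h2
    rw [F.M_one hm1] at h2
    refine ⟨m, hm1, fun m' hm' h' => ?_, h2⟩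
    rw [← h1 m' hm', F.M_one h']
  · rintro ⟨m, hm1, h1, h2⟩
    refine ⟨m, fun m' hm' => ?_, by rwa [F.M_one hm1]⟩
    by_cases h' : m' = 1
    · subst h'; rw [M_at_one, M_at_one]
    · rw [h1 m' hm' h', F.M_one h']

theorem lt_one_iff' {x : A} :
    F.lin.lt x 1 ↔ ∃ m : T, m ≠ 1 ∧ (∀ m' < m, m' ≠ 1 → F.M x m' = 0) ∧ F.M x m < 0 := by
  rw [lt_iff]
  constructor
  · rintro ⟨m, h1, h2⟩
    have hm1 : m ≠ 1 := by
      rintro rfl
      simp [M_at_one] at h2
    rw [F.M_one hm1] at h2
    refine ⟨m, hm1, fun m' hm' h' => ?_, h2⟩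
    rw [h1 m' hm', F.M_one h']
  · rintro ⟨m, hm1, h1, h2⟩
    refine ⟨m, fun m' hm' => ?_, by rwa [F.M_one hm1]⟩
    by_cases h' : m' = 1
    · subst h'; rw [M_at_one, M_at_one]
    · rw [h1 m' hm' h', F.M_one h']

omit [WellFoundedLT T] in
/-- the approximating homomorphisms -/
noncomputable def q (j s : ℕ) : A →* Un T j := (rho j s).comp (F.μ j)

omit [WellFoundedLT T] in
open Classical in
theorem c_q (j s : ℕ) (x : A) {m : T} (hm : len m ≤ j) :
    c (F.q j s x) m = if lvl m ≤ s then F.M x m else 0 := by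
  rw [q, MonoidHom.comp_apply, c_rho j s _ hm, F.c_eq x hm]

omit [WellFoundedLT T] in
theorem q_eq_one_iff (j s : ℕ) (x : A) :
    F.q j s x = 1 ↔ ∀ m : T, m ≠ 1 → len m ≤ j → lvl m ≤ s → F.M x m = 0 := by
  classical
  constructor
  · intro h m h1 hm hs
    have := F.c_q j s x hm
    rw [h, c_one h1 hm, if_pos hs] at this
    exact this.symm
  · intro h
    refine c_ext fun m h1 hm => ?_
    rw [F.c_q j s x hm, c_one h1 hm]
    split_ifs with hs
    · exact h m h1 hm hs
    · rfl

/-- **The chain.** -/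
noncomputable def N (s : ℕ) : Subgroup A := ⨅ j, (F.q j s).ker

omit [WellFoundedLT T] in
theorem mem_N {s : ℕ} {x : A} : x ∈ F.N s ↔ ∀ m : T, m ≠ 1 → lvl m ≤ s → F.M x m = 0 := by
  rw [N, Subgroup.mem_iInf]
  constructor
  · intro h m h1 hs
    exact (F.q_eq_one_iff (len m) s x).1 (h (len m)) m h1 le_rfl hs
  · intro h j
    rw [MonoidHom.mem_ker, q_eq_one_iff]
    exact fun m h1 _ hs => h m h1 hs

omit [WellFoundedLT T] in
theorem N_zero : F.N 0 = ⊤ := by
  rw [eq_top_iff]
  intro x _
  rw [mem_N]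
  intro m h1 hs
  exact absurd (Lev.lvl_pos m h1) (by omega)

omit [WellFoundedLT T] in
theorem N_last {r : ℕ} (hr : ∀ m : T, lvl m ≤ r) : F.N r = ⊥ := by
  rw [eq_bot_iff]
  intro x hx
  rw [mem_N] at hx
  rw [Subgroup.mem_bot]
  refine F.M_ext fun m => ?_
  by_cases h1 : m = 1
  · subst h1; rw [M_at_one, M_at_one]
  · rw [hx m h1 (hr m), F.M_one h1]

omit [WellFoundedLT T] in
theorem N_anti : Antitone F.N := by
  intro s s' h x hx
  rw [mem_N] at hx ⊢
  exact fun m h1 hs => hx m h1 (hs.trans h)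

omit [WellFoundedLT T] in
theorem N_normal (s : ℕ) : (F.N s).Normal := by
  refine ⟨fun x hx g => ?_⟩
  rw [N, Subgroup.mem_iInf] at hx ⊢
  exact fun j => (inferInstance : (F.q j s).ker.Normal).conj_mem x (hx j) g

/-- the sign of an element outside of `N s` is determined by its coefficients of level at most `s` -/
theorem exists_first {s : ℕ} {x : A} (hx : x ∉ F.N s) :
    ∃ m : T, m ≠ 1 ∧ lvl m ≤ s ∧ (∀ m' < m, m' ≠ 1 → F.M x m' = 0) ∧ F.M x m ≠ 0 := by
  rw [mem_N] at hx
  push Not at hx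
  obtain ⟨m₀, h1, h2, h3⟩ := hx
  let S : Set T := {m | m ≠ 1 ∧ F.M x m ≠ 0}
  have hS : S.Nonempty := ⟨m₀, h1, h3⟩
  have hwf : WellFounded ((· < ·) : T → T → Prop) := wellFounded_lt
  refine ⟨hwf.min S hS, (hwf.min_mem S hS).1, ?_, ?_, (hwf.min_mem S hS).2⟩
  · have hle : hwf.min S hS ≤ m₀ := not_lt.1 (hwf.not_lt_min S (x := m₀) ⟨h1, h3⟩)
    exact (lvl_mono' hle).trans h2
  · intro m' hm' h'
    by_contra hne
    exact hwf.not_lt_min S (x := m') ⟨h', hne⟩ hm'

theorem N_cvx (s : ℕ) : @Cvx A _ F.bo (F.N s) := by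
  let _ := F.bo
  intro x hx y h1 hyx
  by_contra hy
  obtain ⟨m, hm1, hs, hm2, hm3⟩ := F.exists_first hy
  have hpos : 0 < F.M y m := by
    rcases lt_or_gt_of_ne hm3 with h | h
    · exfalso
      have : y < 1 := F.lt_one_iff'.2 ⟨m, hm1, hm2, h⟩
      exact absurd h1 (not_le.2 this)
    · exact h
  rw [mem_N] at hx
  have hxy : x < y := by
    refine F.lt_iff.2 ⟨m, fun m' hm' => ?_, ?_⟩
    · by_cases h' : m' = 1
      · subst h'; rw [M_at_one, M_at_one]
      · rw [hm2 m' hm' h', hx m' h' ((Lev.lvl_mono _ _ hm').trans hs)]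
    · rw [hx m hm1 hs]
      exact hpos
  exact absurd hyx (not_le.2 hxy)

/-- **The approximations.** -/
noncomputable def appr : @Appr A _ F.bo F.N :=
  let _ := F.bo
  { Γ := fun j _ => Un T j
    grp := fun _ _ => inferInstance
    bo := fun _ _ => inferInstance
    q := F.q
    ker := fun j s x hx => by
      rw [N, Subgroup.mem_iInf] at hx
      exact hx j
    dec := fun s x j j' hj h => by
      rw [q_eq_one_iff] at h ⊢
      exact fun m h1 hm hs => h m h1 (hm.trans hj) hs
    sep := fun s x hx => by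
      obtain ⟨m, hm1, hs, -, hm3⟩ := F.exists_first hx
      refine ⟨len m, fun h => hm3 ?_⟩
      rw [q_eq_one_iff] at h
      exact h m hm1 le_rfl hs
    lex := fun j s x h => by
      classical
      obtain ⟨m, hm1, hm, h1, h2⟩ := one_lt_iff.1 h
      rw [F.c_q j s x hm] at h2
      have hs : lvl m ≤ s := by
        by_contra hs
        rw [if_neg hs] at h2
        exact lt_irrefl _ h2
      rw [if_pos hs] at h2
      refine one_lt_iff.2 ⟨m, hm1, hm, fun m' hm' h' hl => ?_, ?_⟩
      · have hs' : lvl m' ≤ s := (Lev.lvl_mono _ _ hm').trans hs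
        have := h1 m' hm' h' hl
        rw [F.c_q j s x hl, if_pos hs'] at this
        rw [F.c_q j (s + 1) x hl, this, ite_self]
      · rw [F.c_q j (s + 1) x hm, if_pos (by omega)]
        exact h2
    pos := fun j s x hx h => by
      classical
      by_contra hcon
      have hlt : F.q j (s + 1) x < 1 := not_le.1 hcon
      obtain ⟨m, hm, h1, h2⟩ := Pool.Agent.H72.UJ.lt_iff.1 hlt
      have hm1 : m ≠ 1 := by
        rintro rfl
        simp at h2
      rw [c_one hm1 hm, F.c_q j (s + 1) x hm] at h2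
      have hs : lvl m ≤ s + 1 := by
        by_contra hs
        rw [if_neg hs] at h2
        exact lt_irrefl _ h2
      rw [if_pos hs] at h2
      rw [mem_N] at hx
      have hs2 : ¬ lvl m ≤ s := by
        intro hs'
        rw [hx m hm1 hs'] at h2
        exact lt_irrefl _ h2
      -- `m` is the first monomial of `x`
      have hfirst : ∀ m' < m, m' ≠ 1 → F.M x m' = 0 := by
        intro m' hm' h'
        by_cases hl : lvl m' ≤ s
        · exact hx m' h' hl
        · have hl1 : lvl m' ≤ lvl m := Lev.lvl_mono _ _ hm'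
          have hlen : len m' ≤ len m := by
            by_contra hlen
            exact lt_asymm hm' (Lev.len_lt _ _ (by omega) (by omega))
          have := h1 m' hm' (by omega)
          rw [c_one h' (by omega), F.c_q j (s + 1) x (by omega), if_pos (by omega)] at this
          exact this
      have : x < 1 := F.lt_one_iff'.2 ⟨m, hm1, hfirst, h2⟩
      exact absurd h (lt_asymm this) }

end Fam

end

end Pool.Agent.S11
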