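import Pool.Agent.H37.RG.Syl
import Pool.Agent.S11.RaLex

/-!
# Project S11, block RAAG: the Magnus expansion of a right-angled Artin group

`mu j : Raag Γ →* Un (Tr Γ) j`, `gen v ↦ 1 + v`.  Injectivity by the top coefficient: for a reduced syllable expression
`v₁^e₁ ⋯ v_k^e_k` the coefficient at `v₁ ⋯ v_k` is `e₁ ⋯ e_k`, since a reduced trace is not divisible by a square.
-/

set_option autoImplicit false
set_option linter.unusedSectionVars false

open Finset

namespace Pool.Agent.S11.Ra

open Pool.Agent.H72.UJ Pool.Agent.H37.RG Pool.Agent.H68.Amp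

section Gen

variable {T : Type} [Monoid T] [Gr T]

/-- a monomial in the truncated ring -/
noncomputable def mon (j : ℕ) (a : T) : R T j :=
  Ideal.Quotient.mk (trI T j) (MonoidAlgebra.single a 1)

theorem mon_mul (j : ℕ) (a b : T) : mon j a * mon j b = mon j (a * b) := by
  unfold mon
  rw [← map_mul, MonoidAlgebra.single_mul_single, mul_one]

theorem coef_mon_self {j : ℕ} {a : T} (h : len a ≤ j) : coef j a (mon j a) = 1 := by
  unfold mon
  rw [coef_mk h, MonoidAlgebra.coeff_single, Finsupp.single_eq_same]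

theorem coef_mon_ne {j : ℕ} {a m : T} (hm : len m ≤ j) (h : m ≠ a) : coef j m (mon j a) = 0 := by
  unfold mon
  rw [coef_mk hm, MonoidAlgebra.coeff_single, Finsupp.single_eq_of_ne h]

/-- the one-unit `1 + a` -/
noncomputable def onePlus (j : ℕ) (a : T) (ha : a ≠ 1) : Un T j :=
  Un.mk (1 + mon j a) (by
    rw [map_add, coef_one_one, coef_mon_ne (by simp) ha.symm, add_zero])

theorem c_onePlus_self {j : ℕ} {a : T} (ha : a ≠ 1) (h : len a ≤ j) : c (onePlus j a ha) a = 1 := by
  show coef j a (1 + mon j a) = 1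
  rw [map_add, coef_one ha h, coef_mon_self h, zero_add]

theorem c_onePlus_ne {j : ℕ} {a m : T} (ha : a ≠ 1) (hm : len m ≤ j) (h1 : m ≠ 1) (h : m ≠ a) :
    c (onePlus j a ha) m = 0 := by
  show coef j m (1 + mon j a) = 0
  rw [map_add, coef_one h1 hm, coef_mon_ne hm h, zero_add]

theorem onePlus_comm (j : ℕ) {a b : T} (ha : a ≠ 1) (hb : b ≠ 1) (h : a * b = b * a) :
    onePlus j a ha * onePlus j b hb = onePlus j b hb * onePlus j a ha := by
  apply Subtype.ext
  apply Units.ext
  show (1 + mon j a) * (1 + mon j b) = (1 + mon j b) * (1 + mon j a)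
  rw [mul_add, mul_add, mul_one, mul_one, add_mul, add_mul, one_mul, one_mul, mon_mul, mon_mul, h]
  abel

/-- the restriction -/
noncomputable def res {j j' : ℕ} (h : j ≤ j') : Un T j' →* Un T j :=
  MonoidHom.mk' (fun u => ofCoord j (c u)) (by
    intro u v
    refine c_ext fun m h1 hm => ?_
    rw [c_ofCoord _ h1 hm, c_mul_fac _ _ hm, c_mul_fac _ _ (hm.trans h)]
    refine sum_congr rfl fun p hp => ?_
    have hl := (mem_fac.1 hp) ▸ len_mul p.1 p.2
    have key : ∀ (w : Un T j') (q : T), len q ≤ j → c (ofCoord j (c w)) q = c w q := by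
      intro w q hq
      by_cases hq1 : q = 1
      · subst hq1; rw [c_at_one, c_at_one]
      · exact c_ofCoord _ hq1 hq
    rw [key _ _ (by omega), key _ _ (by omega)])

theorem c_res {j j' : ℕ} (h : j ≤ j') (u : Un T j') {m : T} (hm : len m ≤ j) :
    c (res h u) m = c u m := by
  by_cases h1 : m = 1
  · subst h1; rw [c_at_one, c_at_one]
  · exact c_ofCoord _ h1 hm

end Gen

variable {V : Type} [Finite V] (Γ : SimpleGraph V)

theorem of_ne_one (v : V) : Tr.of Γ v ≠ 1 := by
  intro h
  have := congrArg (fun m : Tr Γ => m.cnt) h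
  simp at this

/-- **The Magnus expansion** -/
noncomputable def mu (j : ℕ) : Raag Γ →* Un (Tr Γ) j :=
  raagLift Γ (fun v => onePlus j (Tr.of Γ v) (of_ne_one Γ v))
    (fun _ _ h => onePlus_comm j _ _ (Tr.of_comm Γ h))

theorem mu_gen (j : ℕ) (v : V) : mu Γ j (gen Γ v) = onePlus j (Tr.of Γ v) (of_ne_one Γ v) :=
  raagLift_gen Γ _ _ v

theorem res_mu {j j' : ℕ} (h : j ≤ j') (g : Raag Γ) : res h (mu Γ j' g) = mu Γ j g := by
  have : (res h).comp (mu Γ j') = mu Γ j := by
    apply raag_hom_ext
    intro v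
    rw [MonoidHom.comp_apply, mu_gen, mu_gen]
    refine c_ext fun m h1 hm => ?_
    rw [c_res h _ hm]
    by_cases hv : m = Tr.of Γ v
    · subst hv
      rw [c_onePlus_self _ (hm.trans h), c_onePlus_self _ hm]
    · rw [c_onePlus_ne _ (hm.trans h) h1 hv, c_onePlus_ne _ hm h1 hv]
  rw [← this]
  rfl

theorem mu_coh {j j' : ℕ} (h : j ≤ j') (g : Raag Γ) {m : Tr Γ} (hm : len m ≤ j) :
    c (mu Γ j g) m = c (mu Γ j' g) m := by
  rw [← res_mu Γ h, c_res h _ hm]

/-! ## Killing letters -/

variable {Γ}

/-- all letters of `m` are in `S` -/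
def InS (S : Set V) (m : Tr Γ) : Prop := ∀ v ∈ m.cnt, v ∈ S

theorem inS_mul {S : Set V} {a b : Tr Γ} : InS S (a * b) ↔ InS S a ∧ InS S b := by
  unfold InS
  simp only [Tr.cnt_mul, Multiset.mem_add]
  constructor
  · intro h
    exact ⟨fun v hv => h v (Or.inl hv), fun v hv => h v (Or.inr hv)⟩
  · rintro ⟨h1, h2⟩ v (hv | hv)
    · exact h1 v hv
    · exact h2 v hv

theorem inS_one {S : Set V} : InS S (1 : Tr Γ) := by
  intro v hv
  simp at hv

theorem inS_of {S : Set V} {v : V} : InS S (Tr.of Γ v) ↔ v ∈ S := by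
  unfold InS
  simp

theorem inS_singleton {v : V} {m : Tr Γ} (h : InS {v} m) : ∃ k : ℕ, m = Tr.of Γ v ^ k := by
  induction m using Tr.induction with
  | h1 => exact ⟨0, by simp⟩
  | hm u m ih =>
      rw [inS_mul, inS_of, Set.mem_singleton_iff] at h
      obtain ⟨rfl, h2⟩ := h
      obtain ⟨k, rfl⟩ := ih h2
      exact ⟨k + 1, by rw [pow_succ']⟩

open Classical in
private noncomputable def kill0 {j : ℕ} (S : Set V) (u : Un (Tr Γ) j) : Un (Tr Γ) j :=
  ofCoord j (fun m => if InS S m then c u m else 0)

open Classical in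
private theorem c_kill0 {j : ℕ} (S : Set V) (u : Un (Tr Γ) j) {m : Tr Γ} (hm : len m ≤ j) :
    c (kill0 S u) m = if InS S m then c u m else 0 := by
  by_cases h1 : m = 1
  · subst h1
    rw [if_pos inS_one, c_at_one, c_at_one]
  · exact c_ofCoord _ h1 hm

/-- killing the letters outside of `S` -/
noncomputable def kill (j : ℕ) (S : Set V) : Un (Tr Γ) j →* Un (Tr Γ) j :=
  MonoidHom.mk' (kill0 S) (by
    intro u v
    refine c_ext fun m _ hm => ?_
    classical
    rw [c_kill0 S _ hm, c_mul_fac _ _ hm, c_mul_fac _ _ hm]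
    split_ifs with h
    · refine sum_congr rfl fun p hp => ?_
      have hl := (mem_fac.1 hp) ▸ len_mul p.1 p.2
      rw [← mem_fac.1 hp, inS_mul] at h
      rw [c_kill0 S _ (by omega), c_kill0 S _ (by omega), if_pos h.1, if_pos h.2]
    · symm
      refine sum_eq_zero fun p hp => ?_
      have hl := (mem_fac.1 hp) ▸ len_mul p.1 p.2
      rw [← mem_fac.1 hp, inS_mul] at h
      rw [c_kill0 S _ (by omega), c_kill0 S _ (by omega)]
      by_cases ha : InS S p.1
      · have hb : ¬ InS S p.2 := fun hb => h ⟨ha, hb⟩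
        rw [if_neg hb, mul_zero]
      · rw [if_neg ha, zero_mul])

open Classical in
theorem c_kill (j : ℕ) (S : Set V) (u : Un (Tr Γ) j) {m : Tr Γ} (hm : len m ≤ j) :
    c (kill j S u) m = if InS S m then c u m else 0 := c_kill0 S u hm

theorem kill_mu (j : ℕ) (S : Set V) (g : Raag Γ) :
    kill j S (mu Γ j g) = mu Γ j (ret Γ S g) := by
  have : (kill j S).comp (mu Γ j) = (mu Γ j).comp (ret Γ S) := by
    apply raag_hom_ext
    intro v
    classical
    rw [MonoidHom.comp_apply, MonoidHom.comp_apply, mu_gen]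
    by_cases hv : v ∈ S
    · rw [ret_gen_mem Γ hv, mu_gen]
      refine c_ext fun m h1 hm => ?_
      rw [c_kill j S _ hm]
      by_cases hm' : m = Tr.of Γ v
      · subst hm'
        rw [if_pos (inS_of.2 hv)]
      · rw [c_onePlus_ne _ hm h1 hm']
        simp
    · rw [ret_gen_not Γ hv, map_one]
      refine c_ext fun m h1 hm => ?_
      rw [c_kill j S _ hm, c_one h1 hm]
      by_cases hm' : m = Tr.of Γ v
      · subst hm'
        rw [if_neg (fun h => hv (inS_of.1 h))]
      · rw [c_onePlus_ne _ hm h1 hm']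
        simp
  exact DFunLike.congr_fun this g

open Classical in
/-- **The coefficients of the retraction** -/
theorem mu_ret (j : ℕ) (S : Set V) (g : Raag Γ) {m : Tr Γ} (hm : len m ≤ j) :
    c (mu Γ j (ret Γ S g)) m = if InS S m then c (mu Γ j g) m else 0 := by
  rw [← kill_mu, c_kill j S _ hm]

/-! ## Powers of a generator -/

theorem pfac_of (v : V) : pfac (Tr.of Γ v) = ∅ := by
  rw [Finset.eq_empty_iff_forall_notMem]
  intro p hp
  have h := mem_pfac_len hp
  rw [Tr.len_of] at h
  omega

theorem c_mul_of {j : ℕ} (hj : 1 ≤ j) (u w : Un (Tr Γ) j) (v : V) :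
    c (u * w) (Tr.of Γ v) = c u (Tr.of Γ v) + c w (Tr.of Γ v) := by
  rw [c_mul u w (of_ne_one Γ v) (by rw [Tr.len_of]; exact hj), pfac_of, Finset.sum_empty, add_zero]

/-- the coefficient at a letter is additive -/
noncomputable def chi {j : ℕ} (hj : 1 ≤ j) (v : V) : Un (Tr Γ) j →* Multiplicative ℤ :=
  MonoidHom.mk' (fun u => Multiplicative.ofAdd (c u (Tr.of Γ v)))
    (fun u w => by rw [c_mul_of hj]; rfl)

theorem c_zpow_of {j : ℕ} (hj : 1 ≤ j) (u : Un (Tr Γ) j) (v : V) (e : ℤ) :
    c (u ^ e) (Tr.of Γ v) = e * c u (Tr.of Γ v) := by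
  have h := map_zpow (chi (Γ := Γ) hj v) u e
  have h2 : c (u ^ e) (Tr.of Γ v) = e • c u (Tr.of Γ v) := by
    have h3 := congrArg Multiplicative.toAdd h
    rw [toAdd_zpow] at h3
    exact h3
  rw [h2, smul_eq_mul]

theorem c_mu_zpow {j : ℕ} (hj : 1 ≤ j) (v : V) (e : ℤ) :
    c (mu Γ j (gen Γ v ^ e)) (Tr.of Γ v) = e := by
  rw [map_zpow, c_zpow_of hj, mu_gen, c_onePlus_self _ (by rw [Tr.len_of]; exact hj), mul_one]

theorem c_mu_zpow_zero {j : ℕ} (v : V) (e : ℤ) {m : Tr Γ} (hm : len m ≤ j)
    (h : ∀ k : ℕ, m ≠ Tr.of Γ v ^ k) : c (mu Γ j (gen Γ v ^ e)) m = 0 := by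
  classical
  have h1 : ret Γ {v} (gen Γ v ^ e) = gen Γ v ^ e := by
    rw [map_zpow, ret_gen_mem Γ (Set.mem_singleton v)]
  rw [← h1, mu_ret j {v} _ hm, if_neg]
  intro h2
  obtain ⟨k, hk⟩ := inS_singleton h2
  exact h k hk

/-! ## The top coefficient -/

theorem len_sylTr (L : List (V × ℤ)) : len (sylTr Γ L) = L.length := by
  induction L using List.reverseRecOn with
  | nil => rw [sylTr_nil]; simp
  | append_singleton L p ih =>
      rw [sylTr_snoc, len_mul, ih, Tr.len_of, List.length_append, List.length_singleton]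

open Classical in
/-- **The top coefficient** -/
theorem top (j : ℕ) (L : List (V × ℤ)) : ∀ m : Tr Γ, m.st ≠ none → L.length ≤ len m → len m ≤ j →
    c (mu Γ j (sylProd Γ L)) m = if m = sylTr Γ L then (L.map Prod.snd).prod else 0 := by
  induction L using List.reverseRecOn with
  | nil =>
      intro m _ _ hm
      rw [sylProd_nil, map_one, sylTr_nil]
      by_cases h1 : m = 1
      · subst h1
        rw [if_pos rfl, c_at_one]
        simp
      · rw [if_neg h1, c_one h1 hm]
  | append_singleton L p ih =>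
      obtain ⟨v, e⟩ := p
      intro m hst hlen hm
      rw [List.length_append, List.length_singleton] at hlen
      have h1 : sylProd Γ (L ++ [(v, e)]) = sylProd Γ L * gen Γ v ^ e := by
        rw [sylProd_append, sylProd_cons, sylProd_nil, mul_one]
      rw [h1, map_mul, c_mul_fac _ _ hm, sylTr_snoc]
      have hj : 1 ≤ j := by omega
      have key : ∀ q ∈ fac m, c (mu Γ j (sylProd Γ L)) q.1 * c (mu Γ j (gen Γ v ^ e)) q.2 =
          if q = (sylTr Γ L, Tr.of Γ v) then (L.map Prod.snd).prod * e else 0 := by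
        rintro ⟨a, b⟩ hq
        have hab : a * b = m := mem_fac.1 hq
        have hl := len_mul a b
        rw [hab] at hl
        simp only
        by_cases hb : ∃ k : ℕ, b = Tr.of Γ v ^ k
        · obtain ⟨k, rfl⟩ := hb
          match k, hab, hl with
          | 0, hab, hl =>
              rw [pow_zero, mul_one] at hab
              subst hab
              rw [pow_zero, c_at_one, mul_one]
              rw [ih a hst (by omega) hm, if_neg, if_neg]
              · intro h
                exact of_ne_one Γ v (congrArg Prod.snd h).symm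
              · intro h
                rw [h, len_sylTr] at hlen
                omega
          | 1, hab, hl =>
              rw [pow_one] at hab hl ⊢
              rw [Tr.len_of] at hl
              rw [c_mu_zpow hj]
              have ha : a.st ≠ none := by
                intro h
                rw [← hab, Tr.st_mul h] at hst
                exact hst rfl
              rw [ih a ha (by omega) (by omega)]
              by_cases h2 : a = sylTr Γ L
              · rw [if_pos h2, if_pos (by rw [h2])]
              · rw [if_neg h2, if_neg (fun h => h2 (congrArg Prod.fst h)), zero_mul]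
          | k + 2, hab, hl =>
              exfalso
              apply hst
              rw [← hab, pow_succ, pow_succ, ← mul_assoc, ← mul_assoc]
              exact Tr.st_mul_of_of _ v
        · have hb' : ∀ k : ℕ, b ≠ Tr.of Γ v ^ k := fun k hk => hb ⟨k, hk⟩
          rw [c_mu_zpow_zero v e (by omega) hb', mul_zero, if_neg]
          intro h
          exact hb' 1 (by rw [pow_one]; exact congrArg Prod.snd h)
      rw [sum_congr rfl key, Finset.sum_ite_eq']
      have h2 : (sylTr Γ L, Tr.of Γ v) ∈ fac m ↔ m = sylTr Γ L * Tr.of Γ v := by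
        rw [mem_fac]
        exact eq_comm
      by_cases h3 : m = sylTr Γ L * Tr.of Γ v
      · rw [if_pos (h2.2 h3), if_pos h3, List.map_append, List.prod_append]
        simp
      · rw [if_neg (fun h => h3 (h2.1 h)), if_neg h3]

/-- **The Magnus expansion is injective** -/
theorem mu_inj (g : Raag Γ) (h : ∀ j, mu Γ j g = 1) : g = 1 := by
  classical
  obtain ⟨L, rfl, hne, hst⟩ := exists_reduced_syl Γ g
  by_cases hL : L = []
  · subst hL; rfl
  · exfalso
    have h1 := top (Γ := Γ) L.length L (sylTr Γ L) hst (by rw [len_sylTr]) (by rw [len_sylTr])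
    rw [if_pos rfl, h, c_one _ (by rw [len_sylTr])] at h1
    · have h2 : (L.map Prod.snd).prod ≠ 0 := by
        refine List.prod_ne_zero ?_
        intro h0
        rw [List.mem_map] at h0
        obtain ⟨p, hp, hp0⟩ := h0
        exact hne p hp hp0
      exact h2 h1.symm
    · intro h0
      have := congrArg len h0
      rw [len_sylTr, len_one] at this
      exact hL (List.length_eq_zero_iff.1 this)

variable (Γ) in
/-- the coherent family of a right-angled Artin group -/
noncomputable def raagFam : Fam (Raag Γ) (Tr Γ) where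
  μ := mu Γ
  coh _ _ g _ h hm := mu_coh Γ h g hm
  inj := mu_inj

end Pool.Agent.S11.Ra
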