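import Pool.Agent.H37.RG.Trace
import Pool.Agent.H72.UJ.Grp

/-!
# Project S11: the order on the trace monoid of a graph on `Fin r`

`lvl m` = the largest letter plus one, `0` for the empty trace.  The order: `lvl`, length, tie-break.
-/

set_option autoImplicit false

namespace Pool.Agent.S11.Ra

open Pool.Agent.H37.RG Pool.Agent.H72.UJ

variable {r : ℕ} {Γ : SimpleGraph (Fin r)}

/-- the largest letter plus one (zero for the empty trace) -/
noncomputable def lvl (m : Tr Γ) : ℕ := (m.cnt.map fun v : Fin r => (v : ℕ) + 1).sup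

theorem lvl_mul (a b : Tr Γ) : lvl (a * b) = max (lvl a) (lvl b) := by
  unfold lvl
  rw [Tr.cnt_mul, Multiset.map_add, Multiset.sup_add]

theorem lvl_one : lvl (1 : Tr Γ) = 0 := by
  unfold lvl
  rw [Tr.cnt_one]
  rfl

theorem lvl_le {m : Tr Γ} {s : ℕ} : lvl m ≤ s ↔ ∀ v ∈ m.cnt, (v : ℕ) < s := by
  unfold lvl
  rw [Multiset.sup_le]
  constructor
  · intro h v hv
    exact h _ (Multiset.mem_map_of_mem _ hv)
  · intro h b hb
    obtain ⟨v, hv, rfl⟩ := Multiset.mem_map.1 hb
    exact h v hv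

theorem lvl_of (v : Fin r) : lvl (Tr.of Γ v) = (v : ℕ) + 1 := by
  unfold lvl
  rw [Tr.cnt_of, Multiset.map_singleton, Multiset.sup_singleton]

theorem lvl_le_r (m : Tr Γ) : lvl m ≤ r := lvl_le.2 fun v _ => v.2

theorem lvl_eq_zero {m : Tr Γ} : lvl m = 0 ↔ m = 1 := by
  constructor
  · intro h
    apply Tr.cnt_eq_zero
    rw [Multiset.eq_zero_iff_forall_notMem]
    intro v hv
    exact absurd (lvl_le.1 h.le v hv) (Nat.not_lt_zero _)
  · rintro rfl
    exact lvl_one

instance : Countable (Tr Γ) := by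
  have : Countable (FreeMonoid (Fin r)) := inferInstanceAs (Countable (List (Fin r)))
  exact (Tr.mk_surjective Γ).countable

/-- a code for the tie-break -/
noncomputable def code : Tr Γ → ℕ := (exists_injective_nat (Tr Γ)).choose

theorem code_injective : Function.Injective (code : Tr Γ → ℕ) := (exists_injective_nat (Tr Γ)).choose_spec

/-- the key of the order -/
noncomputable def key (m : Tr Γ) : ℕ ×ₗ (ℕ ×ₗ ℕ) := toLex (lvl m, toLex (len m, code m))

theorem key_injective : Function.Injective (key : Tr Γ → ℕ ×ₗ (ℕ ×ₗ ℕ)) := by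
  intro a b h
  apply code_injective
  have h1 := toLex.injective h
  have h2 := toLex.injective (congrArg Prod.snd h1)
  exact congrArg Prod.snd h2

noncomputable instance : LinearOrder (Tr Γ) := LinearOrder.lift' key key_injective

theorem tr_lt_iff {a b : Tr Γ} : a < b ↔
    lvl a < lvl b ∨ (lvl a = lvl b ∧ (len a < len b ∨ (len a = len b ∧ code a < code b))) := by
  change key a < key b ↔ _
  unfold key
  rw [Prod.Lex.toLex_lt_toLex, Prod.Lex.toLex_lt_toLex]

instance : WellFoundedLT (Tr Γ) := by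
  have h : WellFounded fun a b : Tr Γ => key a < key b := InvImage.wf key wellFounded_lt
  exact ⟨h⟩

instance : Mo (Tr Γ) where
  fac_lt a b ha hb := by
    have h1 := len_pos ha
    have h2 := len_pos hb
    have h3 := lvl_mul a b
    have h4 := len_mul a b
    constructor
    · rw [tr_lt_iff]
      rcases lt_or_ge (lvl a) (lvl b) with h | h
      · left
        rw [h3, max_eq_right h.le]
        exact h
      · right
        rw [h3, max_eq_left h]
        exact ⟨rfl, Or.inl (by omega)⟩
    · rw [tr_lt_iff]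
      rcases lt_or_ge (lvl b) (lvl a) with h | h
      · left
        rw [h3, max_eq_left h.le]
        exact h
      · right
        rw [h3, max_eq_right h]
        exact ⟨rfl, Or.inl (by omega)⟩

theorem lt_of_lvl_lt {a b : Tr Γ} (h : lvl a < lvl b) : a < b := tr_lt_iff.2 (Or.inl h)

theorem lvl_mono {a b : Tr Γ} (h : a ≤ b) : lvl a ≤ lvl b := by
  by_contra h'
  push Not at h'
  exact absurd (lt_of_lvl_lt h') (not_lt.2 h)

theorem lvl_le_of_lt {a b : Tr Γ} (h : a < b) : lvl a ≤ lvl b := lvl_mono h.le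

theorem lt_of_len_lt {a b : Tr Γ} (h : lvl a = lvl b) (h' : len a < len b) : a < b :=
  tr_lt_iff.2 (Or.inr ⟨h, Or.inl h'⟩)

theorem len_le_of_le {a b : Tr Γ} (h : lvl a = lvl b) (h' : a ≤ b) : len a ≤ len b := by
  by_contra h2
  push Not at h2
  exact absurd (lt_of_len_lt h.symm h2) (not_lt.2 h')

/-- the traces of level at most `s` -/
def Lv (Γ : SimpleGraph (Fin r)) (s : ℕ) : Submonoid (Tr Γ) where
  carrier := {m | lvl m ≤ s}
  one_mem' := by
    change lvl (1 : Tr Γ) ≤ s
    rw [lvl_one]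
    exact Nat.zero_le _
  mul_mem' := by
    intro a b ha hb
    change lvl (a * b) ≤ s
    rw [lvl_mul]
    exact max_le ha hb

theorem mem_Lv {s : ℕ} {m : Tr Γ} : m ∈ Lv Γ s ↔ lvl m ≤ s := Iff.rfl

/-- factor closed -/
theorem mul_mem_Lv {s : ℕ} {a b : Tr Γ} : a * b ∈ Lv Γ s ↔ a ∈ Lv Γ s ∧ b ∈ Lv Γ s := by
  rw [mem_Lv, mem_Lv, mem_Lv, lvl_mul, max_le_iff]

/-- an initial segment of the order -/
theorem Lv_of_le {s : ℕ} {a b : Tr Γ} (h : a ≤ b) (hb : b ∈ Lv Γ s) : a ∈ Lv Γ s :=
  (lvl_mono h).trans hb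

end Pool.Agent.S11.Ra
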