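import Pool.Agent.S11.CuB
import Pool.Agent.S11.RaTr
import Pool.Agent.S11.RaMu
import Pool.Agent.S11.RaFr

/-!
# Project S11, class (U): unitriangular integer representations of subgroups of right-angled Artin groups

The truncated monoid ring acts on itself from the right; in the basis of the monomials the one-units are unitriangular.
-/

set_option autoImplicit false
set_option linter.unusedSectionVars false

open Finset

namespace Pool.Agent.S11.Cu

open Pool.Agent.H72.UJ Pool.Agent.H37.RG Pool.Agent.H68.Amp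

section

variable {T : Type} [Monoid T] [Gr T]

theorem expand (j : ℕ) (y : R T j) : y = ∑ a ∈ upto T j, coef j a y • Ra.mon j a := by
  classical
  refine ext_coef fun m hm => ?_
  rw [map_sum, Finset.sum_eq_single m]
  · rw [map_zsmul, Ra.coef_mon_self hm, smul_eq_mul, mul_one]
  · intro a _ ha
    rw [map_zsmul, Ra.coef_mon_ne hm ha.symm, smul_zero]
  · intro h
    exact absurd (mem_upto.2 hm) h

theorem coef_expand (j : ℕ) (y v : R T j) (b : T) :
    coef j b (y * v) = ∑ a ∈ upto T j, coef j a y * coef j b (Ra.mon j a * v) := by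
  conv_lhs => rw [expand j y]
  rw [Finset.sum_mul, map_sum]
  refine Finset.sum_congr rfl fun a _ => ?_
  rw [smul_mul_assoc, map_zsmul, smul_eq_mul]

/-- the matrix of the right multiplication -/
noncomputable def rmul (j : ℕ) {N : ℕ} (e : Fin N ≃ upto T j) : R T j →* Matrix (Fin N) (Fin N) ℤ where
  toFun u := Matrix.of fun a b => coef j (e b).1 (Ra.mon j (e a).1 * u)
  map_one' := by
    ext a b
    change coef j (e b).1 (Ra.mon j (e a).1 * 1) = _
    rw [mul_one]
    by_cases h : a = b
    · subst h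
      rw [Ra.coef_mon_self (mem_upto.1 (e a).2), Matrix.one_apply_eq]
    · rw [Ra.coef_mon_ne (mem_upto.1 (e b).2), Matrix.one_apply_ne h]
      intro h'
      exact h (e.injective (Subtype.ext h'.symm))
  map_mul' u v := by
    ext a b
    rw [Matrix.mul_apply]
    change coef j (e b).1 (Ra.mon j (e a).1 * (u * v)) =
      ∑ c, coef j (e c).1 (Ra.mon j (e a).1 * u) * coef j (e b).1 (Ra.mon j (e c).1 * v)
    rw [← mul_assoc, coef_expand, ← Finset.sum_coe_sort (upto T j), ← e.sum_comp]

theorem rmul_apply (j : ℕ) {N : ℕ} (e : Fin N ≃ upto T j) (u : R T j) (a b : Fin N) :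
    rmul j e u a b = coef j (e b).1 (Ra.mon j (e a).1 * u) := rfl

variable [LinearOrder T] [Mo T]

/-- **Unitriangular representations** of the groups of one-units. -/
theorem exists_rep (h1 : ∀ m : T, m ≠ 1 → 1 < m) (j : ℕ) : ∃ (N : ℕ) (φ : Un T j →* Matrix (Fin N) (Fin N) ℤ),
    (∀ x, IsUT (φ x)) ∧ ∀ x, φ x = 1 → x = 1 := by
  classical
  let E : Fin (upto T j).card ≃o upto T j := (upto T j).orderIsoOfFin rfl
  let e : Fin (upto T j).card ≃ upto T j := E.toEquiv
  have he : ∀ a b : Fin (upto T j).card, a < b ↔ (e a).1 < (e b).1 := fun a b => E.lt_iff_lt.symm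
  refine ⟨_, (rmul j e).comp ((Units.coeHom (R T j)).comp (Un T j).subtype), fun x => ⟨fun a => ?_, fun a b hab => ?_⟩,
    fun x hx => ?_⟩
  · change coef j (e a).1 (Ra.mon j (e a).1 * ((x : (R T j)ˣ) : R T j)) = 1
    have ha : len (e a).1 ≤ j := mem_upto.1 (e a).2
    rw [coef_mul ha, Finset.sum_eq_single ((e a).1, 1), Ra.coef_mon_self ha, one_mul]
    · exact x.2
    · rintro ⟨p, q⟩ hp hne
      rw [mem_fac] at hp
      change p * q = (e a).1 at hp
      have hpj : len p ≤ j := by
        have := len_mul p q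
        rw [hp] at this
        omega
      change coef j p (Ra.mon j (e a).1) * _ = 0
      rw [Ra.coef_mon_ne hpj, zero_mul]
      intro h
      apply hne
      have h2 : len q = 0 := by
        have := len_mul p q
        rw [hp, h] at this
        omega
      rw [h, (len_zero q).1 h2]
    · intro h
      exact absurd (mem_fac.2 (mul_one _)) h
  · change coef j (e b).1 (Ra.mon j (e a).1 * ((x : (R T j)ˣ) : R T j)) = 0
    have hb : len (e b).1 ≤ j := mem_upto.1 (e b).2
    rw [coef_mul hb]
    refine Finset.sum_eq_zero ?_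
    rintro ⟨p, q⟩ hp
    rw [mem_fac] at hp
    change p * q = (e b).1 at hp
    have hpj : len p ≤ j := by
      have := len_mul p q
      rw [hp] at this
      omega
    change coef j p (Ra.mon j (e a).1) * _ = 0
    rw [Ra.coef_mon_ne hpj, zero_mul]
    intro h
    have hba := (he b a).1 hab
    rw [← h] at hba
    have h2 : p ≠ (e b).1 := fun h3 => absurd hba (by rw [h3]; exact lt_irrefl _)
    rcases fst_lt hp h2 with h3 | h3
    · rw [h3] at hba h2
      exact lt_asymm hba (h1 _ h2.symm)
    · exact lt_asymm hba h3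
  · refine c_ext fun m hm1 hm => ?_
    rw [c_one hm1 hm]
    have h2 : (1 : T) ∈ upto T j := mem_upto.2 (by rw [len_one]; exact Nat.zero_le _)
    have h3 := congrFun (congrFun hx (e.symm ⟨1, h2⟩)) (e.symm ⟨m, mem_upto.2 hm⟩)
    change coef j (e (e.symm ⟨m, mem_upto.2 hm⟩)).1 (Ra.mon j (e (e.symm ⟨1, h2⟩)).1 * ((x : (R T j)ˣ) : R T j)) = _ at h3
    rw [Equiv.apply_symm_apply, Equiv.apply_symm_apply] at h3
    have h4 : Ra.mon j (1 : T) = 1 := by
      unfold Ra.mon
      rw [← MonoidAlgebra.one_def, map_one]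
    change coef j m (Ra.mon j (1 : T) * ((x : (R T j)ˣ) : R T j)) = _ at h3
    rw [h4, one_mul, Matrix.one_apply_ne] at h3
    · exact h3
    · intro h5
      apply hm1
      have := e.symm.injective h5
      exact (congrArg Subtype.val this).symm

end

/-! ## Subgroups of right-angled Artin groups -/

section

variable {r : ℕ} (G : SimpleGraph (Fin r)) {H : Type} [Group H] (f : H →* Raag G)

theorem tr_one_lt (m : Tr G) (h : m ≠ 1) : 1 < m := by
  apply Ra.lt_of_lvl_lt
  rw [Ra.lvl_one]
  exact Nat.pos_of_ne_zero fun h0 => h (Ra.lvl_eq_zero.1 h0)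

/-- the elements outside of `N s` are separated by unitriangular representations trivial on `N s` -/
theorem raag_sep (s : ℕ) (x : H) (hx : x ∉ Ra.NR G f s) : ∃ (n : ℕ) (φ : H →* Matrix (Fin n) (Fin n) ℤ),
    (∀ y, IsUT (φ y)) ∧ (∀ y ∈ Ra.NR G f s, φ y = 1) ∧ φ x ≠ 1 := by
  rw [Ra.mem_NR] at hx
  have h1 : ∃ j, Ra.mu G j (ret G {v : Fin r | (v : ℕ) < s} (f x)) ≠ 1 := by
    by_contra h
    push Not at h
    exact hx (Ra.mu_inj _ h)
  obtain ⟨j, hj⟩ := h1
  obtain ⟨n, φ, h2, h3⟩ := exists_rep (T := Tr G) (tr_one_lt G) j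
  refine ⟨n, φ.comp ((Ra.mu G j).comp ((ret G {v : Fin r | (v : ℕ) < s}).comp f)), fun y => h2 _, fun y hy => ?_,
    fun h => hj (h3 _ h)⟩
  rw [Ra.mem_NR] at hy
  change φ (Ra.mu G j (ret G {v : Fin r | (v : ℕ) < s} (f y))) = 1
  rw [hy, map_one, map_one]

end

end Pool.Agent.S11.Cu
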