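import Pool.Agent.S11.Defs

/-!
# Project S11, class (U): finite products of groups with boxes have boxes
-/

set_option autoImplicit false
set_option linter.unusedSectionVars false

open Finset

namespace Pool.Agent.S11.Cu

/-- **Finite products of groups with boxes have boxes.** -/
theorem fbox_pi {ι : Type} [Finite ι] {Q : ι → Type} [∀ i, Group (Q i)] (h : ∀ i, FBox (Q i)) :
    FBox (∀ i, Q i) := by
  classical
  have := Fintype.ofFinite ι
  intro S ε hε
  obtain ⟨δ, hδ0, hδ1, hδ2⟩ : ∃ δ : ℝ, 0 < δ ∧ δ ≤ 1 ∧ (Fintype.card ι : ℝ) * δ ≤ ε := by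
    refine ⟨min 1 (ε / (Fintype.card ι + 1)), ?_, min_le_left _ _, ?_⟩
    · apply lt_min one_pos
      positivity
    · have h1 : min 1 (ε / (Fintype.card ι + 1)) ≤ ε / (Fintype.card ι + 1) := min_le_right _ _
      have h2 : (Fintype.card ι : ℝ) * (ε / (Fintype.card ι + 1)) ≤ ε := by
        rw [mul_div_assoc', div_le_iff₀ (by positivity)]
        nlinarith
      exact (mul_le_mul_of_nonneg_left h1 (by positivity)).trans h2
  choose W B hW E E' h1 h2 h3 h4 h5 h6 h7 using fun i => h i (S.image fun s => s i) δ hδ0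
  let π : (∀ i, Q i) →* (∀ i, Q i ⧸ W i) :=
    MonoidHom.pi fun i => (QuotientGroup.mk' (W i)).comp (Pi.evalMonoidHom Q i)
  have hπ : ∀ x, x ∈ π.ker ↔ ∀ i, x i ∈ W i := by
    intro x
    rw [MonoidHom.mem_ker]
    constructor
    · intro hx i
      have := congrFun hx i
      exact (QuotientGroup.eq_one_iff _).1 this
    · intro hx
      funext i
      exact (QuotientGroup.eq_one_iff _).2 (hx i)
  refine ⟨π.ker, Subgroup.pi Set.univ B, inferInstance, Fintype.piFinset E, Fintype.piFinset E', ?_, ?_, ?_, ?_, ?_,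
    ?_, ?_⟩
  · intro x hx
    rw [Subgroup.mem_pi]
    exact fun i _ => h1 i ((hπ x).1 hx i)
  · exact Finite.of_equiv _ (QuotientGroup.quotientKerEquivRange π).symm.toEquiv
  · have h8 : IsPGroup 2 (∀ i, Q i ⧸ W i) := by
      choose k hk using fun i => IsPGroup.iff_card.1 (h3 i)
      apply IsPGroup.of_card (n := ∑ i, k i)
      rw [Nat.card_pi, ← Finset.prod_pow_eq_pow_sum]
      exact Finset.prod_congr rfl fun i _ => hk i
    exact IsPGroup.of_injective h8 (QuotientGroup.kerLift π) (QuotientGroup.kerLift_injective π)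
  · constructor
    · rintro ⟨⟨b, hb⟩, ⟨e, he⟩⟩ ⟨⟨b', hb'⟩, ⟨e', he'⟩⟩ h8
      change b * e = b' * e' at h8
      rw [Subgroup.mem_pi] at hb hb'
      rw [Fintype.mem_piFinset] at he he'
      have h9 : ∀ i, b i = b' i ∧ e i = e' i := by
        intro i
        have h10 := (h4 i).1 (a₁ := (⟨b i, hb i (Set.mem_univ i)⟩, ⟨e i, he i⟩))
          (a₂ := (⟨b' i, hb' i (Set.mem_univ i)⟩, ⟨e' i, he' i⟩)) (congrFun h8 i)
        exact ⟨congrArg Subtype.val (congrArg Prod.fst h10), congrArg Subtype.val (congrArg Prod.snd h10)⟩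
      obtain rfl : b = b' := funext fun i => (h9 i).1
      obtain rfl : e = e' := funext fun i => (h9 i).2
      rfl
    · intro x
      choose y hy using fun i => (h4 i).2 (x i)
      refine ⟨⟨⟨fun i => (y i).1, ?_⟩, ⟨fun i => (y i).2, ?_⟩⟩, ?_⟩
      · rw [Subgroup.mem_pi]
        exact fun i _ => (y i).1.2
      · rw [Fintype.mem_piFinset]
        exact fun i => (y i).2.2
      · funext i
        exact hy i
  · exact Fintype.piFinset_subset _ _ h5
  · intro e he s hs
    rw [Fintype.mem_piFinset] at he ⊢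
    exact fun i => h6 i (e i) (he i) (s i) (Finset.mem_image_of_mem _ hs)
  · rw [Fintype.card_piFinset, Fintype.card_piFinset]
    push_cast
    calc (1 - ε) * ∏ i, ((E i).card : ℝ) ≤ (1 - δ) ^ (Fintype.card ι) * ∏ i, ((E i).card : ℝ) := by
          refine mul_le_mul_of_nonneg_right ?_ (Finset.prod_nonneg fun _ _ => by positivity)
          have h8 := one_add_mul_le_pow (a := -δ) (by linarith) (Fintype.card ι)
          have h9 : (1 : ℝ) - δ = 1 + -δ := by ring
          rw [h9]
          linarith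
      _ = ∏ i, ((1 - δ) * (E i).card) := by rw [Finset.prod_mul_distrib, Finset.prod_const, Finset.card_univ]
      _ ≤ ∏ i, ((E' i).card : ℝ) := by
          refine Finset.prod_le_prod (fun i _ => ?_) fun i _ => h7 i
          exact mul_nonneg (by linarith) (by positivity)

/-- products of residually finite two-groups -/
theorem Res2.pi {ι : Type} {Q : ι → Type} [∀ i, Group (Q i)] (h : ∀ i, Res2 (Q i)) : Res2 (∀ i, Q i) := by
  intro x hx
  obtain ⟨i, hi⟩ := Function.ne_iff.1 hx
  obtain ⟨W, hW, ⟨k, hk⟩, hxW⟩ := h i (x i) hi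
  refine ⟨W.comap (Pi.evalMonoidHom Q i), hW.comap _, ⟨k, ?_⟩, hxW⟩
  rw [Subgroup.index_comap_of_surjective, hk]
  exact Function.surjective_eval i

end Pool.Agent.S11.Cu
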