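import Pool.Agent.S11.CuD
import Pool.Agent.S11.CuC
import Pool.Agent.S11.CuP

/-!
# Project S11, class (U)

`ClassU H`: a finite chain of normal subgroups with free quotients, such that the quotients of `H` by the subgroups of the
chain are residually unitriangular over `ℤ`.
-/

set_option autoImplicit false
set_option linter.unusedSectionVars false

namespace Pool.Agent.S11

open Cu

/-- A chain `H = N 0 ⊇ N 1 ⊇ ... ⊇ N r = 1` of normal subgroups of `H` with free quotients `N s / N (s + 1)`, such that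
for all `s` the subgroup `N s` is the common kernel of a sequence of homomorphisms from `H` to groups of unitriangular
integer matrices. -/
structure UChain (H : Type) [Group H] (r : ℕ) (N : ℕ → Subgroup H) : Prop where
  zero : N 0 = ⊤
  last : N r = ⊥
  anti : Antitone N
  normal : ∀ s, (N s).Normal
  free : ∀ s < r, IsFreeGroup (N s ⧸ (N (s + 1)).subgroupOf (N s))
  uni : ∀ s, ∃ (n : ℕ → ℕ) (φ : ∀ i, H →* Matrix (Fin (n i)) (Fin (n i)) ℤ),
    (∀ i x, (∀ a, φ i x a a = 1) ∧ ∀ a b, b < a → φ i x a b = 0) ∧ ∀ x, x ∈ N s ↔ ∀ i, φ i x = 1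

/-- **The class (U).** -/
def ClassU (H : Type) [Group H] : Prop := ∃ (r : ℕ) (N : ℕ → Subgroup H), UChain H r N

/-- for countable groups it is enough to separate the elements one by one -/
theorem ClassU.of_countable {H : Type} [Group H] [Countable H] {r : ℕ} {N : ℕ → Subgroup H} (hzero : N 0 = ⊤)
    (hlast : N r = ⊥) (hanti : Antitone N) [hnormal : ∀ s, (N s).Normal]
    (hfree : ∀ s < r, IsFreeGroup (N s ⧸ (N (s + 1)).subgroupOf (N s)))
    (hsep : ∀ s, ∀ x ∉ N s, ∃ (n : ℕ) (φ : H →* Matrix (Fin n) (Fin n) ℤ), (∀ y, IsUT (φ y)) ∧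
      (∀ y ∈ N s, φ y = 1) ∧ φ x ≠ 1) : ClassU H := by
  classical
  refine ⟨r, N, hzero, hlast, hanti, hnormal, hfree, fun s => ?_⟩
  obtain ⟨f, hf⟩ := exists_surjective_nat H
  have h1 : ∀ i, ∃ (n : ℕ) (φ : H →* Matrix (Fin n) (Fin n) ℤ), (∀ y, IsUT (φ y)) ∧ (∀ y ∈ N s, φ y = 1) ∧
      (f i ∉ N s → φ (f i) ≠ 1) := by
    intro i
    by_cases h : f i ∈ N s
    · exact ⟨0, 1, fun y => isUT_one, fun _ _ => rfl, fun h' => absurd h h'⟩
    · obtain ⟨n, φ, h1, h2, h3⟩ := hsep s (f i) h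
      exact ⟨n, φ, h1, h2, fun _ => h3⟩
  choose n φ h2 h3 h4 using h1
  refine ⟨n, φ, h2, fun x => ⟨fun hx i => h3 i x hx, fun hx => ?_⟩⟩
  by_contra hcon
  obtain ⟨i, rfl⟩ := hf x
  exact h4 i hcon (hx i)

/-- **The second instance of the interfaces**: groups of the class (U). -/
theorem ClassU.exists_lex {H : Type} [Group H] (h : ClassU H) :
    ∃ (bo : BO H) (r : ℕ) (N : ℕ → Subgroup H) (_ : @Chain H _ bo r N) (A : @Appr H _ bo N),
      (∀ j, FBox (A.Γ j r)) ∧ Res2 H := by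
  obtain ⟨r, N, ⟨hzero, hlast, hanti, hnormal, hfree, hsep⟩⟩ := h
  choose n φ hφ hker using hsep
  let D : Dat H r N :=
    { Q := fun s i => UT ℤ (n s i)
      grp := fun _ _ => inferInstance
      bo := fun _ _ => inferInstance
      φ := fun s i => toUT (φ s i) (hφ s i)
      triv := fun s i x hx => (toUT_eq_one (φ s i) (hφ s i) x).2 ((hker s x).1 hx i)
      sepa := fun s x hx => by
        by_contra hcon
        push Not at hcon
        exact hx ((hker s x).2 fun i => (toUT_eq_one (φ s i) (hφ s i) x).1 (hcon i)) }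
  refine ⟨D.ord hlast, r, N, D.chain hzero hlast hanti hnormal hfree, D.appr hlast hanti, fun j => ?_, fun x hx => ?_⟩
  · exact fbox_pi (Q := fun p : Fin (r + 1) ×ₗ Fin (j + 1) => UT ℤ (n (ofLex p).1 (ofLex p).2)) fun p => fbox_UT
  · obtain ⟨i, hi⟩ := D.sepa r x (by rw [hlast]; exact hx)
    obtain ⟨W, hW, ⟨k, hk⟩, hxW⟩ := res2_UT (n := n r i) (D.φ r i x) hi
    refine ⟨W.comap (D.φ r i), hW.comap _, ?_, hxW⟩
    have h1 : (W.comap (D.φ r i)).index ∣ 2 ^ k := by
      rw [Subgroup.index_comap, ← hk]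
      exact Subgroup.relIndex_dvd_index_of_normal _ _
    obtain ⟨m, -, hm⟩ := (Nat.dvd_prime_pow Nat.prime_two).1 h1
    exact ⟨m, hm⟩

end Pool.Agent.S11
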