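import Pool.Agent.S11.CuE
import Pool.Agent.S11.CuF

/-!
# Project S11, class (U): subgroups of right-angled Artin groups are in the class (U)
-/

set_option autoImplicit false
set_option linter.unusedSectionVars false

namespace Pool.Agent.S11

open Cu Pool.Agent.H68.Amp

theorem countable_raag {r : ℕ} (G : SimpleGraph (Fin r)) : Countable (Raag G) := by
  have h : Countable (FreeGroup (Fin r)) := Raag1_countable_freeGroup (Fin r)
  have h1 : Function.Surjective (QuotientGroup.mk : FreeGroup (Fin r) → Raag G) := QuotientGroup.mk_surjective
  exact h1.countable

/-- **Every subgroup of a right-angled Artin group is in the class (U).** -/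
theorem ClassU.of_raag {r : ℕ} (G : SimpleGraph (Fin r)) {H : Type} [Group H] (f : H →* Raag G)
    (hf : Function.Injective f) : ClassU H := by
  have := countable_raag G
  have : Countable H := hf.countable
  exact ClassU.of_countable (N := Ra.NR G f) (r := r) (Ra.NR_zero G f) (Ra.NR_last G f hf) (Ra.NR_anti G f)
    (fun s hs => Ra.NR_free G f hs) (fun s x hx => raag_sep G f s x hx)

end Pool.Agent.S11
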