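import Pool.Agent.S11.CuG

/-!
# Project S11, class (U): the action of automorphisms on the truncated Magnus algebra
-/

set_option autoImplicit false
set_option linter.unusedSectionVars false

open Finset

namespace Pool.Agent.S11.Cu

open Pool.Agent.H72.UJ Pool.Agent.H37.RG Pool.Agent.H68.Amp

section

variable {V : Type} [Finite V] {Γ : SimpleGraph V} {j : ℕ}

/-- the value of a one-unit -/
abbrev vl (u : Un (Tr Γ) j) : R (Tr Γ) j := ((u : (R (Tr Γ) j)ˣ) : R (Tr Γ) j)

theorem vl_mul (u v : Un (Tr Γ) j) : vl (u * v) = vl u * vl v := rfl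

theorem vl_one : vl (1 : Un (Tr Γ) j) = 1 := rfl

theorem coef_vl (u : Un (Tr Γ) j) (m : Tr Γ) : coef j m (vl u) = c u m := rfl

theorem mon_one : Ra.mon j (1 : Tr Γ) = 1 := by
  unfold Ra.mon
  rw [← MonoidAlgebra.one_def, map_one]

/-- ring homomorphisms are determined by the letters -/
theorem ring_ext {S : Type*} [Ring S] {f g : R (Tr Γ) j →+* S}
    (h : ∀ v, f (Ra.mon j (Tr.of Γ v)) = g (Ra.mon j (Tr.of Γ v))) (y : R (Tr Γ) j) : f y = g y := by
  have h1 : ∀ m : Tr Γ, f (Ra.mon j m) = g (Ra.mon j m) := by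
    intro m
    induction m using Tr.induction with
    | h1 => rw [mon_one, map_one, map_one]
    | hm v m ih => rw [← Ra.mon_mul, map_mul, map_mul, h, ih]
  rw [expand j y, map_sum, map_sum]
  refine Finset.sum_congr rfl fun a _ => ?_
  rw [map_zsmul, map_zsmul, h1]

variable (j) (α : Raag Γ →* Raag Γ)

/-- the image of a letter -/
noncomputable def gv (v : V) : R (Tr Γ) j := vl (Ra.mu Γ j (α (gen Γ v))) - 1

theorem gv_comm {u v : V} (h : Γ.Adj u v) : gv j α u * gv j α v = gv j α v * gv j α u := by
  have h1 : vl (Ra.mu Γ j (α (gen Γ u))) * vl (Ra.mu Γ j (α (gen Γ v))) =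
      vl (Ra.mu Γ j (α (gen Γ v))) * vl (Ra.mu Γ j (α (gen Γ u))) := by
    rw [← vl_mul, ← vl_mul, ← map_mul, ← map_mul, ← map_mul, ← map_mul, gen_comm Γ h]
  unfold gv
  simp only [sub_mul, mul_sub, one_mul, mul_one, h1]
  abel

/-- the images of the monomials -/
noncomputable def tau : Tr Γ →* R (Tr Γ) j := Tr.lift Γ (gv j α) fun _ _ h => gv_comm j α h

theorem tau_of (v : V) : tau j α (Tr.of Γ v) = gv j α v := Tr.lift_of Γ _ _ v

theorem coef_gv_one (v : V) : coef j 1 (gv j α v) = 0 := by
  unfold gv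
  rw [map_sub, coef_one_one, coef_vl, c_at_one, sub_self]

theorem coef_gv {v : V} {m : Tr Γ} (h1 : m ≠ 1) (hm : len m ≤ j) :
    coef j m (gv j α v) = c (Ra.mu Γ j (α (gen Γ v))) m := by
  unfold gv
  rw [map_sub, coef_one h1 hm, coef_vl, sub_zero]

theorem coef_tau_zero (m : Tr Γ) : ∀ a : Tr Γ, len a < len m → len a ≤ j → coef j a (tau j α m) = 0 := by
  induction m using Tr.induction with
  | h1 =>
    intro a h _
    rw [len_one] at h
    exact absurd h (Nat.not_lt_zero _)
  | hm v m ih =>
    intro a h ha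
    rw [map_mul, tau_of, coef_mul ha]
    refine Finset.sum_eq_zero fun p hp => ?_
    have hl := (mem_fac.1 hp) ▸ len_mul p.1 p.2
    rw [len_mul, Tr.len_of] at h
    by_cases h1 : p.1 = 1
    · rw [h1, coef_gv_one, zero_mul]
    · have := len_pos h1
      rw [ih p.2 (by omega) (by omega), mul_zero]

/-- the homomorphism of the monoid ring -/
noncomputable def A0 : MonoidAlgebra ℤ (Tr Γ) →+* R (Tr Γ) j :=
  MonoidAlgebra.liftNCRingHom (Int.castRingHom _) (tau j α) fun a _ => Int.cast_commute a _

theorem A0_single (m : Tr Γ) (z : ℤ) : A0 j α (MonoidAlgebra.single m z) = z • tau j α m := by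
  unfold A0
  change MonoidAlgebra.liftNC _ _ _ = _
  rw [MonoidAlgebra.liftNC_single, zsmul_eq_mul]
  rfl

theorem A0_trI {f : MonoidAlgebra ℤ (Tr Γ)} (hf : f ∈ trI (Tr Γ) j) : A0 j α f = 0 := by
  classical
  refine ext_coef fun a ha => ?_
  rw [map_zero]
  have h1 : f = ∑ m ∈ f.coeff.support, MonoidAlgebra.single m (f.coeff m) := by
    apply MonoidAlgebra.coeff_injective
    rw [MonoidAlgebra.coeff_sum]
    conv_lhs => rw [← Finsupp.sum_single f.coeff]
    rfl
  rw [h1, map_sum, map_sum]
  refine Finset.sum_eq_zero fun m hm => ?_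
  rw [A0_single, map_zsmul]
  have h2 : j < len m := by
    by_contra h
    exact (Finsupp.mem_support_iff.1 hm) (hf m (not_lt.1 h))
  rw [coef_tau_zero j α m a (by omega) ha, smul_zero]

/-- **The action on the truncated Magnus algebra** -/
noncomputable def A : R (Tr Γ) j →+* R (Tr Γ) j :=
  Ideal.Quotient.lift (trI (Tr Γ) j) (A0 j α) fun _ h => A0_trI j α h

theorem A_mon (m : Tr Γ) : A j α (Ra.mon j m) = tau j α m := by
  unfold A Ra.mon
  rw [Ideal.Quotient.lift_mk, A0_single, one_smul]

theorem A_mu (g : Raag Γ) : A j α (vl (Ra.mu Γ j g)) = vl (Ra.mu Γ j (α g)) := by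
  have h : ((Units.map (A j α : R (Tr Γ) j →* R (Tr Γ) j)).comp ((Un (Tr Γ) j).subtype.comp (Ra.mu Γ j))) =
      (Un (Tr Γ) j).subtype.comp ((Ra.mu Γ j).comp α) := by
    apply raag_hom_ext
    intro v
    apply Units.ext
    change A j α (vl (Ra.mu Γ j (gen Γ v))) = vl (Ra.mu Γ j (α (gen Γ v)))
    rw [Ra.mu_gen]
    change A j α (1 + Ra.mon j (Tr.of Γ v)) = _
    rw [map_add, map_one, A_mon, tau_of]
    unfold gv
    abel
  have h1 := DFunLike.congr_fun h g
  exact congrArg Units.val h1

theorem A_id (y : R (Tr Γ) j) : A j (MonoidHom.id (Raag Γ)) y = y := by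
  refine ring_ext (f := A j (MonoidHom.id (Raag Γ))) (g := RingHom.id _) (fun v => ?_) y
  rw [A_mon, tau_of]
  unfold gv
  rw [MonoidHom.id_apply, Ra.mu_gen]
  change 1 + Ra.mon j (Tr.of Γ v) - 1 = Ra.mon j (Tr.of Γ v)
  abel

theorem A_comp (β : Raag Γ →* Raag Γ) (y : R (Tr Γ) j) : A j (α.comp β) y = A j α (A j β y) := by
  refine ring_ext (f := A j (α.comp β)) (g := (A j α).comp (A j β)) (fun v => ?_) y
  rw [RingHom.comp_apply, A_mon, A_mon, tau_of, tau_of]
  unfold gv
  rw [map_sub, map_one, A_mu]
  rfl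

variable {α}

open Classical in
/-- if `α` is trivial on the abelianization, then the action is unitriangular -/
theorem coef_tau (hα : ∀ v w : V, 1 ≤ j → c (Ra.mu Γ j (α (gen Γ v))) (Tr.of Γ w) = if v = w then 1 else 0)
    (b : Tr Γ) : ∀ a : Tr Γ, len a ≤ len b → len a ≤ j → coef j a (tau j α b) = if a = b then 1 else 0 := by
  classical
  induction b using Tr.induction with
  | h1 =>
    intro a h _
    rw [len_one] at h
    have : a = 1 := (len_zero a).1 (by omega)
    subst this
    rw [map_one, coef_one_one, if_pos rfl]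
  | hm v m ih =>
    intro a h ha
    rw [map_mul, tau_of, coef_mul ha]
    rw [len_mul, Tr.len_of] at h
    have key : ∀ p ∈ fac a, coef j p.1 (gv j α v) * coef j p.2 (tau j α m) =
        if p = (Tr.of Γ v, m) then 1 else 0 := by
      intro p hp
      have hl := (mem_fac.1 hp) ▸ len_mul p.1 p.2
      by_cases h1 : p.1 = 1
      · rw [h1, coef_gv_one, zero_mul, if_neg]
        intro h2
        rw [h2] at h1
        exact Ra.of_ne_one Γ v h1
      · have hp1 := len_pos h1
        rcases Nat.lt_or_ge 1 (len p.1) with h2 | h2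
        · rw [ih p.2 (by omega) (by omega), if_neg, mul_zero, if_neg]
          · intro h3
            rw [h3, Tr.len_of] at h2
            exact lt_irrefl _ h2
          · intro h3
            rw [h3] at hl
            omega
        · have h3 : len p.1 = 1 := by omega
          have h4 : ∃ w, p.1 = Tr.of Γ w := by
            obtain ⟨l, h5, h6⟩ := p.1.exists_word
            have h7 : l.length = 1 := by
              have h8 : len p.1 = p.1.cnt.card := Tr.len_def p.1
              rw [← h5, Multiset.coe_card] at h8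
              omega
            obtain ⟨w, rfl⟩ := List.length_eq_one_iff.1 h7
            exact ⟨w, h6.symm⟩
          obtain ⟨w, hw⟩ := h4
          rw [ih p.2 (by omega) (by omega), coef_gv j α h1 (by omega), hw, hα v w (by omega)]
          by_cases h5 : v = w
          · subst h5
            rw [if_pos rfl, one_mul]
            by_cases h6 : p.2 = m
            · rw [if_pos h6, if_pos (Prod.ext hw h6)]
            · rw [if_neg h6, if_neg fun h7 => h6 (congrArg Prod.snd h7)]
          · rw [if_neg h5, zero_mul, if_neg]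
            intro h6
            rw [h6] at hw
            have h7 := congrArg (fun m : Tr Γ => m.cnt) hw
            simp only [Tr.cnt_of, Multiset.singleton_inj] at h7
            exact h5 h7
    rw [Finset.sum_congr rfl key, Finset.sum_ite_eq']
    by_cases h1 : a = Tr.of Γ v * m
    · rw [if_pos h1, if_pos (mem_fac.2 h1.symm)]
    · rw [if_neg h1, if_neg fun h2 => h1 (mem_fac.1 h2).symm]

end

end Pool.Agent.S11.Cu
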