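import Pool.Agent.S11.CuF

/-!
# Project S11, class (U): subgroups
-/

set_option autoImplicit false
set_option linter.unusedSectionVars false

namespace Pool.Agent.S11

open Cu

/-- a group which embeds into a free group is free -/
theorem isFree_of_inj {A B : Type} [Group A] [Group B] [IsFreeGroup B] (f : A →* B) (hf : Function.Injective f) :
    IsFreeGroup A := IsFreeGroup.ofMulEquiv (MonoidHom.ofInjective hf).symm

/-- the chain of the intersections with a subgroup -/
theorem UChain.comap {H G : Type} [Group H] [Group G] (f : H →* G) (hf : Function.Injective f) {r : ℕ}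
    {N : ℕ → Subgroup G} (h : UChain G r N) : UChain H r (fun s => (N s).comap f) := by
  have hn := h.normal
  refine ⟨?_, ?_, fun a b hab => Subgroup.comap_mono (h.anti hab), fun s => (hn s).comap f, fun s hs => ?_,
    fun s => ?_⟩
  · rw [h.zero, Subgroup.comap_top]
  · rw [h.last]
    exact (MonoidHom.ker_eq_bot_iff f).2 hf
  · have := h.free s hs
    let g : (N s).comap f →* N s := (f.comp ((N s).comap f).subtype).codRestrict (N s) fun x => x.2
    have hg : ∀ x, g x ∈ (N (s + 1)).subgroupOf (N s) ↔ x ∈ ((N (s + 1)).comap f).subgroupOf ((N s).comap f) :=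
      fun x => Iff.rfl
    refine isFree_of_inj (QuotientGroup.map _ ((N (s + 1)).subgroupOf (N s)) g fun x hx => (hg x).2 hx) ?_
    rw [injective_iff_map_eq_one]
    intro a
    induction a using QuotientGroup.induction_on with
    | H x =>
      intro hx
      change ((g x : N s) : N s ⧸ (N (s + 1)).subgroupOf (N s)) = 1 at hx
      exact (QuotientGroup.eq_one_iff x).2 ((hg x).1 ((QuotientGroup.eq_one_iff (g x)).1 hx))
  · obtain ⟨n, φ, h1, h2⟩ := h.uni s
    exact ⟨n, fun i => (φ i).comp f, fun i x => h1 i (f x), fun x => h2 (f x)⟩

/-- **Subgroups of groups of the class (U) are in the class (U).** -/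
theorem ClassU.comap {H G : Type} [Group H] [Group G] (f : H →* G) (hf : Function.Injective f) (h : ClassU G) :
    ClassU H := by
  obtain ⟨r, N, h⟩ := h
  exact ⟨r, _, h.comap f hf⟩

end Pool.Agent.S11
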