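import Pool.Agent.S11.CuH

/-!
# Project S11, class (U): semidirect products with free groups

`F ⋊ Q` with `F` free of finite rank, `Q` in the class (U) and acting trivially on the abelianization of `F` is in the
class (U) (for example the pure braid groups).
-/

set_option autoImplicit false
set_option linter.unusedSectionVars false

open Finset

namespace Pool.Agent.S11.Cu

open Pool.Agent.H72.UJ Pool.Agent.H37.RG Pool.Agent.H68.Amp

/-- an enumeration along which the rank does not increase -/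
theorem exists_fin {ι : Type} [Finite ι] (rk : ι → ℕ) :
    ∃ (N : ℕ) (e : Fin N ≃ ι), ∀ a b, a < b → rk (e b) ≤ rk (e a) := by
  obtain ⟨N, ⟨e₀⟩⟩ := Finite.exists_equiv_fin ι
  let f : Fin N → ℕᵒᵈ := fun i => OrderDual.toDual (rk (e₀.symm i))
  refine ⟨N, (Tuple.sort f).trans e₀.symm, fun a b hab => ?_⟩
  exact Tuple.monotone_sort f hab.le

section

variable {V : Type} [Finite V] {Γ : SimpleGraph V}

open Classical in
/-- a unitriangular action on the truncated Magnus algebra gives unitriangular matrices -/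
theorem exists_uni {G : Type} [Group G] (j : ℕ) (L : G →* AddMonoid.End (R (Tr Γ) j))
    (hL : ∀ (g : G) (a b : Tr Γ), len a ≤ len b → len b ≤ j →
      coef j a (L g (Ra.mon j b)) = if a = b then 1 else 0) :
    ∃ (N : ℕ) (φ : G →* Matrix (Fin N) (Fin N) ℤ), (∀ g, IsUT (φ g)) ∧
      ∀ g, φ g = 1 → ∀ a b : Tr Γ, len a ≤ j → len b ≤ j → coef j a (L g (Ra.mon j b)) = if a = b then 1 else 0 := by
  obtain ⟨N, e, he⟩ := exists_fin (fun m : upto (Tr Γ) j => len m.1)
  have hle : ∀ a, len (e a).1 ≤ j := fun a => mem_upto.1 (e a).2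
  refine ⟨N,
    { toFun := fun g => Matrix.of fun a b => coef j (e a).1 (L g (Ra.mon j (e b).1))
      map_one' := ?_
      map_mul' := ?_ }, fun g => ⟨fun a => ?_, fun a b hab => ?_⟩, fun g hg a b ha hb => ?_⟩
  · ext a b
    rw [map_one]
    change coef j (e a).1 (Ra.mon j (e b).1) = _
    by_cases h : a = b
    · subst h
      rw [Ra.coef_mon_self (hle a), Matrix.one_apply_eq]
    · rw [Ra.coef_mon_ne (hle a), Matrix.one_apply_ne h]
      intro h'
      exact h (e.injective (Subtype.ext h'))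
  · intro g g'
    ext a b
    rw [Matrix.mul_apply]
    change coef j (e a).1 (L (g * g') (Ra.mon j (e b).1)) =
      ∑ c, coef j (e a).1 (L g (Ra.mon j (e c).1)) * coef j (e c).1 (L g' (Ra.mon j (e b).1))
    rw [map_mul]
    change coef j (e a).1 (L g (L g' (Ra.mon j (e b).1))) = _
    conv_lhs => rw [expand j (L g' (Ra.mon j (e b).1))]
    rw [map_sum, map_sum, ← Finset.sum_coe_sort (upto (Tr Γ) j), ← e.sum_comp]
    refine Finset.sum_congr rfl fun c _ => ?_
    rw [map_zsmul, map_zsmul, smul_eq_mul, mul_comm]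
  · change coef j (e a).1 (L g (Ra.mon j (e a).1)) = 1
    rw [hL g _ _ le_rfl (hle a), if_pos rfl]
  · change coef j (e a).1 (L g (Ra.mon j (e b).1)) = 0
    rw [hL g _ _ (he b a hab) (hle b), if_neg]
    intro h
    exact hab.ne' (e.injective (Subtype.ext h))
  · have h1 := congrFun (congrFun hg (e.symm ⟨a, mem_upto.2 ha⟩)) (e.symm ⟨b, mem_upto.2 hb⟩)
    change coef j (e (e.symm ⟨a, mem_upto.2 ha⟩)).1 (L g (Ra.mon j (e (e.symm ⟨b, mem_upto.2 hb⟩)).1)) = _ at h1
    rw [Equiv.apply_symm_apply, Equiv.apply_symm_apply] at h1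
    rw [h1]
    by_cases h : a = b
    · subst h
      rw [Matrix.one_apply_eq, if_pos rfl]
    · rw [Matrix.one_apply_ne, if_neg h]
      intro h'
      exact h (congrArg Subtype.val (e.symm.injective h'))

variable {Q : Type} [Group Q] (φ : Q →* MulAut (Raag Γ))

/-- the action of the semidirect product on the truncated Magnus algebra -/
noncomputable def Lact (j : ℕ) : Raag Γ ⋊[φ] Q →* AddMonoid.End (R (Tr Γ) j) where
  toFun g := (AddMonoidHom.mulLeft (vl (Ra.mu Γ j g.left))).comp (A j (φ g.right).toMonoidHom).toAddMonoidHom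
  map_one' := by
    ext y
    change vl (Ra.mu Γ j 1) * A j (φ 1).toMonoidHom y = y
    rw [map_one, vl_one, one_mul, map_one]
    exact A_id j y
  map_mul' g g' := by
    ext y
    change vl (Ra.mu Γ j (g.left * φ g.right g'.left)) * A j (φ (g.right * g'.right)).toMonoidHom y =
      vl (Ra.mu Γ j g.left) * A j (φ g.right).toMonoidHom (vl (Ra.mu Γ j g'.left) * A j (φ g'.right).toMonoidHom y)
    rw [map_mul (A j (φ g.right).toMonoidHom), A_mu, map_mul (Ra.mu Γ j), vl_mul, mul_assoc]
    congr 2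
    have h1 : (φ (g.right * g'.right)).toMonoidHom = (φ g.right).toMonoidHom.comp (φ g'.right).toMonoidHom := by
      ext x
      rw [map_mul]
      rfl
    rw [h1]
    exact A_comp j _ _ y

theorem Lact_apply (j : ℕ) (g : Raag Γ ⋊[φ] Q) (y : R (Tr Γ) j) :
    Lact φ j g y = vl (Ra.mu Γ j g.left) * A j (φ g.right).toMonoidHom y := rfl

variable {φ}

theorem coef_letter (hφ : ∀ q x, φ q x * x⁻¹ ∈ commutator (Raag Γ)) (q : Q) {j : ℕ} (hj : 1 ≤ j) (x : Raag Γ) (w : V) :
    c (Ra.mu Γ j (φ q x)) (Tr.of Γ w) = c (Ra.mu Γ j x) (Tr.of Γ w) := by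
  have h1 : ((Ra.chi (Γ := Γ) hj w).comp (Ra.mu Γ j)) (φ q x * x⁻¹) = 1 :=
    Abelianization.commutator_subset_ker _ (hφ q x)
  rw [map_mul, map_inv, mul_inv_eq_one] at h1
  exact h1

open Classical in
theorem coef_Lact (hφ : ∀ q x, φ q x * x⁻¹ ∈ commutator (Raag Γ)) (j : ℕ) (g : Raag Γ ⋊[φ] Q) (a b : Tr Γ)
    (hab : len a ≤ len b) (hb : len b ≤ j) :
    coef j a (Lact φ j g (Ra.mon j b)) = if a = b then 1 else 0 := by
  rw [Lact_apply, A_mon, coef_mul (hab.trans hb)]
  have hα : ∀ v w : V, 1 ≤ j →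
      c (Ra.mu Γ j ((φ g.right).toMonoidHom (gen Γ v))) (Tr.of Γ w) = if v = w then 1 else 0 := by
    intro v w hj
    refine (coef_letter hφ g.right hj (gen Γ v) w).trans ?_
    rw [Ra.mu_gen]
    by_cases h : v = w
    · subst h
      rw [if_pos rfl, Ra.c_onePlus_self _ (by rw [Tr.len_of]; exact hj)]
    · rw [if_neg h, Ra.c_onePlus_ne _ (by rw [Tr.len_of]; exact hj) (Ra.of_ne_one Γ w)]
      intro h7
      have h8 := congrArg (fun m : Tr Γ => m.cnt) h7
      simp only [Tr.cnt_of, Multiset.singleton_inj] at h8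
      exact h h8.symm
  have key : ∀ p ∈ fac a, coef j p.1 (vl (Ra.mu Γ j g.left)) * coef j p.2 (tau j (φ g.right).toMonoidHom b) =
      if p = (1, b) then 1 else 0 := by
    intro p hp
    have hl := (mem_fac.1 hp) ▸ len_mul p.1 p.2
    rw [coef_tau j hα b p.2 (by omega) (by omega)]
    by_cases h : p.2 = b
    · have h1 : p.1 = 1 := (len_zero _).1 (by rw [h] at hl; omega)
      rw [if_pos h, if_pos (Prod.ext h1 h), h1, coef_vl, c_at_one, mul_one]
    · rw [if_neg h, mul_zero, if_neg]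
      intro h'
      exact h (congrArg Prod.snd h')
  rw [Finset.sum_congr rfl key, Finset.sum_ite_eq']
  by_cases h1 : a = b
  · rw [if_pos h1, if_pos (mem_fac.2 (by rw [h1, one_mul]))]
  · rw [if_neg h1, if_neg fun h2 => h1 (by
      have := mem_fac.1 h2
      rw [← this, one_mul])]

/-- **Representations** of the semidirect product which separate the elements of the normal subgroup. -/
theorem exists_semi (hφ : ∀ q x, φ q x * x⁻¹ ∈ commutator (Raag Γ)) (j : ℕ) :
    ∃ (N : ℕ) (ρ : Raag Γ ⋊[φ] Q →* Matrix (Fin N) (Fin N) ℤ), (∀ g, IsUT (ρ g)) ∧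
      ∀ x : Raag Γ, ρ (SemidirectProduct.inl x) = 1 → Ra.mu Γ j x = 1 := by
  classical
  obtain ⟨N, ρ, h1, h2⟩ := exists_uni j (Lact φ j) (coef_Lact hφ j)
  refine ⟨N, ρ, h1, fun x hx => c_ext fun m hm1 hm => ?_⟩
  have h3 := h2 _ hx m 1 hm (by rw [len_one]; exact Nat.zero_le _)
  rw [Lact_apply, mon_one, map_one, mul_one, coef_vl, if_neg hm1] at h3
  rw [c_one hm1 hm]
  exact h3

end

end Pool.Agent.S11.Cu
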