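import Pool.Agent.S11.CuK
import Pool.Agent.S11.CuI

/-!
# Project S11, class (U): semidirect products `F ⋊ Q`

`F` a free group of finite rank, `Q` in the class (U), acting trivially on the abelianization of `F`.  For example the
pure braid groups are such products, with `Q` the pure braid group on one strand less.
-/

set_option autoImplicit false
set_option linter.unusedSectionVars false

namespace Pool.Agent.S11

open Cu Pool.Agent.H68.Amp Pool.Agent.H37.RG

section

variable (n : ℕ)

/-- the free group is the right-angled Artin group of the graph without edges -/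
noncomputable def eRF : FreeGroup (Fin n) ≃* Raag (⊥ : SimpleGraph (Fin n)) :=
  MonoidHom.toMulEquiv (FreeGroup.lift (gen ⊥))
    (raagLift ⊥ FreeGroup.of fun _ _ h => absurd h (by simp)) (by
      apply FreeGroup.ext_hom
      intro v
      rw [MonoidHom.comp_apply, FreeGroup.lift_apply_of, raagLift_gen, MonoidHom.id_apply]) (by
      apply raag_hom_ext
      intro v
      rw [MonoidHom.comp_apply, raagLift_gen, FreeGroup.lift_apply_of, MonoidHom.id_apply])

end

theorem mem_commutator_map {A B : Type} [Group A] [Group B] (f : A →* B) {x : A} (hx : x ∈ commutator A) :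
    f x ∈ commutator B := by
  have h : (Abelianization.of.comp f) x = 1 := Abelianization.commutator_subset_ker _ hx
  exact (QuotientGroup.eq_one_iff _).1 h

/-- the families of representations, indexed by a countable type -/
theorem uni_of_countable {H : Type} [Group H] {ι : Type} [Countable ι] [Nonempty ι] (M : Subgroup H) (n : ι → ℕ)
    (φ : ∀ i, H →* Matrix (Fin (n i)) (Fin (n i)) ℤ) (hφ : ∀ i x, IsUT (φ i x)) (h : ∀ x, x ∈ M ↔ ∀ i, φ i x = 1) :
    ∃ (n : ℕ → ℕ) (φ : ∀ i, H →* Matrix (Fin (n i)) (Fin (n i)) ℤ),
      (∀ i x, (∀ a, φ i x a a = 1) ∧ ∀ a b, b < a → φ i x a b = 0) ∧ ∀ x, x ∈ M ↔ ∀ i, φ i x = 1 := by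
  obtain ⟨f, hf⟩ := exists_surjective_nat ι
  refine ⟨fun k => n (f k), fun k => φ (f k), fun k x => hφ (f k) x, fun x => ?_⟩
  rw [h]
  exact hf.forall

theorem free_congr {G : Type} [Group G] {A A' B B' : Subgroup G} [B.Normal] [B'.Normal] (hA : A = A') (hB : B = B')
    (h : IsFreeGroup (A' ⧸ B'.subgroupOf A')) : IsFreeGroup (A ⧸ B.subgroupOf A) := by
  subst hA
  subst hB
  exact h

section

variable {n : ℕ} {Q : Type} [Group Q] (φ : Q →* MulAut (FreeGroup (Fin n)))

/-- **Representations** of the semidirect product with a free group. -/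
theorem exists_semi_free (hφ : ∀ q x, φ q x * x⁻¹ ∈ commutator (FreeGroup (Fin n))) (j : ℕ) :
    ∃ (N : ℕ) (ρ : FreeGroup (Fin n) ⋊[φ] Q →* Matrix (Fin N) (Fin N) ℤ), (∀ g, IsUT (ρ g)) ∧
      ∀ x : FreeGroup (Fin n), ρ (SemidirectProduct.inl x) = 1 → Ra.mu ⊥ j (eRF n x) = 1 := by
  let φ' : Q →* MulAut (Raag (⊥ : SimpleGraph (Fin n))) := (MulAut.congr (eRF n)).toMonoidHom.comp φ
  have happ : ∀ q x, φ' q (eRF n x) = eRF n (φ q x) := by
    intro q x
    change eRF n (φ q ((eRF n).symm (eRF n x))) = _
    rw [MulEquiv.symm_apply_apply]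
  have hφ' : ∀ q y, φ' q y * y⁻¹ ∈ commutator (Raag (⊥ : SimpleGraph (Fin n))) := by
    intro q y
    obtain ⟨x, rfl⟩ := (eRF n).surjective y
    rw [happ, ← map_inv, ← map_mul]
    exact mem_commutator_map (eRF n).toMonoidHom (hφ q x)
  let M : FreeGroup (Fin n) ⋊[φ] Q →* Raag (⊥ : SimpleGraph (Fin n)) ⋊[φ'] Q :=
    SemidirectProduct.map (eRF n).toMonoidHom (MonoidHom.id Q) (by
      intro q
      apply MonoidHom.ext
      intro x
      exact (happ q x).symm)
  obtain ⟨N, ρ, h1, h2⟩ := exists_semi hφ' j
  refine ⟨N, ρ.comp M, fun g => h1 _, fun x hx => ?_⟩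
  apply h2
  have h3 : M (SemidirectProduct.inl x) = SemidirectProduct.inl (eRF n x) := SemidirectProduct.map_inl _ _ _ x
  rw [← h3]
  exact hx

theorem inl_left_of_right {g : FreeGroup (Fin n) ⋊[φ] Q} (h : g.right = 1) : g = SemidirectProduct.inl g.left :=
  SemidirectProduct.ext rfl h

/-- the left component on the kernel of the projection -/
def leftHom (A : Subgroup (FreeGroup (Fin n) ⋊[φ] Q)) (hA : ∀ g ∈ A, g.right = 1) : A →* FreeGroup (Fin n) where
  toFun g := (g : FreeGroup (Fin n) ⋊[φ] Q).left
  map_one' := rfl
  map_mul' g g' := by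
    have h := hA g g.2
    change (g : FreeGroup (Fin n) ⋊[φ] Q).left * φ (g : FreeGroup (Fin n) ⋊[φ] Q).right
      (g' : FreeGroup (Fin n) ⋊[φ] Q).left = _
    rw [h, map_one]
    rfl

theorem UChain.semidirect (hφ : ∀ q x, φ q x * x⁻¹ ∈ commutator (FreeGroup (Fin n))) {r : ℕ} {N : ℕ → Subgroup Q}
    (h : UChain Q r N) : UChain (FreeGroup (Fin n) ⋊[φ] Q) (r + 1)
      (fun s => if s ≤ r then (N s).comap SemidirectProduct.rightHom else ⊥) := by
  have hnorm := h.normal
  have hnorm' : ∀ s, (if s ≤ r then (N s).comap (SemidirectProduct.rightHom : FreeGroup (Fin n) ⋊[φ] Q →* Q)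
      else ⊥).Normal := by
    intro s
    split_ifs
    · exact (hnorm s).comap _
    · infer_instance
  refine ⟨?_, ?_, ?_, hnorm', ?_, ?_⟩
  · rw [if_pos (Nat.zero_le r), h.zero, Subgroup.comap_top]
  · rw [if_neg (by omega)]
  · intro s t hst
    change (if t ≤ r then (N t).comap SemidirectProduct.rightHom else ⊥) ≤
      (if s ≤ r then (N s).comap SemidirectProduct.rightHom else ⊥)
    split_ifs with h1 h2
    · exact Subgroup.comap_mono (h.anti hst)
    · exact absurd (hst.trans h1) h2
    · exact bot_le
    · exact le_rfl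
  · intro s hs
    have := hnorm' (s + 1)
    have hs' : s ≤ r := Nat.lt_succ_iff.1 hs
    rcases Nat.lt_or_ge s r with h1 | h1
    · refine free_congr (if_pos hs') (if_pos (show s + 1 ≤ r from h1)) ?_
      have := h.free s h1
      let f : FreeGroup (Fin n) ⋊[φ] Q →* Q := SemidirectProduct.rightHom
      let g : (N s).comap f →* N s := (f.comp ((N s).comap f).subtype).codRestrict (N s) fun x => x.2
      have hg : ∀ x, g x ∈ (N (s + 1)).subgroupOf (N s) ↔ x ∈ ((N (s + 1)).comap f).subgroupOf ((N s).comap f) :=
        fun x => Iff.rfl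
      refine isFree_of_inj (QuotientGroup.map _ ((N (s + 1)).subgroupOf (N s)) g fun x hx => (hg x).2 hx) ?_
      rw [injective_iff_map_eq_one]
      intro a
      induction a using QuotientGroup.induction_on with
      | H x =>
        intro hx
        change ((g x : N s) : N s ⧸ (N (s + 1)).subgroupOf (N s)) = 1 at hx
        exact (QuotientGroup.eq_one_iff x).2 ((hg x).1 ((QuotientGroup.eq_one_iff (g x)).1 hx))
    · obtain rfl : s = r := le_antisymm hs' h1
      refine free_congr ((if_pos le_rfl).trans (by rw [h.last])) (if_neg (show ¬ s + 1 ≤ s by omega)) (B' := ⊥)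
        (A' := (⊥ : Subgroup Q).comap SemidirectProduct.rightHom) ?_
      have hA : ∀ g ∈ (⊥ : Subgroup Q).comap (SemidirectProduct.rightHom : FreeGroup (Fin n) ⋊[φ] Q →* Q), g.right = 1 :=
        fun g hg => hg
      let f := leftHom φ _ hA
      have hf : ∀ x, f x = 1 → x = 1 := by
        intro x hx
        apply Subtype.ext
        exact SemidirectProduct.ext hx (hA x x.2)
      refine isFree_of_inj (QuotientGroup.lift _ f fun x hx => ?_) ?_
      · have h2 : x = 1 := by
          rw [Subgroup.mem_subgroupOf, Subgroup.mem_bot] at hx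
          exact Subtype.ext hx
        rw [h2]
        exact one_mem _
      · rw [injective_iff_map_eq_one]
        intro a
        induction a using QuotientGroup.induction_on with
        | H x =>
          intro hx
          rw [QuotientGroup.lift_mk] at hx
          rw [hf x hx]
          rfl
  · intro s
    by_cases hs : s ≤ r
    · rw [if_pos hs]
      obtain ⟨m, ψ, h1, h2⟩ := h.uni s
      exact ⟨m, fun i => (ψ i).comp SemidirectProduct.rightHom, fun i x => h1 i _, fun x => h2 _⟩
    · rw [if_neg hs]
      obtain ⟨m, ψ, h1, h2⟩ := h.uni r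
      choose N' ρ h3 h4 using exists_semi_free φ hφ
      refine uni_of_countable (ι := ℕ ⊕ ℕ) ⊥ (fun i => match i with | Sum.inl i => m i | Sum.inr j => N' j)
        (fun i => match i with
          | Sum.inl i => (ψ i).comp SemidirectProduct.rightHom
          | Sum.inr j => ρ j) (fun i x => ?_) (fun x => ?_)
      · rcases i with i | j
        · exact h1 i _
        · exact h3 j x
      · constructor
        · intro hx i
          rw [Subgroup.mem_bot] at hx
          subst hx
          exact map_one _
        · intro hx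
          have h5 : x.right = 1 := by
            have h6 : x.right ∈ N r := (h2 x.right).2 fun i => hx (Sum.inl i)
            rw [h.last, Subgroup.mem_bot] at h6
            exact h6
          have h7 : x = SemidirectProduct.inl x.left := inl_left_of_right φ h5
          have h8 : eRF n x.left = 1 := by
            apply Ra.mu_inj
            intro j
            apply h4 j
            rw [← h7]
            exact hx (Sum.inr j)
          have h9 : x.left = 1 := (eRF n).injective (by rw [h8, map_one])
          rw [Subgroup.mem_bot, h7, h9, map_one]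

/-- **Semidirect products with free groups**: `F ⋊ Q` is in the class (U), if `F` is free of finite rank and `Q` is in the
class (U) and acts trivially on the abelianization of `F`. -/
theorem ClassU.semidirect (hφ : ∀ q x, φ q x * x⁻¹ ∈ commutator (FreeGroup (Fin n))) (hQ : ClassU Q) :
    ClassU (FreeGroup (Fin n) ⋊[φ] Q) := by
  obtain ⟨r, N, h⟩ := hQ
  exact ⟨_, _, h.semidirect φ hφ⟩

end

end Pool.Agent.S11
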