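import Mathlib

/-!
# Project S11, block END: column exactness gives row exactness over a division ring
-/

set_option autoImplicit false
set_option linter.unusedSectionVars false

open Matrix

namespace Pool.Agent.S11

/-- the multiplication of column vectors as a linear map of right spaces -/
def colMap {D : Type} [DivisionRing D] {a b : ℕ} (A : Matrix (Fin a) (Fin b) D) :
    (Fin b → D) →ₗ[Dᵐᵒᵖ] (Fin a → D) where
  toFun x := A *ᵥ x
  map_add' x y := Matrix.mulVec_add A x y
  map_smul' d x := by
    funext i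
    rw [Pi.smul_apply, RingHom.id_apply]
    simp only [Matrix.mulVec, dotProduct, Pi.smul_apply, MulOpposite.smul_eq_mul_unop]
    rw [Finset.sum_mul]
    refine Finset.sum_congr rfl fun j _ => ?_
    rw [mul_assoc]

/-- the pairing with a row vector -/
def rowFun {D : Type} [DivisionRing D] {b : ℕ} (v : Fin b → D) : (Fin b → D) →ₗ[Dᵐᵒᵖ] D where
  toFun x := v ⬝ᵥ x
  map_add' x y := dotProduct_add v x y
  map_smul' d x := by
    simp only [dotProduct, Pi.smul_apply, MulOpposite.smul_eq_mul_unop, RingHom.id_apply]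
    rw [Finset.sum_mul]
    refine Finset.sum_congr rfl fun j _ => ?_
    rw [mul_assoc]

/-- **Column exactness gives row exactness.** -/
theorem row_of_col {D : Type} [DivisionRing D] {a b c : ℕ} (A : Matrix (Fin a) (Fin b) D) (B : Matrix (Fin b) (Fin c) D)
    (hex : ∀ v : Fin b → D, A *ᵥ v = 0 → ∃ u, B *ᵥ u = v) :
    ∀ v : Fin b → D, v ᵥ* B = 0 → ∃ u, u ᵥ* A = v := by
  intro v hv
  have h1 : LinearMap.ker (colMap A) ≤ LinearMap.ker (rowFun v) := by
    intro x hx
    obtain ⟨u, hu⟩ := hex x hx
    rw [LinearMap.mem_ker]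
    show v ⬝ᵥ x = 0
    rw [← hu, Matrix.dotProduct_mulVec, hv, zero_dotProduct]
  obtain ⟨h, hh⟩ : ∃ h : (Fin a → D) →ₗ[Dᵐᵒᵖ] D, h.comp (colMap A) = rowFun v := by
    obtain ⟨g, hg⟩ := LinearMap.exists_extend
      (((LinearMap.ker (colMap A)).liftQ (rowFun v) h1).comp (colMap A).quotKerEquivRange.symm.toLinearMap)
    refine ⟨g, LinearMap.ext fun x => ?_⟩
    have h2 := LinearMap.congr_fun hg ⟨colMap A x, x, rfl⟩
    have h3 : (colMap A).quotKerEquivRange.symm ⟨colMap A x, x, rfl⟩ = Submodule.Quotient.mk x := by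
      rw [LinearEquiv.symm_apply_eq]
      rfl
    rw [LinearMap.comp_apply] at h2
    rw [LinearMap.comp_apply]
    refine Eq.trans h2 ?_
    rw [LinearMap.comp_apply]
    show (Submodule.liftQ _ _ h1) ((colMap A).quotKerEquivRange.symm ⟨colMap A x, x, rfl⟩) = _
    rw [h3]
    rfl
  refine ⟨fun i => h (Pi.single i 1), ?_⟩
  have h2 : ∀ y : Fin a → D, h y = ∑ i, h (Pi.single i 1) * y i := by
    intro y
    have h3 : y = ∑ i, (MulOpposite.op (y i)) • (Pi.single i 1 : Fin a → D) := by
      funext j
      rw [Finset.sum_apply, Finset.sum_eq_single j]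
      · rw [Pi.smul_apply, Pi.single_eq_same, MulOpposite.smul_eq_mul_unop, MulOpposite.unop_op, one_mul]
      · intro k _ hk
        rw [Pi.smul_apply, Pi.single_eq_of_ne hk.symm, smul_zero]
      · intro h4
        exact absurd (Finset.mem_univ j) h4
    conv_lhs => rw [h3, map_sum]
    refine Finset.sum_congr rfl fun i _ => ?_
    rw [map_smul, MulOpposite.smul_eq_mul_unop, MulOpposite.unop_op]
  funext j
  have h4 := LinearMap.congr_fun hh (Pi.single j 1)
  rw [LinearMap.comp_apply, h2] at h4
  have h5 : rowFun v (Pi.single j 1) = v j := by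
    show v ⬝ᵥ Pi.single j 1 = v j
    rw [dotProduct_single, mul_one]
  rw [h5] at h4
  rw [← h4]
  show ∑ i, h (Pi.single i 1) * A i j = _
  refine Finset.sum_congr rfl fun i _ => ?_
  congr 1
  show A i j = (A *ᵥ Pi.single j 1) i
  rw [Matrix.mulVec_single]
  simp

end Pool.Agent.S11
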