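import Mathlib

/-!
# Project S11, block END: invertible minors over a division ring

`exists_minor`: a matrix over a division ring has an invertible square submatrix whose size is the dimension of the row
space.  `exists_minors`: the two minors of an exact sequence.
-/

set_option autoImplicit false
set_option linter.unusedSectionVars false

open Matrix

namespace Pool.Agent.S11

section

variable {D : Type} [DivisionRing D]

/-- a square matrix over a division ring whose rows are independent is invertible -/
theorem isUnit_of_vecMul_inj {p : ℕ} (M : Matrix (Fin p) (Fin p) D) (h : ∀ u : Fin p → D, u ᵥ* M = 0 → u = 0) :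
    IsUnit M := by
  have hinj : Function.Injective (Matrix.vecMulLinear M) := by
    rw [← LinearMap.ker_eq_bot, LinearMap.ker_eq_bot']
    intro u hu
    exact h u hu
  have hbij : Function.Bijective (Matrix.vecMulLinear M) :=
    ⟨hinj, LinearMap.injective_iff_surjective.1 hinj⟩
  let e := LinearEquiv.ofBijective (Matrix.vecMulLinear M) hbij
  have e1 : ∀ u : Fin p → D, (e.symm u) ᵥ* M = u := fun u => e.apply_symm_apply u
  have e2 : ∀ u : Fin p → D, e.symm (u ᵥ* M) = u := fun u => e.symm_apply_apply u
  let M' : Matrix (Fin p) (Fin p) D := LinearMap.toMatrixRight' (e.symm : (Fin p → D) →ₗ[D] (Fin p → D))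
  have e3 : ∀ u : Fin p → D, u ᵥ* M' = e.symm u := by
    intro u
    have h1 : Matrix.toLinearMapRight' M' = (e.symm : (Fin p → D) →ₗ[D] (Fin p → D)) :=
      LinearMap.toMatrixRight'.symm_apply_apply _
    have h2 : Matrix.toLinearMapRight' M' u = e.symm u := by
      rw [h1]
      rfl
    exact h2
  have hone : ∀ N : Matrix (Fin p) (Fin p) D, (∀ u : Fin p → D, u ᵥ* N = u) → N = 1 := by
    intro N hN
    ext i j
    have h1 := congrFun (hN (Pi.single i 1)) j
    rw [Matrix.single_one_vecMul] at h1
    rw [Matrix.one_apply]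
    have h2 : N i j = (Pi.single i (1 : D) : Fin p → D) j := h1
    rw [h2, Pi.single_apply]
    by_cases hij : i = j
    · rw [if_pos hij, if_pos hij.symm]
    · rw [if_neg hij, if_neg fun h' => hij h'.symm]
  refine ⟨⟨M, M', hone _ fun u => ?_, hone _ fun u => ?_⟩, rfl⟩
  · rw [← Matrix.vecMul_vecMul, e3]
    exact e2 u
  · rw [← Matrix.vecMul_vecMul, e3]
    exact e1 u

/-- an invertible minor -/
theorem exists_minor {a b : ℕ} (A : Matrix (Fin a) (Fin b) D) :
    ∃ (r : Fin (Module.finrank D (LinearMap.range (Matrix.vecMulLinear A))) → Fin a)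
      (c : Fin (Module.finrank D (LinearMap.range (Matrix.vecMulLinear A))) → Fin b), IsUnit (A.submatrix r c) := by
  classical
  set p := Module.finrank D (LinearMap.range (Matrix.vecMulLinear A)) with hp
  have hspan : LinearMap.range (Matrix.vecMulLinear A) = Submodule.span D (Set.range A.row) := by
    ext v
    rw [LinearMap.mem_range, Submodule.mem_span_range_iff_exists_fun]
    refine exists_congr fun u => ?_
    have h1 : Matrix.vecMulLinear A u = ∑ i, u i • A.row i := by
      funext j
      show (u ᵥ* A) j = _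
      rw [Matrix.vecMul, dotProduct, Finset.sum_apply]
      rfl
    rw [h1]
  -- the rows
  obtain ⟨κ, r, hr, hs, hli⟩ := exists_linearIndependent' D A.row
  have hfin : Finite κ := Finite.of_injective r hr
  have := Fintype.ofFinite κ
  have hcard : Fintype.card κ = p := by
    rw [hp, hspan, ← hs]
    exact (finrank_span_eq_card hli).symm
  let ek : Fin p ≃ κ := (Fintype.equivFinOfCardEq hcard).symm
  have hli' : LinearIndependent D (fun i : Fin p => A.row (r (ek i))) := hli.comp ek ek.injective
  let f : (Fin p → D) →ₗ[D] (Fin b → D) := Matrix.vecMulLinear (A.submatrix (fun i => r (ek i)) id)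
  have hf : ∀ u, f u = ∑ i, u i • A.row (r (ek i)) := by
    intro u
    funext j
    show (u ᵥ* (A.submatrix (fun i => r (ek i)) id)) j = _
    rw [Matrix.vecMul, dotProduct, Finset.sum_apply]
    rfl
  have hfinj : Function.Injective f := by
    rw [← LinearMap.ker_eq_bot, LinearMap.ker_eq_bot']
    intro u hu
    rw [hf] at hu
    have := Fintype.linearIndependent_iff.1 hli' u hu
    exact funext this
  -- the columns
  let Q := (Fin b → D) ⧸ LinearMap.range f
  let v : Fin b → Q := fun j => (LinearMap.range f).mkQ (Pi.single j 1)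
  obtain ⟨J, c, hc, hcs, hcl⟩ := exists_linearIndependent' D v
  have hfinJ : Finite J := Finite.of_injective c hc
  have := Fintype.ofFinite J
  have hv : Submodule.span D (Set.range v) = ⊤ := by
    have h1 : Submodule.span D (Set.range v) =
        (Submodule.span D (Set.range fun j : Fin b => (Pi.single j 1 : Fin b → D))).map (LinearMap.range f).mkQ := by
      rw [Submodule.map_span, ← Set.range_comp]
      rfl
    have h2 : Submodule.span D (Set.range fun j : Fin b => (Pi.single j 1 : Fin b → D)) = ⊤ := by
      have h3 := (Pi.basisFun D (Fin b)).span_eq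
      rw [← h3]
      congr 2
      funext j
      exact (Pi.basisFun_apply D (Fin b) j).symm
    rw [h1, h2, Submodule.map_top, Submodule.range_mkQ]
  have hJ : Fintype.card J + p = b := by
    have h1 : Module.finrank D Q = Fintype.card J := by
      rw [← finrank_span_eq_card hcl, hcs, hv, finrank_top]
    have h2 : Module.finrank D (LinearMap.range f) = p := by
      rw [LinearMap.finrank_range_of_inj hfinj, Module.finrank_fin_fun]
    have h3 := Submodule.finrank_quotient_add_finrank (LinearMap.range f)
    rw [Module.finrank_fin_fun, h2] at h3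
    have h4 : Module.finrank D ((Fin b → D) ⧸ LinearMap.range f) = Fintype.card J := h1
    omega
  -- the complement
  let S : Finset (Fin b) := (Finset.univ.image c)ᶜ
  have hS : S.card = p := by
    rw [Finset.card_compl, Finset.card_image_of_injective _ hc, Finset.card_univ, Fintype.card_fin]
    omega
  let cc : Fin p → Fin b := fun i => (S.orderIsoOfFin hS i : Fin b)
  have hcc : ∀ j, j ∉ Finset.univ.image c → ∃ i, cc i = j := by
    intro j hj
    have hjS : j ∈ S := Finset.mem_compl.2 hj
    refine ⟨(S.orderIsoOfFin hS).symm ⟨j, hjS⟩, ?_⟩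
    show ((S.orderIsoOfFin hS ((S.orderIsoOfFin hS).symm ⟨j, hjS⟩) : S) : Fin b) = j
    rw [OrderIso.apply_symm_apply]
  refine ⟨fun i => r (ek i), cc, isUnit_of_vecMul_inj _ fun u hu => ?_⟩
  have h1 : ∀ j, j ∉ Finset.univ.image c → f u j = 0 := by
    intro j hj
    obtain ⟨i, rfl⟩ := hcc j hj
    exact congrFun hu i
  -- `f u` is a combination of the `e_j`, `j ∈ J`
  have h2 : f u = ∑ k : J, f u (c k) • (Pi.single (c k) 1 : Fin b → D) := by
    funext j
    rw [Finset.sum_apply]
    by_cases hj : j ∈ Finset.univ.image c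
    · obtain ⟨k, -, rfl⟩ := Finset.mem_image.1 hj
      rw [Finset.sum_eq_single k]
      · rw [Pi.smul_apply, Pi.single_eq_same, smul_eq_mul, mul_one]
      · intro k' _ hk'
        rw [Pi.smul_apply, Pi.single_eq_of_ne fun h' => hk' (hc h').symm, smul_zero]
      · intro h'
        exact absurd (Finset.mem_univ k) h'
    · rw [h1 j hj]
      symm
      refine Finset.sum_eq_zero fun k _ => ?_
      rw [Pi.smul_apply, Pi.single_eq_of_ne, smul_zero]
      intro h'
      exact hj (Finset.mem_image.2 ⟨k, Finset.mem_univ k, h'.symm⟩)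
  have h3 : ∑ k : J, f u (c k) • v (c k) = 0 := by
    have h4 : (LinearMap.range f).mkQ (f u) = 0 := by
      rw [Submodule.mkQ_apply, Submodule.Quotient.mk_eq_zero]
      exact ⟨u, rfl⟩
    rw [h2, map_sum] at h4
    rw [← h4]
    refine Finset.sum_congr rfl fun k _ => ?_
    rw [map_smul]
  have h5 : ∀ k : J, f u (c k) = 0 := Fintype.linearIndependent_iff.1 hcl _ h3
  have h6 : f u = 0 := by
    rw [h2]
    exact Finset.sum_eq_zero fun k _ => by rw [h5 k, zero_smul]
  exact hfinj (h6.trans (map_zero f).symm)

/-- **The minors of an exact sequence** -/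
theorem exists_minors {a b c : ℕ} (A : Matrix (Fin a) (Fin b) D) (B : Matrix (Fin b) (Fin c) D) (hAB : A * B = 0)
    (hex : ∀ v : Fin b → D, v ᵥ* B = 0 → ∃ u, u ᵥ* A = v) :
    ∃ (p q : ℕ) (r₁ : Fin p → Fin a) (c₁ : Fin p → Fin b) (r₂ : Fin q → Fin b) (c₂ : Fin q → Fin c),
      IsUnit (A.submatrix r₁ c₁) ∧ IsUnit (B.submatrix r₂ c₂) ∧ p + q = b := by
  obtain ⟨r₁, c₁, h1⟩ := exists_minor A
  obtain ⟨r₂, c₂, h2⟩ := exists_minor B
  refine ⟨_, _, r₁, c₁, r₂, c₂, h1, h2, ?_⟩
  have h3 : LinearMap.range (Matrix.vecMulLinear A) = LinearMap.ker (Matrix.vecMulLinear B) := by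
    ext v
    constructor
    · rintro ⟨u, rfl⟩
      show (u ᵥ* A) ᵥ* B = 0
      rw [Matrix.vecMul_vecMul, hAB, Matrix.vecMul_zero]
    · intro hv
      obtain ⟨u, hu⟩ := hex v hv
      exact ⟨u, hu⟩
  have h4 := LinearMap.finrank_range_add_finrank_ker (Matrix.vecMulLinear B)
  rw [Module.finrank_fin_fun] at h4
  rw [h3]
  omega

end

end Pool.Agent.S11
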