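import Pool.Agent.S11.Pack
import Pool.Agent.S11.EdMin
import Pool.Agent.H93.S11.Seq

/-!
# Project S11, block END: from exactness over the division ring to the `ℓ²`-kernel
-/

set_option autoImplicit false
set_option linter.unusedSectionVars false

open Matrix

namespace Pool.Agent.S11

open Pool.Agent.H4.Atiyah Pool.Agent.H4.Singer Pool.Agent.H93.S11

/-- the rows of an exact sequence -/
theorem exists_rows {D : Type} [DivisionRing D] {a b c : ℕ} (A : Matrix (Fin a) (Fin b) D) (B : Matrix (Fin b) (Fin c) D)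
    (hAB : A * B = 0) (hex : ∀ v : Fin b → D, v ᵥ* B = 0 → ∃ u, u ᵥ* A = v) :
    ∃ (p q : ℕ) (r₁ : Fin p → Fin a) (r₂ : Fin q → Fin b), (∀ v : Fin p → D, v ᵥ* (A.submatrix r₁ id) = 0 → v = 0) ∧
      (∀ v : Fin q → D, v ᵥ* (B.submatrix r₂ id) = 0 → v = 0) ∧ p + q = b := by
  obtain ⟨p, q, r₁, c₁, r₂, c₂, h1, h2, h3⟩ := exists_minors A B hAB hex
  have key : ∀ {k l m : ℕ} (M : Matrix (Fin l) (Fin m) D) (r : Fin k → Fin l) (s : Fin k → Fin m),
      IsUnit (M.submatrix r s) → ∀ v : Fin k → D, v ᵥ* (M.submatrix r id) = 0 → v = 0 := by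
    intro k l m M r s hu v hv
    obtain ⟨U, hU⟩ := hu
    have h4 : v ᵥ* (M.submatrix r s) = 0 := by
      funext j
      exact congrFun hv (s j)
    have h5 : v ᵥ* (M.submatrix r s * (↑U⁻¹ : Matrix (Fin k) (Fin k) D)) = 0 := by
      rw [← Matrix.vecMul_vecMul, h4, Matrix.zero_vecMul]
    rw [← hU, Units.mul_inv, Matrix.vecMul_one] at h5
    exact h5
  exact ⟨p, q, r₁, r₂, key A r₁ c₁ h1, key B r₂ c₂ h2, h3⟩

/-- **From exactness over the division ring to the `ℓ²`-kernel** -/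
theorem l2_of_exact {H : Type} [Group H] [Countable H] [DecidableEq H] (hres : Res2 H) (𝒟 : DPack H) {a b c : ℕ}
    (D₁ : Matrix (Fin c) (Fin a) (MonoidAlgebra ℤ H)) (D₂ : Matrix (Fin b) (Fin c) (MonoidAlgebra ℤ H)) (hD : D₂ * D₁ = 0)
    (hex : ∀ v : Fin c → 𝒟.D, v ᵥ* ((toK (ZMod 2) D₁).map 𝒟.ι) = 0 → ∃ u : Fin b → 𝒟.D,
      u ᵥ* ((toK (ZMod 2) D₂).map 𝒟.ι) = v) :
    ∀ x ∈ l2ker (toC ((Matrix.fromCols D₁ (adj D₂)).submatrix id finSumFinEquiv.symm)), x = 0 := by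
  have h0 : (toK (ZMod 2) D₂).map 𝒟.ι * (toK (ZMod 2) D₁).map 𝒟.ι = 0 := by
    have h1 : (toK (ZMod 2) D₂) * (toK (ZMod 2) D₁) = 0 := by
      unfold toK
      rw [← Matrix.map_mul, hD]
      ext i j
      simp
    rw [← Matrix.map_mul, h1]
    ext i j
    simp
  obtain ⟨p, q, r₁, r₂, h1, h2, h3⟩ := exists_rows _ _ h0 hex
  refine l2_of_grows (resid_of_subgroups hres) (ZMod 2) D₁ D₂ hD (r₁ := q) (r₂ := p) ?_ ?_ (by omega)
  · intro ε hε
    exact 𝒟.grow c a q (toK (ZMod 2) D₁) r₂ (fun v hv => h2 v hv) ε hε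
  · intro ε hε
    exact 𝒟.grow b c p (toK (ZMod 2) D₂) r₁ (fun v hv => h1 v hv) ε hε

end Pool.Agent.S11
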