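import Pool.Agent.S11.EdDefs
import Pool.Agent.S11.EdL2
import Pool.Agent.S11.EdCol

/-!
# Project S11, block END: the `ℓ²`-kernel of the matrices

From `l2_of_exact` with `D₂ := A`, `D₁ := B` and `EdCol.row_of_col`.
-/

set_option autoImplicit false
set_option linter.unusedSectionVars false

namespace Pool.Agent.S11

open Pool.Agent.H4.Atiyah Pool.Agent.H4.Singer Pool.Agent.H93.S11

private theorem edk_coeff {H m n : Type} [Group H] (M : Matrix m n (MonoidAlgebra ℤ H)) (i : m) (j : n) (h : H) :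
    (toC M i j).coeff h = (((M i j).coeff h : ℤ) : ℂ) := rfl

private theorem edk_supp {H m n : Type} [Group H] (M : Matrix m n (MonoidAlgebra ℤ H)) (i : m) (j : n) :
    (toC M i j).coeff.support = (M i j).coeff.support := by
  ext h
  rw [Finsupp.mem_support_iff, Finsupp.mem_support_iff, edk_coeff, Ne, Int.cast_eq_zero]

private theorem edk_memlp {H : Type} {b : ℕ} (x : Fin b → H → ℝ) (hx : ∀ j, Summable fun h => x j h ^ 2) :
    Memℓp (fun p : Fin b × H => (x p.1 p.2 : ℂ)) 2 := by
  refine memℓp_gen ?_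
  have h1 : (fun p : Fin b × H => ‖(x p.1 p.2 : ℂ)‖ ^ (2 : ENNReal).toReal) = fun p : Fin b × H => x p.1 p.2 ^ 2 := by
    funext p
    rw [Complex.norm_real, ENNReal.toReal_ofNat, Real.rpow_ofNat, Real.norm_eq_abs, sq_abs]
  rw [h1, summable_prod_of_nonneg (fun p => sq_nonneg _)]
  exact ⟨hx, Summable.of_finite⟩

theorem l2_zero {H : Type} [Group H] [Countable H] (P : DPack H) (hR : Res2 H) {a b c : ℕ}
    (A : Matrix (Fin a) (Fin b) (MonoidAlgebra ℤ H)) (B : Matrix (Fin b) (Fin c) (MonoidAlgebra ℤ H)) (hAB : A * B = 0)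
    (hex : ∀ y : Fin b → P.D, ((mod2 A).map P.ι).mulVec y = 0 → ∃ z : Fin c → P.D, ((mod2 B).map P.ι).mulVec z = y)
    (x : Fin b → H → ℝ) (hx : ∀ j, Summable fun h => x j h ^ 2)
    (hz : ∀ (l : Fin a) (g : H), ∑ j, ∑ h ∈ (A l j).coeff.support, ((A l j).coeff h : ℝ) * x j (g * h) = 0)
    (hc : ∀ (l : Fin c) (g : H), ∑ j, ∑ h ∈ (B j l).coeff.support, ((B j l).coeff h : ℝ) * x j (g * h⁻¹) = 0) :
    ∀ j h, x j h = 0 := by
  classical
  have h1 := row_of_col ((mod2 A).map P.ι) ((mod2 B).map P.ι) hex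
  have key := l2_of_exact hR P B A hAB h1 ⟨_, edk_memlp x hx⟩ ?_
  · intro j h
    have h2 := congrFun (congrArg (fun y : lp (fun _ : Fin b × H => ℂ) 2 => (y : Fin b × H → ℂ)) key) (j, h)
    have h3 : (x j h : ℂ) = 0 := h2
    exact Complex.ofReal_eq_zero.1 h3
  · intro i g
    show ∑ j : Fin b, ∑ h ∈ (toC ((Matrix.fromCols B (adj A)).submatrix id finSumFinEquiv.symm) j i).coeff.support,
      (x j (g * h⁻¹) : ℂ) *
        (toC ((Matrix.fromCols B (adj A)).submatrix id finSumFinEquiv.symm) j i).coeff h = 0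
    obtain ⟨i, rfl⟩ := (finSumFinEquiv (m := c) (n := a)).surjective i
    have h4 : ∀ j, ((Matrix.fromCols B (adj A)).submatrix id finSumFinEquiv.symm) j (finSumFinEquiv i) =
        Matrix.fromCols B (adj A) j i := by
      intro j
      rw [Matrix.submatrix_apply, Equiv.symm_apply_apply, id]
    rcases i with l | l
    · have h5 : (((∑ j, ∑ h ∈ (B j l).coeff.support, ((B j l).coeff h : ℝ) * x j (g * h⁻¹) : ℝ)) : ℂ) = 0 := by
        rw [hc l g, Complex.ofReal_zero]
      refine Eq.trans ?_ h5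
      rw [Complex.ofReal_sum]
      refine Finset.sum_congr rfl fun j _ => ?_
      rw [edk_supp, h4, Matrix.fromCols_apply_inl, Complex.ofReal_sum]
      refine Finset.sum_congr rfl fun h _ => ?_
      rw [edk_coeff, h4, Matrix.fromCols_apply_inl, Complex.ofReal_mul, Complex.ofReal_intCast, mul_comm]
    · have h5 : (((∑ j, ∑ h ∈ (A l j).coeff.support, ((A l j).coeff h : ℝ) * x j (g * h) : ℝ)) : ℂ) = 0 := by
        rw [hz l g, Complex.ofReal_zero]
      refine Eq.trans ?_ h5
      rw [Complex.ofReal_sum]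
      refine Finset.sum_congr rfl fun j _ => ?_
      rw [edk_supp, h4, Matrix.fromCols_apply_inr, Complex.ofReal_sum]
      refine Finset.sum_equiv (Equiv.inv H) ?_ ?_
      · intro h
        rw [Finsupp.mem_support_iff, Finsupp.mem_support_iff, coeff_adj, Equiv.inv_apply]
      · intro h _
        rw [edk_coeff, h4, Matrix.fromCols_apply_inr, coeff_adj, Equiv.inv_apply, Complex.ofReal_mul,
          Complex.ofReal_intCast, mul_comm]

end Pool.Agent.S11
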