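import Pool.Agent.S11.SqMain
import Pool.Agent.S11.SqOrd

/-!
# Project S11: the square lemma for ordered groups
-/

set_option autoImplicit false
set_option linter.unusedSectionVars false

open Finset Pointwise

namespace Pool.Agent.S11

/-- **The square lemma** for a group with a bi-invariant order. -/
theorem squareBO {H U : Type} [Group H] [BO H] [DecidableEq U] [MulAction H U] {K B : Set (Finset U)} (h : SCx H K B)
    {V : Type} [AddCommGroup V] [Module (ZMod 2) V] (τ : Representation (ZMod 2) H V) (j : ℕ)
    (hj : ∀ q ≤ 2 * j, ExactAt K B (τ.tprod τ) q) : ExactAt K B τ j := by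
  obtain ⟨r, h1, h2⟩ := exists_rel (H := H) K h.down h.K_mem h.free
  exact square (r := r) { h with r_smul := h1, r_tot := h2 } τ j hj

end Pool.Agent.S11
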