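import Pool.Agent.S11.EdD
import Pool.Agent.S11.EdLk
import Pool.Agent.S11.EdOrd
import Pool.Agent.S11.EdHil
import Pool.Agent.S11.EdHarm
import Pool.Agent.S11.EdMfd
import Pool.Agent.S11.EdB4
import Pool.Agent.S11.EdC
import Pool.Agent.S11.SqBO
import Pool.Agent.S11.BrB

/-!
# Project S11, block END: the vanishing of the reduced `ℓ²`-homology

`end_l2`: a countable group `H` with a two-sided order, a division ring `DPack H`, residually a finite two-group, acts freely and
cocompactly on the acyclic simplicial complex `X`, and properly on an acyclic homology manifold or duality pair of dimension `n`: the reduced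
`ℓ²`-homology of `X` vanishes in the degrees greater than `n / 2`.
-/

set_option autoImplicit false
set_option linter.unusedSectionVars false

open Finset Pointwise

namespace Pool.Agent.S11

open Pool.Agent.H37.TM Pool.Agent.H65.RM Pool.Agent.S10

/-- a group with a two-sided order is torsion free -/
theorem pow_ne_one_bo {H : Type} [Group H] [BO H] {g : H} (hg : g ≠ 1) (k : ℕ) : g ^ (k + 1) ≠ 1 := by
  have key : ∀ g : H, 1 < g → ∀ k : ℕ, 1 < g ^ (k + 1) := by
    intro g hg k
    induction k with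
    | zero => rwa [zero_add, pow_one]
    | succ k ih =>
      rw [pow_succ]
      exact one_lt_mul_bo ih hg
  rcases lt_trichotomy 1 g with h | h | h
  · exact (key g h k).ne'
  · exact absurd h.symm hg
  · have h1 : 1 < g⁻¹ := by
      have := inv_lt_inv_bo h
      rwa [inv_one] at this
    have h2 := key g⁻¹ h1 k
    rw [inv_pow] at h2
    intro h3
    rw [h3, inv_one] at h2
    exact lt_irrefl _ h2

/-- a proper action of an ordered group is free on the simplices -/
theorem free_of_bo {H U : Type} [Group H] [BO H] [DecidableEq U] [MulAction H U] {K B : Set (Finset U)} (hA : PAct H K B)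
    (hne : ∀ s ∈ K, s.Nonempty) (hdown : ∀ s ∈ K, ∀ t, t ⊆ s → t.Nonempty → t ∈ K) (g : H) (s : Finset U) (hs : s ∈ K)
    (h : g • s = s) : g = 1 := by
  by_contra hg
  obtain ⟨u, hu⟩ := hne s hs
  have h1 : ∀ k : ℕ, g ^ k • u ∈ s := by
    intro k
    induction k with
    | zero => rwa [pow_zero, one_smul]
    | succ k ih =>
      rw [pow_succ', mul_smul, ← h]
      exact Finset.smul_mem_smul_finset ih
  -- a power fixes the vertex
  obtain ⟨m, hm⟩ : ∃ m : ℕ, g ^ (m + 1) • u = u := by
    have h2 : ¬ Function.Injective fun k : ℕ => (⟨g ^ k • u, h1 k⟩ : s) := fun hinj =>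
      not_injective_infinite_finite _ hinj
    obtain ⟨k, l, hkl, hne⟩ : ∃ k l : ℕ, g ^ k • u = g ^ l • u ∧ k ≠ l := by
      by_contra hcon
      push Not at hcon
      exact h2 fun k l hkl => hcon k l (congrArg Subtype.val hkl)
    have h3 : ∀ k l : ℕ, k < l → g ^ k • u = g ^ l • u → ∃ m : ℕ, g ^ (m + 1) • u = u := by
      intro k l hlt he
      refine ⟨l - k - 1, ?_⟩
      have h4 : l = k + (l - k - 1 + 1) := by omega
      rw [h4, pow_add, mul_smul] at he
      exact (smul_left_cancel _ he).symm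
    rcases lt_or_gt_of_ne hne with h4 | h4
    · exact h3 k l h4 hkl
    · exact h3 l k h4 hkl.symm
  have h2 : ∀ j : ℕ, (g ^ (m + 1)) ^ j • u = u := by
    intro j
    induction j with
    | zero => rw [pow_zero, one_smul]
    | succ j ih => rw [pow_succ, mul_smul, hm, ih]
  have hfin := hA.proper u u (hdown s hs {u} (Finset.singleton_subset_iff.2 hu) (Finset.singleton_nonempty u))
  have h3 : ¬ Function.Injective fun j : ℕ => (⟨(g ^ (m + 1)) ^ j, h2 j⟩ : {g : H | g • u = u}) := by
    intro hinj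
    have := hfin.to_subtype
    exact not_injective_infinite_finite _ hinj
  apply h3
  intro j l hjl
  have h4 : (g ^ (m + 1)) ^ j = (g ^ (m + 1)) ^ l := congrArg Subtype.val hjl
  have h5 : g ^ (m + 1) ≠ 1 := pow_ne_one_bo hg m
  by_contra hne
  have h6 : ∀ k l : ℕ, k < l → (g ^ (m + 1)) ^ k = (g ^ (m + 1)) ^ l → False := by
    intro k l hlt he
    have h7 : l = k + (l - k - 1 + 1) := by omega
    rw [h7, pow_add (g ^ (m + 1)) k (l - k - 1 + 1)] at he
    exact pow_ne_one_bo h5 (l - k - 1) (mul_eq_left.1 he.symm)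
  rcases lt_or_gt_of_ne hne with h7 | h7
  · exact h6 _ _ h7 h4
  · exact h6 _ _ h7 h4.symm

section

variable {H V U : Type} [Group H] [DecidableEq V] [MulAction H V] [DecidableEq U] [MulAction H U]
  {X : Set (Finset V)} {K B : Set (Finset U)} {n : ℕ}

/-- the duality data -/
theorem ManOrDual.dual (h : ManOrDual H K B n (n + 1)) (hA : PAct H K B) :
    ∃ mu, Dual K B mu n (n + 1) ∧ ∀ (g : H) (s : Finset U), s ∈ mu → g • s ∈ mu := by
  rcases h with ⟨h1, h2⟩ | h
  · refine ⟨_, dual_of_mfd h1 h2, ?_⟩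
    rintro g s ⟨h3, h4, h5⟩
    refine ⟨hA.K_mem g s h3, fun h6 => h4 ?_, by rw [Finset.card_smul_finset, h5]⟩
    have h7 := hA.B_mem g⁻¹ _ h6
    rwa [inv_smul_smul] at h7
  · exact h

/-- the pair with the free action -/
theorem scx_of_bo [BO H] (h : ManOrDual H K B n (n + 1)) (hA : PAct H K B) : SCx H K B := by
  obtain ⟨mu, hD, -⟩ := ManOrDual.dual h hA
  exact ⟨hD.ne, hD.down, hD.bd_sub, hD.bd_down, hD.locfin, hA.K_mem, hA.B_mem, free_of_bo hA hD.ne hD.down⟩

/-- the complex `X` with the free action -/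
theorem FreeX.scx (hX : FreeX H X) : SCx H X ∅ :=
  ⟨hX.ne, hX.down, Set.empty_subset _, fun s hs => absurd hs (Set.notMem_empty s), fun s hs => cofaces_finite hX hs,
    fun g s hs => hX.mem g s hs, fun g s hs => absurd hs (Set.notMem_empty s), fun g s hs => hX.free g s hs⟩

/-- the cohomology with coefficients in the division ring -/
theorem exactAt_lft [BO H] (P : DPack H) (hM : ManOrDual H K B n (n + 1)) (hA : PAct H K B) {j : ℕ} (hj : 2 * j < n) :
    ExactAt K B (lft P.ι) j := by
  obtain ⟨mu, hD, -⟩ := ManOrDual.dual hM hA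
  have hK := scx_of_bo hM hA
  refine squareBO hK (lft P.ι) j fun q hq => exactAt_of_flat hK P.flat q ?_
  exact hD.low q (by omega) (by omega)

/-- **The vanishing of the reduced `ℓ²`-homology.** -/
theorem end_l2 [BO H] [Countable H] (P : DPack H) (hR : Res2 H) (hX : FreeX H X) (hac : Acyc X)
    (hM : ManOrDual H K B n (n + 1)) (hA : PAct H K B) {i : ℕ} (hi : n < 2 * i) : L2ZeroS X i := by
  have hK := scx_of_bo hM hA
  obtain ⟨F, G, h, hC⟩ := exists_chmaps hX.scx hac hK hM hA
  have hE : ∀ j, i + j = n → ExactAt K B (lft P.ι) j := fun j hj => exactAt_lft P hM hA (by omega)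
  have hex : ExactBd X (lft P.ι) (i + 1) := exactBd_of_chmaps hX.scx hK hC (lft P.ι) i hE
  obtain ⟨r, hr, hrT⟩ := exists_rel (H := H) X hX.down (fun g s hs => hX.mem g s hs) (fun g s hs => hX.free g s hs)
  have hT : Tot X r := by
    intro s hs u hu v hv huv
    obtain ⟨h1, h2, h3⟩ := hrT s hs
    refine ⟨?_, fun w hw => h2 u hu v hv w hw⟩
    rcases h3 u hu v hv huv with h4 | h4
    · exact Or.inl ⟨h4, fun h5 => h1 u hu (h2 u hu v hv u hu h4 h5)⟩
    · exact Or.inr ⟨h4, fun h5 => h1 u hu (h2 u hu v hv u hu h5 h4)⟩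
  obtain ⟨a, R, hR0⟩ := exists_rps hX i
  obtain ⟨b, R', hR1⟩ := exists_rps hX (i + 1)
  obtain ⟨c, R'', hR2⟩ := exists_rps hX (i + 2)
  have hmul := mtx_mul hX hT hr hR0 hR1 hR2
  have hm : ∀ y : Fin b → P.D, ((mod2 (mtx H r R R')).map P.ι).mulVec y = 0 →
      ∃ z : Fin c → P.D, ((mod2 (mtx H r R' R'')).map P.ι).mulVec z = y := fun y hy =>
    mtx_exact hX P.ι hR0 hR1 hR2 hex y hy
  have hharm : ∀ z, IsL2Ch X (i + 1) z → (∀ s ∈ X, bdR r z s = 0) → IsCoc X r z → z = 0 := fun z hz hz0 hz1 =>
    harm_zero hX hT hr hR0 hR1 hR2 (fun x hx h1 h2 => l2_zero P hR _ _ hmul hm x hx h1 h2) z hz hz0 hz1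
  intro r' hr' z hz hz0 ε hε
  have hT' : Tot X r' := tot_of_order hr'
  exact l2_hil hX.ne hX.down (fun s hs => cofaces_finite hX hs) hT' i
    (harm_order hX.down hT hT' (i + 1) hharm) z hz hz0 ε hε

end

end Pool.Agent.S11
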