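import Pool.Agent.S11.EdBA

/-!
# Project S11, block END: the chain maps `F`, `G` for a duality pair

`exists_F`: from `Dual.low`, `Dual.top`, `Dual.ex`; `exists_G`: the augmentation of the cochains of `K` is the evaluation
at `mu`.
-/

set_option autoImplicit false
set_option linter.unusedSectionVars false

open Finset Pointwise

namespace Pool.Agent.S11

open Pool.Agent.H37.TM Pool.Agent.S10

section

variable {Γ V U : Type} [Group Γ] [DecidableEq V] [MulAction Γ V] [DecidableEq U] [MulAction Γ U]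
  {X : Set (Finset V)} {K B mu : Set (Finset U)} {n : ℕ}

/-- the target of `F` -/
noncomputable def NF (K B : Set (Finset U)) (n : ℕ) : ℕ → Submodule (ZMod 2) ((Finset U →₀ ZMod 2) × ZMod 2)
  | 0 => (⊥ : Submodule (ZMod 2) (Finset U →₀ ZMod 2)).prod ⊤
  | i + 1 => (Finsupp.supported (ZMod 2) (ZMod 2) (cK K B n i)).prod ⊥

/-- the boundary of the target of `F` -/
noncomputable def dF (K mu : Set (Finset U)) :
    ((Finset U →₀ ZMod 2) × ZMod 2) →ₗ[ZMod 2] ((Finset U →₀ ZMod 2) × ZMod 2) :=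
  ((coF K).comp (LinearMap.fst (ZMod 2) (Finset U →₀ ZMod 2) (ZMod 2))).prod
    ((ev mu).comp (LinearMap.fst (ZMod 2) (Finset U →₀ ZMod 2) (ZMod 2)))

theorem dF_apply (x : (Finset U →₀ ZMod 2) × ZMod 2) : dF K mu x = (coF K x.1, ev mu x.1) := rfl

/-- the action on the target of `F` -/
noncomputable def rhoF (Γ U : Type) [DecidableEq U] [Group Γ] [MulAction Γ U] :
    Γ →* (((Finset U →₀ ZMod 2) × ZMod 2) →ₗ[ZMod 2] ((Finset U →₀ ZMod 2) × ZMod 2)) where
  toFun g := (rhoX Γ U g).prodMap LinearMap.id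
  map_one' := by
    rw [map_one]
    rfl
  map_mul' g h := by
    rw [map_mul]
    rfl

theorem rhoF_apply (g : Γ) (x : (Finset U →₀ ZMod 2) × ZMod 2) :
    rhoF Γ U g x = (x.1.mapDomain (g • ·), x.2) := rfl

theorem cK_smul (hA : SAct Γ K B) {i : ℕ} (g : Γ) {t : Finset U} (ht : t ∈ cK K B n i) : g • t ∈ cK K B n i :=
  ⟨hA.K_mem g t ht.1, fun h => ht.2.1 ((smul_memB_iff hA g t).1 h), by rw [Finset.card_smul_finset]; exact ht.2.2⟩

theorem supp_smul {S : Set (Finset U)} (hS : ∀ (g : Γ), ∀ t ∈ S, g • t ∈ S) (g : Γ) {x : Finset U →₀ ZMod 2}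
    (hx : x ∈ Finsupp.supported (ZMod 2) (ZMod 2) S) : x.mapDomain (g • ·) ∈ Finsupp.supported (ZMod 2) (ZMod 2) S := by
  refine (Finsupp.mem_supported _ _).2 fun t ht => ?_
  have h1 := Finsupp.mem_support_iff.1 ht
  rw [mapDomain_smul_apply] at h1
  have h2 := hS g _ ((Finsupp.mem_supported _ _).1 hx (Finsupp.mem_support_iff.2 h1))
  rwa [smul_inv_smul] at h2

theorem NF_smul (hA : SAct Γ K B) (i : ℕ) (g : Γ) (x : (Finset U →₀ ZMod 2) × ZMod 2) (hx : x ∈ NF K B n i) :
    rhoF Γ U g x ∈ NF K B n i := by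
  cases i with
  | zero =>
    obtain ⟨h1, h2⟩ := hx
    refine ⟨?_, trivial⟩
    have h3 : x.1 = 0 := h1
    show x.1.mapDomain (g • ·) = 0
    rw [h3, Finsupp.mapDomain_zero]
  | succ i =>
    obtain ⟨h1, h2⟩ := hx
    exact ⟨supp_smul (fun g t ht => cK_smul hA g ht) g h1, h2⟩

/-- the coboundaries of cochains outside `K ∖ B` -/
theorem coF_of_isCob (hD : Dual K B mu n (n + 1)) {g f : Finset U →₀ ZMod 2} (hg : ∀ t, g t ≠ 0 → t ∈ K ∧ t ∉ B)
    (hf : ∀ t, f t ≠ 0 → t ∈ K ∧ t ∉ B) (h : IsCob K B ∅ g f) : coF K g = f := by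
  classical
  ext t
  rw [coF_apply hD fun t ht => (hg t ht).1]
  by_cases htK : t ∈ K
  · rw [if_pos htK]
    by_cases htB : t ∈ B
    · have h2 : f t = 0 := by
        by_contra h
        exact (hf t h).2 htB
      rw [h2]
      refine sum_eq_zero fun v _ => ?_
      by_contra h
      obtain ⟨h3, h4⟩ := hg _ h
      exact h4 (hD.bd_down t htB _ (erase_subset _ _) (hD.ne _ h3))
    · have h2 := h t htK htB (empty_subset t)
      rw [sdiff_empty] at h2
      exact h2
  · rw [if_neg htK]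
    by_contra h
    exact htK (hf t (Ne.symm h)).1

/-- the target of `F` is exact -/
theorem NF_exact (hD : Dual K B mu n (n + 1)) (i : ℕ) (x : (Finset U →₀ ZMod 2) × ZMod 2) (hx : x ∈ NF K B n i)
    (h0 : dF K mu x = 0) : ∃ y ∈ NF K B n (i + 1), dF K mu y = x := by
  classical
  obtain ⟨f, c⟩ := x
  have h0a : coF K f = 0 := congrArg Prod.fst h0
  have h0b : ev mu f = 0 := congrArg Prod.snd h0
  match i with
  | 0 =>
    obtain ⟨hf, -⟩ := hx
    have hf0 : f = 0 := hf
    obtain ⟨f1, hf1, hf2, hf3⟩ := hD.ex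
    have h1 : coF K f1 = 0 := by
      refine coF_of_isCob hD (fun t ht => ⟨(hf1 t ht).1, (hf1 t ht).2.1⟩) (fun t ht => absurd rfl ht) hf2
    refine ⟨c • (f1, 0), Submodule.smul_mem _ _ ⟨?_, rfl⟩, ?_⟩
    · refine (Finsupp.mem_supported _ _).2 fun t ht => ?_
      obtain ⟨h2, h3, -, h4⟩ := hf1 t (Finsupp.mem_support_iff.1 ht)
      exact ⟨h2, h3, by omega⟩
    · rw [map_smul, dF_apply]
      show c • ((coF K f1, ev mu f1) : _ × _) = (f, c)
      rw [h1, ev_eq, hf3, hf0, Prod.smul_mk, smul_zero, smul_eq_mul, mul_one]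
  | m + 1 =>
    obtain ⟨hf, hc⟩ := hx
    have hc0 : c = 0 := hc
    have hfs : ∀ t, f t ≠ 0 → t ∈ K ∧ t ∉ B ∧ t.card + m = n + 1 := fun t ht =>
      (Finsupp.mem_supported _ _).1 hf (Finsupp.mem_support_iff.2 ht)
    have key : ∃ g : Finset U →₀ ZMod 2, (∀ t, g t ≠ 0 → t ∈ K ∧ t ∉ B ∧ t.card + (m + 1) = n + 1) ∧ coF K g = f := by
      rcases Nat.lt_or_ge n m with h | h
      · refine ⟨0, fun t ht => absurd rfl ht, ?_⟩
        rw [map_zero]
        ext t
        by_contra h1
        obtain ⟨h2, h3, h4⟩ := hfs t (Ne.symm h1)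
        have := card_pos.2 (hD.ne t h2)
        omega
      · refine exists_cob hD (by omega) hfs h0a fun hm => ?_
        rw [← h0b, ev_eq]
    obtain ⟨g, hg, hgf⟩ := key
    refine ⟨(g, 0), ⟨(Finsupp.mem_supported _ _).2 fun t ht => hg t (Finsupp.mem_support_iff.1 ht), rfl⟩, ?_⟩
    rw [dF_apply]
    show ((coF K g, ev mu g) : _ × _) = (f, c)
    rw [hgf, hc0, ev_zero hD fun t ht => by have := (hg t ht).2.2; omega]

/-- **the chain map `F`** -/
theorem exists_F (hX : SCx Γ X ∅) (hD : Dual K B mu n (n + 1)) (hA : SAct Γ K B)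
    (hmu : ∀ (g : Γ) (s : Finset U), s ∈ mu → g • s ∈ mu) :
    ∃ F : Finset V → (Finset U →₀ ZMod 2), (∀ (g : Γ), ∀ s ∈ X, F (g • s) = (F s).mapDomain (g • ·)) ∧
      (∀ s ∈ X, ∀ t, F s t ≠ 0 → t ∈ K ∧ t ∉ B ∧ t.card + s.card = n + 2) ∧ F ∅ = 0 ∧
      (∀ s ∈ X, coF K (F s) = lin F (bX s)) ∧ ∀ s ∈ X, s.card = 1 → ev mu (F s) = 1 := by
  classical
  obtain ⟨H, h1, h2, h3⟩ := liftX hX (rhoF Γ U) (dF K mu)
    (fun g x => by
      rw [dF_apply, rhoF_apply, rhoF_apply, dF_apply]
      exact Prod.ext (coF_smulS hA g x.1) (ev_smul hmu g x.1))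
    (NF K B n) (NF_smul hA) (NF_exact hD) (fun s => if s.card = 1 then (0, 1) else 0)
    (fun i a ha => by
      rcases i with _ | i
      · rw [if_pos ha.2]
        exact ⟨rfl, trivial⟩
      · rw [if_neg (by have := ha.2; omega)]
        exact Submodule.zero_mem _)
    (fun i g a ha => by
      rw [Finset.card_smul_finset]
      split_ifs
      · rw [rhoF_apply]
        refine Prod.ext ?_ rfl
        show (0 : Finset U →₀ ZMod 2) = (0 : Finset U →₀ ZMod 2).mapDomain (g • ·)
        rw [Finsupp.mapDomain_zero]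
      · rw [map_zero])
    (fun i a ha => by
      have h4 : dF K mu (if a.card = 1 then ((0 : Finset U →₀ ZMod 2), (1 : ZMod 2)) else 0) = 0 := by
        split_ifs
        · rw [dF_apply]
          exact Prod.ext (map_zero _) (map_zero _)
        · exact map_zero _
      rw [h4, lin_bX _ (if_neg (by simp))]
      symm
      by_cases h5 : a.card = 2
      · have h6 : ∀ v ∈ a, (if (a.erase v).card = 1 then ((0 : Finset U →₀ ZMod 2), (1 : ZMod 2)) else 0) =
            ((0 : Finset U →₀ ZMod 2), (1 : ZMod 2)) := fun v hv => if_pos (by rw [card_erase_of_mem hv]; omega)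
        rw [sum_congr rfl h6, sum_const, h5, two_nsmul]
        exact add_self_mod _
      · exact sum_eq_zero fun v hv => if_neg (by rw [card_erase_of_mem hv]; omega))
  have hF : ∀ s : Finset V, s.Nonempty → (fun s => if s = ∅ then (0 : Finset U →₀ ZMod 2) else (H s).1) s = (H s).1 :=
    fun s hs => if_neg hs.ne_empty
  have hc : ∀ s ∈ X, s ∈ cX X (s.card - 1) := fun s hs => ⟨hs, by have := card_pos.2 (hX.ne s hs); omega⟩
  refine ⟨fun s => if s = ∅ then 0 else (H s).1, fun g s hs => ?_, fun s hs t ht => ?_, if_pos rfl, fun s hs => ?_,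
    fun s hs h4 => ?_⟩
  · rw [hF s (hX.ne s hs), hF _ (hX.ne _ (hX.K_mem g s hs)), h2 _ g s (hc s hs), rhoF_apply]
  · rw [hF s (hX.ne s hs)] at ht
    obtain ⟨h4, -⟩ := h1 _ s (hc s hs)
    obtain ⟨h5, h6, h7⟩ := (Finsupp.mem_supported _ _).1 h4 (Finsupp.mem_support_iff.2 ht)
    have := card_pos.2 (hX.ne s hs)
    exact ⟨h5, h6, by omega⟩
  · have h4 := congrArg Prod.fst (h3 _ s (hc s hs))
    rw [Prod.fst_add] at h4
    have h5 : (lin H (bX s)).1 = lin (fun s => (H s).1) (bX s) :=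
      map_lin (LinearMap.fst (ZMod 2) (Finset U →₀ ZMod 2) (ZMod 2))
    have h6 : (if s.card = 1 then ((0 : Finset U →₀ ZMod 2), (1 : ZMod 2)) else 0).1 = 0 := by split_ifs <;> rfl
    rw [h5, h6, zero_add] at h4
    rw [hF s (hX.ne s hs), lin_bX_congr hF]
    exact h4
  · have h5 := congrArg Prod.snd (h3 _ s (hc s hs))
    rw [Prod.snd_add, if_pos h4, bX_zero (by omega), map_zero] at h5
    rw [hF s (hX.ne s hs)]
    exact h5.trans (add_zero _)

/-- **the chain map `G`** -/
theorem exists_G (hX : SCx Γ X ∅) (hac : Acyc X) (hA : SAct Γ K B) (hD : Dual K B mu n (n + 1))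
    (hmu : ∀ (g : Γ) (s : Finset U), s ∈ mu → g • s ∈ mu) :
    ∃ G : Finset U → (Finset V →₀ ZMod 2), (∀ (g : Γ), ∀ t ∈ K, t ∉ B → G (g • t) = (G t).mapDomain (g • ·)) ∧
      (∀ t ∈ K, t ∉ B → ∀ s, G t s ≠ 0 → s ∈ X ∧ s.card + t.card = n + 2) ∧
      (∀ t ∈ K, t ∉ B → t.card ≤ n → bdS (G t) = lin G (bK K n t)) ∧
      (∀ t ∈ K, t ∉ B → t.card = n + 1 → bdS (G t) = open Classical in if t ∈ mu then Finsupp.single ∅ 1 else 0) ∧
      ∀ t, n + 1 < t.card → G t = 0 := by
  classical
  have hmu' : ∀ (g : Γ) (t : Finset U), g • t ∈ mu ↔ t ∈ mu := by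
    intro g t
    refine ⟨fun h => ?_, hmu g t⟩
    have h2 := hmu g⁻¹ _ h
    rwa [inv_smul_smul] at h2
  let F0 : Finset U → (Finset V →₀ ZMod 2) := fun t => if t ∈ mu then Finsupp.single ∅ 1 else 0
  have hF0 : ∀ t, t.card ≤ n → F0 t = 0 := fun t ht => if_neg fun h => by
    have := (hD.mu_sub t h).2.2
    omega
  let M : ℕ → Submodule (ZMod 2) (Finset V →₀ ZMod 2) := fun i =>
    if i = 0 then Finsupp.supported (ZMod 2) (ZMod 2) {∅} else MX X (i - 1)
  have hM0 : M 0 = Finsupp.supported (ZMod 2) (ZMod 2) {∅} := if_pos rfl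
  have hM1 : ∀ i, M (i + 1) = MX X i := fun i => if_neg (Nat.succ_ne_zero i)
  obtain ⟨H, h1, h2, h3⟩ := lift_free (Γ := Γ) (A := Finset U) (N := Finset V →₀ ZMod 2) (cK K B n)
    (fun i g a ha => cK_smul hA g ha) (fun i j a hi hj => by have := hi.2.2; have := hj.2.2; omega)
    (fun i a ha g h => hA.free g a ha.1 h) (bK K n) (fun i a ha b hb => mem_bK hD ha hb)
    (fun a ha => bK_zero (by have := ha.2.2; omega)) (fun i g a _ => bK_smul hA g a) (fun i a ha => bK_bK hD ha)
    (rhoX Γ V) bdS (fun g x => bdS_smul g x) M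
    (fun i g x hx => by
      rcases i with _ | i
      · rw [hM0] at hx ⊢
        exact supp_smul (fun g t ht => by rw [Set.mem_singleton_iff] at ht ⊢; rw [ht, Finset.smul_finset_empty]) g hx
      · rw [hM1] at hx ⊢
        exact MX_smul hX g hx)
    (fun i _ x hx h0 => by
      rcases i with _ | i
      · rw [hM0] at hx
        obtain ⟨y, hy, hyx⟩ := MX_exact hac (k := 0) (x := x) (fun s hs => by
          have h4 : s = ∅ := (Finsupp.mem_supported _ _).1 hx (Finsupp.mem_support_iff.2 hs)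
          exact ⟨Or.inr h4, by rw [h4, card_empty]⟩) h0
        exact ⟨y, by rw [hM1]; exact hy, hyx⟩
      · rw [hM1, mem_MX] at hx
        obtain ⟨y, hy, hyx⟩ := MX_exact hac (k := i + 1) (x := x) (fun s hs =>
          ⟨Or.inl (hx s hs).1, (hx s hs).2⟩) h0
        exact ⟨y, by rw [hM1]; exact hy, hyx⟩)
    F0
    (fun i a ha => by
      rcases i with _ | i
      · rw [hM0]
        show (if a ∈ mu then Finsupp.single ∅ 1 else 0) ∈ _
        split_ifs
        · exact Finsupp.single_mem_supported _ _ rfl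
        · exact Submodule.zero_mem _
      · rw [hF0 a (by have := ha.2.2; omega)]
        exact Submodule.zero_mem _)
    (fun i g a ha => by
      show (if g • a ∈ mu then Finsupp.single ∅ 1 else 0) = rhoX Γ V g (if a ∈ mu then Finsupp.single ∅ 1 else 0)
      simp only [hmu']
      split_ifs
      · rw [rhoX_apply, Finsupp.mapDomain_single, Finset.smul_finset_empty]
      · rw [map_zero])
    (fun i a ha => by
      have h4 : bdS (F0 a) = 0 := by
        show bdS (if a ∈ mu then Finsupp.single ∅ 1 else 0) = 0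
        split_ifs
        · rw [bdS_sgl, sum_empty]
        · exact map_zero _
      rw [h4]
      symm
      rcases i with _ | _ | i
      · rw [bK_zero (by have := ha.2.2; omega), map_zero]
      · have hc : a.card = n := by have := ha.2.2; omega
        rw [bK_of (by omega), coF_single, map_sum]
        have h5 : ∀ t' ∈ cofs K a (a.card + 1), lin F0 (Finsupp.single t' 1) = if t' ∈ mu then Finsupp.single ∅ 1 else 0 :=
          fun t' _ => lin_single _ _
        rw [sum_congr rfl h5, ← sum_filter, sum_const]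
        have h6 : Even ((cofs K a (a.card + 1)).filter fun t' => t' ∈ mu).card := by
          have h7 := hD.even a ha.1 ha.2.1 hc
          have h8 : {t | t ∈ mu ∧ a ⊆ t} = (((cofs K a (a.card + 1)).filter fun t' => t' ∈ mu : Finset (Finset U)) :
              Set (Finset U)) := by
            ext t
            simp only [Set.mem_ofPred_eq, Finset.coe_filter, mem_cofsD hD ha.1]
            constructor
            · rintro ⟨h9, h10⟩
              exact ⟨⟨(hD.mu_sub t h9).1, h10, by rw [(hD.mu_sub t h9).2.2, hc]⟩, h9⟩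
            · rintro ⟨⟨-, h10, -⟩, h9⟩
              exact ⟨h9, h10⟩
          rwa [h8, Set.ncard_coe_finset] at h7
        obtain ⟨k, hk⟩ := h6
        rw [hk, add_nsmul]
        exact add_self_mod _
      · have h5 : ∀ c, bK K n a c ≠ 0 → F0 c = (fun _ => 0) c := fun c hc =>
          hF0 c (by have := (mem_bK hD ha hc).2.2; omega)
        rw [lin_congr (f' := F0) (f := fun _ => 0) h5]
        unfold lin
        simp [Finsupp.linearCombination_apply])
  have hc : ∀ t ∈ K, t ∉ B → t.card ≤ n + 1 → t ∈ cK K B n (n + 1 - t.card) := fun t ht ht' h => ⟨ht, ht', by omega⟩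
  have hG : ∀ t : Finset U, t.card ≤ n + 1 → (fun t => if t.card ≤ n + 1 then H t else 0) t = H t := fun t ht => if_pos ht
  have hG' : ∀ t : Finset U, n + 1 < t.card → (fun t => if t.card ≤ n + 1 then H t else 0) t = 0 := fun t ht =>
    if_neg (by omega)
  refine ⟨fun t => if t.card ≤ n + 1 then H t else 0, fun g t ht ht' => ?_, fun t ht ht' s hs => ?_,
    fun t ht ht' hcd => ?_, fun t ht ht' hcd => ?_, hG'⟩
  · rcases Nat.lt_or_ge (n + 1) t.card with h | h
    · rw [hG' t h, hG' (g • t) (by rw [Finset.card_smul_finset]; exact h), Finsupp.mapDomain_zero]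
    · rw [hG t h, hG (g • t) (by rw [Finset.card_smul_finset]; exact h), h2 _ g t (hc t ht ht' h), rhoX_apply]
  · rcases Nat.lt_or_ge (n + 1) t.card with h | h
    · rw [hG' t h] at hs
      exact absurd rfl hs
    · rw [hG t h] at hs
      have h4 := h1 _ t (hc t ht ht' h)
      rw [hM1, mem_MX] at h4
      obtain ⟨h5, h6⟩ := h4 s hs
      exact ⟨h5, by omega⟩
  · rw [hG t (by omega), h3 _ t (hc t ht ht' (by omega)), hF0 t hcd, zero_add]
    refine lin_congr fun c hcc => ?_
    have h4 := mem_bK (i := n - t.card) hD (a := t) ⟨ht, ht', by omega⟩ hcc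
    exact (hG c (by have := h4.2.2; omega)).symm
  · rw [hG t (by omega), h3 _ t (hc t ht ht' (by omega)), bK_zero (by omega), map_zero, add_zero]

end

end Pool.Agent.S11
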