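import Pool.Agent.S11.SqDefs
import Pool.Agent.H93.S11.Rk

/-!
# Project S11, block END: definitions

`L2ZeroS X i`: the reduced `ℓ²`-homology of the simplicial complex `X` vanishes in degree `i`.
`FreeX`: a free cocompact simplicial action; `Rps`: representatives of the orbits of the simplices with `k` vertices;
`incR`: incidence numbers with respect to the order `r` of the vertices; `mtx`: the matrices of the boundary.
-/

set_option autoImplicit false
set_option linter.unusedSectionVars false

open Finset Pointwise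

namespace Pool.Agent.S11

section

variable {U : Type} [DecidableEq U]

open Classical in
/-- the sign of a new vertex with respect to the order `r` of the vertices -/
noncomputable def sgR (r : U → U → Prop) (s : Finset U) (v : U) : ℤ := (-1) ^ (s.filter fun u => r u v).card

/-- square summable real chains on the simplices with `k` vertices -/
structure IsL2Ch (X : Set (Finset U)) (k : ℕ) (z : Finset U → ℝ) : Prop where
  supp : ∀ s, z s ≠ 0 → s ∈ X ∧ s.card = k
  l2 : Summable fun s => z s ^ 2

/-- the simplicial boundary -/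
noncomputable def bdR (r : U → U → Prop) (z : Finset U → ℝ) (s : Finset U) : ℝ :=
  ∑ᶠ v ∈ {v | v ∉ s}, (sgR r s v : ℝ) * z (insert v s)

/-- The reduced `ℓ²`-homology of the simplicial complex `X` vanishes in degree `i`: every square summable cycle is a
limit of boundaries of square summable chains.  The orientations come from a total order of the vertices. -/
def L2ZeroS (X : Set (Finset U)) (i : ℕ) : Prop :=
  ∀ r : U → U → Prop, IsStrictTotalOrder U r → ∀ z, IsL2Ch X (i + 1) z → (∀ s ∈ X, bdR r z s = 0) → ∀ ε : ℝ, 0 < ε →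
    ∃ y, IsL2Ch X (i + 2) y ∧ (Summable fun s => (z s - bdR r y s) ^ 2) ∧ ∑' s, (z s - bdR r y s) ^ 2 < ε

/-- a relation which orders every simplex -/
def Tot (X : Set (Finset U)) (r : U → U → Prop) : Prop :=
  ∀ s ∈ X, ∀ u ∈ s, ∀ v ∈ s, u ≠ v → ((r u v ∧ ¬ r v u) ∨ (r v u ∧ ¬ r u v)) ∧ ∀ w ∈ s, r u v → r v w → r u w

/-- the cochains which are cocycles -/
def IsCoc (X : Set (Finset U)) (r : U → U → Prop) (z : Finset U → ℝ) : Prop :=
  ∀ t ∈ X, ∑ v ∈ t, (sgR r (t.erase v) v : ℝ) * z (t.erase v) = 0

/-- the incidence numbers -/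
noncomputable def incR (r : U → U → Prop) (s t : Finset U) : ℤ :=
  if s ⊆ t ∧ t.card = s.card + 1 then ∏ v ∈ t \ s, sgR r s v else 0

/-- the boundary of the functions with values in a vector space over the field of two elements -/
noncomputable def bdV {W : Type} [AddCommGroup W] (e : Finset U → W) (s : Finset U) : W :=
  ∑ᶠ v ∈ {v | v ∉ s}, e (insert v s)

/-- a free cocompact simplicial action on the simplicial complex `X` -/
structure FreeX (H : Type) [Group H] [MulAction H U] (X : Set (Finset U)) : Prop where
  ne : ∀ s ∈ X, s.Nonempty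
  down : ∀ s ∈ X, ∀ t, t ⊆ s → t.Nonempty → t ∈ X
  mem : ∀ (g : H), ∀ s ∈ X, g • s ∈ X
  free : ∀ (g : H), ∀ s ∈ X, g • s = s → g = 1
  fin : ∃ F : Finset (Finset U), ∀ s ∈ X, ∃ g : H, g • s ∈ F

variable {H : Type} [Group H] [MulAction H U]

/-- the boundary is exact on the equivariant functions on the simplices with `k` vertices -/
def ExactBd (X : Set (Finset U)) {W : Type} [AddCommGroup W] [Module (ZMod 2) W] (ρ : H →* Module.End (ZMod 2) W)
    (k : ℕ) : Prop :=
  ∀ e, EqC X ∅ ρ k e → (∀ s ∈ X, bdV e s = 0) → ∃ f, EqC X ∅ ρ (k + 1) f ∧ ∀ s ∈ X, bdV f s = e s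

/-- `R` represents the orbits of the simplices with `k` vertices -/
structure Rps (H : Type) [Group H] [MulAction H U] (X : Set (Finset U)) (k : ℕ) {a : ℕ} (R : Fin a → Finset U) :
    Prop where
  mem : ∀ j, R j ∈ X
  card : ∀ j, (R j).card = k
  ex : ∀ s ∈ X, s.card = k → ∃ (g : H) (j : Fin a), s = g • R j
  uniq : ∀ (g g' : H) (j j' : Fin a), g • R j = g' • R j' → g = g' ∧ j = j'

/-- the matrix of the boundary: the coefficient of `h` is the incidence number of `R l` and `h • R' j` -/
noncomputable def mtx (H : Type) [Group H] [MulAction H U] (r : U → U → Prop) {a b : ℕ} (R : Fin a → Finset U)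
    (R' : Fin b → Finset U) : Matrix (Fin a) (Fin b) (MonoidAlgebra ℤ H) :=
  fun l j => ∑ᶠ h : H, MonoidAlgebra.single h (incR r (R l) (h • R' j))

/-- reduction of the coefficients modulo two -/
noncomputable def mod2 {H : Type} [Group H] {a b : ℕ} (A : Matrix (Fin a) (Fin b) (MonoidAlgebra ℤ H)) :
    Matrix (Fin a) (Fin b) (MonoidAlgebra (ZMod 2) H) :=
  A.map (MonoidAlgebra.mapRingHom H (Int.castRingHom (ZMod 2)))

end

end Pool.Agent.S11
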