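import Pool.Agent.S11.EdC0
import Pool.Agent.S11.EdDefs

/-!
# Project S11, block END: the boundary of the equivariant functions

`isBd_phi`: `phi` maps the boundary `bdX` to the boundary `bdV` of the equivariant functions.  `exactBd_of_exR`: exactness of
the coinvariants gives exactness of the equivariant functions.
-/

set_option autoImplicit false
set_option linter.unusedSectionVars false

open Finset Pointwise
open scoped TensorProduct

noncomputable section

namespace Pool.Agent.S11

section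

variable {Γ V : Type} [Group Γ] [DecidableEq V] [MulAction Γ V] {X : Set (Finset V)}
  {W : Type} [AddCommGroup W] [Module (ZMod 2) W]

/-- the boundary as a sum over the simplices around `s` -/
theorem bdV_sx (hX : SCx Γ X (∅ : Set (Finset V))) {q : ℕ} (s : Sx X (∅ : Set (Finset V)) q) {e : Finset V → W}
    (he : ∀ t, e t ≠ 0 → t ∈ X) : bdV e s.1 = ∑ t ∈ cof hX s, e t.1 := by
  classical
  have hA : {v | v ∉ s.1 ∧ insert v s.1 ∈ X}.Finite := by
    refine Set.Finite.of_finite_image (f := fun v => insert v s.1) ((hX.locfin s.1 s.2.1).subset ?_) ?_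
    · rintro _ ⟨v, hv, rfl⟩
      exact ⟨hv.2, subset_insert v s.1⟩
    · intro a ha b hb hab
      have h1 : a ∈ insert b s.1 := by
        have h2 : insert a s.1 = insert b s.1 := hab
        rw [← h2]
        exact mem_insert_self a s.1
      rcases mem_insert.1 h1 with h | h
      · exact h
      · exact absurd h ha.1
  have h1 : bdV e s.1 = ∑ v ∈ hA.toFinset, e (insert v s.1) := by
    unfold bdV
    refine finsum_mem_eq_sum_of_inter_support_eq _ ?_
    ext v
    simp only [Set.mem_inter_iff, Set.mem_ofPred_eq, Function.mem_support, Finset.mem_coe, Set.Finite.mem_toFinset]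
    constructor
    · rintro ⟨h1, h2⟩
      exact ⟨⟨h1, he _ h2⟩, h2⟩
    · rintro ⟨⟨h1, _⟩, h2⟩
      exact ⟨h1, h2⟩
  rw [h1]
  refine sum_bij (fun v hv => (⟨insert v s.1, ((Set.Finite.mem_toFinset hA).1 hv).2, fun h => h, by
    rw [card_insert_of_notMem ((Set.Finite.mem_toFinset hA).1 hv).1, s.2.2.2]⟩ :
      Sx X (∅ : Set (Finset V)) (q + 1))) ?_ ?_ ?_ ?_
  · intro v hv
    exact (mem_cof hX).2 (subset_insert v s.1)
  · intro a ha b hb hab
    have h2 : insert a s.1 = insert b s.1 := congrArg Subtype.val hab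
    have h3 : a ∈ insert b s.1 := by
      rw [← h2]
      exact mem_insert_self a s.1
    rcases mem_insert.1 h3 with h | h
    · exact h
    · exact absurd h ((Set.Finite.mem_toFinset hA).1 ha).1
  · intro t ht
    rw [mem_cof] at ht
    have h3 : (t.1 \ s.1).card = 1 := by
      rw [card_sdiff_of_subset ht, t.2.2.2, s.2.2.2]
      omega
    obtain ⟨v, hv⟩ := card_eq_one.1 h3
    have h4 : v ∈ t.1 \ s.1 := by rw [hv]; exact mem_singleton_self v
    rw [mem_sdiff] at h4
    have h5 : insert v s.1 = t.1 := by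
      refine eq_of_subset_of_card_le (insert_subset h4.1 ht) ?_
      rw [card_insert_of_notMem h4.2, t.2.2.2, s.2.2.2]
    refine ⟨v, (Set.Finite.mem_toFinset hA).2 ⟨h4.2, h5 ▸ t.2.1⟩, Subtype.ext h5⟩
  · intro v hv
    rfl

open Classical in
/-- the boundary of the elementary equivariant function -/
theorem bd_orb (hX : SCx Γ X (∅ : Set (Finset V))) (τ : Representation (ZMod 2) Γ W) {q : ℕ}
    (s₀ : Sx X (∅ : Set (Finset V)) (q + 1)) (w : W) (s : Sx X (∅ : Set (Finset V)) q) :
    ∑ t ∈ cof hX s, orb τ s₀.1 w t.1 =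
      ∑ v ∈ s₀.1, if s₀.1.erase v ∈ X ∧ s₀.1.erase v ∉ (∅ : Set (Finset V)) ∧ (s₀.1.erase v).card = q then
        orb τ (s₀.1.erase v) w s.1 else 0 := by
  classical
  -- the elements of the group with `s ⊆ g s₀`
  obtain ⟨F, hF⟩ : ∃ F : Finset Γ, ∀ g, g ∈ F ↔ s.1 ⊆ g • s₀.1 := by
    have h1 := (finite_sub hX s.2.1 s₀.1).preimage (f := fun g : Γ => g⁻¹) inv_injective.injOn
    refine ⟨h1.toFinset, fun g => ?_⟩
    rw [Set.Finite.mem_toFinset]
    show g⁻¹ • s.1 ⊆ s₀.1 ↔ _
    constructor
    · intro h2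
      have h3 : g • (g⁻¹ • s.1) ⊆ g • s₀.1 := smul_finset_subset_smul_finset h2
      rwa [smul_inv_smul] at h3
    · intro h2
      have h3 : g⁻¹ • s.1 ⊆ g⁻¹ • (g • s₀.1) := smul_finset_subset_smul_finset h2
      rwa [inv_smul_smul] at h3
  have hL : ∀ t ∈ cof hX s, orb τ s₀.1 w t.1 = ∑ g ∈ F, if g • s₀.1 = t.1 then τ g w else 0 := fun t ht =>
    orb_sum hX τ s₀.2.1 w fun g hg => (hF g).2 (hg ▸ (mem_cof hX).1 ht)
  have hR : ∀ v ∈ s₀.1, (if s₀.1.erase v ∈ X ∧ s₀.1.erase v ∉ (∅ : Set (Finset V)) ∧ (s₀.1.erase v).card = q then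
      orb τ (s₀.1.erase v) w s.1 else 0) = ∑ g ∈ F, if g • s₀.1.erase v = s.1 then τ g w else 0 := by
    intro v hv
    split_ifs with h1
    · refine orb_sum hX τ h1.1 w fun g hg => (hF g).2 ?_
      rw [← hg]
      exact smul_finset_subset_smul_finset (erase_subset v _)
    · symm
      refine sum_eq_zero fun g _ => if_neg fun h2 => h1 ?_
      have h3 := hX.smul_mem g⁻¹ s.2
      rwa [← h2, inv_smul_smul] at h3
  rw [sum_congr rfl hL, sum_congr rfl hR, sum_comm, sum_comm (s := s₀.1)]
  refine sum_congr rfl fun g hg => ?_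
  rw [hF] at hg
  rw [← sum_filter, ← sum_filter, sum_const, sum_const]
  congr 1
  have hg1 : (g • s₀.1).card = q + 1 := (hX.smul_mem g s₀.2).2.2
  have h3 : (cof hX s).filter (fun t => g • s₀.1 = t.1) = {⟨g • s₀.1, hX.smul_mem g s₀.2⟩} := by
    ext t
    rw [mem_filter, mem_singleton, mem_cof]
    constructor
    · rintro ⟨_, h5⟩
      exact Subtype.ext h5.symm
    · rintro rfl
      exact ⟨hg, rfl⟩
  have h4 : ∃ v ∈ s₀.1, g • s₀.1.erase v = s.1 := by
    have h5 : g⁻¹ • s.1 ⊆ s₀.1 := by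
      have h6 : g⁻¹ • s.1 ⊆ g⁻¹ • (g • s₀.1) := smul_finset_subset_smul_finset hg
      rwa [inv_smul_smul] at h6
    have h6 : (s₀.1 \ g⁻¹ • s.1).card = 1 := by
      rw [card_sdiff_of_subset h5, card_smul_finset, s₀.2.2.2, s.2.2.2]
      omega
    obtain ⟨v, hv⟩ := card_eq_one.1 h6
    have h7 : v ∈ s₀.1 \ g⁻¹ • s.1 := by rw [hv]; exact mem_singleton_self v
    rw [mem_sdiff] at h7
    refine ⟨v, h7.1, ?_⟩
    have h8 : g⁻¹ • s.1 = s₀.1.erase v := by
      refine eq_of_subset_of_card_le (fun u hu => mem_erase.2 ⟨fun h9 => h7.2 (h9 ▸ hu), h5 hu⟩) ?_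
      rw [card_erase_of_mem h7.1, card_smul_finset, s₀.2.2.2, s.2.2.2]
      omega
    rw [← h8, smul_inv_smul]
  obtain ⟨v, hv, hv'⟩ := h4
  have h5 : s₀.1.filter (fun u => g • s₀.1.erase u = s.1) = {v} := by
    ext u
    rw [mem_filter, mem_singleton]
    constructor
    · rintro ⟨h6, h7⟩
      by_contra h8
      rw [← hv'] at h7
      have h9 : s₀.1.erase u = s₀.1.erase v := smul_left_cancel g h7
      have h10 : u ∈ s₀.1.erase v := mem_erase.2 ⟨h8, h6⟩
      rw [← h9] at h10
      exact notMem_erase u _ h10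
    · rintro rfl
      exact ⟨hv, hv'⟩
  rw [h3, h5, card_singleton, card_singleton]

/-- the boundary of the equivariant functions -/
theorem isBd_phi (hX : SCx Γ X (∅ : Set (Finset V))) (τ : Representation (ZMod 2) Γ W) {q : ℕ}
    (x : (Sx X (∅ : Set (Finset V)) (q + 1) →₀ ZMod 2) ⊗[ZMod 2] W) {s : Finset V} (hs : s ∈ X) :
    bdV (phi X ∅ τ (q + 1) (TensorProduct.finsuppScalarLeft (ZMod 2) W (Sx X (∅ : Set (Finset V)) (q + 1)) x)) s =
      phi X ∅ τ q (TensorProduct.finsuppScalarLeft (ZMod 2) W (Sx X (∅ : Set (Finset V)) q)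
        ((bdX X q).rTensor W x)) s := by
  classical
  by_cases hc : s.card = q
  · have h1 : bdV (phi X ∅ τ (q + 1)
        (TensorProduct.finsuppScalarLeft (ZMod 2) W (Sx X (∅ : Set (Finset V)) (q + 1)) x)) s =
        ∑ t ∈ cof hX (⟨s, hs, fun h => h, hc⟩ : Sx X (∅ : Set (Finset V)) q), phi X ∅ τ (q + 1)
          (TensorProduct.finsuppScalarLeft (ZMod 2) W (Sx X (∅ : Set (Finset V)) (q + 1)) x) t.1 :=
      bdV_sx hX (⟨s, hs, fun h => h, hc⟩ : Sx X (∅ : Set (Finset V)) q)
        fun t ht => ((eqC_phi hX τ _).supp t ht).1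
    rw [h1]
    induction x using TensorProduct.induction_on with
    | zero =>
      simp only [map_zero]
      exact sum_eq_zero fun t _ => rfl
    | add x y hx hy =>
      simp only [map_add, Pi.add_apply, sum_add_distrib]
      rw [hx, hy]
      · exact bdV_sx hX (⟨s, hs, fun h => h, hc⟩ : Sx X (∅ : Set (Finset V)) q)
          fun t ht => ((eqC_phi hX τ _).supp t ht).1
      · exact bdV_sx hX (⟨s, hs, fun h => h, hc⟩ : Sx X (∅ : Set (Finset V)) q)
          fun t ht => ((eqC_phi hX τ _).supp t ht).1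
    | tmul f w =>
      clear h1
      induction f using Finsupp.induction_linear with
      | zero =>
        simp only [TensorProduct.zero_tmul, map_zero]
        exact sum_eq_zero fun t _ => rfl
      | add f g hf hg =>
        simp only [TensorProduct.add_tmul, map_add, Pi.add_apply, sum_add_distrib]
        rw [hf, hg]
      | single s₀ a =>
        have h2 := bd_orb hX τ s₀ (a • w) (⟨s, hs, fun h => h, hc⟩ : Sx X (∅ : Set (Finset V)) q)
        rw [LinearMap.rTensor_tmul, bdX_single, TensorProduct.sum_tmul, map_sum, map_sum, Finset.sum_apply]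
        rw [TensorProduct.finsuppScalarLeft_apply_tmul, Finsupp.sum_single_index (by rw [zero_smul, Finsupp.single_zero]),
          phi_single, h2]
        refine sum_congr rfl fun v _ => ?_
        split_ifs with h3
        · rw [TensorProduct.finsuppScalarLeft_apply_tmul,
            Finsupp.sum_single_index (by rw [zero_smul, Finsupp.single_zero]), phi_single]
        · rw [TensorProduct.zero_tmul, map_zero, map_zero]
          rfl
  · have h1 : phi X ∅ τ q (TensorProduct.finsuppScalarLeft (ZMod 2) W (Sx X (∅ : Set (Finset V)) q)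
        ((bdX X q).rTensor W x)) s = 0 := by
      by_contra h2
      exact hc ((eqC_phi hX τ _).supp s h2).2.2
    rw [h1]
    unfold bdV
    refine finsum_mem_of_eqOn_zero fun v hv => ?_
    by_contra h2
    have h3 := ((eqC_phi hX τ _).supp _ h2).2.2
    rw [card_insert_of_notMem hv] at h3
    exact hc (by omega)

/-- **From coinvariants to equivariant functions.** -/
theorem exactBd_of_exR (hX : SCx Γ X (∅ : Set (Finset V))) {τ : Representation (ZMod 2) Γ W} {q : ℕ}
    (hex : ExR τ (cRep hX (q + 1)) (cRep hX q) (bdX X (q + 1)) (bdX X q)) : ExactBd X τ (q + 1) := by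
  intro e he h0
  obtain ⟨x', hx'⟩ := phi_surj hX τ he
  set x := (TensorProduct.finsuppScalarLeft (ZMod 2) W (Sx X (∅ : Set (Finset V)) (q + 1))).symm x' with hx
  have h1 : TensorProduct.finsuppScalarLeft (ZMod 2) W (Sx X (∅ : Set (Finset V)) (q + 1)) x = x' :=
    LinearEquiv.apply_symm_apply _ _
  have h2 : (bdX X q).rTensor W x ∈ Kr ((cRep hX q).tprod τ) ⊤ := by
    refine phi_ker hX τ _ ?_
    funext s
    by_cases hs : s ∈ X
    · rw [← isBd_phi hX τ x hs, h1, hx', h0 s hs]
      rfl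
    · by_contra h3
      exact hs ((eqC_phi hX τ _).supp s h3).1
  obtain ⟨y, hy⟩ := hex x h2
  have h3 := phi_Kr hX τ (q + 1) hy
  rw [map_sub, map_sub, sub_eq_zero, h1, hx'] at h3
  refine ⟨phi X ∅ τ (q + 1 + 1)
    (TensorProduct.finsuppScalarLeft (ZMod 2) W (Sx X (∅ : Set (Finset V)) (q + 1 + 1)) y), eqC_phi hX τ _,
    fun s hs => ?_⟩
  rw [isBd_phi hX τ y hs, h3]

end

end Pool.Agent.S11
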