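import Pool.Agent.S11.EdMtx
import Pool.Agent.S11.Pack

/-!
# Project S11, block END: exactness of the matrices over the division ring

PROOFS.  `y : Fin b → D` is the equivariant function `e` with `e (g • R' j) = ι g * y j` and `0` on the other finite sets.  For `s = R l`:
`bdV e s = ∑ (t ⊇ s) e t = ∑ j, ∑ (h : R l ⊆ h • R' j) ι h * y j`, which is the entry `l` of `mulVec`; `bdV e` is equivariant.
-/

set_option autoImplicit false
set_option linter.unusedSectionVars false

open Finset Pointwise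

namespace Pool.Agent.S11

variable {U H : Type} [DecidableEq U] [Group H] [MulAction H U] {X : Set (Finset U)} {r : U → U → Prop}

/-- the boundary is the sum over the cofaces -/
theorem bdV_eq {W : Type} [AddCommGroup W] {e : Finset U → W} (he : ∀ t, e t ≠ 0 → t ∈ X) (s : Finset U) :
    bdV e s = ∑ᶠ t ∈ {t | t ∈ X ∧ s ⊆ t ∧ t.card = s.card + 1}, e t := by
  unfold bdV
  have h1 : ∑ᶠ v ∈ {v | v ∉ s}, e (insert v s) = ∑ᶠ v ∈ {v | v ∉ s ∧ insert v s ∈ X}, e (insert v s) := by
    refine finsum_mem_inter_support_eq _ _ _ ?_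
    ext v
    simp only [Set.mem_inter_iff, Set.mem_setOf_eq, Function.mem_support]
    exact ⟨fun h => ⟨⟨h.1, he _ h.2⟩, h.2⟩, fun h => ⟨h.1.1, h.2⟩⟩
  rw [h1]
  refine finsum_mem_eq_of_bijOn (fun v => insert v s) ⟨?_, ?_, ?_⟩ fun _ _ => rfl
  · intro v hv
    exact ⟨hv.2, subset_insert _ _, card_insert_of_notMem hv.1⟩
  · intro v hv w hw hvw
    have h2 : v ∈ insert w s := by
      have h3 : insert v s = insert w s := hvw
      rw [← h3]
      exact mem_insert_self _ _
    rcases mem_insert.1 h2 with h3 | h3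
    · exact h3
    · exact absurd h3 hv.1
  · rintro t ⟨h2, h3, h4⟩
    obtain ⟨v, hv⟩ : ∃ v, t \ s = {v} := card_eq_one.1 (by rw [card_sdiff_of_subset h3]; omega)
    have h5 : v ∈ t \ s := by rw [hv]; exact mem_singleton_self v
    have h6 : insert v s = t := by
      rw [insert_eq, ← hv, sdiff_union_of_subset h3]
    exact ⟨v, ⟨(mem_sdiff.1 h5).2, by rw [h6]; exact h2⟩, h6⟩

open Classical in
/-- the equivariant function with given values at the representatives -/
noncomputable def fn {D : Type} [DivisionRing D] (ι : MonoidAlgebra (ZMod 2) H →+* D) {b : ℕ} (R' : Fin b → Finset U)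
    (y : Fin b → D) (t : Finset U) : D :=
  if h : ∃ p : H × Fin b, t = p.1 • R' p.2 then ι (MonoidAlgebra.single h.choose.1 1) * y h.choose.2 else 0

theorem fn_smul {D : Type} [DivisionRing D] (ι : MonoidAlgebra (ZMod 2) H →+* D) {k b : ℕ} {R' : Fin b → Finset U}
    (hR' : Rps H X k R') (y : Fin b → D) (g : H) (j : Fin b) :
    fn ι R' y (g • R' j) = ι (MonoidAlgebra.single g 1) * y j := by
  have h : ∃ p : H × Fin b, g • R' j = p.1 • R' p.2 := ⟨(g, j), rfl⟩
  unfold fn
  rw [dif_pos h]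
  have h1 := hR'.uniq _ _ _ _ h.choose_spec
  rw [← h1.1, ← h1.2]

theorem eqC_fn {D : Type} [DivisionRing D] [Algebra (ZMod 2) D] (hX : FreeX H X) (ι : MonoidAlgebra (ZMod 2) H →+* D)
    {k b : ℕ} {R' : Fin b → Finset U} (hR' : Rps H X k R') (y : Fin b → D) : EqC X ∅ (lft ι) k (fn ι R' y) where
  supp := by
    intro t ht
    by_cases h : ∃ p : H × Fin b, t = p.1 • R' p.2
    · obtain ⟨⟨g, j⟩, rfl⟩ := h
      refine ⟨hX.mem g _ (hR'.mem j), fun h1 => h1, ?_⟩
      rw [card_smul_finset]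
      exact hR'.card j
    · refine absurd ?_ ht
      unfold fn
      rw [dif_neg h]
  eqv := by
    intro g t
    by_cases h : ∃ p : H × Fin b, t = p.1 • R' p.2
    · obtain ⟨⟨g', j⟩, rfl⟩ := h
      show fn ι R' y (g • g' • R' j) = lft ι g (fn ι R' y (g' • R' j))
      rw [← mul_smul, fn_smul ι hR', fn_smul ι hR', lft_apply, ← mul_assoc, ← map_mul, MonoidAlgebra.single_mul_single,
        mul_one]
    · have h1 : ¬ ∃ p : H × Fin b, g • t = p.1 • R' p.2 := by
        rintro ⟨⟨g', j⟩, h2⟩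
        refine h ⟨(g⁻¹ * g', j), ?_⟩
        show t = (g⁻¹ * g') • R' j
        rw [mul_smul, ← h2, inv_smul_smul]
      have h2 : fn ι R' y (g • t) = 0 := by
        unfold fn
        rw [dif_neg h1]
      have h3 : fn ι R' y t = 0 := by
        unfold fn
        rw [dif_neg h]
      rw [h2, h3, map_zero]
  fin := by
    classical
    refine ⟨univ.image R', fun t ht => ?_⟩
    by_cases h : ∃ p : H × Fin b, t = p.1 • R' p.2
    · obtain ⟨⟨g, j⟩, rfl⟩ := h
      exact ⟨g⁻¹, mem_image.2 ⟨j, mem_univ _, (inv_smul_smul g (R' j)).symm⟩⟩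
    · refine absurd ?_ ht
      unfold fn
      rw [dif_neg h]

/-- the matrix modulo two -/
theorem mod2_mtx (hX : FreeX H X) {k a b : ℕ} {R : Fin a → Finset U} {R' : Fin b → Finset U} (hR : Rps H X k R)
    (hR' : Rps H X (k + 1) R') (l : Fin a) (j : Fin b) :
    mod2 (mtx H r R R') l j =
      ∑ h ∈ (finite_sub_smul hX (hR.mem l) (hR'.mem j)).toFinset, MonoidAlgebra.single h (1 : ZMod 2) := by
  classical
  have h1 : mtx H r R R' l j = ∑ h ∈ (finite_sub_smul hX (hR.mem l) (hR'.mem j)).toFinset,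
      MonoidAlgebra.single h (incR r (R l) (h • R' j)) := by
    unfold mtx
    refine finsum_eq_sum_of_support_subset _ ?_
    intro h hh
    rw [Function.mem_support] at hh
    rw [mem_coe, Set.Finite.mem_toFinset]
    by_contra h2
    apply hh
    have h3 : incR r (R l) (h • R' j) = 0 := by
      unfold incR
      rw [if_neg]
      exact fun h4 => h2 h4.1
    rw [h3, MonoidAlgebra.single_zero]
  unfold mod2
  rw [Matrix.map_apply, h1, map_sum]
  refine sum_congr rfl fun h hh => ?_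
  rw [Set.Finite.mem_toFinset] at hh
  have h2 : ((incR r (R l) (h • R' j) : ℤ) : ZMod 2) = 1 := by
    unfold incR
    rw [if_pos ⟨hh, by rw [card_smul_finset, hR'.card, hR.card]⟩]
    obtain ⟨v, hv⟩ : ∃ v, (h • R' j) \ R l = {v} := card_eq_one.1 (by
      rw [card_sdiff_of_subset hh, card_smul_finset, hR'.card, hR.card]; omega)
    rw [hv, prod_singleton]
    unfold sgR
    push_cast
    have h3 : (-1 : ZMod 2) = 1 := by decide
    rw [h3, one_pow]
  rw [MonoidAlgebra.mapRingHom_single]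
  congr 1

/-- the boundary at the representatives is the product with the matrix -/
theorem bdV_fn (hX : FreeX H X) {D : Type} [DivisionRing D] [Algebra (ZMod 2) D]
    (ι : MonoidAlgebra (ZMod 2) H →+* D) {k a b : ℕ} {R : Fin a → Finset U} {R' : Fin b → Finset U} (hR : Rps H X k R)
    (hR' : Rps H X (k + 1) R') (y : Fin b → D) (l : Fin a) :
    bdV (fn ι R' y) (R l) = ((mod2 (mtx H r R R')).map ι).mulVec y l := by
  classical
  rw [bdV_eq (X := X) (fun t ht => ((eqC_fn hX ι hR' y).supp t ht).1)]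
  have h1 : ∑ᶠ t ∈ {t | t ∈ X ∧ R l ⊆ t ∧ t.card = (R l).card + 1}, fn ι R' y t =
      ∑ᶠ p ∈ {p : H × Fin b | R l ⊆ p.1 • R' p.2}, ι (MonoidAlgebra.single p.1 1) * y p.2 := by
    symm
    refine finsum_mem_eq_of_bijOn (fun p => p.1 • R' p.2) ⟨?_, ?_, ?_⟩ ?_
    · rintro ⟨g, j⟩ hp
      refine ⟨hX.mem g _ (hR'.mem j), hp, ?_⟩
      show (g • R' j).card = _
      rw [card_smul_finset, hR'.card, hR.card]
    · rintro ⟨g, j⟩ _ ⟨g', j'⟩ _ h2
      have h3 := hR'.uniq _ _ _ _ h2
      exact Prod.ext h3.1 h3.2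
    · rintro t ⟨h2, h3, h4⟩
      rw [hR.card] at h4
      obtain ⟨g, j, rfl⟩ := hR'.ex t h2 h4
      exact ⟨(g, j), h3, rfl⟩
    · rintro ⟨g, j⟩ _
      exact (fn_smul ι hR' y g j).symm
  rw [h1]
  have h2 : {p : H × Fin b | R l ⊆ p.1 • R' p.2} =
      ((univ : Finset (Fin b)).biUnion fun j =>
        ((finite_sub_smul hX (hR.mem l) (hR'.mem j)).toFinset).image fun h => (h, j) : Finset (H × Fin b)) := by
    ext ⟨g, j⟩
    rw [mem_coe, mem_biUnion]
    constructor
    · intro h3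
      exact ⟨j, mem_univ _, mem_image.2 ⟨g, (Set.Finite.mem_toFinset _).2 h3, rfl⟩⟩
    · rintro ⟨j', -, h3⟩
      obtain ⟨g', h4, h5⟩ := mem_image.1 h3
      rw [Set.Finite.mem_toFinset] at h4
      rw [Prod.mk.injEq] at h5
      obtain ⟨rfl, rfl⟩ := h5
      exact h4
  rw [h2, finsum_mem_coe_finset, sum_biUnion]
  · show _ = ∑ j, ι (mod2 (mtx H r R R') l j) * y j
    refine sum_congr rfl fun j _ => ?_
    rw [mod2_mtx hX hR hR', map_sum, sum_mul, sum_image]
    intro h _ h' _ h3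
    exact (Prod.mk.inj h3).1
  · intro j _ j' _ hjj
    rw [Function.onFun, disjoint_left]
    intro p hp hp'
    obtain ⟨h, -, rfl⟩ := mem_image.1 hp
    obtain ⟨h', -, h3⟩ := mem_image.1 hp'
    exact hjj (Prod.mk.inj h3).2.symm

/-- the boundary of an equivariant function is equivariant -/
theorem bdV_eqv {W : Type} [AddCommGroup W] [Module (ZMod 2) W] {ρ : H →* Module.End (ZMod 2) W} {k : ℕ}
    {e : Finset U → W} (hX : FreeX H X) (he : EqC X ∅ ρ k e) (g : H) {s : Finset U} (hs : s ∈ X) :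
    bdV e (g • s) = ρ g (bdV e s) := by
  classical
  rw [bdV_eq (X := X) (fun t ht => (he.supp t ht).1), bdV_eq (X := X) (fun t ht => (he.supp t ht).1)]
  have h1 : {t | t ∈ X ∧ s ⊆ t ∧ t.card = s.card + 1}.Finite :=
    (cofaces_finite hX hs).subset fun t ht => ⟨ht.1, ht.2.1⟩
  have h2 : ρ g (∑ᶠ t ∈ {t | t ∈ X ∧ s ⊆ t ∧ t.card = s.card + 1}, e t) =
      ∑ᶠ t ∈ {t | t ∈ X ∧ s ⊆ t ∧ t.card = s.card + 1}, ρ g (e t) := by
    rw [finsum_mem_eq_finite_toFinset_sum _ h1, finsum_mem_eq_finite_toFinset_sum _ h1, map_sum]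
  rw [h2]
  symm
  refine finsum_mem_eq_of_bijOn (fun t => g • t) ⟨?_, ?_, ?_⟩ ?_
  · rintro t ⟨h3, h4, h5⟩
    refine ⟨hX.mem g t h3, smul_finset_subset_smul_finset h4, ?_⟩
    show (g • t).card = (g • s).card + 1
    rw [card_smul_finset, card_smul_finset, h5]
  · intro t _ t' _ h3
    exact MulAction.injective g h3
  · rintro t ⟨h3, h4, h5⟩
    refine ⟨g⁻¹ • t, ⟨hX.mem _ t h3, ?_, ?_⟩, smul_inv_smul g t⟩
    · have h6 := smul_finset_subset_smul_finset (a := g⁻¹) h4
      rwa [inv_smul_smul] at h6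
    · rw [card_smul_finset] at h5
      rw [card_smul_finset, h5]
  · intro t _
    exact (he.eqv g t).symm

theorem mtx_exact (hX : FreeX H X) {D : Type} [DivisionRing D] [Algebra (ZMod 2) D]
    (ι : MonoidAlgebra (ZMod 2) H →+* D) {k a b c : ℕ}
    {R : Fin a → Finset U} {R' : Fin b → Finset U} {R'' : Fin c → Finset U} (hR : Rps H X k R) (hR' : Rps H X (k + 1) R')
    (hR'' : Rps H X (k + 2) R'') (hex : ExactBd X (lft ι) (k + 1)) (y : Fin b → D)
    (hy : ((mod2 (mtx H r R R')).map ι).mulVec y = 0) : ∃ z : Fin c → D, ((mod2 (mtx H r R' R'')).map ι).mulVec z = y := by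
  have h1 := eqC_fn hX ι hR' y
  have h2 : ∀ s ∈ X, bdV (fn ι R' y) s = 0 := by
    intro s hs
    by_cases h3 : s.card = k
    · obtain ⟨g, l, rfl⟩ := hR.ex s hs h3
      rw [bdV_eqv hX h1 g (hR.mem l), bdV_fn (r := r) hX ι hR hR', hy, Pi.zero_apply, map_zero]
    · rw [bdV_eq (X := X) (fun t ht => (h1.supp t ht).1)]
      have h4 : ∀ t ∈ {t | t ∈ X ∧ s ⊆ t ∧ t.card = s.card + 1}, fn ι R' y t = 0 := by
        rintro t ⟨-, -, h5⟩
        by_contra h6
        have h7 := (h1.supp t h6).2.2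
        omega
      exact finsum_mem_eq_zero_of_forall_eq_zero h4
  obtain ⟨f, hf1, hf2⟩ := hex _ h1 h2
  refine ⟨fun m => f (R'' m), ?_⟩
  have h3 : fn ι R'' (fun m => f (R'' m)) = f := by
    funext t
    by_cases h4 : t ∈ X ∧ t.card = k + 2
    · obtain ⟨g, m, rfl⟩ := hR''.ex t h4.1 h4.2
      rw [fn_smul ι hR'', hf1.eqv]
      rfl
    · have h5 : f t = 0 := by
        by_contra h6
        have h7 := hf1.supp t h6
        exact h4 ⟨h7.1, h7.2.2⟩
      have h6 : fn ι R'' (fun m => f (R'' m)) t = 0 := by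
        by_contra h6
        have h7 := (eqC_fn hX ι hR'' (fun m => f (R'' m))).supp t h6
        exact h4 ⟨h7.1, h7.2.2⟩
      rw [h5, h6]
  funext j
  rw [← bdV_fn (r := r) hX ι hR' hR'', h3, hf2 _ (hR'.mem j)]
  have h5 := fn_smul ι hR' y 1 j
  rw [one_smul, ← MonoidAlgebra.one_def, map_one, one_mul] at h5
  exact h5

end Pool.Agent.S11
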