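import Pool.Agent.S11.EdDefs

/-!
# Project S11, block END: equivariant kernels

`nm ρ x` = the sum of the translates of the finite chain `x` with values in `W` (an equivariant function);
`ex κ` = the extension of the map `κ : S → (T →₀ ZMod 2)` to the chains with values in `W`.
`nm_ex`: the extension of an equivariant map is compatible with `nm`.
-/

set_option autoImplicit false
set_option linter.unusedSectionVars false

namespace Pool.Agent.S11

section

variable {H S T R : Type} [Group H] [MulAction H S] [MulAction H T] {W : Type} [AddCommGroup W] [Module (ZMod 2) W]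

/-- the group acts freely on the invariant set -/
structure FrOn (H : Type) [Group H] {S : Type} [MulAction H S] (A : Set S) : Prop where
  smul : ∀ (g : H), ∀ s ∈ A, g • s ∈ A
  free : ∀ (g : H), ∀ s ∈ A, g • s = s → g = 1

theorem FrOn.inj {A : Set S} (hA : FrOn H A) {s : S} (hs : s ∈ A) {g g' : H} (h : g • s = g' • s) : g = g' := by
  have h1 : (g'⁻¹ * g) • s = s := by rw [mul_smul, h, inv_smul_smul]
  exact (inv_mul_eq_one.1 (hA.free _ s hs h1)).symm

/-- the sum of the translates -/
noncomputable def nm (ρ : H →* Module.End (ZMod 2) W) (x : S →₀ W) (s : S) : W := ∑ᶠ g : H, ρ g (x (g⁻¹ • s))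

variable (ρ : H →* Module.End (ZMod 2) W)

theorem nm_finite {A : Set S} (hA : FrOn H A) {x : S →₀ W} (hx : ∀ s, x s ≠ 0 → s ∈ A) (s : S) :
    {g : H | ρ g (x (g⁻¹ • s)) ≠ 0}.Finite := by
  classical
  refine (x.support.finite_toSet.preimage (f := fun g : H => g⁻¹ • s) ?_).subset fun g hg => ?_
  · intro g hg g' hg' h
    have h1 : s ∈ A := by
      have h2 := hA.smul g _ (hx _ (Finsupp.mem_support_iff.1 hg))
      rwa [smul_inv_smul] at h2
    exact inv_injective (hA.inj h1 h)
  · refine Finsupp.mem_support_iff.2 fun h => hg ?_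
    show ρ g (x (g⁻¹ • s)) = 0
    rw [h, map_zero]

theorem nm_add {A : Set S} (hA : FrOn H A) {x y : S →₀ W} (hx : ∀ s, x s ≠ 0 → s ∈ A) (hy : ∀ s, y s ≠ 0 → s ∈ A) (s : S) :
    nm ρ (x + y) s = nm ρ x s + nm ρ y s := by
  unfold nm
  rw [← finsum_add_distrib (nm_finite ρ hA hx s) (nm_finite ρ hA hy s)]
  exact finsum_congr fun g => by rw [Finsupp.add_apply, map_add]

theorem nm_zero (s : S) : nm ρ (0 : S →₀ W) s = 0 := by
  unfold nm
  exact finsum_eq_zero_of_forall_eq_zero fun g => by rw [Finsupp.zero_apply, map_zero]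

theorem nm_single_smul {A : Set S} (hA : FrOn H A) {s : S} (hs : s ∈ A) (w : W) (g : H) :
    nm ρ (Finsupp.single s w) (g • s) = ρ g w := by
  classical
  unfold nm
  rw [finsum_eq_single _ g, inv_smul_smul, Finsupp.single_eq_same]
  intro g' hg'
  rw [Finsupp.single_eq_of_ne, map_zero]
  intro h
  exact hg' (hA.inj hs (by rw [← inv_smul_eq_iff]; exact h)).symm

theorem nm_single_ne {s t : S} (w : W) (h : ∀ g : H, g • s ≠ t) : nm ρ (Finsupp.single s w) t = 0 := by
  classical
  unfold nm
  refine finsum_eq_zero_of_forall_eq_zero fun g => ?_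
  rw [Finsupp.single_eq_of_ne, map_zero]
  intro h'
  exact h g (by rw [← h', smul_inv_smul])

/-- the sum of the translates is equivariant -/
theorem nm_smul (x : S →₀ W) (g : H) (s : S) : nm ρ x (g • s) = ρ g (nm ρ x s) := by
  unfold nm
  by_cases h : {g' : H | ρ g' (x (g'⁻¹ • s)) ≠ 0}.Finite
  · have h1 := (ρ g).toAddMonoidHom.map_finsum (f := fun g' : H => ρ g' (x (g'⁻¹ • s))) h
    have h2 : ρ g (∑ᶠ g' : H, ρ g' (x (g'⁻¹ • s))) = ∑ᶠ g' : H, ρ g (ρ g' (x (g'⁻¹ • s))) := h1
    rw [h2]
    refine (finsum_eq_of_bijective (fun g' => g * g') (Group.mulLeft_bijective g) fun g' => ?_).symm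
    show ρ g (ρ g' (x (g'⁻¹ • s))) = ρ (g * g') (x ((g * g')⁻¹ • g • s))
    rw [map_mul, mul_inv_rev, mul_smul, inv_smul_smul]
    rfl
  · have hinj : ∀ y, ρ g y = 0 → y = 0 := by
      intro y hy
      have h1 : ρ g⁻¹ (ρ g y) = y := by
        rw [← Module.End.mul_apply, ← map_mul, inv_mul_cancel, map_one, Module.End.one_apply]
      rw [← h1, hy, map_zero]
    rw [finsum_of_infinite_support (f := fun g' : H => ρ g' (x (g'⁻¹ • s))) h, map_zero]
    refine finsum_of_infinite_support fun hfin => h ?_
    refine (hfin.preimage (f := fun g' => g * g') (mul_right_injective g).injOn).subset fun g' hg' => ?_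
    show ρ (g * g') (x ((g * g')⁻¹ • g • s)) ≠ 0
    rw [map_mul, mul_inv_rev, mul_smul, inv_smul_smul]
    intro h0
    exact hg' (hinj _ h0)

/-- the sum of the translates of a chain has finite support modulo the group -/
theorem nm_supp (x : S →₀ W) {s : S} (h : nm ρ x s ≠ 0) : ∃ g : H, x (g • s) ≠ 0 := by
  by_contra hcon
  push Not at hcon
  refine h ?_
  unfold nm
  exact finsum_eq_zero_of_forall_eq_zero fun g => by rw [hcon, map_zero]

/-- the extension of `κ` to the chains with values in `W` -/
noncomputable def ex (κ : S → T →₀ ZMod 2) : (S →₀ W) →ₗ[ZMod 2] (T →₀ W) :=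
  Finsupp.lsum (ZMod 2) fun s =>
    { toFun := fun w => (κ s).mapRange (fun a => a • w) (zero_smul _ _)
      map_add' := fun w w' => by ext t; simp
      map_smul' := fun a w => by ext t; simp [smul_comm a] }

theorem ex_single (κ : S → T →₀ ZMod 2) (s : S) (w : W) (t : T) : ex κ (Finsupp.single s w) t = κ s t • w := by
  unfold ex
  rw [Finsupp.lsum_single]
  rfl

theorem ex_apply (κ : S → T →₀ ZMod 2) (x : S →₀ W) (t : T) : ex κ x t = x.sum fun s w => κ s t • w := by
  classical
  induction x using Finsupp.induction_linear with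
  | zero => rw [map_zero, Finsupp.sum_zero_index]; rfl
  | add x y hx hy =>
    rw [map_add, Finsupp.add_apply, hx, hy, Finsupp.sum_add_index' (fun s => smul_zero _) (fun s w w' => smul_add _ _ _)]
  | single s w =>
    rw [ex_single, Finsupp.sum_single_index]
    exact smul_zero _

theorem ex_supp {κ : S → T →₀ ZMod 2} {x : S →₀ W} {t : T} (h : ex κ x t ≠ 0) : ∃ s, x s ≠ 0 ∧ κ s t ≠ 0 := by
  by_contra hcon
  push Not at hcon
  refine h ?_
  rw [ex_apply]
  refine Finset.sum_eq_zero fun s hs => ?_
  show κ s t • x s = 0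
  rw [hcon s (Finsupp.mem_support_iff.1 hs), zero_smul]

theorem ex_congr {κ κ' : S → T →₀ ZMod 2} {x : S →₀ W} (h : ∀ s, x s ≠ 0 → κ s = κ' s) : ex κ x = ex κ' x := by
  ext t
  rw [ex_apply, ex_apply]
  refine Finset.sum_congr rfl fun s hs => ?_
  show κ s t • x s = κ' s t • x s
  rw [h s (Finsupp.mem_support_iff.1 hs)]

theorem ex_add (κ κ' : S → T →₀ ZMod 2) (x : S →₀ W) : ex (fun s => κ s + κ' s) x = ex κ x + ex κ' x := by
  ext t
  rw [Finsupp.add_apply, ex_apply, ex_apply, ex_apply, ← Finsupp.sum_add]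
  refine Finset.sum_congr rfl fun s _ => ?_
  show (κ s + κ' s) t • x s = _
  rw [Finsupp.add_apply, add_smul]

theorem ex_id (x : S →₀ W) : ex (fun s => Finsupp.single s (1 : ZMod 2)) x = x := by
  classical
  induction x using Finsupp.induction_linear with
  | zero => rw [map_zero]
  | add x y hx hy => rw [map_add, hx, hy]
  | single s w =>
    ext t
    rw [ex_single, Finsupp.single_apply, Finsupp.single_apply]
    split_ifs
    · rw [one_smul]
    · rw [zero_smul]

/-- the extension is compatible with the composition -/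
theorem ex_comp (lam : T → R →₀ ZMod 2) (κ : S → T →₀ ZMod 2) (x : S →₀ W) :
    ex lam (ex κ x) = ex (fun s => Finsupp.linearCombination (ZMod 2) lam (κ s)) x := by
  classical
  induction x using Finsupp.induction_linear with
  | zero => rw [map_zero, map_zero, map_zero]
  | add x y hx hy => rw [map_add, map_add, map_add, hx, hy]
  | single s w =>
    ext r
    rw [ex_single, ex_apply, Finsupp.linearCombination_apply, Finsupp.sum_apply, Finsupp.sum, Finsupp.sum, Finset.sum_smul]
    have h1 : (ex κ (Finsupp.single s w)).support ⊆ (κ s).support := by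
      intro t ht
      rw [Finsupp.mem_support_iff, ex_single] at ht
      exact Finsupp.mem_support_iff.2 fun h => ht (by rw [h, zero_smul])
    rw [Finset.sum_subset h1 (fun t _ ht => by rw [Finsupp.notMem_support_iff.1 ht, smul_zero])]
    refine Finset.sum_congr rfl fun t _ => ?_
    rw [ex_single, Finsupp.smul_apply, smul_smul, smul_eq_mul, mul_comm]

/-- an equivariant map -/
def EqvOn (A : Set S) (κ : S → T →₀ ZMod 2) : Prop :=
  ∀ (g : H), ∀ s ∈ A, ∀ t, κ (g • s) (g • t) = κ s t

/-- **The extension of an equivariant map is compatible with the sums of the translates.** -/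
theorem nm_ex {A : Set S} {A' : Set T} (hA : FrOn H A) (hA' : FrOn H A') {κ : S → T →₀ ZMod 2} (hκ : EqvOn (H := H) A κ)
    (hκA : ∀ s ∈ A, ∀ t, κ s t ≠ 0 → t ∈ A') {x : S →₀ W} (hx : ∀ s, x s ≠ 0 → s ∈ A) (t : T) :
    {s | κ s t • nm ρ x s ≠ 0}.Finite ∧ nm ρ (ex κ x) t = ∑ᶠ s, κ s t • nm ρ x s := by
  classical
  have hadd : ∀ x y : S →₀ W, (∀ s, x s ≠ 0 → s ∈ A) → (∀ s, y s ≠ 0 → s ∈ A) →
      ({s | κ s t • nm ρ x s ≠ 0}.Finite ∧ nm ρ (ex κ x) t = ∑ᶠ s, κ s t • nm ρ x s) →
      ({s | κ s t • nm ρ y s ≠ 0}.Finite ∧ nm ρ (ex κ y) t = ∑ᶠ s, κ s t • nm ρ y s) →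
      {s | κ s t • nm ρ (x + y) s ≠ 0}.Finite ∧ nm ρ (ex κ (x + y)) t = ∑ᶠ s, κ s t • nm ρ (x + y) s := by
    rintro x y hx hy ⟨h1, h2⟩ ⟨h3, h4⟩
    have h5 : ∀ s, κ s t • nm ρ (x + y) s = κ s t • nm ρ x s + κ s t • nm ρ y s := fun s => by
      rw [nm_add ρ hA hx hy, smul_add]
    refine ⟨(h1.union h3).subset fun s hs => ?_, ?_⟩
    · by_contra hcon
      rw [Set.mem_union, not_or] at hcon
      apply hs
      show κ s t • nm ρ (x + y) s = 0
      rw [h5, not_not.1 hcon.1, not_not.1 hcon.2, add_zero]
    · rw [map_add, nm_add ρ hA' (fun t ht => ?_) (fun t ht => ?_), h2, h4, ← finsum_add_distrib h1 h3]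
      · exact finsum_congr fun s => (h5 s).symm
      · obtain ⟨s, hs, hst⟩ := ex_supp ht
        exact hκA s (hx s hs) t hst
      · obtain ⟨s, hs, hst⟩ := ex_supp ht
        exact hκA s (hy s hs) t hst
  have hsingle : ∀ s₀ ∈ A, ∀ w : W, {s | κ s t • nm ρ (Finsupp.single s₀ w) s ≠ 0}.Finite ∧
      nm ρ (ex κ (Finsupp.single s₀ w)) t = ∑ᶠ s, κ s t • nm ρ (Finsupp.single s₀ w) s := by
    intro s₀ hs₀ w
    have hinj : Function.Injective fun g : H => g • s₀ := fun g g' h => hA.inj hs₀ h
    have h1 : ∀ g : H, κ (g • s₀) t • nm ρ (Finsupp.single s₀ w) (g • s₀) = ρ g (ex κ (Finsupp.single s₀ w) (g⁻¹ • t)) := by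
      intro g
      rw [nm_single_smul ρ hA hs₀, ex_single, map_smul]
      congr 1
      have h2 := hκ g s₀ hs₀ (g⁻¹ • t)
      rwa [smul_inv_smul] at h2
    have h2 : ∀ s, s ∉ Set.range (fun g : H => g • s₀) → κ s t • nm ρ (Finsupp.single s₀ w) s = 0 := by
      intro s hs
      rw [nm_single_ne ρ w fun g hg => hs ⟨g, hg⟩, smul_zero]
    have hsupp : ∀ t, ex κ (Finsupp.single s₀ w) t ≠ 0 → t ∈ A' := by
      intro t ht
      rw [ex_single] at ht
      exact hκA s₀ hs₀ t fun h => ht (by rw [h, zero_smul])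
    have h3 := nm_finite ρ hA' hsupp t
    refine ⟨?_, ?_⟩
    · refine (h3.image fun g : H => g • s₀).subset fun s hs => ?_
      by_contra hcon
      apply hs
      by_cases h4 : s ∈ Set.range fun g : H => g • s₀
      · obtain ⟨g, rfl⟩ := h4
        show κ (g • s₀) t • nm ρ (Finsupp.single s₀ w) (g • s₀) = 0
        rw [h1]
        by_contra h5
        exact hcon ⟨g, h5, rfl⟩
      · exact h2 s h4
    · unfold nm
      rw [← finsum_mem_univ (f := fun g : H => ρ g (ex κ (Finsupp.single s₀ w) (g⁻¹ • t)))]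
      rw [← finsum_mem_univ (f := fun s => κ s t • ∑ᶠ g : H, ρ g ((Finsupp.single s₀ w : S →₀ W) (g⁻¹ • s)))]
      have h4 : (∑ᶠ (s : S) (_ : s ∈ (Set.univ : Set S)), κ s t • ∑ᶠ g : H, ρ g ((Finsupp.single s₀ w : S →₀ W) (g⁻¹ • s))) =
          ∑ᶠ (s : S) (_ : s ∈ Set.range fun g : H => g • s₀), κ s t • ∑ᶠ g : H, ρ g ((Finsupp.single s₀ w : S →₀ W) (g⁻¹ • s)) := by
        refine finsum_congr fun s => ?_
        by_cases hs : s ∈ Set.range fun g : H => g • s₀
        · simp only [hs, Set.mem_univ, finsum_true]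
        · simp only [hs, Set.mem_univ, finsum_true, finsum_false]
          exact h2 s hs
      rw [h4, finsum_mem_range hinj, finsum_mem_univ]
      exact finsum_congr fun g => (h1 g).symm
  -- the general case
  have key : ∀ (F : Finset S) (x : S →₀ W), x.support ⊆ F → (∀ s, x s ≠ 0 → s ∈ A) →
      {s | κ s t • nm ρ x s ≠ 0}.Finite ∧ nm ρ (ex κ x) t = ∑ᶠ s, κ s t • nm ρ x s := by
    intro F
    induction F using Finset.induction_on with
    | empty =>
      intro x hx _
      have h0 : x = 0 := Finsupp.support_eq_empty.1 (Finset.subset_empty.1 hx)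
      subst h0
      refine ⟨?_, ?_⟩
      · convert Set.finite_empty (α := S)
        ext s
        simp [nm_zero]
      · rw [map_zero, nm_zero]
        exact (finsum_eq_zero_of_forall_eq_zero fun s => by rw [nm_zero, smul_zero]).symm
    | insert s₀ F hs₀ ih =>
      intro x hx hxA
      have hx1 : x = Finsupp.single s₀ (x s₀) + x.erase s₀ := (Finsupp.single_add_erase s₀ x).symm
      have hsub : (x.erase s₀).support ⊆ F := by
        intro s hs
        rw [Finsupp.support_erase, Finset.mem_erase] at hs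
        exact (Finset.mem_insert.1 (hx hs.2)).resolve_left hs.1
      have hA1 : ∀ s, (x.erase s₀) s ≠ 0 → s ∈ A := by
        intro s hs
        by_cases h : s = s₀
        · rw [h, Finsupp.erase_same] at hs
          exact absurd rfl hs
        · rw [Finsupp.erase_ne h] at hs
          exact hxA s hs
      by_cases h : x s₀ = 0
      · have h2 : x = x.erase s₀ := by
          conv_lhs => rw [hx1]
          rw [h, Finsupp.single_zero, zero_add]
        rw [h2]
        exact ih _ hsub hA1
      · have h3 := hsingle s₀ (hxA s₀ h) (x s₀)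
        rw [hx1]
        refine hadd _ _ ?_ hA1 h3 (ih _ hsub hA1)
        intro s hs
        by_cases h4 : s = s₀
        · rw [h4]; exact hxA s₀ h
        · rw [Finsupp.single_eq_of_ne h4] at hs
          exact absurd rfl hs
  exact key x.support x subset_rfl hx

/-- if the sum of the translates is zero, it remains zero after an equivariant map -/
theorem nm_ex_zero {A : Set S} {A' : Set T} (hA : FrOn H A) (hA' : FrOn H A') {κ : S → T →₀ ZMod 2} (hκ : EqvOn (H := H) A κ)
    (hκA : ∀ s ∈ A, ∀ t, κ s t ≠ 0 → t ∈ A') {x : S →₀ W} (hx : ∀ s, x s ≠ 0 → s ∈ A) (h0 : ∀ s, nm ρ x s = 0) (t : T) :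
    nm ρ (ex κ x) t = 0 := by
  rw [(nm_ex ρ hA hA' hκ hκA hx t).2]
  exact finsum_eq_zero_of_forall_eq_zero fun s => by rw [h0, smul_zero]

/-- every equivariant function with finite support modulo the group is a sum of translates -/
theorem exists_nm {A : Set S} (hA : FrOn H A) {e : S → W} (he : ∀ (g : H) s, e (g • s) = ρ g (e s))
    (hsupp : ∀ s, e s ≠ 0 → s ∈ A) (hfin : ∃ F : Finset S, ∀ s, e s ≠ 0 → ∃ g : H, g • s ∈ F) :
    ∃ x : S →₀ W, (∀ s, x s ≠ 0 → e s ≠ 0) ∧ ∀ s, nm ρ x s = e s := by
  classical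
  obtain ⟨F, hF⟩ := hfin
  have he0 : ∀ (g : H) s, e s ≠ 0 → e (g • s) ≠ 0 := by
    intro g s hs h
    apply hs
    have h1 := he g⁻¹ (g • s)
    rw [inv_smul_smul, h, map_zero] at h1
    exact h1
  -- induction on the number of elements needed
  have key : ∀ (F : Finset S) (e : S → W), (∀ (g : H) s, e (g • s) = ρ g (e s)) → (∀ s, e s ≠ 0 → s ∈ A) →
      (∀ s, e s ≠ 0 → ∃ g : H, g • s ∈ F) → ∃ x : S →₀ W, (∀ s, x s ≠ 0 → e s ≠ 0) ∧ ∀ s, nm ρ x s = e s := by
    intro F
    induction F using Finset.induction_on with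
    | empty =>
      intro e _ _ h
      refine ⟨0, fun s hs => absurd rfl hs, fun s => ?_⟩
      rw [nm_zero]
      by_contra hcon
      obtain ⟨g, hg⟩ := h s (Ne.symm hcon)
      exact absurd hg (Finset.notMem_empty _)
    | insert f F hf ih =>
      intro e he hsupp h
      by_cases hef : e f = 0
      · obtain ⟨x, h1, h2⟩ := ih e he hsupp fun s hs => by
          obtain ⟨g, hg⟩ := h s hs
          refine ⟨g, (Finset.mem_insert.1 hg).resolve_left fun hgf => ?_⟩
          apply hs
          have h3 := he g⁻¹ (g • s)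
          rw [inv_smul_smul, hgf, hef, map_zero] at h3
          exact h3
        exact ⟨x, h1, h2⟩
      · have hfA := hsupp f hef
        set e' : S → W := fun s => if ∃ g : H, g • f = s then 0 else e s with he'
        obtain ⟨x, h1, h2⟩ := ih e' (fun g s => by
            rw [he']
            by_cases hs : ∃ g' : H, g' • f = s
            · obtain ⟨g', rfl⟩ := hs
              simp only
              rw [if_pos ⟨g * g', mul_smul _ _ _⟩, if_pos ⟨g', rfl⟩, map_zero]
            · simp only
              rw [if_neg hs, if_neg, he]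
              rintro ⟨g', hg'⟩
              exact hs ⟨g⁻¹ * g', by rw [mul_smul, hg', inv_smul_smul]⟩)
          (fun s hs => by
            rw [he'] at hs
            by_cases h3 : ∃ g : H, g • f = s
            · simp only [h3, if_true] at hs
              exact absurd rfl hs
            · simp only [h3, if_false] at hs
              exact hsupp s hs)
          (fun s hs => by
            rw [he'] at hs
            by_cases h3 : ∃ g : H, g • f = s
            · simp only [h3, if_true] at hs
              exact absurd rfl hs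
            · simp only [h3, if_false] at hs
              obtain ⟨g, hg⟩ := h s hs
              refine ⟨g, (Finset.mem_insert.1 hg).resolve_left fun hgf => h3 ⟨g⁻¹, ?_⟩⟩
              rw [← hgf, inv_smul_smul])
        have hx' : ∀ s, x s ≠ 0 → e s ≠ 0 ∧ ¬ ∃ g : H, g • f = s := by
          intro s hs
          have h3 := h1 s hs
          rw [he'] at h3
          by_cases h4 : ∃ g : H, g • f = s
          · simp only [h4, if_true] at h3
            exact absurd rfl h3
          · simp only [h4, if_false] at h3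
            exact ⟨h3, h4⟩
        refine ⟨Finsupp.single f (e f) + x, fun s hs => ?_, fun s => ?_⟩
        · by_cases h3 : s = f
          · rw [h3]; exact hef
          · rw [Finsupp.add_apply, Finsupp.single_eq_of_ne h3, zero_add] at hs
            exact (hx' s hs).1
        · rw [nm_add ρ hA (fun s hs => ?_) (fun s hs => hsupp s (hx' s hs).1), h2, he']
          · by_cases h3 : ∃ g : H, g • f = s
            · obtain ⟨g, rfl⟩ := h3
              simp only
              rw [nm_single_smul ρ hA hfA, if_pos ⟨g, rfl⟩, add_zero, he]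
            · simp only
              rw [if_neg h3, nm_single_ne ρ _ fun g hg => h3 ⟨g, hg⟩, zero_add]
          · by_cases h3 : s = f
            · rw [h3]; exact hfA
            · rw [Finsupp.single_eq_of_ne h3] at hs
              exact absurd rfl hs
  exact key F e he hsupp hF

end

end Pool.Agent.S11
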