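import Pool.Agent.S11.EdMin
import Pool.Agent.S11.EdCol

/-!
# Project S11, block END: minors, column version
-/

set_option autoImplicit false
set_option linter.unusedSectionVars false

namespace Pool.Agent.S11

variable {D : Type} [DivisionRing D]

/-- the minors of an exact sequence of columns -/
theorem exists_minors_col {a b c : ℕ} (A : Matrix (Fin a) (Fin b) D) (B : Matrix (Fin b) (Fin c) D) (hAB : A * B = 0)
    (hex : ∀ y : Fin b → D, A.mulVec y = 0 → ∃ z : Fin c → D, B.mulVec z = y) :
    ∃ (p q : ℕ) (r₁ : Fin p → Fin a) (c₁ : Fin p → Fin b) (r₂ : Fin q → Fin b) (c₂ : Fin q → Fin c),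
      IsUnit (A.submatrix r₁ c₁) ∧ IsUnit (B.submatrix r₂ c₂) ∧ p + q = b :=
  exists_minors A B hAB (row_of_col A B hex)

end Pool.Agent.S11
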