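import Pool.Agent.S11.EdRep

/-!
# Project S11, block END: the matrices of the boundary

PROOFS.  `mtx_mul`: the coefficient of `h` is `∑ incR (R l) t * incR t (h • R'' m)` over the simplices `t` with `k + 1` vertices
(`t = g • R' j` for unique `g, j`); for `h • R'' m = R l ∪ {u, v}` there are two, and the signs are opposite (`Tot`).
-/

set_option autoImplicit false
set_option linter.unusedSectionVars false

open Finset Pointwise

namespace Pool.Agent.S11

variable {U H : Type} [DecidableEq U] [Group H] [MulAction H U] {X : Set (Finset U)} {r : U → U → Prop}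

theorem sgR_smul (hr : ∀ (g : H) (u v : U), r (g • u) (g • v) ↔ r u v) (g : H) (s : Finset U) (v : U) :
    sgR r (g • s) (g • v) = sgR r s v := by
  classical
  unfold sgR
  congr 1
  have h1 : (g • s).filter (fun u => r u (g • v)) = g • (s.filter fun u => r u v) := by
    ext u
    rw [mem_filter, mem_smul_finset, mem_smul_finset]
    constructor
    · rintro ⟨⟨w, hw, rfl⟩, h⟩
      exact ⟨w, mem_filter.2 ⟨hw, (hr g w v).1 h⟩, rfl⟩
    · rintro ⟨w, hw, rfl⟩
      exact ⟨⟨w, (mem_filter.1 hw).1, rfl⟩, (hr g w v).2 (mem_filter.1 hw).2⟩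
  rw [h1, card_smul_finset]

theorem incR_smul (hr : ∀ (g : H) (u v : U), r (g • u) (g • v) ↔ r u v) (g : H) (s t : Finset U) :
    incR r (g • s) (g • t) = incR r s t := by
  unfold incR
  by_cases h : s ⊆ t ∧ #t = #s + 1
  · rw [if_pos h, if_pos (by
      rw [smul_finset_subset_smul_finset_iff, card_smul_finset, card_smul_finset]
      exact h), ← smul_finset_sdiff, smul_finset_def (s := t \ s),
      prod_image (fun a _ b _ hab => MulAction.injective g hab)]
    exact prod_congr rfl fun v _ => sgR_smul hr g s v
  · rw [if_neg h, if_neg (by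
      rw [smul_finset_subset_smul_finset_iff, card_smul_finset, card_smul_finset]
      exact h)]

theorem incR_insert {s : Finset U} {v : U} (hv : v ∉ s) : incR r s (insert v s) = sgR r s v := by
  unfold incR
  rw [if_pos ⟨subset_insert v s, card_insert_of_notMem hv⟩]
  have h1 : insert v s \ s = {v} := by
    ext u
    simp only [mem_sdiff, mem_insert, mem_singleton]
    constructor
    · rintro ⟨h | h, h'⟩
      · exact h
      · exact absurd h h'
    · rintro rfl
      exact ⟨Or.inl rfl, hv⟩
  rw [h1, prod_singleton]

private theorem edm_sg {s : Finset U} {u v : U} (hu : u ∉ s) :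
    (r u v → sgR r (insert u s) v = -sgR r s v) ∧ (¬ r u v → sgR r (insert u s) v = sgR r s v) := by
  classical
  unfold sgR
  constructor
  · intro h
    have h1 : (insert u s).filter (fun w => r w v) = insert u (s.filter fun w => r w v) := by
      rw [filter_insert, if_pos h]
    rw [h1, card_insert_of_notMem (fun h2 => hu (mem_filter.1 h2).1), pow_succ]
    ring
  · intro h
    have h1 : (insert u s).filter (fun w => r w v) = s.filter fun w => r w v := by
      rw [filter_insert, if_neg h]
    rw [h1]

/-- the two ways to insert two vertices have opposite signs -/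
theorem sgR_comm (hT : Tot X r) {s : Finset U} {u v : U} (hu : u ∉ s) (hv : v ∉ s) (huv : u ≠ v)
    (h : insert u (insert v s) ∈ X) : sgR r s u * sgR r (insert u s) v = -(sgR r s v * sgR r (insert v s) u) := by
  have h1 := (hT _ h u (mem_insert_self _ _) v (mem_insert_of_mem (mem_insert_self _ _)) huv).1
  rcases h1 with ⟨h1, h2⟩ | ⟨h1, h2⟩
  · rw [(edm_sg hu).1 h1, (edm_sg hv).2 h2]
    ring
  · rw [(edm_sg hu).2 h2, (edm_sg hv).1 h1]
    ring

private theorem edm_inc {s t : Finset U} (h : incR r s t ≠ 0) : s ⊆ t ∧ #t = #s + 1 := by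
  by_contra h1
  apply h
  unfold incR
  rw [if_neg h1]

theorem mtx_coeff (hX : FreeX H X) {a b : ℕ} {R : Fin a → Finset U} {R' : Fin b → Finset U} (hR : ∀ l, R l ∈ X)
    (hR' : ∀ j, R' j ∈ X) (l : Fin a) (j : Fin b) (h : H) : (mtx H r R R' l j).coeff h = incR r (R l) (h • R' j) := by
  classical
  have hfin := finite_sub_smul hX (hR l) (hR' j)
  have h1 : mtx H r R R' l j = ∑ g ∈ hfin.toFinset, MonoidAlgebra.single g (incR r (R l) (g • R' j)) := by
    unfold mtx
    refine finsum_eq_sum_of_support_subset _ ?_
    intro g hg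
    rw [Set.Finite.coe_toFinset]
    by_contra hc
    apply hg
    have h2 : incR r (R l) (g • R' j) = 0 := by
      by_contra h3
      exact hc (edm_inc h3).1
    show MonoidAlgebra.single g (incR r (R l) (g • R' j)) = 0
    rw [h2, MonoidAlgebra.single_zero]
  rw [h1, MonoidAlgebra.coeff_sum, Finsupp.finsetSum_apply]
  by_cases hh : h ∈ hfin.toFinset
  · rw [sum_eq_single h]
    · rw [MonoidAlgebra.coeff_single, Finsupp.single_eq_same]
    · intro g _ hg
      rw [MonoidAlgebra.coeff_single, Finsupp.single_eq_of_ne (Ne.symm hg)]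
    · intro h'
      exact absurd hh h'
  · have h2 : incR r (R l) (h • R' j) = 0 := by
      by_contra h3
      exact hh (hfin.mem_toFinset.2 (edm_inc h3).1)
    rw [h2]
    refine sum_eq_zero fun g hg => ?_
    rw [MonoidAlgebra.coeff_single, Finsupp.single_eq_of_ne]
    rintro rfl
    exact hh hg

/-- the sum over the intermediate simplices -/
private theorem edm_zero (hT : Tot X r) {k : ℕ} {s T : Finset U} (hTX : T ∈ X) (hs : #s = k) (hTk : #T = k + 2) :
    ∑ t ∈ T.powersetCard (k + 1), incR r s t * incR r t T = 0 := by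
  by_cases hsT : s ⊆ T
  · have h1 : #(T \ s) = 2 := by
      rw [card_sdiff_of_subset hsT, hs, hTk]
      omega
    obtain ⟨u, v, huv, h2⟩ := card_eq_two.1 h1
    have hu : u ∈ T \ s := by
      rw [h2]
      exact mem_insert_self _ _
    have hv : v ∈ T \ s := by
      rw [h2]
      exact mem_insert_of_mem (mem_singleton_self _)
    rw [mem_sdiff] at hu hv
    have hT1 : insert u (insert v s) = T := by
      ext w
      rw [mem_insert, mem_insert]
      constructor
      · rintro (rfl | rfl | h)
        · exact hu.1
        · exact hv.1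
        · exact hsT h
      · intro hw
        by_cases h3 : w ∈ s
        · exact Or.inr (Or.inr h3)
        · have h4 : w ∈ T \ s := mem_sdiff.2 ⟨hw, h3⟩
          rw [h2, mem_insert, mem_singleton] at h4
          rcases h4 with h4 | h4
          · exact Or.inl h4
          · exact Or.inr (Or.inl h4)
    have hT2 : insert v (insert u s) = T := by
      rw [insert_comm]
      exact hT1
    have hne : insert u s ≠ insert v s := by
      intro h
      have h3 : u ∈ insert v s := by
        rw [← h]
        exact mem_insert_self _ _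
      rw [mem_insert] at h3
      rcases h3 with h3 | h3
      · exact huv h3
      · exact hu.2 h3
    have hsub : ({insert u s, insert v s} : Finset (Finset U)) ⊆ T.powersetCard (k + 1) := by
      intro t ht
      rw [mem_insert, mem_singleton] at ht
      rw [mem_powersetCard]
      rcases ht with rfl | rfl
      · exact ⟨insert_subset hu.1 hsT, by rw [card_insert_of_notMem hu.2, hs]⟩
      · exact ⟨insert_subset hv.1 hsT, by rw [card_insert_of_notMem hv.2, hs]⟩
    rw [← sum_subset hsub]
    · rw [sum_pair hne, incR_insert hu.2, incR_insert hv.2]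
      have h5 : incR r (insert u s) T = sgR r (insert u s) v := by
        rw [← hT2]
        refine incR_insert ?_
        rw [mem_insert]
        rintro (h | h)
        · exact huv h.symm
        · exact hv.2 h
      have h6 : incR r (insert v s) T = sgR r (insert v s) u := by
        rw [← hT1]
        refine incR_insert ?_
        rw [mem_insert]
        rintro (h | h)
        · exact huv h
        · exact hu.2 h
      rw [h5, h6, sgR_comm hT hu.2 hv.2 huv (by rw [hT1]; exact hTX)]
      ring
    · intro t ht htn
      by_contra h7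
      have h8 : incR r s t ≠ 0 := fun h => h7 (by rw [h, zero_mul])
      obtain ⟨h9, h10⟩ := edm_inc h8
      apply htn
      rw [mem_powersetCard] at ht
      have h11 : #(t \ s) = 1 := by
        rw [card_sdiff_of_subset h9, h10]
        omega
      obtain ⟨w, hw⟩ := card_eq_one.1 h11
      have hw1 : w ∈ t \ s := by
        rw [hw]
        exact mem_singleton_self _
      have ht1 : t = insert w s := by
        ext x
        rw [mem_insert]
        constructor
        · intro hx
          by_cases h12 : x ∈ s
          · exact Or.inr h12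
          · have h13 : x ∈ t \ s := mem_sdiff.2 ⟨hx, h12⟩
            rw [hw, mem_singleton] at h13
            exact Or.inl h13
        · rintro (rfl | h12)
          · exact (mem_sdiff.1 hw1).1
          · exact h9 h12
      have hw2 : w ∈ T \ s := mem_sdiff.2 ⟨ht.1 (mem_sdiff.1 hw1).1, (mem_sdiff.1 hw1).2⟩
      rw [h2, mem_insert, mem_singleton] at hw2
      rw [mem_insert, mem_singleton, ht1]
      rcases hw2 with rfl | rfl
      · exact Or.inl rfl
      · exact Or.inr rfl
  · refine sum_eq_zero fun t _ => ?_
    by_contra h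
    have h1 : incR r s t ≠ 0 := fun h' => h (by rw [h', zero_mul])
    have h2 : incR r t T ≠ 0 := fun h' => h (by rw [h', mul_zero])
    exact hsT ((edm_inc h1).1.trans (edm_inc h2).1)

theorem mtx_mul (hX : FreeX H X) (hT : Tot X r) (hr : ∀ (g : H) (u v : U), r (g • u) (g • v) ↔ r u v) {k a b c : ℕ}
    {R : Fin a → Finset U} {R' : Fin b → Finset U} {R'' : Fin c → Finset U} (hR : Rps H X k R) (hR' : Rps H X (k + 1) R')
    (hR'' : Rps H X (k + 2) R'') : mtx H r R R' * mtx H r R' R'' = 0 := by
  classical
  refine Matrix.ext fun l m => ?_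
  rw [Matrix.mul_apply, Matrix.zero_apply]
  refine MonoidAlgebra.ext (Finsupp.ext fun h => ?_)
  rw [MonoidAlgebra.coeff_sum, Finsupp.finsetSum_apply]
  have hTX : h • R'' m ∈ X := hX.mem h _ (hR''.mem m)
  have hTk : #(h • R'' m) = k + 2 := by
    rw [card_smul_finset]
    exact hR''.card m
  have h1 : ∀ j, (mtx H r R R' l j * mtx H r R' R'' j m).coeff h =
      ∑ g ∈ (mtx H r R R' l j).coeff.support, incR r (R l) (g • R' j) * incR r (g • R' j) (h • R'' m) := by
    intro j
    rw [MonoidAlgebra.coeff_mul_apply_left, Finsupp.sum]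
    refine sum_congr rfl fun g _ => ?_
    rw [mtx_coeff hX hR.mem hR'.mem, mtx_coeff hX hR'.mem hR''.mem, mul_smul,
      ← incR_smul hr g (R' j) (g⁻¹ • h • R'' m), smul_inv_smul]
  rw [sum_congr rfl fun j _ => h1 j, sum_sigma']
  refine Eq.trans ?_ (edm_zero hT hTX (hR.card l) hTk)
  refine sum_bij_ne_zero (fun x _ _ => x.2 • R' x.1) ?_ ?_ ?_ ?_
  · rintro ⟨j, g⟩ _ hne
    have h2 : incR r (g • R' j) (h • R'' m) ≠ 0 := fun h' => hne (by
      show incR r (R l) (g • R' j) * incR r (g • R' j) (h • R'' m) = 0
      rw [h', mul_zero])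
    rw [mem_powersetCard, card_smul_finset]
    exact ⟨(edm_inc h2).1, hR'.card j⟩
  · rintro ⟨j, g⟩ _ _ ⟨j', g'⟩ _ _ he
    obtain ⟨h2, h3⟩ := hR'.uniq g g' j j' he
    rw [h2, h3]
  · intro t ht hne
    have ht' := mem_powersetCard.1 ht
    have htX : t ∈ X := by
      refine hX.down _ hTX t ht'.1 ?_
      rw [← card_pos, ht'.2]
      exact Nat.succ_pos k
    obtain ⟨g, j, rfl⟩ := hR'.ex t htX ht'.2
    have h2 : incR r (R l) (g • R' j) ≠ 0 := fun h' => hne (by rw [h', zero_mul])
    refine ⟨⟨j, g⟩, ?_, hne, rfl⟩
    rw [mem_sigma]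
    refine ⟨mem_univ _, ?_⟩
    rw [Finsupp.mem_support_iff]
    show (mtx H r R R' l j).coeff g ≠ 0
    rw [mtx_coeff hX hR.mem hR'.mem]
    exact h2
  · intro x _ _
    rfl

end Pool.Agent.S11
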