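import Pool.Agent.S11.EdDefs

/-!
# Project S11, block END: representatives of the orbits

`finite_smul_sub`: `g • s ⊆ t`; the set `g • s` is one of the finitely many subsets of `t`, and the action on the simplices is free.
`cofaces_finite`: `t = g⁻¹ • f`, `f ∈ F`, and `g • s ⊆ f`.  `exists_rps`: choose one element in each orbit which meets `F`.
-/

set_option autoImplicit false
set_option linter.unusedSectionVars false
set_option linter.unusedVariables false

open Finset Pointwise

namespace Pool.Agent.S11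

variable {U H : Type} [DecidableEq U] [Group H] [MulAction H U] {X : Set (Finset U)}

theorem finite_smul_sub (hX : FreeX H X) {s : Finset U} (hs : s ∈ X) (t : Finset U) : {g : H | g • s ⊆ t}.Finite := by
  have hsub : {g : H | g • s ⊆ t} ⊆ (fun g : H => g • s) ⁻¹' (↑t.powerset : Set (Finset U)) := by
    intro g hg
    exact Finset.mem_coe.2 (Finset.mem_powerset.2 hg)
  have hinj : Function.Injective (fun g : H => g • s) := by
    intro g g' h
    have h1 : (g'⁻¹ * g) • s = s := by
      rw [mul_smul]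
      have : g • s = g' • s := h
      rw [this, inv_smul_smul]
    have h2 := hX.free _ s hs h1
    have : g' = g := by
      rw [inv_mul_eq_one] at h2
      exact h2
    exact this.symm
  exact (Set.Finite.preimage hinj.injOn (Finset.finite_toSet _)).subset hsub

theorem finite_sub_smul (hX : FreeX H X) {s : Finset U} (hs : s ∈ X) {t : Finset U} (ht : t ∈ X) : {g : H | s ⊆ g • t}.Finite := by
  have h1 : {g : H | g • s ⊆ t}.Finite := finite_smul_sub hX hs t
  have h2 : {g : H | s ⊆ g • t} ⊆ (fun g : H => g⁻¹) '' {g : H | g • s ⊆ t} := by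
    intro g hg
    refine ⟨g⁻¹, ?_, inv_inv g⟩
    have : g⁻¹ • s ⊆ g⁻¹ • (g • t) := Finset.smul_finset_subset_smul_finset hg
    rwa [inv_smul_smul] at this
  exact (h1.image _).subset h2

theorem cofaces_finite (hX : FreeX H X) {s : Finset U} (hs : s ∈ X) : {t | t ∈ X ∧ s ⊆ t}.Finite := by
  obtain ⟨F, hF⟩ := hX.fin
  have h2 : {t | t ∈ X ∧ s ⊆ t} ⊆ ⋃ f ∈ (↑F : Set (Finset U)), (fun g : H => g⁻¹ • f) '' {g : H | g • s ⊆ f} := by
    rintro t ⟨ht, hst⟩
    obtain ⟨g, hg⟩ := hF t ht
    simp only [Set.mem_iUnion]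
    refine ⟨g • t, Finset.mem_coe.2 hg, g, ?_, inv_smul_smul g t⟩
    exact Finset.smul_finset_subset_smul_finset hst
  exact (Set.Finite.biUnion (Finset.finite_toSet F) fun f _ => (finite_smul_sub hX hs f).image _).subset h2

theorem exists_rps (hX : FreeX H X) (k : ℕ) : ∃ (a : ℕ) (R : Fin a → Finset U), Rps H X k R := by
  classical
  obtain ⟨F, hF⟩ := hX.fin
  -- the set of orbits of the simplices with `k` vertices
  let Q : Set (MulAction.orbitRel.Quotient H (Finset U)) :=
    (fun s : Finset U => (Quotient.mk _ s : MulAction.orbitRel.Quotient H (Finset U))) '' {s | s ∈ X ∧ s.card = k}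
  have hQ : Q.Finite := by
    refine ((Finset.finite_toSet F).image (fun s : Finset U => (Quotient.mk _ s : MulAction.orbitRel.Quotient H (Finset U)))).subset ?_
    rintro _ ⟨s, ⟨hs, _⟩, rfl⟩
    obtain ⟨g, hg⟩ := hF s hs
    refine ⟨g • s, Finset.mem_coe.2 hg, ?_⟩
    apply Quotient.sound
    exact ⟨g, rfl⟩
  have : Finite Q := hQ
  have : Fintype Q := Fintype.ofFinite _
  let e := Fintype.equivFin Q
  have hch : ∀ j : Fin (Fintype.card Q), ∃ s : Finset U, (s ∈ X ∧ s.card = k) ∧
      (Quotient.mk _ s : MulAction.orbitRel.Quotient H (Finset U)) = (e.symm j).1 := fun j => (e.symm j).2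
  choose R hR1 hR2 using hch
  refine ⟨Fintype.card Q, R, fun j => (hR1 j).1, fun j => (hR1 j).2, ?_, ?_⟩
  · intro s hs hk
    have hq : (Quotient.mk _ s : MulAction.orbitRel.Quotient H (Finset U)) ∈ Q := ⟨s, ⟨hs, hk⟩, rfl⟩
    have h1 := hR2 (e ⟨_, hq⟩)
    rw [e.symm_apply_apply] at h1
    have h2 := Quotient.exact h1.symm
    obtain ⟨g, hg⟩ := h2
    exact ⟨g, _, hg.symm⟩
  · intro g g' j j' h
    have h1 : (Quotient.mk _ (R j) : MulAction.orbitRel.Quotient H (Finset U)) = Quotient.mk _ (R j') := by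
      apply Quotient.sound
      refine ⟨g⁻¹ * g', ?_⟩
      show (g⁻¹ * g') • R j' = R j
      rw [mul_smul, ← h, inv_smul_smul]
    rw [hR2, hR2] at h1
    have h2 : j = j' := e.symm.injective (Subtype.ext h1)
    subst h2
    refine ⟨?_, rfl⟩
    have h3 : (g'⁻¹ * g) • R j = R j := by
      rw [mul_smul, h, inv_smul_smul]
    have h4 := hX.free _ _ (hR1 j).1 h3
    rw [inv_mul_eq_one] at h4
    exact h4.symm

end Pool.Agent.S11
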