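import Pool.Agent.S11.EmbA
import Pool.Agent.S11.GdD

/-!
# Project S11: injective matrices, from the division ring of good series to the approximating groups with boxes

`D` is a division ring with an embedding `κ` in the series, all elements of the image have good supports for all large `j`.  A matrix over
the group algebra which is injective on the rows over `D` is injective on the rows over the group algebra of `Γ j r` for all large `j`.
-/

set_option autoImplicit false
set_option linter.unusedSectionVars false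

open Filter Matrix

namespace Pool.Agent.S11

section

variable {H : Type} [Group H] [BO H] {r : ℕ} {N : ℕ → Subgroup H}

/-- **Injective matrices** -/
theorem emb_eventually (hC : Chain H r N) (A : Appr H N) {D : Type} [DivisionRing D] (κ : D →+* MN H)
    (hκ : ∀ d, ∀ᶠ j in atTop, Gd A r j (κ d).supp) (ι : MonoidAlgebra (ZMod 2) H →+* D) (hι : ∀ a, κ (ι a) = MN.of a) {a b : ℕ}
    (M : Matrix (Fin a) (Fin b) (MonoidAlgebra (ZMod 2) H)) (hM : ∀ v : Fin a → D, v ᵥ* M.map ι = 0 → v = 0) :
    ∀ᶠ j in atTop, ∀ v : Fin a → MonoidAlgebra (ZMod 2) (A.Γ j r),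
      v ᵥ* M.map (MonoidAlgebra.mapDomainRingHom (ZMod 2) (A.q j r)) = 0 → v = 0 := by
  refine emb_aux ι (fun j => MonoidAlgebra.mapDomainRingHom (ZMod 2) (A.q j r)) (fun j => (MN.of : _ →+* MN (A.Γ j r)))
    (fun j => MN.of_injective) (fun j d => psh A r j (κ d)) ?_ ?_ ?_ M hM
  · intro x y
    filter_upwards [hκ x, hκ y] with j hx hy
    rw [map_add]
    exact psh_add hC hx hy
  · intro x y
    filter_upwards [hκ x, hκ y] with j hx hy
    rw [map_mul]
    exact psh_mul hC hx hy
  · intro x
    refine Eventually.of_forall fun j => ?_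
    change psh A r j (κ (ι x)) = _
    rw [hι x]
    exact psh_of x

/-- the same with a group with boxes -/
theorem exists_emb (hC : Chain H r N) (A : Appr H N) (hB : ∀ j, FBox (A.Γ j r)) {D : Type} [DivisionRing D] (κ : D →+* MN H)
    (hκ : ∀ d, ∀ᶠ j in atTop, Gd A r j (κ d).supp) (ι : MonoidAlgebra (ZMod 2) H →+* D) (hι : ∀ a, κ (ι a) = MN.of a) {a b : ℕ}
    (M : Matrix (Fin a) (Fin b) (MonoidAlgebra (ZMod 2) H)) (hM : ∀ v : Fin a → D, v ᵥ* M.map ι = 0 → v = 0) :
    ∃ (G : Type) (_ : Group G) (φ : H →* G), FBox G ∧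
      ∀ v : Fin a → MonoidAlgebra (ZMod 2) G, v ᵥ* M.map (MonoidAlgebra.mapDomainRingHom (ZMod 2) φ) = 0 → v = 0 := by
  obtain ⟨j, hj⟩ := (emb_eventually hC A κ hκ ι hι M hM).exists
  exact ⟨A.Γ j r, inferInstance, A.q j r, hB j, hj⟩

end

end Pool.Agent.S11
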