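import Mathlib

/-!
# Project S11: matrices which are injective over a division ring are injective over the approximating groups

`D` a division ring with a homomorphism `ι` from the group algebra of `H`; `p j : D → V j` maps to rings which are multiplicative on every
finite part of `D` for all large `j`, with values in the group algebra of `Γ j` on the elements of the group algebra of `H`.  A matrix over
the group algebra of `H` which is injective over `D` has a right inverse over `D`; its image under `p j` is a right inverse over `V j` for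
all large `j`.
-/

set_option autoImplicit false

open Filter Matrix

namespace Pool.Agent.S11

/-- a matrix over a division ring which is injective on the rows has a right inverse -/
theorem exists_right_inverse_of_inj {D : Type*} [DivisionRing D] {a b : ℕ} (A : Matrix (Fin a) (Fin b) D)
    (hA : ∀ v : Fin a → D, v ᵥ* A = 0 → v = 0) : ∃ B : Matrix (Fin b) (Fin a) D, A * B = 1 := by
  obtain ⟨g, hg⟩ := A.toLinearMapRight'.exists_leftInverse_of_injective
    (LinearMap.ker_eq_bot'.mpr fun v hv => hA v (by rw [← Matrix.toLinearMapRight'_apply]; exact hv))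
  refine ⟨LinearMap.toMatrixRight' g, ?_⟩
  apply Matrix.toLinearMapRight'.injective
  rw [Matrix.toLinearMapRight'_mul, Matrix.toLinearMapRight'_one]
  rw [← hg]
  congr 1
  exact LinearEquiv.symm_apply_apply _ _

/-- **Injective matrices** -/
theorem emb_aux {R D : Type*} [Ring R] [DivisionRing D] (ι : R →+* D) {S V : ℕ → Type*} [∀ j, Ring (S j)] [∀ j, Ring (V j)]
    (q : ∀ j, R →+* S j) (e : ∀ j, S j →+* V j) (he : ∀ j, Function.Injective (e j)) (p : ∀ j, D → V j)
    (hadd : ∀ x y, ∀ᶠ j in atTop, p j (x + y) = p j x + p j y) (hmul : ∀ x y, ∀ᶠ j in atTop, p j (x * y) = p j x * p j y)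
    (hι : ∀ a, ∀ᶠ j in atTop, p j (ι a) = e j (q j a)) {a b : ℕ} (A : Matrix (Fin a) (Fin b) R)
    (hA : ∀ v : Fin a → D, v ᵥ* A.map ι = 0 → v = 0) :
    ∀ᶠ j in atTop, ∀ v : Fin a → S j, v ᵥ* A.map (q j) = 0 → v = 0 := by
  obtain ⟨B, hB⟩ := exists_right_inverse_of_inj (A.map ι) hA
  have h0 : ∀ᶠ j in atTop, p j 0 = 0 := by
    filter_upwards [hι 0] with j hj
    rw [map_zero, map_zero, map_zero] at hj
    exact hj
  have h1 : ∀ᶠ j in atTop, p j 1 = 1 := by
    filter_upwards [hι 1] with j hj
    rw [map_one, map_one, map_one] at hj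
    exact hj
  have hsum : ∀ (s : Finset (Fin b)) (f : Fin b → D), ∀ᶠ j in atTop, p j (∑ k ∈ s, f k) = ∑ k ∈ s, p j (f k) := by
    intro s f
    induction s using Finset.induction_on with
    | empty =>
      filter_upwards [h0] with j hj
      rw [Finset.sum_empty, Finset.sum_empty, hj]
    | insert k s hk ih =>
      filter_upwards [ih, hadd (f k) (∑ k ∈ s, f k)] with j hj1 hj2
      rw [Finset.sum_insert hk, Finset.sum_insert hk, hj2, hj1]
  have hent : ∀ i l, ∀ᶠ j in atTop, ∑ k, e j (q j (A i k)) * p j (B k l) = if i = l then 1 else 0 := by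
    intro i l
    have h2 : ∀ᶠ j in atTop, ∀ k, p j (ι (A i k) * B k l) = e j (q j (A i k)) * p j (B k l) := by
      rw [eventually_all]
      intro k
      filter_upwards [hmul (ι (A i k)) (B k l), hι (A i k)] with j hj1 hj2
      rw [hj1, hj2]
    have h3 : (∑ k, ι (A i k) * B k l) = if i = l then 1 else 0 := by
      have h4 : (A.map ι * B) i l = (1 : Matrix (Fin a) (Fin a) D) i l := by rw [hB]
      rw [Matrix.mul_apply, Matrix.one_apply] at h4
      exact h4
    filter_upwards [h2, hsum Finset.univ fun k => ι (A i k) * B k l, h0, h1] with j hj1 hj2 hj3 hj4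
    have h5 : p j (∑ k, ι (A i k) * B k l) = ∑ k, e j (q j (A i k)) * p j (B k l) := by
      rw [hj2]
      exact Finset.sum_congr rfl fun k _ => hj1 k
    rw [← h5, h3]
    split_ifs
    · exact hj4
    · exact hj3
  have hent' : ∀ᶠ j in atTop, ∀ i l, ∑ k, e j (q j (A i k)) * p j (B k l) = if i = l then 1 else 0 := by
    rw [eventually_all]
    intro i
    rw [eventually_all]
    exact hent i
  filter_upwards [hent'] with j hj v hv
  have h6 : ((A.map (q j)).map (e j)) * (B.map (p j)) = (1 : Matrix (Fin a) (Fin a) (V j)) := by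
    ext i l
    rw [Matrix.mul_apply, Matrix.one_apply]
    exact hj i l
  have h7 : (fun i => e j (v i)) ᵥ* ((A.map (q j)).map (e j)) = 0 := by
    ext l
    have h8 := congrFun hv l
    have h9 : ((fun i => e j (v i)) ᵥ* ((A.map (q j)).map (e j))) l = e j ((v ᵥ* A.map (q j)) l) := by
      simp only [Matrix.vecMul, dotProduct, Matrix.map_apply, map_sum, map_mul]
    rw [h9, h8]
    simp
  have h10 : (fun i => e j (v i)) = 0 := by
    rw [← Matrix.vecMul_one (fun i => e j (v i)), ← h6, ← Matrix.vecMul_vecMul, h7, Matrix.zero_vecMul]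
  ext i
  apply he j
  rw [show e j (v i) = 0 from congrFun h10 i]
  exact (map_zero (e j)).symm

end Pool.Agent.S11
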