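import Pool.Agent.S11.StE
import Pool.Agent.S11.GwA

/-!
# Project S11: the division ring of a group with a chain and approximations, with its anti-automorphism
-/

set_option autoImplicit false
set_option linter.unusedSectionVars false

open Filter TensorProduct

namespace Pool.Agent.S11

variable {H : Type} [Group H] [BO H] {r : ℕ} {N : ℕ → Subgroup H}

/-- the package -/
noncomputable def dpack (hC : Chain H r N) (A : Appr H N) (hB : ∀ j, FBox (A.Γ j r)) : DPack H where
  D := DT hC A hB
  div := instDivDT hC A hB
  alg := algDT hC A hB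
  ι := ιT hC A hB
  flat := flat_DT hC A hB
  grow := grow_of hC A hB (iD hC A hB) (fun d => mem_VP.1 (iD_mem_VP hC A hB d)) (ιT hC A hB) (iD_ιT hC A hB)

/-- **The division ring with its anti-automorphism** -/
theorem exists_dpack_star (hC : Chain H r N) (A : Appr H N) (hB : ∀ j, FBox (A.Γ j r)) :
    ∃ (P : DPack H) (st : P.D → P.D), (∀ a b, st (a + b) = st a + st b) ∧ (∀ a b, st (a * b) = st b * st a) ∧
      (∀ a, st (st a) = a) ∧ ∀ a, st (P.ι a) = P.ι (stA a) :=
  ⟨dpack hC A hB, star hC A hB, star_add hC A hB, star_mul hC A hB, star_star hC A hB, star_of hC A hB⟩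

end Pool.Agent.S11
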