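import Pool.Agent.S11.Fin
import Pool.Agent.S11.StF
import Pool.Agent.S11.CuG
import Pool.Agent.S11.CuI
import Pool.Agent.S11.Ed
import Pool.Agent.S11.Cnt

/-!
# Project S11: the theorem for groups with a subgroup of finite index in the class (U)
-/

set_option autoImplicit false
set_option linter.unusedSectionVars false

open Finset Pointwise

namespace Pool.Agent.S11

open Pool.Agent.H37.TM Pool.Agent.H65.RM Pool.Agent.S10

section

variable {V U : Type} [DecidableEq V] [DecidableEq U]

/-- the theorem for groups with a subgroup of finite index in the class (U) which act on both spaces -/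
theorem main_U {P : Type} [Group P] [MulAction P V] [MulAction P U] {X : Set (Finset V)} (hG : IsGeomS P X)
    (hac : Acyc X) (J : Subgroup P) [hJ : J.FiniteIndex] (hU : ClassU J) {M B : Set (Finset U)} {n : ℕ}
    (hM : ManOrDual P M B n (n + 1)) (hA : PAct P M B) (i : ℕ) (hn : n < 2 * i) : L2ZeroS X i := by
  obtain ⟨bo, r, N, hC, A, hB, hR⟩ := hU.exists_lex
  have hGJ : IsGeomS J X := hG.sub J
  have tf : ∀ (g : J) (k : ℕ), 0 < k → g ^ k = 1 → g = 1 := fun g k hk h => BO.tf hk h
  have : Countable J := countable_of_geom hGJ hac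
  exact end_l2 (dpack hC A hB) hR (hGJ.freeX tf) hac (hM.sub J) (PAct.sub hA J) hn

/-- the theorem for groups with a subgroup of finite index in the class (U) -/
theorem main {G : Type} [Group G] [MulAction G V] {X : Set (Finset V)} (hG : IsGeomS G X) (hac : Acyc X)
    (H : Subgroup G) (hH : H.FiniteIndex) (hU : ClassU H) (P : Subgroup G) (hP : P.FiniteIndex) [MulAction P U]
    {M B : Set (Finset U)} {n : ℕ} (hM : ManOrDual P M B n (n + 1)) (hA : PAct P M B) (i : ℕ) (hn : n < 2 * i) :
    L2ZeroS X i := by
  have hJ : (H.subgroupOf P).FiniteIndex := inferInstance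
  have hUJ : ClassU (H.subgroupOf P) :=
    ClassU.comap (f := ({ toFun := fun x => ⟨((x : P) : G), Subgroup.mem_subgroupOf.1 x.2⟩
                          map_one' := rfl
                          map_mul' := fun _ _ => rfl } : (H.subgroupOf P) →* H)) (by
        intro x y hxy
        apply Subtype.ext
        apply Subtype.ext
        exact congrArg (fun z : H => (z : G)) hxy) hU
  exact main_U (hG.sub P) hac (H.subgroupOf P) hUJ hM hA i hn

/-- **The theorem.** -/
theorem s11 {G : Type} [Group G] [MulAction G V] {X : Set (Finset V)} (hX : Acyc X) (hG : IsGeomS G X)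
    (H : Subgroup G) (hH : H.FiniteIndex)
    (hU : (∃ (r : ℕ) (Γ : SimpleGraph (Fin r)) (f : H →* Pool.Agent.H68.Amp.Raag Γ), Function.Injective f) ∨ ClassU H)
    (P : Subgroup G) (hP : P.FiniteIndex) [MulAction P U] {M B : Set (Finset U)} {n : ℕ}
    (hM : ManOrDual P M B n (n + 1)) (hA : PAct P M B) (i : ℕ) (hn : n < 2 * i) : L2ZeroS X i := by
  refine main hG hX H hH ?_ P hP hM hA i hn
  rcases hU with ⟨r, Γ, f, hf⟩ | hU
  · exact ClassU.of_raag Γ f hf
  · exact hU

end

end Pool.Agent.S11
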