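import Pool.Agent.S11.FL.Tree

/-!
# Project S11: finite cycles on the Cayley tree of a free group vanish

`fox` is transported from `FL.fox` (the case of the group `FreeGroup ι`) by `b.repr`.
-/

set_option autoImplicit false
set_option linter.unusedSectionVars false

namespace Pool.Agent.S11

/-- **Finite cycles on a tree vanish.** -/
theorem fox {ι F A : Type} [Group F] [AddCommGroup A] (b : FreeGroupBasis ι F) (s : Finset ι) (c : ι → F → A)
    (hs : ∀ k, k ∉ s → ∀ f, c k f = 0) (hfin : ∀ k, (Function.support (c k)).Finite)
    (h : ∀ f, ∑ k ∈ s, (c k (f * b k) - c k f) = 0) (k : ι) (f : F) : c k f = 0 := by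
  have := FL.fox (fun k (f : FreeGroup ι) => c k (b.repr.symm f)) s
    (fun k hk => funext fun f => hs k hk _)
    (fun k => (hfin k).preimage (f := fun f : FreeGroup ι => b.repr.symm f)
      b.repr.symm.injective.injOn)
    (fun f => by
      have h1 := h (b.repr.symm f)
      rw [← h1]
      refine Finset.sum_congr rfl fun k _ => ?_
      have h2 : b.repr.symm (f * FreeGroup.of k) = b.repr.symm f * b k := by
        rw [map_mul]
        rfl
      simp only [h2]) k (b.repr f)
  simpa using this

end Pool.Agent.S11
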