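import Pool.Agent.S11.MNInv
import Pool.Agent.S11.Defs

/-!
# Project S11: good sets

`Gd A r j S`: for all levels `s ≤ r` the image of `S` in `Γ j s` is well-ordered and the map from the set of the cosets
of `N s` which meet `S` to `Γ j s` is finite-to-one.
-/

set_option autoImplicit false
set_option linter.unusedSectionVars false

open Pointwise

namespace Pool.Agent.S11

section

variable {H : Type} [Group H] [BO H] {r : ℕ} {N : ℕ → Subgroup H}

/-- the set `S` is good at `j` -/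
def Gd (A : Appr H N) (r j : ℕ) (S : Set H) : Prop :=
  ∀ s ≤ r, ((A.q j s) '' S).IsPWO ∧
    ∀ g, ((fun x : H => (x : H ⧸ N s)) '' {x | x ∈ S ∧ A.q j s x = g}).Finite

variable {A : Appr H N} {j : ℕ} {S T : Set H}

theorem Gd.mono (h : Gd A r j S) (hT : T ⊆ S) : Gd A r j T := fun s hs =>
  ⟨(h s hs).1.mono (Set.image_mono hT), fun g => ((h s hs).2 g).subset
    (Set.image_mono fun _ hx => ⟨hT hx.1, hx.2⟩)⟩

theorem Gd.union (h : Gd A r j S) (h' : Gd A r j T) : Gd A r j (S ∪ T) := fun s hs => by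
  refine ⟨?_, fun g => ?_⟩
  · rw [Set.image_union]
    exact (h s hs).1.union (h' s hs).1
  · refine (((h s hs).2 g).union ((h' s hs).2 g)).subset ?_
    rintro _ ⟨x, ⟨hx | hx, hg⟩, rfl⟩
    · exact Or.inl ⟨x, ⟨hx, hg⟩, rfl⟩
    · exact Or.inr ⟨x, ⟨hx, hg⟩, rfl⟩

theorem Gd.of_finite (h : S.Finite) : Gd A r j S := fun s _ =>
  ⟨(h.image _).isPWO, fun _ => (h.subset fun _ hx => hx.1).image _⟩

theorem Gd.mul (hC : Chain H r N) (h : Gd A r j S) (h' : Gd A r j T) : Gd A r j (S * T) := fun s hs => by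
  haveI := hC.normal s
  refine ⟨?_, fun g => ?_⟩
  · rw [Set.image_mul]
    exact pwo_mul (h s hs).1 (h' s hs).1
  · have hF := fin_mul (h s hs).1 (h' s hs).1 g
    refine (hF.biUnion (t := fun α => ((fun x : H => (x : H ⧸ N s)) '' {x | x ∈ S ∧ A.q j s x = α}) *
      ((fun x : H => (x : H ⧸ N s)) '' {x | x ∈ T ∧ A.q j s x = α⁻¹ * g}))
      fun α _ => ((h s hs).2 α).mul ((h' s hs).2 (α⁻¹ * g))).subset ?_
    rintro _ ⟨x, ⟨hx, hg⟩, rfl⟩
    obtain ⟨a, ha, b, hb, rfl⟩ := Set.mem_mul.1 hx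
    have h2 : A.q j s b = (A.q j s a)⁻¹ * g := by
      rw [← hg, map_mul, inv_mul_cancel_left]
    refine Set.mem_iUnion₂.2 ⟨A.q j s a, ⟨⟨a, ha, rfl⟩, ⟨b, hb, h2⟩⟩, ?_⟩
    exact Set.mem_mul.2 ⟨(a : H ⧸ N s), ⟨a, ⟨ha, rfl⟩, rfl⟩, (b : H ⧸ N s), ⟨b, ⟨hb, h2⟩, rfl⟩, rfl⟩

theorem Gd.left (hC : Chain H r N) (h : Gd A r j S) (y : H) : Gd A r j ((fun x => y * x) '' S) := by
  have h1 := (Gd.of_finite (A := A) (r := r) (j := j) (Set.finite_singleton y)).mul hC h
  rwa [Set.singleton_mul] at h1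

theorem Gd.right (hC : Chain H r N) (h : Gd A r j S) (y : H) : Gd A r j ((fun x => x * y) '' S) := by
  have h1 := h.mul hC (Gd.of_finite (A := A) (r := r) (j := j) (Set.finite_singleton y))
  rwa [Set.mul_singleton] at h1

/-- the fibres of `q j r` in a good set are finite -/
theorem Gd.fin_fibre (hC : Chain H r N) (h : Gd A r j S) (g : A.Γ j r) :
    {x | x ∈ S ∧ A.q j r x = g}.Finite := by
  refine Set.Finite.of_finite_image ((h r le_rfl).2 g) ?_
  intro a _ b _ hab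
  have h1 : a⁻¹ * b ∈ N r := QuotientGroup.eq.1 hab
  rw [hC.last, Subgroup.mem_bot, inv_mul_eq_one] at h1
  exact h1

end

end Pool.Agent.S11
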