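import Pool.Agent.S11.GdA

/-!
# Project S11: good sets of positive elements

`Gd.pos`: if `X` consists of elements `> 1` and is good for all large `j`, then for all large `j` the image in `Γ j s` of
every element of `X` outside of `N s` is `> 1`, for all `s ≤ r` (induction on `s`).  `Gd.closure`: for all large `j` the
submonoid generated by `X` is good (Neumann's lemma in the groups `Γ j s`).
-/

set_option autoImplicit false
set_option linter.unusedSectionVars false

open Pointwise Filter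

namespace Pool.Agent.S11

section

variable {H : Type} [Group H] [BO H] {r : ℕ} {N : ℕ → Subgroup H}

theorem GdB_q_eq (A : Appr H N) (j s : ℕ) {x y : H} (h : (x : H ⧸ N s) = (y : H ⧸ N s)) :
    A.q j s x = A.q j s y := by
  have h1 := A.ker j s _ (QuotientGroup.eq.1 h)
  rw [map_mul, map_inv, inv_mul_eq_one] at h1
  exact h1

private theorem pos_aux (hC : Chain H r N) (A : Appr H N) {X : Set H} (h1 : ∀ x ∈ X, 1 < x)
    (hX : ∀ᶠ j in atTop, Gd A r j X) :
    ∀ s ≤ r, ∀ᶠ j in atTop, ∀ x ∈ X, x ∉ N s → 1 < A.q j s x := by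
  intro s
  induction s with
  | zero =>
    intro _
    refine Eventually.of_forall fun j x _ hx => absurd ?_ hx
    rw [hC.zero]
    exact Subgroup.mem_top x
  | succ s ih =>
    intro hs
    have hi := ih (by omega)
    obtain ⟨J, hJ⟩ := eventually_atTop.1 hX
    have hF := ((hJ J le_rfl) (s + 1) hs).2 1
    have hC1 : ∀ᶠ j in atTop, ∀ C ∈ ((fun x : H => (x : H ⧸ N (s + 1))) '' {x | x ∈ X ∧ A.q J (s + 1) x = 1}),
        ∀ x : H, (x : H ⧸ N (s + 1)) = C → x ∉ N (s + 1) → A.q j (s + 1) x ≠ 1 := by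
      rw [eventually_all_finite hF]
      rintro C ⟨y, _, rfl⟩
      by_cases hy : y ∈ N (s + 1)
      · refine Eventually.of_forall fun j x hxy hx => absurd ?_ hx
        have h2 := QuotientGroup.eq.1 hxy
        have h3 := (N (s + 1)).mul_mem hy ((N (s + 1)).inv_mem h2)
        have h4 : y * (x⁻¹ * y)⁻¹ = x := by group
        rwa [h4] at h3
      · obtain ⟨j₀, hj₀⟩ := A.sep (s + 1) y hy
        refine eventually_atTop.2 ⟨j₀, fun j hj x hxy hx hq => hj₀ ?_⟩
        rw [GdB_q_eq A j (s + 1) hxy] at hq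
        exact A.dec (s + 1) y j₀ j hj hq
    filter_upwards [hi, hC1, eventually_ge_atTop J] with j hj hj1 hJj x hx hxN
    by_cases hs' : x ∈ N s
    · have h2 := A.pos j s x hs' (h1 x hx)
      refine lt_of_le_of_ne h2 fun h3 => ?_
      have h4 := A.dec (s + 1) x J j hJj h3.symm
      exact hj1 _ ⟨x, ⟨hx, h4⟩, rfl⟩ x rfl hxN h3.symm
    · exact A.lex j s x (hj x hx hs')

/-- for large `j` the images of the elements of `X` are positive -/
theorem Gd.pos (hC : Chain H r N) (A : Appr H N) {X : Set H} (h1 : ∀ x ∈ X, 1 < x)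
    (hX : ∀ᶠ j in atTop, Gd A r j X) :
    ∀ᶠ j in atTop, ∀ s ≤ r, ∀ x ∈ X, x ∉ N s → 1 < A.q j s x := by
  have h2 : ∀ᶠ j in atTop, ∀ s ∈ Finset.range (r + 1), ∀ x ∈ X, x ∉ N s → 1 < A.q j s x := by
    rw [eventually_all_finset]
    intro s hs
    exact pos_aux hC A h1 hX s (by rw [Finset.mem_range] at hs; omega)
  filter_upwards [h2] with j hj s hs
  exact hj s (by rw [Finset.mem_range]; omega)

/-- for large `j` the submonoid generated by `X` is good -/
theorem Gd.closure (hC : Chain H r N) (A : Appr H N) {X : Set H} (h1 : ∀ x ∈ X, 1 < x)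
    (hX : ∀ᶠ j in atTop, Gd A r j X) :
    ∀ᶠ j in atTop, Gd A r j ((Submonoid.closure X : Submonoid H) : Set H) := by
  filter_upwards [hX, Gd.pos hC A h1 hX] with j hj hp s hs
  haveI := hC.normal s
  obtain ⟨X', hX'⟩ : ∃ X' : Set H, X' = {x | x ∈ X ∧ x ∉ N s} := ⟨_, rfl⟩
  have hpos : ∀ x ∈ X', 1 < A.q j s x := fun x hx => by
    rw [hX'] at hx
    exact hp s hs x hx.1 hx.2
  have hsub : X' ⊆ X := fun x hx => by
    rw [hX'] at hx
    exact hx.1
  have hpwo : ((A.q j s) '' X').IsPWO := (hj s hs).1.mono (Set.image_mono hsub)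
  constructor
  · refine (pwo_closure hpwo ?_).mono ?_
    · rintro _ ⟨x, hx, rfl⟩
      exact hpos x hx
    · rintro _ ⟨y, hy, rfl⟩
      refine Submonoid.closure_induction (motive := fun y _ => A.q j s y ∈ (Submonoid.closure ((A.q j s) '' X') :
        Set (A.Γ j s))) ?_ ?_ ?_ hy
      · intro x hx
        by_cases hN : x ∈ N s
        · rw [A.ker j s x hN]
          exact (Submonoid.closure _).one_mem
        · refine Submonoid.subset_closure ⟨x, ?_, rfl⟩
          rw [hX']
          exact ⟨hx, hN⟩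
      · rw [map_one]
        exact (Submonoid.closure _).one_mem
      · intro a b _ _ ha hb
        rw [map_mul]
        exact (Submonoid.closure _).mul_mem ha hb
  · intro g
    obtain ⟨f, hf⟩ : ∃ f : H ⧸ N s →* A.Γ j s, ∀ x : H, f (x : H ⧸ N s) = A.q j s x :=
      ⟨QuotientGroup.lift (N s) (A.q j s) (A.ker j s), fun x => rfl⟩
    obtain ⟨T, hT⟩ : ∃ T : Set (H ⧸ N s), T = (fun x : H => (x : H ⧸ N s)) '' X' := ⟨_, rfl⟩
    have hfT : (f '' T).IsPWO := by
      refine hpwo.mono ?_
      rw [hT]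
      rintro _ ⟨_, ⟨x, hx, rfl⟩, rfl⟩
      exact ⟨x, hx, (hf x).symm⟩
    have hfin : ∀ x, {a | a ∈ T ∧ f a = x}.Finite := by
      intro x
      refine ((hj s hs).2 x).subset ?_
      rintro a ⟨ha, hax⟩
      rw [hT] at ha
      obtain ⟨y, hy, rfl⟩ := ha
      exact ⟨y, ⟨hsub hy, by rw [← hax, hf]⟩, rfl⟩
    have hT1 : ∀ a ∈ T, 1 < f a := by
      intro a ha
      rw [hT] at ha
      obtain ⟨y, hy, rfl⟩ := ha
      rw [hf]
      exact hpos y hy
    have hw := fin_words_of hfT hfin hT1 g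
    refine (hw.image List.prod).subset ?_
    rintro _ ⟨y, ⟨hy, hg⟩, rfl⟩
    have hl : ∃ l : List (H ⧸ N s), (∀ a ∈ l, a ∈ T) ∧ l.prod = (y : H ⧸ N s) := by
      refine Submonoid.closure_induction (motive := fun (y : H) _ => ∃ l : List (H ⧸ N s), (∀ a ∈ l, a ∈ T) ∧
        l.prod = (y : H ⧸ N s)) ?_ ?_ ?_ hy
      · intro x hx
        by_cases hN : x ∈ N s
        · refine ⟨[], fun a ha => absurd ha List.not_mem_nil, ?_⟩
          rw [List.prod_nil]
          exact ((QuotientGroup.eq_one_iff x).2 hN).symm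
        · refine ⟨[(x : H ⧸ N s)], fun a ha => ?_, List.prod_singleton⟩
          rw [List.mem_singleton] at ha
          rw [ha, hT, hX']
          exact ⟨x, ⟨hx, hN⟩, rfl⟩
      · exact ⟨[], fun a ha => absurd ha List.not_mem_nil, rfl⟩
      · rintro a b _ _ ⟨l, hl, hl'⟩ ⟨m, hm, hm'⟩
        refine ⟨l ++ m, fun c hc => ?_, ?_⟩
        · rcases List.mem_append.1 hc with h | h
          · exact hl c h
          · exact hm c h
        · rw [List.prod_append, hl', hm']
          rfl
    obtain ⟨l, hl, hl'⟩ := hl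
    refine ⟨l, ⟨hl, ?_⟩, hl'⟩
    rw [← map_list_prod, hl', hf, hg]

end

end Pool.Agent.S11
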