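import Pool.Agent.S11.GdB
import Pool.Agent.S11.GdD

/-!
# Project S11: the push forward of a series which is not zero is not zero for large `j`

Let `x₀` be the least element of the support; the elements `x₀⁻¹ x`, `x` in the support, `x ≠ x₀`, are `> 1`, so for large
`j` their images are `> 1` (`Gd.pos` for `s = r`), and the coefficient of the push forward at the image of `x₀` is `1`.
-/

set_option autoImplicit false
set_option linter.unusedSectionVars false

open Pointwise Filter

namespace Pool.Agent.S11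

section

variable {H : Type} [Group H] [BO H] {r : ℕ} {N : ℕ → Subgroup H}

/-- the positive part of the support, after a translation -/
theorem GdN_pos {f : MN H} {x₀ : H} (h1 : ∀ x, f.c x ≠ 0 → x₀ ≤ x) :
    ∀ y ∈ {y : H | y ≠ 1 ∧ f.c (x₀ * y) ≠ 0}, 1 < y := by
  rintro y ⟨hy, hf⟩
  have h2 := mul_le_l (h1 _ hf) x₀⁻¹
  rw [inv_mul_cancel, inv_mul_cancel_left] at h2
  exact lt_of_le_of_ne h2 (Ne.symm hy)

theorem GdN_good (hC : Chain H r N) {A : Appr H N} {f : MN H} (hf : ∀ᶠ j in atTop, Gd A r j f.supp) (x₀ : H) :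
    ∀ᶠ j in atTop, Gd A r j {y : H | y ≠ 1 ∧ f.c (x₀ * y) ≠ 0} := by
  filter_upwards [hf] with j hj
  refine (hj.left hC x₀⁻¹).mono ?_
  rintro y ⟨_, hy⟩
  exact ⟨x₀ * y, hy, inv_mul_cancel_left x₀ y⟩

/-- the coefficient of the push forward at the image of the least element of the support -/
theorem c_psh_min (hC : Chain H r N) (A : Appr H N) {f : MN H} (hf : ∀ᶠ j in atTop, Gd A r j f.supp)
    {x₀ : H} (h0 : f.c x₀ = 1) (h1 : ∀ x, f.c x ≠ 0 → x₀ ≤ x) :
    ∀ᶠ j in atTop, (psh A r j f).c (A.q j r x₀) = 1 := by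
  classical
  filter_upwards [hf, Gd.pos hC A (GdN_pos h1) (GdN_good hC hf x₀)] with j hj hp
  have h2 : ∀ x, f.c x ≠ 0 → A.q j r x = A.q j r x₀ → x = x₀ := by
    intro x hx hq
    by_contra hne
    have hne1 : x₀⁻¹ * x ≠ 1 := fun h => hne (inv_mul_eq_one.1 h).symm
    have h3 := hp r le_rfl (x₀⁻¹ * x) ⟨hne1, by rwa [mul_inv_cancel_left]⟩ (by
      rw [hC.last, Subgroup.mem_bot]
      exact hne1)
    rw [map_mul, map_inv, hq, inv_mul_cancel] at h3
    exact lt_irrefl _ h3
  rw [c_psh_finset hj (A.q j r x₀) {x₀} (fun x hx hq => Finset.mem_singleton.2 (h2 x hx hq)),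
    Finset.filter_true_of_mem (fun x hx => by rw [Finset.mem_singleton.1 hx]), Finset.sum_singleton, h0]

/-- **The push forward of a series which is not zero is not zero for large `j`.** -/
theorem psh_ne_zero (hC : Chain H r N) (A : Appr H N) {f : MN H} (hf : ∀ᶠ j in atTop, Gd A r j f.supp)
    (h : f ≠ 0) : ∀ᶠ j in atTop, psh A r j f ≠ 0 := by
  obtain ⟨x₀, h0, h1⟩ := MN.exists_min h
  filter_upwards [c_psh_min hC A hf h0 h1] with j hj h2
  rw [h2, MN.c_zero] at hj
  exact zero_ne_one hj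

end

end Pool.Agent.S11
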