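import Mathlib

/-!
# Project S11: matrices over a division ring: right inverses, independent rows of an exact pair

`exists_right_inverse`: a matrix which is injective on the row vectors has a right inverse.  `exists_rows`: there are as many independent
rows as the rank.  `exists_rows_of_exact`: if the pair `M₁, M₂` is exact in the middle, there are `r₁` independent rows of `M₁` and `r₂`
independent rows of `M₂` with `r₁ + r₂ = b`.
-/

set_option autoImplicit false

open Matrix Module

namespace Pool.Agent.S11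

section

variable {D : Type*} [DivisionRing D] {a b c : ℕ}

/-- a matrix over a division ring which is injective on the rows has a right inverse -/
theorem exists_right_inverse (A : Matrix (Fin a) (Fin b) D)
    (hA : ∀ v : Fin a → D, v ᵥ* A = 0 → v = 0) : ∃ B : Matrix (Fin b) (Fin a) D, A * B = 1 := by
  obtain ⟨g, hg⟩ := A.toLinearMapRight'.exists_leftInverse_of_injective
    (LinearMap.ker_eq_bot'.mpr fun v hv => hA v (by rw [← Matrix.toLinearMapRight'_apply]; exact hv))
  refine ⟨LinearMap.toMatrixRight' g, ?_⟩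
  apply Matrix.toLinearMapRight'.injective
  rw [Matrix.toLinearMapRight'_mul, Matrix.toLinearMapRight'_one]
  rw [← hg]
  congr 1
  exact LinearEquiv.symm_apply_apply _ _

theorem linearIndependent_rows_iff {r : ℕ} (M : Matrix (Fin a) (Fin b) D) (rows : Fin r → Fin a) :
    (∀ v : Fin r → D, v ᵥ* (M.submatrix rows id) = 0 → v = 0) ↔ LinearIndependent D (fun i => M (rows i)) := by
  have h1 : ∀ v : Fin r → D, v ᵥ* (M.submatrix rows id) = ∑ i, v i • M (rows i) := by
    intro v
    rw [Matrix.vecMul_eq_sum]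
    rfl
  rw [Fintype.linearIndependent_iff]
  constructor
  · intro h v hv i
    exact congrFun (h v (by rw [h1]; exact hv)) i
  · intro h v hv
    rw [h1] at hv
    exact funext fun i => h v hv i

theorem span_rows (M : Matrix (Fin a) (Fin b) D) : Submodule.span D (Set.range fun i => M i) = LinearMap.range M.toLinearMapRight' := by
  apply le_antisymm
  · rw [Submodule.span_le]
    rintro _ ⟨i, rfl⟩
    exact ⟨Pi.single i 1, by rw [Matrix.toLinearMapRight'_apply, Matrix.single_one_vecMul]; rfl⟩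
  · rintro _ ⟨v, rfl⟩
    rw [Matrix.toLinearMapRight'_apply, Matrix.vecMul_eq_sum]
    exact Submodule.sum_mem _ fun i _ => Submodule.smul_mem _ _ (Submodule.subset_span ⟨i, rfl⟩)

/-- as many independent rows as the rank -/
theorem exists_rows (M : Matrix (Fin a) (Fin b) D) {r : ℕ} (hr : r ≤ finrank D (LinearMap.range M.toLinearMapRight')) :
    ∃ rows : Fin r → Fin a, ∀ v : Fin r → D, v ᵥ* (M.submatrix rows id) = 0 → v = 0 := by
  rw [← span_rows] at hr
  obtain ⟨f, hf, -, hf'⟩ := Submodule.exists_fun_fin_finrank_span_eq D (Set.range fun i => M i)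
  choose rows hrows using hf
  refine ⟨rows ∘ Fin.castLE hr, (linearIndependent_rows_iff M _).2 ?_⟩
  have h1 : (fun i => M ((rows ∘ Fin.castLE hr) i)) = f ∘ Fin.castLE hr := funext fun i => hrows _
  rw [h1]
  exact hf'.comp _ (Fin.castLE_injective hr)

/-- **Independent rows of an exact pair** -/
theorem exists_rows_of_exact (M₁ : Matrix (Fin a) (Fin b) D) (M₂ : Matrix (Fin b) (Fin c) D)
    (h : ∀ v : Fin b → D, v ᵥ* M₂ = 0 → ∃ u : Fin a → D, u ᵥ* M₁ = v) :
    ∃ (r₁ r₂ : ℕ) (rows₁ : Fin r₁ → Fin a) (rows₂ : Fin r₂ → Fin b), r₁ + r₂ = b ∧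
      (∀ v : Fin r₁ → D, v ᵥ* (M₁.submatrix rows₁ id) = 0 → v = 0) ∧
      ∀ v : Fin r₂ → D, v ᵥ* (M₂.submatrix rows₂ id) = 0 → v = 0 := by
  have h1 := LinearMap.finrank_range_add_finrank_ker M₂.toLinearMapRight'
  rw [Module.finrank_fin_fun] at h1
  have h2 : LinearMap.ker M₂.toLinearMapRight' ≤ LinearMap.range M₁.toLinearMapRight' := fun v hv => by
    obtain ⟨u, hu⟩ := h v (by rw [← Matrix.toLinearMapRight'_apply]; exact hv)
    exact ⟨u, by rw [Matrix.toLinearMapRight'_apply]; exact hu⟩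
  have h3 := Submodule.finrank_mono h2
  obtain ⟨rows₂, h4⟩ := exists_rows M₂ le_rfl
  obtain ⟨rows₁, h5⟩ := exists_rows M₁ h3
  exact ⟨_, _, rows₁, rows₂, by omega, h5, h4⟩

/-- the same over a ring `R` with a homomorphism to the division ring -/
theorem exists_rows_of_exact_map {R : Type*} [Ring R] (ι : R →+* D) (M₁ : Matrix (Fin a) (Fin b) R) (M₂ : Matrix (Fin b) (Fin c) R)
    (h : ∀ v : Fin b → D, v ᵥ* M₂.map ι = 0 → ∃ u : Fin a → D, u ᵥ* M₁.map ι = v) :
    ∃ (r₁ r₂ : ℕ) (rows₁ : Fin r₁ → Fin a) (rows₂ : Fin r₂ → Fin b), r₁ + r₂ = b ∧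
      (∀ v : Fin r₁ → D, v ᵥ* ((M₁.submatrix rows₁ id).map ι) = 0 → v = 0) ∧
      ∀ v : Fin r₂ → D, v ᵥ* ((M₂.submatrix rows₂ id).map ι) = 0 → v = 0 :=
  exists_rows_of_exact (M₁.map ι) (M₂.map ι) h

end

end Pool.Agent.S11
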