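import Pool.Agent.S11.Ord
import Pool.Agent.H58.MN.Alg

/-!
# Project S11: Malcev-Neumann series over the field of two elements

`MN G` = functions on `G` with well-ordered support; it is a ring with the convolution; `MN.of` is the embedding of the
group algebra.

PROOFS.  By the injective map `toSer` to `H58.MN.Ser (ZMod 2) G`.
-/

set_option autoImplicit false
set_option linter.unusedSectionVars false

open Pointwise

namespace Pool.Agent.S11

/-- Malcev-Neumann series -/
@[ext]
structure MN (G : Type) [Group G] [BO G] where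
  /-- the coefficients -/
  c : G → ZMod 2
  /-- the support is well-ordered -/
  pwo : (Function.support c).IsPWO

section

variable {G : Type} [Group G] [BO G]

namespace MN

open Pool.Agent.H58.MN (Ser)

/-- the support -/
def supp (f : MN G) : Set G := Function.support f.c

theorem mem_supp {f : MN G} {x : G} : x ∈ f.supp ↔ f.c x ≠ 0 := Iff.rfl

/-- the same series, in the general theory -/
def toSer (f : MN G) : Ser (ZMod 2) G := Ser.mk f.c f.pwo

theorem toSer_apply (f : MN G) (x : G) : f.toSer x = f.c x := rfl

theorem toSer_injective : Function.Injective (toSer : MN G → Ser (ZMod 2) G) := by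
  intro f g h
  ext x
  rw [← toSer_apply, ← toSer_apply, h]

/-- the inverse of `toSer` -/
def ofSer (f : Ser (ZMod 2) G) : MN G := ⟨fun x => f x, f.wo⟩

theorem toSer_ofSer (f : Ser (ZMod 2) G) : (ofSer f).toSer = f := rfl

theorem mul_fin (f g : MN G) (x : G) : {a | f.c a * g.c (a⁻¹ * x) ≠ 0}.Finite := Ser.fin_supp f.toSer g.toSer x

theorem mul_pwo (f g : MN G) :
    (Function.support fun x => ∑ᶠ a : G, f.c a * g.c (a⁻¹ * x)).IsPWO := (f.toSer * g.toSer).wo

noncomputable instance : Zero (MN G) := ⟨⟨fun _ => 0, (0 : Ser (ZMod 2) G).wo⟩⟩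
noncomputable instance : One (MN G) := ⟨⟨fun x => by classical exact if x = 1 then 1 else 0, by
  refine (Set.isPWO_singleton (1 : G)).mono fun x hx => ?_
  by_contra h
  exact hx (if_neg h)⟩⟩
noncomputable instance : Add (MN G) := ⟨fun f g => ⟨fun x => f.c x + g.c x, (f.toSer + g.toSer).wo⟩⟩
noncomputable instance : Neg (MN G) := ⟨fun f => ⟨fun x => -f.c x, (-f.toSer).wo⟩⟩
noncomputable instance : Mul (MN G) :=
  ⟨fun f g => ⟨fun x => ∑ᶠ a : G, f.c a * g.c (a⁻¹ * x), mul_pwo f g⟩⟩

theorem c_zero (x : G) : (0 : MN G).c x = 0 := rfl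
theorem c_one_self : (1 : MN G).c 1 = 1 := if_pos rfl
theorem c_one_ne {x : G} (h : x ≠ 1) : (1 : MN G).c x = 0 := if_neg h
theorem c_add (f g : MN G) (x : G) : (f + g).c x = f.c x + g.c x := rfl
theorem c_neg (f : MN G) (x : G) : (-f).c x = -f.c x := rfl
theorem c_mul (f g : MN G) (x : G) : (f * g).c x = ∑ᶠ a : G, f.c a * g.c (a⁻¹ * x) := rfl

theorem toSer_zero : (0 : MN G).toSer = 0 := rfl
theorem toSer_one : (1 : MN G).toSer = 1 := by
  ext x
  rw [toSer_apply, Ser.one_def]
  by_cases h : x = 1
  · rw [h, c_one_self, Ser.single_self]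
  · rw [c_one_ne h, Ser.single_ne h]
theorem toSer_add (f g : MN G) : (f + g).toSer = f.toSer + g.toSer := rfl
theorem toSer_neg (f : MN G) : (-f).toSer = -f.toSer := rfl
theorem toSer_mul (f g : MN G) : (f * g).toSer = f.toSer * g.toSer := rfl

/-- the product as a finite sum -/
theorem c_mul_finset (f g : MN G) (x : G) (s : Finset G) (hs : ∀ a, f.c a ≠ 0 → g.c (a⁻¹ * x) ≠ 0 → a ∈ s) :
    (f * g).c x = ∑ a ∈ s, f.c a * g.c (a⁻¹ * x) := by
  rw [c_mul]
  refine finsum_eq_sum_of_support_subset _ fun a ha => ?_
  exact hs a (fun h => ha (by simp [h])) (fun h => ha (by simp [h]))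

theorem mul_assoc' (f g h : MN G) : f * g * h = f * (g * h) := by
  apply toSer_injective
  rw [toSer_mul, toSer_mul, toSer_mul, toSer_mul, mul_assoc]

noncomputable instance instRing : Ring (MN G) where
  add_assoc := fun a b c => toSer_injective (add_assoc a.toSer b.toSer c.toSer)
  zero_add := fun a => toSer_injective (zero_add a.toSer)
  add_zero := fun a => toSer_injective (add_zero a.toSer)
  add_comm := fun a b => toSer_injective (add_comm a.toSer b.toSer)
  left_distrib := fun a b c => toSer_injective (mul_add a.toSer b.toSer c.toSer)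
  right_distrib := fun a b c => toSer_injective (add_mul a.toSer b.toSer c.toSer)
  zero_mul := fun a => toSer_injective (zero_mul a.toSer)
  mul_zero := fun a => toSer_injective (mul_zero a.toSer)
  mul_assoc := mul_assoc'
  one_mul := fun a => toSer_injective (by rw [toSer_mul, toSer_one, one_mul])
  mul_one := fun a => toSer_injective (by rw [toSer_mul, toSer_one, mul_one])
  neg_add_cancel := fun a => toSer_injective (neg_add_cancel a.toSer)
  nsmul := nsmulRec
  zsmul := zsmulRec

/-- `toSer` as a homomorphism of rings -/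
noncomputable def toSerHom : MN G →+* Ser (ZMod 2) G where
  toFun := toSer
  map_one' := toSer_one
  map_mul' := toSer_mul
  map_zero' := toSer_zero
  map_add' := toSer_add

theorem add_self (f : MN G) : f + f = 0 := by
  ext x
  rw [c_add, c_zero]
  exact CharTwo.add_self_eq_zero _

noncomputable instance instModMN : Module (ZMod 2) (MN G) where
  smul k f := ⟨fun x => k * f.c x, f.pwo.mono fun x hx h => hx (by
    show k * f.c x = 0
    rw [h, mul_zero])⟩
  one_smul := fun f => MN.ext (funext fun x => one_mul (f.c x))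
  mul_smul := fun a b f => MN.ext (funext fun x => mul_assoc a b (f.c x))
  smul_zero := fun a => MN.ext (funext fun _ => mul_zero a)
  smul_add := fun a f g => MN.ext (funext fun x => mul_add a (f.c x) (g.c x))
  add_smul := fun a b f => MN.ext (funext fun x => add_mul a b (f.c x))
  zero_smul := fun f => MN.ext (funext fun x => zero_mul (f.c x))

theorem c_smul (k : ZMod 2) (f : MN G) (x : G) : (k • f).c x = k * f.c x := rfl

theorem smul_mul' (k : ZMod 2) (f g : MN G) : (k • f) * g = k • (f * g) := by
  ext x
  rw [c_mul, c_smul, c_mul, mul_finsum' _ _ (mul_fin f g x)]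
  refine finsum_congr fun a => ?_
  rw [c_smul, mul_assoc]

theorem mul_smul'' (k : ZMod 2) (f g : MN G) : f * (k • g) = k • (f * g) := by
  ext x
  rw [c_mul, c_smul, c_mul, mul_finsum' _ _ (mul_fin f g x)]
  refine finsum_congr fun a => ?_
  rw [c_smul]
  ring

theorem supp_mul (f g : MN G) : (f * g).supp ⊆ f.supp * g.supp := Ser.support_mul f.toSer g.toSer

theorem supp_add (f g : MN G) : (f + g).supp ⊆ f.supp ∪ g.supp := Function.support_add f.c g.c

private theorem toSer_ofFun (a : MonoidAlgebra (ZMod 2) G) (h : (Function.support fun x => a.coeff x).IsPWO) :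
    (⟨fun x => a.coeff x, h⟩ : MN G).toSer = Ser.ofAlg a := by
  ext x
  rw [Ser.ofAlg_apply]
  rfl

/-- the embedding of the group algebra -/
noncomputable def of : MonoidAlgebra (ZMod 2) G →+* MN G where
  toFun a := ⟨fun x => a.coeff x, Set.Finite.isPWO (Finsupp.hasFiniteSupport a.coeff)⟩
  map_one' := by
    ext x
    show (1 : MonoidAlgebra (ZMod 2) G).coeff x = (1 : MN G).c x
    rw [MonoidAlgebra.one_def, MonoidAlgebra.coeff_single, Finsupp.single_apply]
    by_cases h : 1 = x
    · rw [if_pos h, ← h, c_one_self]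
    · rw [if_neg h, c_one_ne (Ne.symm h)]
  map_mul' := by
    intro a b
    apply toSer_injective
    rw [toSer_mul, toSer_ofFun, toSer_ofFun, toSer_ofFun, map_mul]
  map_zero' := rfl
  map_add' := fun _ _ => rfl

theorem c_of (a : MonoidAlgebra (ZMod 2) G) (x : G) : (of a).c x = a.coeff x := rfl

theorem of_injective : Function.Injective (of : MonoidAlgebra (ZMod 2) G →+* MN G) := by
  intro a b h
  ext x
  rw [← c_of, ← c_of, h]

/-- the element `g` of the group as a series -/
noncomputable def g (x : G) : MN G := of (MonoidAlgebra.single x 1)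

theorem g_one : g (1 : G) = 1 := of.map_one

theorem g_mul (x y : G) : g (x * y) = g x * g y := by
  rw [g, g, g, ← map_mul, MonoidAlgebra.single_mul_single, one_mul]

theorem toSer_g (x : G) : (g x).toSer = Ser.single x 1 := by
  ext y
  rw [toSer_apply, g, c_of, MonoidAlgebra.coeff_single, Finsupp.single_apply]
  by_cases h : x = y
  · rw [if_pos h, h, Ser.single_self]
  · rw [if_neg h, Ser.single_ne (Ne.symm h)]

theorem c_g_mul (y : G) (f : MN G) (x : G) : (g y * f).c x = f.c (y⁻¹ * x) := by
  rw [← toSer_apply, toSer_mul, toSer_g, Ser.single_mul_apply, one_mul]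
  rfl

theorem c_mul_g (y : G) (f : MN G) (x : G) : (f * g y).c x = f.c (x * y⁻¹) := by
  rw [← toSer_apply, toSer_mul, toSer_g, Ser.mul_single_apply, mul_one]
  rfl

end MN

end

end Pool.Agent.S11
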