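import Pool.Agent.H58.MN.Ord

/-!
# Project S11: groups with a bi-invariant total order, well-ordered subsets

PROOFS.  From `H58/MN/Ord.lean`: products, factorisations, Neumann's lemma (Higman's lemma for the lists).
-/

set_option autoImplicit false
set_option linter.unusedSectionVars false

open Pointwise

namespace Pool.Agent.S11

/-- a total order on a group which is invariant on both sides -/
class BO (G : Type) [Group G] extends LinearOrder G where
  lt_l : ∀ a b c : G, a < b → c * a < c * b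
  lt_r : ∀ a b c : G, a < b → a * c < b * c

section

variable {G : Type} [Group G] [BO G]

theorem mul_lt_l {a b : G} (h : a < b) (c : G) : c * a < c * b := BO.lt_l a b c h

theorem mul_lt_r {a b : G} (h : a < b) (c : G) : a * c < b * c := BO.lt_r a b c h

theorem mul_le_l {a b : G} (h : a ≤ b) (c : G) : c * a ≤ c * b := by
  rcases h.lt_or_eq with h | h
  · exact (mul_lt_l h c).le
  · rw [h]

theorem mul_le_r {a b : G} (h : a ≤ b) (c : G) : a * c ≤ b * c := by
  rcases h.lt_or_eq with h | h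
  · exact (mul_lt_r h c).le
  · rw [h]

instance : MulLeftMono G := ⟨fun c _ _ h => mul_le_l h c⟩

instance : MulRightMono G := ⟨fun c _ _ h => mul_le_r h c⟩

theorem mul_le_mul_bo {a b c d : G} (h : a ≤ b) (h' : c ≤ d) : a * c ≤ b * d :=
  (mul_le_r h c).trans (mul_le_l h' b)

theorem inv_lt_inv_bo {a b : G} (h : a < b) : b⁻¹ < a⁻¹ := by
  have h1 := mul_lt_r (mul_lt_l h a⁻¹) b⁻¹
  rwa [inv_mul_cancel, one_mul, mul_assoc, mul_inv_cancel, mul_one] at h1

theorem one_lt_conj {a : G} (h : 1 < a) (g : G) : 1 < g * a * g⁻¹ := by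
  have h1 := mul_lt_r (mul_lt_l h g) g⁻¹
  rwa [mul_one, mul_inv_cancel] at h1

theorem one_lt_mul_bo {a b : G} (h : 1 < a) (h' : 1 < b) : 1 < a * b := by
  have h1 := mul_lt_l h' a
  rw [mul_one] at h1
  exact h.trans h1

theorem pwo_mul {S T : Set G} (hS : S.IsPWO) (hT : T.IsPWO) : (S * T).IsPWO := Pool.Agent.H58.MN.isPWO_mul hS hT

theorem fin_mul {S T : Set G} (hS : S.IsPWO) (hT : T.IsPWO) (x : G) :
    {a | a ∈ S ∧ a⁻¹ * x ∈ T}.Finite := by
  refine ((Pool.Agent.H58.MN.finite_anti hS hT x).image Prod.fst).subset ?_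
  intro a ha
  exact ⟨(a, a⁻¹ * x), ⟨ha.1, ha.2, by simp⟩, rfl⟩

theorem pwo_left {S : Set G} (hS : S.IsPWO) (g : G) : ((fun x => g * x) '' S).IsPWO := Pool.Agent.H58.MN.isPWO_smul hS g

theorem pwo_right {S : Set G} (hS : S.IsPWO) (g : G) : ((fun x => x * g) '' S).IsPWO := Pool.Agent.H58.MN.isPWO_mul_right hS g

/-- **Neumann's lemma**, first part -/
theorem pwo_closure {S : Set G} (hS : S.IsPWO) (h1 : ∀ x ∈ S, 1 < x) :
    ((Submonoid.closure S : Submonoid G) : Set G).IsPWO := Pool.Agent.H58.MN.isPWO_closure (fun x hx => (h1 x hx).le) hS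

/-- **Neumann's lemma**, second part -/
theorem fin_words {S : Set G} (hS : S.IsPWO) (h1 : ∀ x ∈ S, 1 < x) (x : G) :
    {l : List G | (∀ y ∈ l, y ∈ S) ∧ l.prod = x}.Finite := Pool.Agent.H58.MN.finite_words h1 hS x

private theorem fin_lists {α β : Type} {P : α → Prop} {f : α → β} (h : ∀ y, {x | P x ∧ f x = y}.Finite) (l : List β) :
    {m : List α | (∀ x ∈ m, P x) ∧ m.map f = l}.Finite := by
  induction l with
  | nil =>
    refine (Set.finite_singleton []).subset ?_
    rintro m ⟨-, hm⟩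
    exact List.map_eq_nil_iff.1 hm
  | cons b l ih =>
    refine ((h b).prod ih |>.image fun p : α × List α => p.1 :: p.2).subset ?_
    rintro m ⟨h1, h2⟩
    rcases m with _ | ⟨a, m⟩
    · simp at h2
    · rw [List.map_cons, List.cons.injEq] at h2
      exact ⟨(a, m), ⟨⟨h1 a (by simp), h2.1⟩, fun x hx => h1 x (List.mem_cons_of_mem _ hx), h2.2⟩, rfl⟩

/-- **Neumann's lemma** for a family of elements which is finite-to-one -/
theorem fin_words_of {α : Type} {T : Set α} {f : α → G} (hf : (f '' T).IsPWO)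
    (hfin : ∀ x, {a | a ∈ T ∧ f a = x}.Finite) (h1 : ∀ a ∈ T, 1 < f a) (x : G) :
    {l : List α | (∀ a ∈ l, a ∈ T) ∧ (l.map f).prod = x}.Finite := by
  have h2 := fin_words hf (by rintro _ ⟨a, ha, rfl⟩; exact h1 a ha) x
  refine (h2.biUnion fun l _ => fin_lists (P := fun a => a ∈ T) (f := f) hfin l).subset ?_
  rintro l ⟨h3, h4⟩
  rw [Set.mem_iUnion₂]
  refine ⟨l.map f, ⟨?_, h4⟩, h3, rfl⟩
  intro y hy
  obtain ⟨a, ha, rfl⟩ := List.mem_map.1 hy
  exact ⟨a, h3 a ha, rfl⟩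

/-- two families of elements which are finite-to-one -/
theorem fin_pairs_of {α β : Type} {S : Set α} {T : Set β} {f : α → G} {g : β → G}
    (hf : (f '' S).IsPWO) (hg : (g '' T).IsPWO) (hfin : ∀ x, {a | a ∈ S ∧ f a = x}.Finite)
    (hgin : ∀ x, {b | b ∈ T ∧ g b = x}.Finite) (x : G) :
    {p : α × β | p.1 ∈ S ∧ p.2 ∈ T ∧ f p.1 * g p.2 = x}.Finite := by
  refine ((Pool.Agent.H58.MN.finite_anti hf hg x).biUnion fun p _ => (hfin p.1).prod (hgin p.2)).subset ?_
  rintro ⟨a, b⟩ ⟨h1, h2, h3⟩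
  rw [Set.mem_iUnion₂]
  exact ⟨(f a, g b), ⟨⟨a, h1, rfl⟩, ⟨b, h2, rfl⟩, h3⟩, ⟨h1, rfl⟩, ⟨h2, rfl⟩⟩

end

end Pool.Agent.S11
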