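import Pool.Agent.S11.Pack

/-!
# Project S11, block RAAG: subgroups of index a power of two, residually finite two-groups
-/

set_option autoImplicit false

namespace Pool.Agent.S11

section

variable {G : Type} [Group G]

theorem twoPow_of_dvd {W : Subgroup G} {n : ℕ} (h : ∃ k : ℕ, n = 2 ^ k) (hd : W.index ∣ n) : TwoPow W := by
  obtain ⟨k, rfl⟩ := h
  obtain ⟨l, -, hl⟩ := (Nat.dvd_prime_pow Nat.prime_two).1 hd
  exact ⟨l, hl⟩

theorem twoPow_top : TwoPow (⊤ : Subgroup G) := ⟨0, by simp⟩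

theorem TwoPow.of_le {W W' : Subgroup G} (h : TwoPow W) (hle : W ≤ W') : TwoPow W' :=
  twoPow_of_dvd h (Subgroup.index_dvd_of_le hle)

theorem TwoPow.relIndex {W : Subgroup G} (h : TwoPow W) [W.Normal] (K : Subgroup G) : ∃ k : ℕ, W.relIndex K = 2 ^ k := by
  obtain ⟨k, hk⟩ := h
  obtain ⟨l, -, hl⟩ := (Nat.dvd_prime_pow Nat.prime_two).1 (hk ▸ Subgroup.relIndex_dvd_index_of_normal W K)
  exact ⟨l, hl⟩

/-- (i) preimages -/
theorem TwoPow.comap {W : Subgroup G} (h : TwoPow W) [W.Normal] {H : Type} [Group H] (f : H →* G) :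
    TwoPow (W.comap f) := by
  obtain ⟨l, hl⟩ := h.relIndex f.range
  exact ⟨l, by rw [Subgroup.index_comap, hl]⟩

theorem TwoPow.inf {W W' : Subgroup G} (h : TwoPow W) (h' : TwoPow W') [W.Normal] : TwoPow (W ⊓ W') := by
  obtain ⟨l, hl⟩ := h.relIndex W'
  obtain ⟨k, hk⟩ := h'
  refine ⟨l + k, ?_⟩
  rw [← Subgroup.relIndex_mul_index (inf_le_right : W ⊓ W' ≤ W'), Subgroup.inf_relIndex_right, hl, hk, pow_add]

/-- the subgroup of `K` -/
theorem TwoPow.subgroupOf {W : Subgroup G} (h : TwoPow W) [W.Normal] (K : Subgroup G) : TwoPow (W.subgroupOf K) :=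
  h.relIndex K

end

/-- (ii) A group with jointly injective homomorphisms to residually finite two-groups is residually a finite
two-group. -/
theorem res2_of_inj {H : Type} [Group H] {ι : Type*} {Γ : ι → Type} [∀ j, Group (Γ j)] (f : ∀ j, H →* Γ j)
    (hf : ∀ x : H, (∀ j, f j x = 1) → x = 1) (h : ∀ j, Res2 (Γ j)) : Res2 H := by
  intro x hx
  have h1 : ∃ j, f j x ≠ 1 := by
    by_contra hn
    push Not at hn
    exact hx (hf x hn)
  obtain ⟨j, hj⟩ := h1
  obtain ⟨W, hW, hT, hn⟩ := h j (f j x) hj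
  exact ⟨W.comap (f j), hW.comap (f j), hT.comap (f j), fun hm => hn (Subgroup.mem_comap.1 hm)⟩

theorem Res2.of_injective {H G : Type} [Group H] [Group G] (h : Res2 G) (f : H →* G) (hf : Function.Injective f) :
    Res2 H :=
  res2_of_inj (ι := Unit) (fun _ => f) (fun x hx => hf (by rw [hx (), map_one])) fun _ => h

/-- the same with the homomorphisms as in `exists_lex`: `u ≠ 1` is not in a normal subgroup of index a power of two -/
theorem res2_of_seq {H : Type} [Group H] {Γ : ℕ → Type} [∀ j, Group (Γ j)] (f : ∀ j, H →* Γ j)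
    (hf : ∀ x : H, (∀ j, f j x = 1) → x = 1)
    (h : ∀ j, ∀ u : Γ j, u ≠ 1 → ∃ W : Subgroup (Γ j), W.Normal ∧ TwoPow W ∧ u ∉ W) : Res2 H :=
  res2_of_inj f hf h

end Pool.Agent.S11
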