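import Pool.Agent.S11.Defs
import Pool.Agent.H20.GR.Growth
import Pool.Agent.H72.UJ.Fol

/-!
# Project S11, block U: the groups `Un T j` are ordered, have boxes and are residually finite 2-groups
-/

set_option autoImplicit false

open Finset

namespace Pool.Agent.S11.U

open Pool.Agent.H72.UJ

variable {T : Type} [Monoid T] [Gr T] {j : ℕ}

/-- The bi-order of `Un T j`: the first different coordinate decides. -/
noncomputable instance instBO [LinearOrder T] [Mo T] : BO (Un T j) where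
  toLinearOrder := inferInstance
  lt_l _ _ g h := mul_lt_left g h
  lt_r _ _ g h := mul_lt_right g h

theorem twoPow_const (k : ℕ) : TwoPow (Cg T j (Dv.const (2 ^ k) (pow_pos (by norm_num) k))) := by
  refine ⟨k * Fintype.card (pos T j), ?_⟩
  rw [index_Cg]
  change ∏ m : pos T j, 2 ^ k = _
  rw [prod_const, card_univ, pow_mul]

/-- **Residually finite 2-groups.** -/
theorem res2 {u : Un T j} (hu : u ≠ 1) : ∃ W : Subgroup (Un T j), W.Normal ∧ TwoPow W ∧ u ∉ W := by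
  obtain ⟨m, h1, hm, h⟩ : ∃ m : T, m ≠ 1 ∧ len m ≤ j ∧ c u m ≠ 0 := by
    by_contra hcon
    push Not at hcon
    refine hu (c_ext fun m h1 hm => ?_)
    rw [hcon m h1 hm, c_one h1 hm]
  refine ⟨Cg T j (Dv.const (2 ^ (c u m).natAbs) (pow_pos (by norm_num) _)), const_normal _ _,
    twoPow_const _, fun hW => ?_⟩
  have h2 := hW m h1 hm
  have h3 : (2 ^ (c u m).natAbs : ℕ) ∣ (c u m).natAbs := by
    have : ((2 ^ (c u m).natAbs : ℕ) : ℤ) ∣ c u m := h2
    exact Int.natCast_dvd.1 this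
  have h4 := Nat.le_of_dvd (Int.natAbs_pos.2 h) h3
  exact absurd h4 (not_le.2 (Nat.lt_two_pow_self))

theorem twoPow_inf {G : Type} [Group G] {A B : Subgroup G} [A.Normal] (hA : TwoPow A)
    (hB : TwoPow B) : TwoPow (A ⊓ B) := by
  obtain ⟨a, ha⟩ := hA
  obtain ⟨b, hb⟩ := hB
  have h1 : (A ⊓ B).index = A.relIndex B * B.index := by
    rw [← Subgroup.relIndex_mul_index (H := A ⊓ B) (K := B) inf_le_right,
      Subgroup.inf_relIndex_right]
  have h2 : A.relIndex B ∣ 2 ^ a := by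
    rw [← ha]
    exact Subgroup.relIndex_dvd_index_of_normal A B
  obtain ⟨k, _, hk⟩ := (Nat.dvd_prime_pow Nat.prime_two).1 h2
  exact ⟨k + b, by rw [h1, hk, hb, pow_add]⟩

/-- The basic form. -/
theorem fbox' (S : Finset (Un T j)) (ε : ℝ) (hε : 0 < ε) :
    ∃ (t : ℕ) (D : Finset (Un T j)),
      Cg T j (Dv.const (2 ^ (t * j)) (pow_pos (by norm_num) _)) ≤ Cg T j (Dv.two t) ∧
      (∀ e ∈ box T j (Dv.two t), ∀ s ∈ S, e * s ∉ box T j (Dv.two t) → e ∈ D) ∧
      ((D.card : ℝ) ≤ ε * (box T j (Dv.two t)).card) := by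
  classical
  choose C hC using fun h : Un T j => leave_le h
  obtain ⟨t, ht⟩ : ∃ t : ℕ, ((∑ s ∈ S, C s : ℕ) : ℝ) / ε < 2 ^ t :=
    pow_unbounded_of_one_lt _ (by norm_num)
  refine ⟨t, (box T j (Dv.two t)).filter fun e => ∃ s ∈ S, e * s ∉ box T j (Dv.two t), ?_,
    fun e he s hs h => mem_filter.2 ⟨he, s, hs, h⟩, ?_⟩
  · intro g hg m h1 hm
    refine dvd_trans ?_ (hg m h1 hm)
    change ((2 ^ (t * len m) : ℕ) : ℤ) ∣ ((2 ^ (t * j) : ℕ) : ℤ)
    exact_mod_cast pow_dvd_pow 2 (Nat.mul_le_mul_left _ hm)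
  · set E := box T j (Dv.two t) with hE
    have h1 : (E.filter fun e => ∃ s ∈ S, e * s ∉ E).card ≤
        ∑ s ∈ S, (E.filter fun e => e * s ∉ E).card := by
      refine (card_le_card ?_).trans card_biUnion_le
      intro e he
      rw [mem_filter] at he
      obtain ⟨h1, s, hs, h2⟩ := he
      rw [mem_biUnion]
      exact ⟨s, hs, mem_filter.2 ⟨h1, h2⟩⟩
    have h2 : 2 ^ t * (E.filter fun e => ∃ s ∈ S, e * s ∉ E).card ≤ (∑ s ∈ S, C s) * E.card := by
      calc _ ≤ 2 ^ t * ∑ s ∈ S, (E.filter fun e => e * s ∉ E).card := Nat.mul_le_mul_left _ h1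
        _ = ∑ s ∈ S, 2 ^ t * (E.filter fun e => e * s ∉ E).card := by rw [mul_sum]
        _ ≤ ∑ s ∈ S, C s * E.card := sum_le_sum fun s _ => hC s t
        _ = _ := by rw [sum_mul]
    have h3 : (2 : ℝ) ^ t * ((E.filter fun e => ∃ s ∈ S, e * s ∉ E).card : ℝ) ≤
        ((∑ s ∈ S, C s : ℕ) : ℝ) * E.card := by exact_mod_cast h2
    have h4 : ((∑ s ∈ S, C s : ℕ) : ℝ) ≤ 2 ^ t * ε := by
      rw [div_lt_iff₀ hε] at ht
      exact ht.le
    have h5 : (0 : ℝ) < 2 ^ t := by positivity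
    refine le_of_mul_le_mul_left ?_ h5
    calc _ ≤ ((∑ s ∈ S, C s : ℕ) : ℝ) * E.card := h3
      _ ≤ (2 ^ t * ε) * E.card := mul_le_mul_of_nonneg_right h4 (Nat.cast_nonneg _)
      _ = _ := by ring

variable (T j)

/-- **Boxes**, form of `H20.GR`. -/
theorem fBox : Pool.Agent.H20.GR.FBox (Un T j) := by
  classical
  refine Pool.Agent.H20.GR.FBox.of_filter fun S ε hε => ?_
  obtain ⟨t, D, h1, h2, h3⟩ := fbox' S ε hε
  exact ⟨Cg T j (Dv.const (2 ^ (t * j)) (pow_pos (by norm_num) _)), Cg T j (Dv.two t),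
    const_normal _ _, box T j (Dv.two t), D, h1, inferInstance,
    pgroup_const 2 (t * j) (by norm_num), box_bij _, h2, h3⟩

end Pool.Agent.S11.U
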