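import Pool.Agent.S11.RaQ
import Pool.Agent.S11.RaRes
import Pool.Agent.S11.RaMu
import Pool.Agent.S11.RaFr
import Pool.Agent.S11.UB

/-!
# Project S11, block RAAG: assembly

`exists_lex`: for an injective homomorphism `f : H →* Raag G`, `G` a graph on `Fin r`: a bi-invariant order on `H`, the
chain with free quotients, the approximations by groups with boxes, and `H` is residually a finite two-group.
-/

set_option autoImplicit false

namespace Pool.Agent.S11.Ra

open Pool.Agent.H37.RG Pool.Agent.H72.UJ Pool.Agent.H68.Amp Pool.Agent.S11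

theorem free_of_eq {H : Type} [Group H] {r : ℕ} {N N' : ℕ → Subgroup H} (h : N = N')
    (hn : ∀ s, (N s).Normal) (hn' : ∀ s, (N' s).Normal)
    (hf : ∀ s < r, IsFreeGroup (N' s ⧸ (N' (s + 1)).subgroupOf (N' s))) :
    ∀ s < r, IsFreeGroup (N s ⧸ (N (s + 1)).subgroupOf (N s)) := by
  subst h
  exact hf

variable {r : ℕ} {G : SimpleGraph (Fin r)}

theorem raagFam_gen (j : ℕ) (v : Fin r) (m : Tr G) (h1 : m ≠ 1) (h2 : m ≠ Tr.of G v) (hm : len m ≤ j) :
    c ((raagFam G).μ j (gen G v)) m = 0 := by
  change c (mu G j (gen G v)) m = 0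
  rw [mu_gen]
  exact c_onePlus_ne _ hm h1 h2

theorem comp_N_eq {H : Type} [Group H] (f : H →* Raag G) (hf : Function.Injective f) :
    ((raagFam G).comp f hf).N = NR G f := by
  funext s
  exact comp_N_eq_ker (raagFam G) raagFam_gen f hf s

/-- **Output of the block RAAG.** -/
theorem exists_lex {H : Type} [Group H] (f : H →* Raag G) (hf : Function.Injective f) :
    ∃ (b : BO H) (N : ℕ → Subgroup H) (A : @Appr H _ b N), @Chain H _ b r N ∧
      (∀ j s, FBox (A.Γ j s)) ∧ Res2 H := by
  let F := (raagFam G).comp f hf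
  refine ⟨F.bo, F.N, F.appr, ?_, fun j _ => U.fBox (Tr G) j, ?_⟩
  · let _ := F.bo
    exact
      { zero := F.N_zero
        last := F.N_last (fun m => lvl_le_lev m)
        anti := F.N_anti
        normal := F.N_normal
        cvx := F.N_cvx
        free := free_of_eq (comp_N_eq f hf) F.N_normal (NR_normal G f) fun s hs => NR_free G f hs }
  · exact res2_of_seq (fun j => F.μ j) F.inj (fun j u hu => U.res2 hu)

end Pool.Agent.S11.Ra

namespace Pool.Agent.S11

/-- **Output of the block RAAG**, for a group with an injective homomorphism to a right-angled Artin group. -/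
theorem exists_lex {r : ℕ} (G : SimpleGraph (Fin r)) {H : Type} [Group H]
    (f : H →* Pool.Agent.H68.Amp.Raag G) (hf : Function.Injective f) :
    ∃ (b : BO H) (N : ℕ → Subgroup H) (A : @Appr H _ b N), @Chain H _ b r N ∧
      (∀ j s, FBox (A.Γ j s)) ∧ Res2 H := Ra.exists_lex f hf

end Pool.Agent.S11
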