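import Pool.Agent.S11.RaLex
import Pool.Agent.S11.RaTr
import Pool.Agent.H68.Amp.Raag1

/-!
# Project S11, block RAAG: the level structure of the trace monoid, the chain and the retractions
-/

set_option autoImplicit false
set_option linter.unusedSectionVars false

namespace Pool.Agent.S11.Ra

open Pool.Agent.H37.RG Pool.Agent.H72.UJ Pool.Agent.H68.Amp Pool.Agent.S11

variable {r : ℕ} {Γ : SimpleGraph (Fin r)}

noncomputable instance : Lev (Tr Γ) where
  lvl := Ra.lvl
  lvl_one := Ra.lvl_one
  lvl_pos _ h := Nat.pos_of_ne_zero fun h0 => h (Ra.lvl_eq_zero.1 h0)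
  lvl_mul := Ra.lvl_mul
  lvl_mono _ _ h := Ra.lvl_le_of_lt h
  len_lt _ _ h h' := Ra.lt_of_len_lt h h'

theorem lev_lvl (m : Tr Γ) : Lev.lvl m = Ra.lvl m := rfl

/-- the first `s` letters -/
def letters (r s : ℕ) : Set (Fin r) := {v | (v : ℕ) < s}

section

variable (F : Fam (Raag Γ) (Tr Γ))
  (hgen : ∀ (j : ℕ) (v : Fin r) (m : Tr Γ), m ≠ 1 → m ≠ Tr.of Γ v → len m ≤ j → c (F.μ j (gen Γ v)) m = 0)

include hgen

/-- the truncation at the level `s` is the retraction to the first `s` letters -/
theorem rho_comp (j s : ℕ) : (rho j s).comp (F.μ j) = (F.μ j).comp (ret Γ (letters r s)) := by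
  classical
  apply raag_hom_ext
  intro v
  rw [MonoidHom.comp_apply, MonoidHom.comp_apply]
  by_cases hv : v ∈ letters r s
  · rw [ret_gen_mem Γ hv]
    refine c_ext fun m h1 hm => ?_
    rw [c_rho j s _ hm]
    split_ifs with h
    · rfl
    · symm
      apply hgen j v m h1 _ hm
      rintro rfl
      apply h
      rw [lev_lvl, Ra.lvl_of]
      exact hv
  · rw [ret_gen_not Γ hv, map_one]
    refine c_ext fun m h1 hm => ?_
    rw [c_rho j s _ hm, c_one h1 hm]
    split_ifs with h
    · apply hgen j v m h1 _ hm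
      rintro rfl
      apply hv
      rw [lev_lvl, Ra.lvl_of] at h
      exact h
    · rfl

theorem q_eq (j s : ℕ) (x : Raag Γ) : F.q j s x = F.μ j (ret Γ (letters r s) x) := by
  have := DFunLike.congr_fun (rho_comp F hgen j s) x
  exact this

theorem mem_N_iff (s : ℕ) (x : Raag Γ) : x ∈ F.N s ↔ ret Γ (letters r s) x = 1 := by
  rw [Fam.N, Subgroup.mem_iInf]
  constructor
  · intro h
    apply F.inj
    intro j
    rw [← q_eq F hgen]
    exact h j
  · intro h j
    rw [MonoidHom.mem_ker, q_eq F hgen, h, map_one]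

theorem N_eq_ker (s : ℕ) : F.N s = (ret Γ (letters r s)).ker := by
  ext x
  rw [mem_N_iff F hgen, MonoidHom.mem_ker]

/-- the chain of a group with an injective homomorphism to the right-angled Artin group -/
theorem mem_comp_N_iff {H : Type} [Group H] (f : H →* Raag Γ) (hf : Function.Injective f) (s : ℕ) (x : H) :
    x ∈ (F.comp f hf).N s ↔ ret Γ (letters r s) (f x) = 1 := by
  rw [← mem_N_iff F hgen, Fam.N, Fam.N, Subgroup.mem_iInf, Subgroup.mem_iInf]
  rfl

theorem comp_N_eq_ker {H : Type} [Group H] (f : H →* Raag Γ) (hf : Function.Injective f) (s : ℕ) :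
    (F.comp f hf).N s = ((ret Γ (letters r s)).comp f).ker := by
  ext x
  rw [mem_comp_N_iff F hgen, MonoidHom.mem_ker]
  rfl

end

theorem lvl_le_lev (m : Tr Γ) : Lev.lvl m ≤ r := lvl_le_r m

end Pool.Agent.S11.Ra
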