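import Pool.Agent.S11.SqB

/-!
# Project S11, square lemma: cup products with values in the tensor square
-/

set_option autoImplicit false
set_option linter.unusedSectionVars false

open Finset Pointwise
open scoped TensorProduct

noncomputable section

namespace Pool.Agent.S11

open Pool.Agent.H37.TM (face1 face2 below cup cob cob_cup face1_subset face2_subset)

variable {Γ U : Type} [Group Γ] [DecidableEq U] [MulAction Γ U] {K B : Set (Finset U)} {r : U → U → Prop}
  {V : Type} [AddCommGroup V] [Module (ZMod 2) V] {ρ : Γ →* Module.End (ZMod 2) V}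

/-- the diagonal action on the tensor square -/
def tp (ρ : Γ →* Module.End (ZMod 2) V) : Γ →* Module.End (ZMod 2) (V ⊗[ZMod 2] V) where
  toFun g := TensorProduct.map (ρ g) (ρ g)
  map_one' := by
    rw [map_one]
    exact TensorProduct.map_id
  map_mul' g g' := by
    rw [map_mul]
    exact TensorProduct.map_comp _ _ _ _

@[simp] theorem tp_tmul (g : Γ) (u v : V) : tp ρ g (u ⊗ₜ[ZMod 2] v) = ρ g u ⊗ₜ[ZMod 2] ρ g v := rfl

theorem tp_sw (g : Γ) (x : V ⊗[ZMod 2] V) : sw (tp ρ g x) = tp ρ g (sw x) := by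
  induction x using TensorProduct.induction_on with
  | zero => simp
  | tmul u v => rfl
  | add a b ha hb => rw [map_add, map_add, ha, hb, map_add, map_add]

/-- the coboundary of a function on finite sets -/
def cobW {W : Type} [AddCommMonoid W] (x : Finset U → W) (s : Finset U) : W := ∑ v ∈ s, x (s.erase v)

/-- the cup product of order `m - 1` with values in the tensor square -/
def cupV (ht : U → ℕ) (m : ℕ) (x y : Finset U → V) (s : Finset U) : V ⊗[ZMod 2] V :=
  ∑ N ∈ s.powersetCard m, x (face1 ht N s) ⊗ₜ[ZMod 2] y (face2 ht N s)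

/-- **The coboundary of the cup products.** -/
theorem cob_cupV (ht : U → ℕ) (m : ℕ) (x y : Finset U → V) (s : Finset U) (hs : Set.InjOn ht (s : Set U)) :
    cobW (cupV ht (m + 1) x y) s = cupV ht (m + 1) (cobW x) y s + cupV ht (m + 1) x (cobW y) s +
      (cupV ht m x y s + sw (cupV ht m y x s)) := by
  obtain ⟨ι, b⟩ := Module.Free.exists_basis (R := ZMod 2) (M := V)
  have h2 : ∀ (u v : V) (i j : ι), (b.tensorProduct b).repr (u ⊗ₜ[ZMod 2] v) (i, j) = b.repr u i * b.repr v j := by
    intro u v i j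
    rw [Module.Basis.tensorProduct_repr_tmul_apply, smul_eq_mul, mul_comm]
  have h3 : ∀ (x : V ⊗[ZMod 2] V) (i j : ι), (b.tensorProduct b).repr (sw x) (i, j) = (b.tensorProduct b).repr x (j, i) := by
    intro x i j
    induction x using TensorProduct.induction_on with
    | zero => simp
    | tmul u v => rw [sw_tmul, h2, h2, mul_comm]
    | add a b ha hb => rw [map_add, map_add, map_add, Finsupp.add_apply, Finsupp.add_apply, ha, hb]
  have h4 : ∀ (m : ℕ) (x y : Finset U → V) (t : Finset U) (i j : ι), (b.tensorProduct b).repr (cupV ht m x y t) (i, j) =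
      cup ht m (fun s => b.repr (x s) i) (fun s => b.repr (y s) j) t := by
    intro m x y t i j
    unfold cupV cup
    rw [map_sum, Finsupp.finsetSum_apply]
    exact sum_congr rfl fun N _ => h2 _ _ _ _
  have h5 : ∀ (x : Finset U → V) (i : ι), (fun s => b.repr (cobW x s) i) = cob fun s => b.repr (x s) i := by
    intro x i
    funext s
    unfold cobW cob
    rw [map_sum, Finsupp.finsetSum_apply]
  refine (b.tensorProduct b).ext_elem fun p => ?_
  obtain ⟨i, j⟩ := p
  have h6 : (b.tensorProduct b).repr (cobW (cupV ht (m + 1) x y) s) (i, j) =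
      cob (cup ht (m + 1) (fun s => b.repr (x s) i) (fun s => b.repr (y s) j)) s := by
    unfold cobW cob
    rw [map_sum, Finsupp.finsetSum_apply]
    exact sum_congr rfl fun N _ => h4 _ _ _ _ _ _
  rw [h6, map_add, map_add, map_add, Finsupp.add_apply, Finsupp.add_apply, Finsupp.add_apply, h3, h4, h4, h4, h4, h5, h5]
  exact cob_cup ht m _ _ s hs

/-! ### the products with respect to a relation -/

open Classical in
/-- the number of elements of `N` below `v` -/
def bel (r : U → U → Prop) (N : Finset U) (v : U) : ℕ := (N.filter fun b => r b v).card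

/-- the first face -/
def f1 (r : U → U → Prop) (N s : Finset U) : Finset U := s.filter fun v => v ∈ N ∨ Even (bel r N v)

/-- the second face -/
def f2 (r : U → U → Prop) (N s : Finset U) : Finset U := s.filter fun v => v ∈ N ∨ ¬ Even (bel r N v)

theorem f1_subset (r : U → U → Prop) (N s : Finset U) : f1 r N s ⊆ s := filter_subset _ _

theorem f2_subset (r : U → U → Prop) (N s : Finset U) : f2 r N s ⊆ s := filter_subset _ _

/-- the cup product of order `m - 1` -/
def cupL (r : U → U → Prop) (m : ℕ) (x y : Finset U → V) (s : Finset U) : V ⊗[ZMod 2] V :=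
  ∑ N ∈ s.powersetCard m, x (f1 r N s) ⊗ₜ[ZMod 2] y (f2 r N s)

open Classical in
/-- the height in a simplex -/
def rk (r : U → U → Prop) (s : Finset U) (v : U) : ℕ := (s.filter fun b => r b v).card

theorem rk_lt {r : U → U → Prop} {s : Finset U} (hs : TotOn r s) {u v : U} (hu : u ∈ s) (hv : v ∈ s) : rk r s u < rk r s v ↔ r u v := by
  classical
  obtain ⟨h1, h2, h3⟩ := hs
  have key : ∀ u ∈ s, ∀ v ∈ s, r u v → rk r s u < rk r s v := by
    intro u hu v hv huv
    refine card_lt_card ?_
    rw [ssubset_iff_of_subset]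
    · exact ⟨u, mem_filter.2 ⟨hu, huv⟩, fun h4 => h1 u hu (mem_filter.1 h4).2⟩
    · intro b hb
      rw [mem_filter] at hb ⊢
      exact ⟨hb.1, h2 b hb.1 u hu v hv hb.2 huv⟩
  constructor
  · intro h4
    by_contra h5
    by_cases h6 : u = v
    · rw [h6] at h4
      exact lt_irrefl _ h4
    · rcases h3 u hu v hv h6 with h7 | h7
      · exact h5 h7
      · exact absurd (key v hv u hu h7) (by omega)
  · exact key u hu v hv

theorem rk_inj {r : U → U → Prop} {s : Finset U} (hs : TotOn r s) : Set.InjOn (rk r s) (s : Set U) := by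
  intro u hu v hv huv
  by_contra h
  rcases hs.2.2 u hu v hv h with h1 | h1
  · have := (rk_lt hs hu hv).2 h1
    omega
  · have := (rk_lt hs hv hu).2 h1
    omega

theorem bel_eq {r : U → U → Prop} {s N : Finset U} (hs : TotOn r s) (hN : N ⊆ s) {v : U} (hv : v ∈ s) :
    bel r N v = below (rk r s) N v := by
  classical
  unfold bel below
  congr 1
  exact filter_congr fun b hb => (rk_lt hs (hN hb) hv).symm

theorem f1_eq {r : U → U → Prop} {s N t : Finset U} (hs : TotOn r s) (hN : N ⊆ s) (hts : t ⊆ s) :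
    f1 r N t = face1 (rk r s) N t := by
  unfold f1 face1
  exact filter_congr fun v hv => by rw [bel_eq hs hN (hts hv)]

theorem f2_eq {r : U → U → Prop} {s N t : Finset U} (hs : TotOn r s) (hN : N ⊆ s) (hts : t ⊆ s) :
    f2 r N t = face2 (rk r s) N t := by
  unfold f2 face2
  exact filter_congr fun v hv => by rw [bel_eq hs hN (hts hv)]

theorem cupL_eq {r : U → U → Prop} {s t : Finset U} (hs : TotOn r s) (hts : t ⊆ s) (m : ℕ) (x y : Finset U → V) :
    cupL r m x y t = cupV (rk r s) m x y t := by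
  unfold cupL cupV
  refine sum_congr rfl fun N hN => ?_
  have h1 := (mem_powersetCard.1 hN).1.trans hts
  rw [f1_eq hs h1 hts, f2_eq hs h1 hts]

/-- **The coboundary of the cup products.** -/
theorem cob_cupL {r : U → U → Prop} (m : ℕ) (x y : Finset U → V) {s : Finset U} (hs : TotOn r s) :
    cobW (cupL r (m + 1) x y) s = cupL r (m + 1) (cobW x) y s + cupL r (m + 1) x (cobW y) s +
      (cupL r m x y s + sw (cupL r m y x s)) := by
  have h1 : cobW (cupL r (m + 1) x y) s = cobW (cupV (rk r s) (m + 1) x y) s := by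
    unfold cobW
    exact sum_congr rfl fun v _ => cupL_eq hs (erase_subset _ _) _ _ _
  rw [h1, cob_cupV _ _ _ _ _ (rk_inj hs), cupL_eq hs subset_rfl, cupL_eq hs subset_rfl, cupL_eq hs subset_rfl,
    cupL_eq hs subset_rfl]

theorem cupL_zero (r : U → U → Prop) (x y : Finset U → V) (s : Finset U) (h : y ∅ = 0) : cupL r 0 x y s = 0 := by
  unfold cupL
  rw [powersetCard_zero, sum_singleton]
  have h1 : f2 r ∅ s = ∅ := by
    unfold f2 bel
    rw [filter_eq_empty_iff]
    intro v _
    simp
  rw [h1, h, TensorProduct.tmul_zero]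

/-- a simplex with `m` vertices -/
theorem cupL_self (r : U → U → Prop) (x y : Finset U → V) (s : Finset U) :
    cupL r s.card x y s = x s ⊗ₜ[ZMod 2] y s := by
  unfold cupL
  rw [powersetCard_self, sum_singleton]
  have h1 : f1 r s s = s := by
    unfold f1
    exact filter_true_of_mem fun v hv => Or.inl hv
  have h2 : f2 r s s = s := by
    unfold f2
    exact filter_true_of_mem fun v hv => Or.inl hv
  rw [h1, h2]

/-- the sum of the numbers of vertices of the two faces -/
theorem card_faces (r : U → U → Prop) {N s : Finset U} (hN : N ⊆ s) :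
    (f1 r N s).card + (f2 r N s).card = s.card + N.card := by
  have h1 : f1 r N s ∪ f2 r N s = s := by
    ext v
    unfold f1 f2
    rw [mem_union, mem_filter, mem_filter]
    tauto
  have h2 : f1 r N s ∩ f2 r N s = N := by
    ext v
    unfold f1 f2
    rw [mem_inter, mem_filter, mem_filter]
    constructor
    · rintro ⟨⟨-, h1 | h1⟩, -, h2 | h2⟩
      · exact h1
      · exact h1
      · exact h2
      · exact absurd h1 h2
    · exact fun h => ⟨⟨hN h, Or.inl h⟩, hN h, Or.inl h⟩
  rw [← card_union_add_card_inter, h1, h2]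

theorem bel_smul {r : U → U → Prop} (hr : ∀ (g : Γ) (u v : U), r (g • u) (g • v) ↔ r u v) (g : Γ) (N : Finset U) (v : U) :
    bel r (g • N) (g • v) = bel r N v := by
  classical
  unfold bel
  have h1 : (g • N).filter (fun b => r b (g • v)) = (N.filter fun b => r b v).image (g • ·) := by
    ext u
    rw [mem_filter, mem_image]
    constructor
    · rintro ⟨h1, h2⟩
      obtain ⟨w, hw, rfl⟩ := mem_smul_finset.1 h1
      rw [hr] at h2
      exact ⟨w, mem_filter.2 ⟨hw, h2⟩, rfl⟩
    · rintro ⟨w, hw, rfl⟩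
      rw [mem_filter] at hw
      exact ⟨smul_mem_smul_finset hw.1, (hr g w v).2 hw.2⟩
  rw [h1]
  exact card_image_of_injective _ fun a b hab => smul_left_cancel g hab

theorem f1_smul {r : U → U → Prop} (hr : ∀ (g : Γ) (u v : U), r (g • u) (g • v) ↔ r u v) (g : Γ) (N s : Finset U) :
    f1 r (g • N) (g • s) = g • f1 r N s := by
  ext u
  unfold f1
  rw [mem_filter, ← inv_smul_mem_iff (a := g) (s := s.filter _), mem_filter]
  have h1 : bel r (g • N) u = bel r N (g⁻¹ • u) := by
    conv_lhs => rw [← smul_inv_smul g u]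
    exact bel_smul hr g N _
  rw [h1, ← inv_smul_mem_iff, ← inv_smul_mem_iff]

theorem f2_smul {r : U → U → Prop} (hr : ∀ (g : Γ) (u v : U), r (g • u) (g • v) ↔ r u v) (g : Γ) (N s : Finset U) :
    f2 r (g • N) (g • s) = g • f2 r N s := by
  ext u
  unfold f2
  rw [mem_filter, ← inv_smul_mem_iff (a := g) (s := s.filter _), mem_filter]
  have h1 : bel r (g • N) u = bel r N (g⁻¹ • u) := by
    conv_lhs => rw [← smul_inv_smul g u]
    exact bel_smul hr g N _
  rw [h1, ← inv_smul_mem_iff, ← inv_smul_mem_iff]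

theorem cupL_smul {r : U → U → Prop} (hr : ∀ (g : Γ) (u v : U), r (g • u) (g • v) ↔ r u v) (m : ℕ) {x y : Finset U → V}
    (hx : ∀ (g : Γ) s, x (g • s) = ρ g (x s)) (hy : ∀ (g : Γ) s, y (g • s) = ρ g (y s)) (g : Γ) (s : Finset U) :
    cupL r m x y (g • s) = tp ρ g (cupL r m x y s) := by
  unfold cupL
  have h1 : (g • s).powersetCard m = (s.powersetCard m).image (g • ·) := by
    ext N
    rw [mem_powersetCard, mem_image]
    constructor
    · rintro ⟨h1, h2⟩
      refine ⟨g⁻¹ • N, mem_powersetCard.2 ⟨?_, ?_⟩, smul_inv_smul g N⟩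
      · rw [← smul_finset_subset_smul_finset_iff (a := g), smul_inv_smul]
        exact h1
      · rw [card_smul_finset]
        exact h2
    · rintro ⟨N', h1, rfl⟩
      rw [mem_powersetCard] at h1
      exact ⟨smul_finset_subset_smul_finset h1.1, by rw [card_smul_finset]; exact h1.2⟩
  rw [h1, sum_image (fun a _ b _ hab => smul_left_cancel g hab), map_sum]
  refine sum_congr rfl fun N _ => ?_
  rw [f1_smul hr, f2_smul hr, hx, hy, tp_tmul]

open Classical in
/-- the relative cup product -/
def cupR (K B : Set (Finset U)) (r : U → U → Prop) (m : ℕ) (a : Finset U → V) (s : Finset U) : V ⊗[ZMod 2] V :=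
  if s ∈ K ∧ s ∉ B then cupL r m a a s else 0

theorem cupR_eq {m : ℕ} {a : Finset U → V} {s : Finset U} (h : s ∈ K) (h' : s ∉ B) : cupR K B r m a s = cupL r m a a s := if_pos ⟨h, h'⟩

variable (h : SPair Γ K B r)

include h

theorem EqC.cupR {q : ℕ} {a : Finset U → V} (ha : EqC K B ρ q a) {m l : ℕ} (hl : l + m = 2 * q) :
    EqC K B (tp ρ) l (cupR K B r m a) where
  supp := by
    intro s hs
    unfold Pool.Agent.S11.cupR at hs
    split_ifs at hs with h1
    · obtain ⟨N, hN, hN'⟩ := exists_ne_zero_of_sum_ne_zero hs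
      rw [mem_powersetCard] at hN
      have h2 : a (f1 r N s) ≠ 0 := fun h0 => hN' (by rw [h0, TensorProduct.zero_tmul])
      have h3 : a (f2 r N s) ≠ 0 := fun h0 => hN' (by rw [h0, TensorProduct.tmul_zero])
      have h4 := card_faces r hN.1
      rw [(ha.supp _ h2).2.2, (ha.supp _ h3).2.2, hN.2] at h4
      exact ⟨h1.1, h1.2, by omega⟩
    · exact absurd rfl hs
  eqv := by
    intro g s
    by_cases h1 : s ∈ K ∧ s ∉ B
    · rw [cupR_eq h1.1 h1.2, cupR_eq ((mem_iff_smul h.toSCx g s).2 h1.1) (fun h2 => h1.2 ((memB_iff_smul h.toSCx g s).1 h2)),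
        cupL_smul h.r_smul m ha.eqv ha.eqv]
    · have h2 : ¬ (g • s ∈ K ∧ g • s ∉ B) := by
        rwa [mem_iff_smul h.toSCx, memB_iff_smul h.toSCx]
      unfold Pool.Agent.S11.cupR
      rw [if_neg h1, if_neg h2, map_zero]
  fin := by
    classical
    obtain ⟨F, hF⟩ := ha.fin
    refine ⟨(F.filter (· ∈ K)).attach.biUnion fun t => (h.locfin t.1 (mem_filter.1 t.2).2).toFinset, fun s hs => ?_⟩
    unfold Pool.Agent.S11.cupR at hs
    split_ifs at hs with h1
    · obtain ⟨N, hN, hN'⟩ := exists_ne_zero_of_sum_ne_zero hs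
      have h3 : a (f1 r N s) ≠ 0 := fun h0 => hN' (by rw [h0, TensorProduct.zero_tmul])
      obtain ⟨g, hg⟩ := hF _ h3
      have h2 : g • f1 r N s ∈ K := h.K_mem g _ (ha.supp _ h3).1
      refine ⟨g, mem_biUnion.2 ⟨⟨g • f1 r N s, mem_filter.2 ⟨hg, h2⟩⟩, mem_attach _ _, ?_⟩⟩
      rw [Set.Finite.mem_toFinset]
      exact ⟨h.K_mem g s h1.1, smul_finset_subset_smul_finset (f1_subset _ _ _)⟩
    · exact absurd rfl hs

/-- the coboundary of a cocycle vanishes on all faces of a simplex -/
theorem cobW_eq_zero {q : ℕ} {a : Finset U → V} (ha : EqC K B ρ q a) (hz : IsCb K B a 0) {s t : Finset U} (hs : s ∈ K) (hts : t ⊆ s) :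
    cobW a t = 0 := by
  rcases t.eq_empty_or_nonempty with rfl | h0
  · rfl
  · have h1 := h.down s hs t hts h0
    by_cases h2 : t ∈ B
    · exact sum_of_mem_B h.toSCx ha h2
    · exact hz t h1 h2

/-- the coboundary of the relative cup product of order `m` of a cocycle -/
theorem isCb_cupR {q : ℕ} {a : Finset U → V} (ha : EqC K B ρ q a) (hz : IsCb K B a 0) (m : ℕ) :
    IsCb K B (Pool.Agent.S11.cupR K B r (m + 1) a) (Pool.Agent.S11.cupR K B r m a + fun s => sw (Pool.Agent.S11.cupR K B r m a s)) := by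
  intro t ht1 ht2
  have h1 : ∀ v ∈ t, Pool.Agent.S11.cupR K B r (m + 1) a (t.erase v) = cupL r (m + 1) a a (t.erase v) := by
    intro v hv
    rcases (t.erase v).eq_empty_or_nonempty with h0 | h0
    · rw [h0]
      unfold Pool.Agent.S11.cupR
      rw [if_neg fun h3 => absurd (h.ne _ h3.1) (by simp)]
      symm
      unfold cupL
      refine sum_eq_zero fun N _ => ?_
      have h4 : f1 r N ∅ = ∅ := rfl
      rw [h4, ha.empty h.ne, TensorProduct.zero_tmul]
    · have h2 := h.down t ht1 _ (erase_subset v t) h0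
      by_cases h3 : t.erase v ∈ B
      · unfold Pool.Agent.S11.cupR
        rw [if_neg fun h4 => h4.2 h3]
        symm
        unfold cupL
        refine sum_eq_zero fun N _ => ?_
        have h5 : a (f1 r N (t.erase v)) = 0 := by
          by_contra h6
          obtain ⟨h7, h8, -⟩ := ha.supp _ h6
          exact h8 (h.bd_down _ h3 _ (f1_subset _ _ _) (h.ne _ h7))
        rw [h5, TensorProduct.zero_tmul]
      · exact cupR_eq h2 h3
  rw [sum_congr rfl h1]
  have h2 := cob_cupL m a a (h.r_tot t ht1)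
  unfold cobW at h2
  rw [h2]
  have h3 : cupL r (m + 1) (fun s => ∑ v ∈ s, a (s.erase v)) a t = 0 := by
    unfold cupL
    refine sum_eq_zero fun N _ => ?_
    have h4 : cobW a (f1 r N t) = 0 := cobW_eq_zero h ha hz ht1 (f1_subset _ _ _)
    show cobW a (f1 r N t) ⊗ₜ[ZMod 2] _ = 0
    rw [h4, TensorProduct.zero_tmul]
  have h4 : cupL r (m + 1) a (fun s => ∑ v ∈ s, a (s.erase v)) t = 0 := by
    unfold cupL
    refine sum_eq_zero fun N _ => ?_
    have h4 : cobW a (f2 r N t) = 0 := cobW_eq_zero h ha hz ht1 (f2_subset _ _ _)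
    show _ ⊗ₜ[ZMod 2] cobW a (f2 r N t) = 0
    rw [h4, TensorProduct.tmul_zero]
  rw [h3, h4, add_zero, zero_add, Pi.add_apply, cupR_eq ht1 ht2]

end Pool.Agent.S11
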