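import Pool.Agent.H37.TM.MDefs

/-!
# Project S11, square lemma: equivariant cochains with finite support modulo the group

`K` a simplicial complex (nonempty finite sets), `B` a subcomplex, `Γ` a group which acts on the vertices, `ρ` a
representation of `Γ` over the field of two elements.
-/

set_option autoImplicit false
set_option linter.unusedSectionVars false

open Finset Pointwise

namespace Pool.Agent.S11

variable {Γ U : Type} [Group Γ] [DecidableEq U] [MulAction Γ U] {W : Type} [AddCommGroup W] [Module (ZMod 2) W]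

/-- equivariant cochains of `K` relative to `B` on the simplices with `q` vertices with values in `ρ`, with finite
support modulo `Γ` -/
structure EqC (K B : Set (Finset U)) (ρ : Γ →* Module.End (ZMod 2) W) (q : ℕ) (c : Finset U → W) : Prop where
  supp : ∀ s, c s ≠ 0 → s ∈ K ∧ s ∉ B ∧ s.card = q
  eqv : ∀ (g : Γ) (s : Finset U), c (g • s) = ρ g (c s)
  fin : ∃ F : Finset (Finset U), ∀ s, c s ≠ 0 → ∃ g : Γ, g • s ∈ F

/-- `f` is the coboundary of `c` -/
def IsCb (K B : Set (Finset U)) (c f : Finset U → W) : Prop :=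
  ∀ t ∈ K, t ∉ B → ∑ v ∈ t, c (t.erase v) = f t

/-- the cohomology of degree `q` of the complex of cochains with values in `ρ` vanishes -/
def ExactAt (K B : Set (Finset U)) (ρ : Γ →* Module.End (ZMod 2) W) (q : ℕ) : Prop :=
  ∀ c : Finset U → W, EqC K B ρ (q + 1) c → IsCb K B c 0 → ∃ b, EqC K B ρ q b ∧ IsCb K B b c

/-- the relation `r` is a strict total order on `s` -/
def TotOn (r : U → U → Prop) (s : Finset U) : Prop :=
  (∀ u ∈ s, ¬ r u u) ∧ (∀ u ∈ s, ∀ v ∈ s, ∀ w ∈ s, r u v → r v w → r u w) ∧ ∀ u ∈ s, ∀ v ∈ s, u ≠ v → r u v ∨ r v u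

/-- simplicial pairs with a free simplicial action; the complex is locally finite, of any dimension, the action need
not be cocompact -/
structure SCx (Γ : Type) [Group Γ] [MulAction Γ U] (K B : Set (Finset U)) : Prop where
  ne : ∀ s ∈ K, s.Nonempty
  down : ∀ s ∈ K, ∀ t, t ⊆ s → t.Nonempty → t ∈ K
  bd_sub : B ⊆ K
  bd_down : ∀ s ∈ B, ∀ t, t ⊆ s → t.Nonempty → t ∈ B
  locfin : ∀ s ∈ K, {t | t ∈ K ∧ s ⊆ t}.Finite
  K_mem : ∀ (g : Γ) (s : Finset U), s ∈ K → g • s ∈ K
  B_mem : ∀ (g : Γ) (s : Finset U), s ∈ B → g • s ∈ B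
  free : ∀ (g : Γ) (s : Finset U), s ∈ K → g • s = s → g = 1

/-- simplicial pairs with a free simplicial action and an invariant relation which is a strict total order on every
simplex -/
structure SPair (Γ : Type) [Group Γ] [MulAction Γ U] (K B : Set (Finset U)) (r : U → U → Prop) : Prop
    extends SCx Γ K B where
  r_smul : ∀ (g : Γ) (u v : U), r (g • u) (g • v) ↔ r u v
  r_tot : ∀ s ∈ K, TotOn r s

end Pool.Agent.S11
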