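import Pool.Agent.S11.MNInv
import Pool.Agent.S11.Defs

/-!
# Project S11, block STAR: the anti-involution of the group algebra, the Ore condition

`stA` = the anti-involution `g ↦ g⁻¹` of the group algebra over the field of two elements.  `ore_of_box`: a group with
boxes has common non-zero left multiples in the group algebra.

PROOF of `ore_of_box`.  `S` = the union of the supports of `a, a'`, `ε = 1 / (2 (|S| + 1))`, `W₀ = ⊤`, `Ω` the box; the linear
map `(c, c') ↦ c a - c' a'` from the pairs of functions with support in `Ω` to the functions with support in `Ω ∪ Ω S`, which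
has at most `|Ω| (1 + |S| ε) < 2 |Ω|` elements, has a non-zero element in its kernel; there are no zero divisors.
-/

set_option autoImplicit false
set_option linter.unusedSectionVars false

namespace Pool.Agent.S11

section

variable {Γ : Type} [Group Γ]

/-- the anti-involution -/
noncomputable def stA (a : MonoidAlgebra (ZMod 2) Γ) : MonoidAlgebra (ZMod 2) Γ :=
  MonoidAlgebra.ofCoeff (a.coeff.mapDomain fun x => x⁻¹)

theorem stA_single (x : Γ) (r : ZMod 2) :
    stA (MonoidAlgebra.single x r) = MonoidAlgebra.single x⁻¹ r := by
  show MonoidAlgebra.ofCoeff ((Finsupp.single x r).mapDomain fun x => x⁻¹) = _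
  rw [Finsupp.mapDomain_single]
  rfl

theorem stA_zero : stA (0 : MonoidAlgebra (ZMod 2) Γ) = 0 := by
  simp [stA]

theorem stA_add (a b : MonoidAlgebra (ZMod 2) Γ) : stA (a + b) = stA a + stA b := by
  simp [stA, Finsupp.mapDomain_add]

theorem stA_one : stA (1 : MonoidAlgebra (ZMod 2) Γ) = 1 := by
  rw [MonoidAlgebra.one_def, stA_single, inv_one]

theorem stA_stA (a : MonoidAlgebra (ZMod 2) Γ) : stA (stA a) = a := by
  induction a using MonoidAlgebra.induction_linear with
  | zero => simp [stA_zero]
  | add f g hf hg => rw [stA_add, stA_add, hf, hg]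
  | single x r => rw [stA_single, stA_single, inv_inv]

theorem stA_mul (a b : MonoidAlgebra (ZMod 2) Γ) : stA (a * b) = stA b * stA a := by
  induction a using MonoidAlgebra.induction_linear with
  | zero => simp [stA_zero]
  | add f g hf hg => rw [add_mul, stA_add, hf, hg, stA_add, mul_add]
  | single x r =>
    induction b using MonoidAlgebra.induction_linear with
    | zero => simp [stA_zero]
    | add f g hf hg => rw [mul_add, stA_add, hf, hg, stA_add, add_mul]
    | single y s =>
      rw [MonoidAlgebra.single_mul_single, stA_single, stA_single, stA_single,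
        MonoidAlgebra.single_mul_single, mul_inv_rev, mul_comm r s]

theorem stA_ne_zero {a : MonoidAlgebra (ZMod 2) Γ} (h : a ≠ 0) : stA a ≠ 0 := by
  intro h0
  apply h
  rw [← stA_stA a, h0, stA_zero]

theorem stA_map {Γ' : Type} [Group Γ'] (f : Γ →* Γ') (a : MonoidAlgebra (ZMod 2) Γ) :
    MonoidAlgebra.mapDomainRingHom (ZMod 2) f (stA a) =
      stA (MonoidAlgebra.mapDomainRingHom (ZMod 2) f a) := by
  induction a using MonoidAlgebra.induction_linear with
  | zero => simp [stA_zero]
  | add f' g hf hg => rw [stA_add, map_add, hf, hg, map_add, stA_add]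
  | single x r =>
    rw [stA_single, MonoidAlgebra.mapDomainRingHom_apply, MonoidAlgebra.mapDomainRingHom_apply,
      MonoidAlgebra.mapDomain_single, MonoidAlgebra.mapDomain_single, stA_single, map_inv]

/-- no zero divisors -/
theorem mul_ne_zero_alg [BO Γ] {a b : MonoidAlgebra (ZMod 2) Γ} (ha : a ≠ 0) (hb : b ≠ 0) : a * b ≠ 0 := by
  intro h
  have h1 : MN.of a * MN.of b = 0 := by rw [← map_mul, h, map_zero]
  rcases mul_eq_zero.1 h1 with h2 | h2
  · exact ha (MN.of_injective (by rw [h2, map_zero]))
  · exact hb (MN.of_injective (by rw [h2, map_zero]))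

end

end Pool.Agent.S11
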