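import Mathlib

/-!
# Project S11, block STAR: the relation `St` (abstract form)

`R` a ring with an anti-involution `s`, without zero divisors, with the left Ore condition, `φ : R → V` injective into a
division ring.  `St φ s v w`: there are `a ≠ 0, b` in `R` with `a v = b` and `w s(a) = s(b)`: this is the graph of the
extension of `s` to the division ring of fractions.
-/

set_option autoImplicit false
set_option linter.unusedSectionVars false

namespace Pool.Agent.S11

/-- the data: a ring with an anti-involution and the Ore condition in a division ring -/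
structure StData {R V : Type} [Ring R] [DivisionRing V] (φ : R →+* V) (s : R → R) : Prop where
  inj : Function.Injective φ
  add : ∀ a b : R, s (a + b) = s a + s b
  mul : ∀ a b : R, s (a * b) = s b * s a
  one : s 1 = 1
  inv : ∀ a : R, s (s a) = a
  ore : ∀ a a' : R, a ≠ 0 → a' ≠ 0 → ∃ c c' : R, c * a = c' * a' ∧ c * a ≠ 0

/-- the graph of the anti-automorphism -/
def St {R V : Type} [Ring R] [DivisionRing V] (φ : R →+* V) (s : R → R) (v w : V) : Prop :=
  ∃ a b : R, a ≠ 0 ∧ φ a * v = φ b ∧ w * φ (s a) = φ (s b)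

namespace StData

variable {R V : Type} [Ring R] [DivisionRing V] {φ : R →+* V} {s : R → R}

theorem s_zero (h : StData φ s) : s 0 = 0 := by
  have h1 : s (0 + 0) = s 0 + s 0 := h.add 0 0
  rw [add_zero] at h1
  exact (left_eq_add.1 h1)

theorem s_neg (h : StData φ s) (a : R) : s (-a) = -s a := by
  have h1 : s (a + -a) = s a + s (-a) := h.add a (-a)
  rw [add_neg_cancel, h.s_zero] at h1
  exact (neg_eq_of_add_eq_zero_right h1.symm).symm

theorem s_ne (h : StData φ s) {a : R} (ha : a ≠ 0) : s a ≠ 0 := fun h0 => ha (by rw [← h.inv a, h0, h.s_zero])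

theorem φ_ne (h : StData φ s) {a : R} (ha : a ≠ 0) : φ a ≠ 0 := fun h0 => ha (h.inj (by rw [h0, map_zero]))

theorem mul_ne (h : StData φ s) {a b : R} (ha : a ≠ 0) (hb : b ≠ 0) : a * b ≠ 0 := fun h0 => by
  have h1 : φ a * φ b = 0 := by rw [← map_mul, h0, map_zero]
  rcases mul_eq_zero.1 h1 with h2 | h2
  · exact h.φ_ne ha h2
  · exact h.φ_ne hb h2

/-- a common denominator, the second element may be zero -/
theorem ore' (h : StData φ s) (b a : R) (ha : a ≠ 0) : ∃ c c', c ≠ 0 ∧ c * b = c' * a := by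
  by_cases hb : b = 0
  · refine ⟨1, 0, ?_, ?_⟩
    · intro h0
      apply ha
      rw [← one_mul a, h0, zero_mul]
    · rw [hb, mul_zero, zero_mul]
  · obtain ⟨c, c', h1, h2⟩ := h.ore b a hb ha
    refine ⟨c, c', ?_, h1⟩
    rintro rfl
    exact h2 (zero_mul b)

theorem st_of (h : StData φ s) (a : R) : St φ s (φ a) (φ (s a)) := by
  refine ⟨1, a, ?_, ?_, ?_⟩
  · intro h0
    have h1 : φ 1 = φ 0 := by rw [h0]
    rw [map_one, map_zero] at h1
    exact one_ne_zero h1
  · rw [map_one, one_mul]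
  · rw [h.one, map_one, mul_one]

theorem st_zero (h : StData φ s) : St φ s 0 0 := by
  have := h.st_of 0
  rwa [h.s_zero, map_zero] at this

theorem st_one (h : StData φ s) : St φ s 1 1 := by
  have := h.st_of 1
  rwa [h.one, map_one] at this

theorem st_zero_left (h : StData φ s) {w : V} (hw : St φ s 0 w) : w = 0 := by
  obtain ⟨a, b, ha, h1, h2⟩ := hw
  rw [mul_zero] at h1
  have hb : b = 0 := h.inj (by rw [← h1, map_zero])
  rw [hb, h.s_zero, map_zero] at h2
  rcases mul_eq_zero.1 h2 with h3 | h3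
  · exact h3
  · exact absurd h3 (h.φ_ne (h.s_ne ha))

theorem st_neg (h : StData φ s) {v w : V} (hv : St φ s v w) : St φ s (-v) (-w) := by
  obtain ⟨a, b, ha, h1, h2⟩ := hv
  refine ⟨a, -b, ha, ?_, ?_⟩
  · rw [mul_neg, h1, map_neg]
  · rw [neg_mul, h2, h.s_neg, map_neg]

theorem st_add (h : StData φ s) {v w v' w' : V} (hv : St φ s v w) (hv' : St φ s v' w') :
    St φ s (v + v') (w + w') := by
  obtain ⟨a, b, ha, h1, h2⟩ := hv
  obtain ⟨a', b', ha', h1', h2'⟩ := hv'
  obtain ⟨c, c', hc, hc'⟩ := h.ore a a' ha ha'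
  refine ⟨c * a, c * b + c' * b', hc', ?_, ?_⟩
  · rw [mul_add, map_add, map_mul, map_mul, mul_assoc, h1]
    congr 1
    rw [← map_mul, hc, map_mul, map_mul, mul_assoc, h1']
  · rw [add_mul, h.add, h.mul c b, h.mul c' b', map_add, map_mul, map_mul, h.mul, map_mul,
      ← mul_assoc, h2]
    congr 1
    rw [← map_mul, ← h.mul, hc, h.mul, map_mul, ← mul_assoc, h2']

theorem st_mul (h : StData φ s) {v w v' w' : V} (hv : St φ s v w) (hv' : St φ s v' w') :
    St φ s (v * v') (w' * w) := by
  obtain ⟨a, b, ha, h1, h2⟩ := hv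
  obtain ⟨a', b', ha', h1', h2'⟩ := hv'
  obtain ⟨e, f, he, hef⟩ := h.ore' b a' ha'
  refine ⟨e * a, f * b', h.mul_ne he ha, ?_, ?_⟩
  · calc φ (e * a) * (v * v') = φ e * (φ a * v) * v' := by rw [map_mul]; simp only [mul_assoc]
      _ = φ (e * b) * v' := by rw [h1, map_mul]
      _ = φ f * (φ a' * v') := by rw [hef, map_mul, mul_assoc]
      _ = φ (f * b') := by rw [h1', map_mul]
  · calc w' * w * φ (s (e * a)) = w' * ((w * φ (s a)) * φ (s e)) := by
          rw [h.mul, map_mul]; simp only [mul_assoc]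
      _ = w' * φ (s (e * b)) := by rw [h2, h.mul e b, map_mul]
      _ = (w' * φ (s a')) * φ (s f) := by rw [hef, h.mul, map_mul, mul_assoc]
      _ = φ (s (f * b')) := by rw [h2', h.mul f b', map_mul]

theorem st_inv (h : StData φ s) {v w : V} (hv : St φ s v w) (h0 : v ≠ 0) : St φ s v⁻¹ w⁻¹ := by
  obtain ⟨a, b, ha, h1, h2⟩ := hv
  have hb : b ≠ 0 := by
    rintro rfl
    rw [map_zero] at h1
    rcases mul_eq_zero.1 h1 with h3 | h3
    · exact h.φ_ne ha h3
    · exact h0 h3
  have hw : w ≠ 0 := by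
    rintro rfl
    rw [zero_mul] at h2
    exact h.φ_ne (h.s_ne hb) h2.symm
  refine ⟨b, a, hb, ?_, ?_⟩
  · rw [← h1, mul_assoc, mul_inv_cancel₀ h0, mul_one]
  · rw [← h2, ← mul_assoc, inv_mul_cancel₀ hw, one_mul]

theorem st_unique (h : StData φ s) {v w w' : V} (hv : St φ s v w) (hv' : St φ s v w') : w = w' := by
  have h1 := h.st_add hv (h.st_neg hv')
  rw [add_neg_cancel] at h1
  have h2 := h.st_zero_left h1
  rw [← sub_eq_add_neg] at h2
  exact sub_eq_zero.1 h2

theorem st_symm (h : StData φ s) {v w : V} (hv : St φ s v w) : St φ s w v := by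
  obtain ⟨a, b, ha, h1, h2⟩ := hv
  obtain ⟨a', b', ha', hab⟩ := h.ore' (s b) (s a) (h.s_ne ha)
  refine ⟨a', b', ha', ?_, ?_⟩
  · have h3 : φ a' * w * φ (s a) = φ b' * φ (s a) := by
      rw [mul_assoc, h2, ← map_mul, hab, map_mul]
    exact mul_right_cancel₀ (h.φ_ne (h.s_ne ha)) h3
  · have h3 : b * s a' = a * s b' := by
      have := congrArg s hab
      rwa [h.mul, h.mul, h.inv, h.inv] at this
    have h4 : φ a * (v * φ (s a')) = φ a * φ (s b') := by
      rw [← mul_assoc, h1, ← map_mul, h3, map_mul]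
    exact mul_left_cancel₀ (h.φ_ne ha) h4

end StData

end Pool.Agent.S11
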