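import Pool.Agent.S11.StB

/-!
# Project S11, block STAR: the division ring with the anti-automorphism (abstract form)

`V` a division ring with a subfield `VP` and maps `psh j : V → W j` into division rings which are eventually compatible with
the ring operations on `VP`; in `W j` there is a ring `R j` with an anti-involution and the Ore condition.  `DD` = the
elements `v` of `VP` for which there is `w` in `VP` with `St (psh j v) (psh j w)` for all large `j`; `w` is unique, `dst v = w`.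
-/

set_option autoImplicit false
set_option linter.unusedSectionVars false

open Filter

namespace Pool.Agent.S11

/-- the data -/
structure PData {V : Type} [DivisionRing V] (VP : Subfield V) {R W : ℕ → Type} [∀ j, Ring (R j)]
    [∀ j, DivisionRing (W j)] (φ : ∀ j, R j →+* W j) (s : ∀ j, R j → R j) (psh : ∀ j, V → W j) : Prop where
  st : ∀ j, StData (φ j) (s j)
  one : ∀ᶠ j in atTop, psh j 1 = 1
  add : ∀ v ∈ VP, ∀ w ∈ VP, ∀ᶠ j in atTop, psh j (v + w) = psh j v + psh j w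
  mul : ∀ v ∈ VP, ∀ w ∈ VP, ∀ᶠ j in atTop, psh j (v * w) = psh j v * psh j w
  ne : ∀ v ∈ VP, v ≠ 0 → ∀ᶠ j in atTop, psh j v ≠ 0

namespace PData

variable {V : Type} [DivisionRing V] {VP : Subfield V} {R W : ℕ → Type} [∀ j, Ring (R j)]
  [∀ j, DivisionRing (W j)] {φ : ∀ j, R j →+* W j} {s : ∀ j, R j → R j} {psh : ∀ j, V → W j}

theorem zero (h : PData VP φ s psh) : ∀ᶠ j in atTop, psh j 0 = 0 := by
  filter_upwards [h.add 0 VP.zero_mem 0 VP.zero_mem] with j hj
  rw [add_zero] at hj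
  exact left_eq_add.1 hj

theorem neg (h : PData VP φ s psh) {v : V} (hv : v ∈ VP) : ∀ᶠ j in atTop, psh j (-v) = -psh j v := by
  filter_upwards [h.zero, h.add v hv (-v) (VP.neg_mem hv)] with j h0 hj
  rw [add_neg_cancel, h0] at hj
  exact (neg_eq_of_add_eq_zero_right hj.symm).symm

theorem inv (h : PData VP φ s psh) {v : V} (hv : v ∈ VP) : ∀ᶠ j in atTop, psh j v⁻¹ = (psh j v)⁻¹ := by
  by_cases h0 : v = 0
  · filter_upwards [h.zero] with j hj
    rw [h0, inv_zero, hj, inv_zero]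
  · filter_upwards [h.one, h.mul v hv v⁻¹ (VP.inv_mem hv)] with j h1 hj
    rw [mul_inv_cancel₀ h0, h1] at hj
    exact eq_inv_of_mul_eq_one_right hj.symm

theorem eq_of (h : PData VP φ s psh) {v w : V} (hv : v ∈ VP) (hw : w ∈ VP)
    (he : ∀ᶠ j in atTop, psh j v = psh j w) : v = w := by
  by_contra hne
  have h1 : v + -w ≠ 0 := fun h0 => hne (by rwa [← sub_eq_add_neg, sub_eq_zero] at h0)
  have h2 := h.ne _ (VP.add_mem hv (VP.neg_mem hw)) h1
  obtain ⟨j, hj, hj1, hj2, hj3⟩ := ((h2.and ((h.add v hv (-w) (VP.neg_mem hw)).and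
    ((h.neg hw).and he))).exists)
  apply hj
  rw [hj1, hj2, hj3, add_neg_cancel]

/-- `w` is the image of `v` -/
def Rel (φ : ∀ j, R j →+* W j) (s : ∀ j, R j → R j) (psh : ∀ j, V → W j) (v w : V) : Prop :=
  ∀ᶠ j in atTop, St (φ j) (s j) (psh j v) (psh j w)

theorem rel_unique (h : PData VP φ s psh) {v w w' : V} (hw : w ∈ VP) (hw' : w' ∈ VP)
    (h1 : Rel φ s psh v w) (h2 : Rel φ s psh v w') : w = w' :=
  h.eq_of hw hw' (by
    filter_upwards [h1, h2] with j hj hj'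
    exact (h.st j).st_unique hj hj')

theorem rel_add (h : PData VP φ s psh) {v w v' w' : V} (hv : v ∈ VP) (hw : w ∈ VP) (hv' : v' ∈ VP)
    (hw' : w' ∈ VP) (h1 : Rel φ s psh v w) (h2 : Rel φ s psh v' w') : Rel φ s psh (v + v') (w + w') := by
  filter_upwards [h1, h2, h.add v hv v' hv', h.add w hw w' hw'] with j a1 a2 a3 a4
  rw [a3, a4]
  exact (h.st j).st_add a1 a2

theorem rel_mul (h : PData VP φ s psh) {v w v' w' : V} (hv : v ∈ VP) (hw : w ∈ VP) (hv' : v' ∈ VP)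
    (hw' : w' ∈ VP) (h1 : Rel φ s psh v w) (h2 : Rel φ s psh v' w') : Rel φ s psh (v * v') (w' * w) := by
  filter_upwards [h1, h2, h.mul v hv v' hv', h.mul w' hw' w hw] with j a1 a2 a3 a4
  rw [a3, a4]
  exact (h.st j).st_mul a1 a2

theorem rel_neg (h : PData VP φ s psh) {v w : V} (hv : v ∈ VP) (hw : w ∈ VP)
    (h1 : Rel φ s psh v w) : Rel φ s psh (-v) (-w) := by
  filter_upwards [h1, h.neg hv, h.neg hw] with j a1 a2 a3
  rw [a2, a3]
  exact (h.st j).st_neg a1

theorem rel_zero (h : PData VP φ s psh) : Rel φ s psh 0 0 := by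
  filter_upwards [h.zero] with j hj
  rw [hj]
  exact (h.st j).st_zero

theorem rel_one (h : PData VP φ s psh) : Rel φ s psh 1 1 := by
  filter_upwards [h.one] with j hj
  rw [hj]
  exact (h.st j).st_one

theorem rel_inv (h : PData VP φ s psh) {v w : V} (hv : v ∈ VP) (hw : w ∈ VP)
    (h1 : Rel φ s psh v w) : Rel φ s psh v⁻¹ w⁻¹ := by
  by_cases h0 : v = 0
  · have hw0 : w = 0 := by
      rw [h0] at h1
      exact h.rel_unique hw VP.zero_mem h1 h.rel_zero
    rw [h0, hw0, inv_zero]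
    exact h.rel_zero
  · filter_upwards [h1, h.inv hv, h.inv hw, h.ne v hv h0] with j a1 a2 a3 a4
    rw [a2, a3]
    exact (h.st j).st_inv a1 a4

theorem rel_symm (h : PData VP φ s psh) {v w : V} (h1 : Rel φ s psh v w) : Rel φ s psh w v := by
  filter_upwards [h1] with j a1
  exact (h.st j).st_symm a1

/-- the division ring -/
def DD (h : PData VP φ s psh) : Subfield V where
  carrier := {v | v ∈ VP ∧ ∃ w ∈ VP, Rel φ s psh v w}
  mul_mem' := by
    rintro a b ⟨ha, a', ha', h1⟩ ⟨hb, b', hb', h2⟩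
    exact ⟨VP.mul_mem ha hb, b' * a', VP.mul_mem hb' ha', h.rel_mul ha ha' hb hb' h1 h2⟩
  one_mem' := ⟨VP.one_mem, 1, VP.one_mem, h.rel_one⟩
  add_mem' := by
    rintro a b ⟨ha, a', ha', h1⟩ ⟨hb, b', hb', h2⟩
    exact ⟨VP.add_mem ha hb, a' + b', VP.add_mem ha' hb', h.rel_add ha ha' hb hb' h1 h2⟩
  zero_mem' := ⟨VP.zero_mem, 0, VP.zero_mem, h.rel_zero⟩
  neg_mem' := by
    rintro a ⟨ha, a', ha', h1⟩
    exact ⟨VP.neg_mem ha, -a', VP.neg_mem ha', h.rel_neg ha ha' h1⟩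
  inv_mem' := by
    rintro a ⟨ha, a', ha', h1⟩
    exact ⟨VP.inv_mem ha, a'⁻¹, VP.inv_mem ha', h.rel_inv ha ha' h1⟩

theorem mem_DD (h : PData VP φ s psh) {v : V} : v ∈ h.DD ↔ v ∈ VP ∧ ∃ w ∈ VP, Rel φ s psh v w := Iff.rfl

theorem DD_le (h : PData VP φ s psh) : h.DD ≤ VP := fun _ hv => hv.1

/-- the anti-automorphism -/
noncomputable def dst (h : PData VP φ s psh) (v : h.DD) : h.DD :=
  ⟨v.2.2.choose, v.2.2.choose_spec.1, v.1, v.2.1, h.rel_symm v.2.2.choose_spec.2⟩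

theorem dst_rel (h : PData VP φ s psh) (v : h.DD) : Rel φ s psh v.1 (h.dst v).1 := v.2.2.choose_spec.2

theorem dst_eq (h : PData VP φ s psh) (v : h.DD) {w : V} (hw : w ∈ VP) (h1 : Rel φ s psh v.1 w) :
    (h.dst v : V) = w := h.rel_unique (h.dst v).2.1 hw (h.dst_rel v) h1

theorem dst_add (h : PData VP φ s psh) (v w : h.DD) : h.dst (v + w) = h.dst v + h.dst w :=
  Subtype.ext (h.dst_eq (v + w) (VP.add_mem (h.dst v).2.1 (h.dst w).2.1)
    (h.rel_add v.2.1 (h.dst v).2.1 w.2.1 (h.dst w).2.1 (h.dst_rel v) (h.dst_rel w)))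

theorem dst_mul (h : PData VP φ s psh) (v w : h.DD) : h.dst (v * w) = h.dst w * h.dst v :=
  Subtype.ext (h.dst_eq (v * w) (VP.mul_mem (h.dst w).2.1 (h.dst v).2.1)
    (h.rel_mul v.2.1 (h.dst v).2.1 w.2.1 (h.dst w).2.1 (h.dst_rel v) (h.dst_rel w)))

theorem dst_dst (h : PData VP φ s psh) (v : h.DD) : h.dst (h.dst v) = v :=
  Subtype.ext (h.dst_eq (h.dst v) v.2.1 (h.rel_symm (h.dst_rel v)))

theorem dst_one (h : PData VP φ s psh) : h.dst 1 = 1 :=
  Subtype.ext (h.dst_eq 1 VP.one_mem h.rel_one)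

end PData

end Pool.Agent.S11
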