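import Pool.Agent.S11.StD
import Pool.Agent.S11.FL.Star
import Pool.Agent.S11.FL.ToFlat
import Pool.Agent.S11.Pack

/-!
# Project S11, block STAR: `DT ⊗ DT` with the diagonal action is flat

`DT` = the division ring `DS` as a type of its own (with one algebra structure over the field of two elements).
-/

set_option autoImplicit false
set_option linter.unusedSectionVars false

open Filter TensorProduct

namespace Pool.Agent.S11

section

variable {H : Type} [Group H] [BO H] {r : ℕ} {N : ℕ → Subgroup H}

/-- the division ring -/
def DT (hC : Chain H r N) (A : Appr H N) (hB : ∀ j, FBox (A.Γ j r)) : Type := DS hC A hB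

variable (hC : Chain H r N) (A : Appr H N) (hB : ∀ j, FBox (A.Γ j r))

noncomputable instance instDivDT : DivisionRing (DT hC A hB) := (DS hC A hB).toDivisionRing

/-- the inclusion -/
noncomputable def iD : DT hC A hB →+* MN H := (DS hC A hB).subtype

theorem iD_inj : Function.Injective (iD hC A hB) := Subtype.val_injective

theorem iD_mem_VP (d : DT hC A hB) : iD hC A hB d ∈ VP hC A := DS_le hC A hB d.2

theorem charP_DT : CharP (DT hC A hB) 2 := by
  have h2 : (2 : DT hC A hB) = 0 := by
    apply iD_inj hC A hB
    rw [← one_add_one_eq_two, map_add, map_one, MN.add_self, map_zero]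
  exact CharTwo.of_one_ne_zero_of_two_eq_zero one_ne_zero h2

/-- the algebra structure -/
noncomputable instance algDT : Algebra (ZMod 2) (DT hC A hB) :=
  letI := charP_DT hC A hB
  ZMod.algebra _ 2

/-- the homomorphism of the group algebra -/
noncomputable def ιT : MonoidAlgebra (ZMod 2) H →+* DT hC A hB := ιD hC A hB

theorem iD_ιT (a : MonoidAlgebra (ZMod 2) H) : iD hC A hB (ιT hC A hB a) = MN.of a := rfl

/-- **Flatness for the diagonal action** -/
theorem flat_DT : Flat ((lft (ιT hC A hB)).tprod (lft (ιT hC A hB))) :=
  FL.flat_star (R := ρR H) (L := ρL H) (T := lft (ιT hC A hB))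
    (j := fun g => MN.g g) (k := fun g => ιT hC A hB (MonoidAlgebra.single g 1)) (iD hC A hB)
    (fun g => rfl) (fun g v => rfl) (fun g v => rfl) (fun g d => rfl)
    (star hC A hB) (star_add hC A hB) (star_mul hC A hB) (star_star hC A hB) (star_g hC A hB)
    (flat_VV hC)

end

end Pool.Agent.S11
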