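import Pool.Agent.S11.StA

/-!
# Project S11, block STAR: the Ore condition

PROOF of `ore_of_box`.  `S` = the union of the supports of `a, a'`, `ε = 1 / (2 (|S| + 1))`, `Ω` the box; the linear
map `(c, c') ↦ c a - c' a'` from the pairs of functions with support in `Ω` to the functions with support in `Ω ∪ Ω S`, which
has at most `|Ω| (1 + |S| ε) < 2 |Ω|` elements, has a non-zero element in its kernel; there are no zero divisors
(`mul_ne_zero_alg`).  (Or by counting: there are `4 ^ |Ω|` pairs, at most `2 ^ |Ω ∪ Ω S|` values.)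
-/

set_option autoImplicit false
set_option linter.unusedSectionVars false

open Pointwise

namespace Pool.Agent.S11

section

variable {Γ : Type} [Group Γ]

/-- an element of the group algebra with given coefficients on a finite set -/
private noncomputable def cc (Ω : Finset Γ) : (↥Ω → ZMod 2) →ₗ[ZMod 2] MonoidAlgebra (ZMod 2) Γ where
  toFun c := ∑ ω : ↥Ω, MonoidAlgebra.single (ω : Γ) (c ω)
  map_add' c d := by
    rw [← Finset.sum_add_distrib]
    exact Finset.sum_congr rfl fun ω _ => MonoidAlgebra.single_add _ _ _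
  map_smul' k c := by
    rw [Finset.smul_sum]
    refine Finset.sum_congr rfl fun ω _ => ?_
    rw [MonoidAlgebra.smul_single]
    rfl

private theorem cc_coeff_mem (Ω : Finset Γ) (c : ↥Ω → ZMod 2) (ω : ↥Ω) :
    (cc Ω c).coeff (ω : Γ) = c ω := by
  classical
  show (∑ ω : ↥Ω, MonoidAlgebra.single (ω : Γ) (c ω)).coeff (ω : Γ) = c ω
  rw [MonoidAlgebra.coeff_sum, Finsupp.finsetSum_apply, Finset.sum_eq_single ω]
  · rw [MonoidAlgebra.coeff_single, Finsupp.single_eq_same]
  · intro b _ hb
    rw [MonoidAlgebra.coeff_single, Finsupp.single_eq_of_ne]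
    exact fun h => hb (Subtype.ext h.symm)
  · intro h
    exact absurd (Finset.mem_univ _) h

private theorem cc_support (Ω : Finset Γ) (c : ↥Ω → ZMod 2) : (cc Ω c).coeff.support ⊆ Ω := by
  classical
  intro x hx
  by_contra h
  rw [Finsupp.mem_support_iff] at hx
  apply hx
  show (∑ ω : ↥Ω, MonoidAlgebra.single (ω : Γ) (c ω)).coeff x = 0
  rw [MonoidAlgebra.coeff_sum, Finsupp.finsetSum_apply]
  refine Finset.sum_eq_zero fun ω _ => ?_
  rw [MonoidAlgebra.coeff_single, Finsupp.single_eq_of_ne]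
  rintro rfl
  exact h ω.2

private theorem cc_injective (Ω : Finset Γ) {c : ↥Ω → ZMod 2} (h : cc Ω c = 0) : c = 0 := by
  funext ω
  rw [← cc_coeff_mem Ω c ω, h]
  rfl

end

/-- **The Ore condition** -/
theorem ore_of_box {Γ : Type} [Group Γ] [BO Γ] (hB : FBox Γ) (a a' : MonoidAlgebra (ZMod 2) Γ) (ha : a ≠ 0)
    (ha' : a' ≠ 0) : ∃ c c' : MonoidAlgebra (ZMod 2) Γ, c * a = c' * a' ∧ c * a ≠ 0 := by
  classical
  set S : Finset Γ := a.coeff.support ∪ a'.coeff.support with hS
  set ε : ℝ := 1 / (2 * (S.card + 1)) with hε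
  have hεpos : 0 < ε := by positivity
  obtain ⟨W, B, -, Ω, Ω', -, -, -, hΩ, hΩΩ, hF, hcard⟩ := hB S ε hεpos
  have hne : 0 < Ω.card := by
    obtain ⟨x, -⟩ := hΩ.2 1
    exact Finset.card_pos.2 ⟨_, x.2.2⟩
  set T : Finset Γ := Ω ∪ S.biUnion (fun s => (Ω \ Ω').image (fun ω => ω * s)) with hT
  have hsd : ((Ω \ Ω').card : ℝ) ≤ ε * Ω.card := by
    rw [Finset.card_sdiff_of_subset hΩΩ, Nat.cast_sub (Finset.card_le_card hΩΩ)]
    linarith
  have hTcard : (T.card : ℝ) < 2 * Ω.card := by
    have h1 : T.card ≤ Ω.card + ∑ _s ∈ S, (Ω \ Ω').card := by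
      refine (Finset.card_union_le _ _).trans ?_
      refine Nat.add_le_add_left ?_ _
      refine Finset.card_biUnion_le.trans ?_
      exact Finset.sum_le_sum fun s _ => Finset.card_image_le
    have h2 : (T.card : ℝ) ≤ Ω.card + ∑ _s ∈ S, ((Ω \ Ω').card : ℝ) := by
      exact_mod_cast h1
    have h3 : ∑ _s ∈ S, ((Ω \ Ω').card : ℝ) ≤ ∑ _s ∈ S, ε * Ω.card :=
      Finset.sum_le_sum fun s _ => hsd
    rw [Finset.sum_const, Finset.sum_const, nsmul_eq_mul, nsmul_eq_mul] at h3
    rw [Finset.sum_const, nsmul_eq_mul] at h2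
    have h4 : (S.card : ℝ) * (ε * Ω.card) < Ω.card := by
      have h5 : (S.card : ℝ) * ε < 1 := by
        rw [hε, mul_one_div, div_lt_one (by positivity)]
        have : (0 : ℝ) ≤ S.card := by positivity
        linarith
      have h6 : (0 : ℝ) < Ω.card := by exact_mod_cast hne
      calc (S.card : ℝ) * (ε * Ω.card) = (S.card * ε) * Ω.card := by ring
        _ < 1 * Ω.card := by
            exact mul_lt_mul_of_pos_right h5 h6
        _ = Ω.card := one_mul _
    linarith
  have hsub : ∀ (b : MonoidAlgebra (ZMod 2) Γ) (c : ↥Ω → ZMod 2), b.coeff.support ⊆ S →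
      ∀ x, (cc Ω c * b).coeff x ≠ 0 → x ∈ T := by
    intro b c hb x hx
    have h1 : x ∈ (cc Ω c * b).coeff.support := Finsupp.mem_support_iff.2 hx
    have h2 := MonoidAlgebra.support_coeff_mul_subset _ _ h1
    rw [Finset.mem_mul] at h2
    obtain ⟨ω, hω, s, hs, rfl⟩ := h2
    have hω' := cc_support Ω c hω
    have hs' := hb hs
    by_cases h : ω ∈ Ω'
    · exact Finset.mem_union_left _ (hF ω h s hs')
    · refine Finset.mem_union_right _ (Finset.mem_biUnion.2 ⟨s, hs', ?_⟩)
      exact Finset.mem_image.2 ⟨ω, Finset.mem_sdiff.2 ⟨hω', h⟩, rfl⟩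
  let F : ((↥Ω → ZMod 2) × (↥Ω → ZMod 2)) →ₗ[ZMod 2] (↥T → ZMod 2) :=
    { toFun := fun p x => (cc Ω p.1 * a - cc Ω p.2 * a').coeff (x : Γ)
      map_add' := by
        intro p q
        funext x
        simp only [Prod.fst_add, Prod.snd_add, map_add, add_mul, Pi.add_apply]
        rw [add_sub_add_comm]
        simp only [MonoidAlgebra.coeff_add, Finsupp.add_apply]
      map_smul' := by
        intro k p
        funext x
        simp only [Prod.smul_fst, Prod.smul_snd, map_smul, RingHom.id_apply, Pi.smul_apply,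
          smul_mul_assoc, ← smul_sub]
        simp only [MonoidAlgebra.coeff_smul, Finsupp.smul_apply] }
  have hlt : Module.finrank (ZMod 2) (↥T → ZMod 2) <
      Module.finrank (ZMod 2) ((↥Ω → ZMod 2) × (↥Ω → ZMod 2)) := by
    rw [Module.finrank_prod, Module.finrank_fintype_fun_eq_card, Module.finrank_fintype_fun_eq_card,
      Fintype.card_coe, Fintype.card_coe]
    have : (T.card : ℝ) < ((Ω.card + Ω.card : ℕ) : ℝ) := by
      push_cast
      linarith
    exact_mod_cast this
  have hker := LinearMap.ker_ne_bot_of_finrank_lt (f := F) hlt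
  rw [Submodule.ne_bot_iff] at hker
  obtain ⟨⟨c, c'⟩, hmem, hnz⟩ := hker
  have heq : cc Ω c * a = cc Ω c' * a' := by
    rw [← sub_eq_zero]
    ext x
    by_contra hx
    have hxT : x ∈ T := by
      rw [MonoidAlgebra.coeff_sub, Finsupp.sub_apply] at hx
      by_cases h1 : (cc Ω c * a).coeff x = 0
      · refine hsub a' c' Finset.subset_union_right x ?_
        intro h2
        exact hx (by rw [h1, h2, sub_zero]; rfl)
      · exact hsub a c Finset.subset_union_left x h1
    have := congrFun (LinearMap.mem_ker.1 hmem) ⟨x, hxT⟩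
    exact hx this
  refine ⟨cc Ω c, cc Ω c', heq, ?_⟩
  intro h0
  have h1 : cc Ω c = 0 := by
    by_contra h
    exact mul_ne_zero_alg h ha h0
  have h2 : cc Ω c' = 0 := by
    by_contra h
    exact mul_ne_zero_alg h ha' (heq ▸ h0)
  exact hnz (Prod.ext (cc_injective Ω h1) (cc_injective Ω h2))

end Pool.Agent.S11
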