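import Pool.Agent.S11.FL.ToFlat

/-!
# Project S11: the flatness of `V ⊗ V`: see `flat_VV` in `FL/ToFlat.lean`
-/
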