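import Pool.Agent.H72.UJ.Ring

/-!
# Project S11, block U: truncated rings and groups of one-units

`Fc T` = finite factor-closed subsets `P` of a graded monoid; `RP P` = the monoid ring modulo the elements which vanish on
`P`; `UnP P` = its group of one-units, with the coordinates `c g m`, `m ∈ P`.
-/

set_option autoImplicit false

open Finset

namespace Pool.Agent.S11.U

open Pool.Agent.H72.UJ

/-- A finite factor-closed set. -/
structure Fc (T : Type) [Monoid T] where
  /-- the set -/
  s : Set T
  fin : s.Finite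
  one_mem : (1 : T) ∈ s
  left : ∀ a b : T, a * b ∈ s → a ∈ s
  right : ∀ a b : T, a * b ∈ s → b ∈ s

variable {T : Type} [Monoid T]

instance : LE (Fc T) := ⟨fun P Q => P.s ⊆ Q.s⟩

variable [Gr T]

/-! ## The truncated ring -/

/-- The ideal of all elements which vanish on `P`. -/
def trP (P : Fc T) : Ideal (MonoidAlgebra ℤ T) where
  carrier := {f | ∀ m, m ∈ P.s → f.coeff m = 0}
  add_mem' := by
    intro a b ha hb m hm
    rw [MonoidAlgebra.coeff_add, Finsupp.add_apply, ha m hm, hb m hm, add_zero]
  zero_mem' := by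
    intro m _
    rfl
  smul_mem' := by
    intro c x hx m hm
    rw [smul_eq_mul, MonoidAlgebra.coeff_mul_antidiag c x m (fac m) (by simp)]
    refine Finset.sum_eq_zero fun p hp => ?_
    rw [mem_fac] at hp
    have : p.2 ∈ P.s := P.right p.1 p.2 (by rw [hp]; exact hm)
    rw [hx p.2 this, mul_zero]

instance (P : Fc T) : (trP P).IsTwoSided where
  mul_mem_of_left := by
    intro a b ha m hm
    rw [MonoidAlgebra.coeff_mul_antidiag a b m (fac m) (by simp)]
    refine Finset.sum_eq_zero fun p hp => ?_
    rw [mem_fac] at hp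
    have : p.1 ∈ P.s := P.left p.1 p.2 (by rw [hp]; exact hm)
    rw [ha p.1 this, zero_mul]

/-- The truncated ring. -/
abbrev RP (P : Fc T) : Type := MonoidAlgebra ℤ T ⧸ trP P

/-- The monomials. -/
noncomputable def mon (P : Fc T) (m : T) : RP P :=
  Ideal.Quotient.mk (trP P) (MonoidAlgebra.single m 1)

theorem mon_mul (P : Fc T) (a b : T) : mon P (a * b) = mon P a * mon P b := by
  rw [mon, mon, mon, ← map_mul, MonoidAlgebra.single_mul_single, mul_one]

theorem mon_one (P : Fc T) : mon P 1 = 1 := by
  rw [mon, ← MonoidAlgebra.one_def, map_one]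

open Classical in
/-- The coefficient at `m` of an element of the monoid ring, if `m ∈ P`. -/
noncomputable def coef0 (P : Fc T) (m : T) : MonoidAlgebra ℤ T →+ ℤ where
  toFun f := if m ∈ P.s then f.coeff m else 0
  map_zero' := by simp
  map_add' := by
    intro f g
    split_ifs <;> simp

/-- The coefficients. -/
noncomputable def coef (P : Fc T) (m : T) : RP P →+ ℤ :=
  QuotientAddGroup.lift (trP P).toAddSubgroup (coef0 P m)
    (by
      classical
      intro f hf
      change (if m ∈ P.s then f.coeff m else 0) = 0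
      split_ifs with h
      · exact hf m h
      · rfl)

variable {P Q : Fc T}

theorem coef_mk {m : T} (hm : m ∈ P.s) (f : MonoidAlgebra ℤ T) :
    coef P m (Ideal.Quotient.mk (trP P) f) = f.coeff m := by
  classical
  change (if m ∈ P.s then f.coeff m else 0) = _
  rw [if_pos hm]

theorem ext_coef {x y : RP P} (h : ∀ m ∈ P.s, coef P m x = coef P m y) : x = y := by
  obtain ⟨f, rfl⟩ := Ideal.Quotient.mk_surjective x
  obtain ⟨g, rfl⟩ := Ideal.Quotient.mk_surjective y
  rw [Ideal.Quotient.eq]
  intro m hm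
  have := h m hm
  rw [coef_mk hm, coef_mk hm] at this
  rw [MonoidAlgebra.coeff_sub, Finsupp.sub_apply, this, sub_self]

theorem coef_mul {m : T} (hm : m ∈ P.s) (x y : RP P) :
    coef P m (x * y) = ∑ p ∈ fac m, coef P p.1 x * coef P p.2 y := by
  obtain ⟨f, rfl⟩ := Ideal.Quotient.mk_surjective x
  obtain ⟨g, rfl⟩ := Ideal.Quotient.mk_surjective y
  rw [← map_mul, coef_mk hm, MonoidAlgebra.coeff_mul_antidiag f g m (fac m) (by simp)]
  refine Finset.sum_congr rfl fun p hp => ?_
  rw [mem_fac] at hp
  rw [coef_mk (P.left p.1 p.2 (by rw [hp]; exact hm)),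
    coef_mk (P.right p.1 p.2 (by rw [hp]; exact hm))]

theorem coef_one_one : coef P (1 : T) (1 : RP P) = 1 := by
  rw [← map_one (Ideal.Quotient.mk (trP P)), coef_mk P.one_mem]
  exact MonoidAlgebra.coeff_one_one

theorem coef_one {m : T} (hm : m ≠ 1) (hP : m ∈ P.s) : coef P m (1 : RP P) = 0 := by
  classical
  rw [← map_one (Ideal.Quotient.mk (trP P)), coef_mk hP]
  rw [MonoidAlgebra.one_def]
  exact Finsupp.single_eq_of_ne hm

theorem coef_mon_self {m : T} (hm : m ∈ P.s) : coef P m (mon P m) = 1 := by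
  classical
  rw [mon, coef_mk hm]
  exact Finsupp.single_eq_same

theorem coef_mon_ne {m n : T} (h : m ≠ n) (hm : m ∈ P.s) : coef P m (mon P n) = 0 := by
  classical
  rw [mon, coef_mk hm]
  exact Finsupp.single_eq_of_ne h

theorem coef_one_mul (x y : RP P) : coef P (1 : T) (x * y) = coef P 1 x * coef P 1 y := by
  rw [coef_mul P.one_mem]
  have : fac (1 : T) = {(1, 1)} := by
    ext ⟨a, b⟩
    simp only [mem_fac, mem_singleton, Prod.mk.injEq]
    constructor
    · intro h
      have := len_mul a b
      rw [h, len_one] at this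
      exact ⟨(len_zero _).1 (by omega), (len_zero _).1 (by omega)⟩
    · rintro ⟨rfl, rfl⟩
      simp
  rw [this, Finset.sum_singleton]

/-- The element with given coefficients. -/
noncomputable def ofC (P : Fc T) (c : T → ℤ) : RP P :=
  Ideal.Quotient.mk (trP P) (∑ m ∈ P.fin.toFinset, MonoidAlgebra.single m (c m))

theorem coef_ofC (c : T → ℤ) {m : T} (hm : m ∈ P.s) : coef P m (ofC P c) = c m := by
  classical
  rw [ofC, coef_mk hm, MonoidAlgebra.coeff_sum, Finsupp.finset_sum_apply]
  rw [Finset.sum_eq_single m]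
  · exact Finsupp.single_eq_same
  · intro b _ hb
    exact Finsupp.single_eq_of_ne (Ne.symm hb)
  · intro h
    exact absurd (P.fin.mem_toFinset.2 hm) h

/-- The restriction. -/
noncomputable def resR (h : P ≤ Q) : RP Q →+* RP P :=
  Ideal.Quotient.factor (show trP Q ≤ trP P from fun _ hf m hm => hf m (h hm))

theorem resR_mk (h : P ≤ Q) (f : MonoidAlgebra ℤ T) :
    resR h (Ideal.Quotient.mk (trP Q) f) = Ideal.Quotient.mk (trP P) f := rfl

theorem coef_resR (h : P ≤ Q) {m : T} (hm : m ∈ P.s) (x : RP Q) :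
    coef P m (resR h x) = coef Q m x := by
  obtain ⟨f, rfl⟩ := Ideal.Quotient.mk_surjective x
  rw [resR_mk, coef_mk hm, coef_mk (h hm)]

theorem resR_mon (h : P ≤ Q) (m : T) : resR h (mon Q m) = mon P m := rfl

/-! ## One-units -/

theorem coef_pow_zero {y : RP P} (hy : coef P (1 : T) y = 0) :
    ∀ (k : ℕ) (m : T), m ∈ P.s → len m < k → coef P m (y ^ k) = 0 := by
  intro k
  induction k with
  | zero => intro m _ h; omega
  | succ k ih =>
    intro m hm hk
    rw [pow_succ, coef_mul hm]
    refine sum_eq_zero fun p hp => ?_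
    rw [mem_fac] at hp
    have hl := len_mul p.1 p.2
    rw [hp] at hl
    by_cases h2 : p.2 = 1
    · rw [h2, hy, mul_zero]
    · have := len_pos h2
      rw [ih p.1 (P.left p.1 p.2 (by rw [hp]; exact hm)) (by omega), zero_mul]

theorem exists_bound (P : Fc T) : ∃ j : ℕ, ∀ m ∈ P.s, len m ≤ j := by
  obtain ⟨j, hj⟩ := (P.fin.image (fun m => len m)).bddAbove
  exact ⟨j, fun m hm => hj ⟨m, hm, rfl⟩⟩

theorem isNilpotent_of_coef {y : RP P} (hy : coef P (1 : T) y = 0) : IsNilpotent y := by
  obtain ⟨j, hj⟩ := exists_bound P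
  exact ⟨j + 1, ext_coef fun m hm => by
    rw [coef_pow_zero hy _ m hm (Nat.lt_succ_of_le (hj m hm)), map_zero]⟩

theorem isUnit_of_coef {x : RP P} (hx : coef P (1 : T) x = 1) : IsUnit x := by
  have h : IsNilpotent (1 - x) := isNilpotent_of_coef (by rw [map_sub, coef_one_one, hx, sub_self])
  have := h.isUnit_one_sub
  rwa [sub_sub_cancel] at this

/-- The group of one-units. -/
def UnP (P : Fc T) : Subgroup (RP P)ˣ where
  carrier := {u | coef P (1 : T) (u : RP P) = 1}
  mul_mem' := by
    intro a b ha hb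
    change coef P (1 : T) ((a : RP P) * (b : RP P)) = 1
    rw [coef_one_mul, ha, hb, mul_one]
  one_mem' := coef_one_one
  inv_mem' := by
    intro a ha
    have h : coef P (1 : T) ((a : RP P) * ((a⁻¹ : (RP P)ˣ) : RP P)) = 1 := by
      rw [Units.mul_inv, coef_one_one]
    rw [coef_one_mul, ha, one_mul] at h
    exact h

/-- The value. -/
def val (g : UnP P) : RP P := ((g : (RP P)ˣ) : RP P)

theorem val_mul (g h : UnP P) : val (g * h) = val g * val h := rfl

theorem val_one : val (1 : UnP P) = 1 := rfl

theorem val_injective : Function.Injective (val : UnP P → RP P) := fun _ _ h =>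
  Subtype.ext (Units.ext h)

/-- The coordinates. -/
noncomputable def c (g : UnP P) (m : T) : ℤ := coef P m (val g)

@[simp] theorem c_at_one (g : UnP P) : c g 1 = 1 := g.2

theorem c_one {m : T} (hm : m ≠ 1) (hP : m ∈ P.s) : c (1 : UnP P) m = 0 :=
  coef_one hm hP

theorem c_mul_fac (g h : UnP P) {m : T} (hm : m ∈ P.s) :
    c (g * h) m = ∑ p ∈ fac m, c g p.1 * c h p.2 :=
  coef_mul hm _ _

theorem c_mul (g h : UnP P) {m : T} (h1 : m ≠ 1) (hm : m ∈ P.s) :
    c (g * h) m = c g m + c h m + ∑ p ∈ pfac m, c g p.1 * c h p.2 := by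
  rw [c_mul_fac g h hm, sum_fac h1]
  simp

theorem c_ext {g h : UnP P} (H : ∀ m : T, m ≠ 1 → m ∈ P.s → c g m = c h m) : g = h := by
  apply val_injective
  refine ext_coef fun m hm => ?_
  by_cases h1 : m = 1
  · subst h1
    exact (c_at_one g).trans (c_at_one h).symm
  · exact H m h1 hm

/-- The one-unit with given value. -/
noncomputable def mk (x : RP P) (hx : coef P (1 : T) x = 1) : UnP P :=
  ⟨(isUnit_of_coef hx).unit, hx⟩

@[simp] theorem val_mk (x : RP P) (hx : coef P (1 : T) x = 1) : val (mk x hx) = x := rfl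

open Classical in
/-- The one-unit with given coordinates. -/
noncomputable def ofCoord (P : Fc T) (a : T → ℤ) : UnP P :=
  mk (ofC P fun m => if m = 1 then 1 else a m) (by
    rw [coef_ofC _ P.one_mem, if_pos rfl])

theorem c_ofCoord (a : T → ℤ) {m : T} (h1 : m ≠ 1) (hm : m ∈ P.s) :
    c (ofCoord P a) m = a m := by
  classical
  have := coef_ofC (P := P) (fun m : T => if m = 1 then 1 else a m) hm
  rw [if_neg h1] at this
  exact this

/-- The unit `1 + m`, `m ≠ 1`. -/
noncomputable def onePlus (P : Fc T) (m : T) (hm : m ≠ 1) : UnP P :=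
  mk (1 + mon P m) (by
    rw [map_add, coef_one_one, coef_mon_ne (Ne.symm hm) P.one_mem, add_zero])

@[simp] theorem val_onePlus (m : T) (hm : m ≠ 1) : val (onePlus P m hm) = 1 + mon P m := rfl

/-- The restriction of one-units. -/
noncomputable def res (h : P ≤ Q) : UnP Q →* UnP P where
  toFun g := mk (resR h (val g)) (by
    rw [coef_resR h P.one_mem]
    exact g.2)
  map_one' := val_injective (by rw [val_mk, val_one, map_one, val_one])
  map_mul' := fun a b => val_injective (by
    rw [val_mk, val_mul, map_mul, val_mul, val_mk, val_mk])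

theorem val_res (h : P ≤ Q) (g : UnP Q) : val (res h g) = resR h (val g) := rfl

theorem c_res (h : P ≤ Q) (g : UnP Q) {m : T} (hm : m ∈ P.s) : c (res h g) m = c g m :=
  coef_resR h hm _

theorem res_onePlus (h : P ≤ Q) (m : T) (hm : m ≠ 1) : res h (onePlus Q m hm) = onePlus P m hm :=
  val_injective (by rw [val_res, val_onePlus, val_onePlus, map_add, map_one, resR_mon])

end Pool.Agent.S11.U
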